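import Pool.Agent.Lib.MP_a05470_co.PDCore

/-!
# The structure of level 1

`F` is a set of vertices, green between each other up to a matching of single-coloured pairs,
maximal for the potential (number of singles + number of red pairs + 2 * number of blue pairs,
few blue pairs, many red pairs).  For `b ≤ 2 a` every vertex costs at least `2 a` on `F`, and at
least `a + b` unless it has exactly two hits on `F`, both blue-only and not in red pairs.
-/

set_option autoImplicit false
set_option linter.unusedSectionVars false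

namespace Pool.Agent.Lib.MP_a05470_co

open Finset Classical

namespace L1

variable {W : Type} [Fintype W] (Gr Gb : SimpleGraph W)

/-- a green pair -/
def Gn (u v : W) : Prop := Gr.Adj u v ∧ Gb.Adj u v

/-- green between each other up to a matching of single-coloured pairs -/
structure Good (F : Finset W) : Prop where
  col : ∀ x ∈ F, ∀ y ∈ F, x ≠ y → Gr.Adj x y ∨ Gb.Adj x y
  uniq : ∀ x ∈ F, ∀ y ∈ F, ∀ z ∈ F, x ≠ y → x ≠ z → ¬ Gn Gr Gb x y → ¬ Gn Gr Gb x z → y = z

/-- the vertices in red pairs -/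
noncomputable def RR (F : Finset W) : Finset W :=
  F.filter (fun x => ∃ y ∈ F, y ≠ x ∧ ¬ Gb.Adj x y)

/-- the vertices in blue pairs -/
noncomputable def BB (F : Finset W) : Finset W :=
  F.filter (fun x => ∃ y ∈ F, y ≠ x ∧ ¬ Gr.Adj x y)

/-- twice the number of singles + red pairs + 2 * blue pairs -/
noncomputable def P1 (F : Finset W) : ℤ := 2 * F.card - (RR Gb F).card

variable {Gr Gb}

theorem Gn.symm {u v : W} (h : Gn Gr Gb u v) : Gn Gr Gb v u := ⟨h.1.symm, h.2.symm⟩

theorem Gn.ne {u v : W} (h : Gn Gr Gb u v) : u ≠ v := h.1.ne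

theorem gn_comm {u v : W} : Gn Gr Gb u v ↔ Gn Gr Gb v u := ⟨Gn.symm, Gn.symm⟩

theorem not_gn_self (v : W) : ¬ Gn Gr Gb v v := fun h => h.ne rfl

variable (Gr Gb)

/-- a family which is maximal for the potential -/
structure Best (F : Finset W) : Prop where
  good : Good Gr Gb F
  max : ∀ F', Good Gr Gb F' → P1 Gb F' ≤ P1 Gb F ∧ (P1 Gb F' = P1 Gb F →
    (BB Gr F).card ≤ (BB Gr F').card ∧ ((BB Gr F').card = (BB Gr F).card →
      (RR Gb F').card ≤ (RR Gb F).card))

theorem exists_best : ∃ F, Best Gr Gb F := by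
  have hne : ((univ : Finset (Finset W)).filter (fun F => Good Gr Gb F)).Nonempty := by
    refine ⟨∅, mem_filter.2 ⟨mem_univ _, ?_, ?_⟩⟩ <;> simp
  obtain ⟨F, hF, hmax⟩ := exists_max_image _ (fun F : Finset W =>
    toLex (P1 Gb F, toLex (-((BB Gr F).card : ℤ), ((RR Gb F).card : ℤ)))) hne
  rw [mem_filter] at hF
  refine ⟨F, hF.2, fun F' hF' => ?_⟩
  have h1 := hmax F' (mem_filter.2 ⟨mem_univ _, hF'⟩)
  rw [Prod.Lex.toLex_le_toLex] at h1
  rcases h1 with h1 | ⟨h1, h2⟩
  · exact ⟨h1.le, fun h => absurd h h1.ne⟩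
  · refine ⟨h1.le, fun _ => ?_⟩
    simp only at h2
    rw [Prod.Lex.toLex_le_toLex] at h2
    rcases h2 with h2 | ⟨h2, h3⟩
    · simp only at h2
      exact ⟨by omega, fun h => by omega⟩
    · simp only at h2 h3
      exact ⟨by omega, fun _ => by omega⟩

variable {Gr Gb}

/-- inserting a vertex -/
theorem Good.insert {F : Finset W} (hF : Good Gr Gb F) {v : W} {Y : Finset W}
    (hv1 : ∀ y ∈ F \ Y, Gr.Adj v y ∨ Gb.Adj v y)
    (hv2 : ∀ y ∈ F \ Y, ¬ Gn Gr Gb v y → ∀ z ∈ F \ Y, z ≠ y → Gn Gr Gb v z ∧ Gn Gr Gb y z) :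
    Good Gr Gb (insert v (F \ Y)) := by
  have hFY : ∀ x ∈ F \ Y, x ∈ F := fun x hx => (mem_sdiff.1 hx).1
  constructor
  · intro x hx y hy hxy
    rcases mem_insert.1 hx with h1 | h1 <;> rcases mem_insert.1 hy with h2 | h2
    · exact absurd (h1.trans h2.symm) hxy
    · rw [h1]
      exact hv1 y h2
    · rw [h2]
      rcases hv1 x h1 with h | h
      · exact Or.inl h.symm
      · exact Or.inr h.symm
    · exact hF.col x (hFY x h1) y (hFY y h2) hxy
  · intro x hx y hy z hz hxy hxz h1 h2
    rcases mem_insert.1 hx with hx1 | hx1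
    · rw [hx1] at hxy hxz h1 h2
      have hy' : y ∈ F \ Y := (mem_insert.1 hy).resolve_left (Ne.symm hxy)
      have hz' : z ∈ F \ Y := (mem_insert.1 hz).resolve_left (Ne.symm hxz)
      by_contra hne
      exact h2 (hv2 y hy' h1 z hz' (Ne.symm hne)).1
    · rcases mem_insert.1 hy with hy1 | hy1 <;> rcases mem_insert.1 hz with hz1 | hz1
      · rw [hy1, hz1]
      · -- `x` is not green to `v`
        exfalso
        rw [hy1] at h1
        exact h2 (hv2 x hx1 (fun h => h1 h.symm) z hz1 (Ne.symm hxz)).2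
      · exfalso
        rw [hz1] at h2
        exact h1 (hv2 x hx1 (fun h => h2 h.symm) y hy1 (Ne.symm hxy)).2
      · exact hF.uniq x (hFY x hx1) y (hFY y hy1) z (hFY z hz1) hxy hxz h1 h2

theorem RR_insert {F : Finset W} (hF : Good Gr Gb F) {v : W} {Y Z : Finset W}
    (hv : ∀ y ∈ F \ Y, Gb.Adj v y)
    (hZ : ∀ z ∈ Z, z ∈ Y ∨ ∃ y ∈ Y, y ∈ F ∧ y ≠ z ∧ ¬ Gn Gr Gb z y) :
    RR Gb (insert v (F \ Y)) ⊆ RR Gb F \ Z := by
  intro x hx
  unfold RR at hx
  rw [mem_filter] at hx
  obtain ⟨hx1, y, hy1, hyx, hxy⟩ := hx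
  rcases mem_insert.1 hx1 with h1 | h1
  · exfalso
    rw [h1] at hxy hyx
    exact hxy (hv y ((mem_insert.1 hy1).resolve_left hyx))
  · rcases mem_insert.1 hy1 with h2 | h2
    · exfalso
      rw [h2] at hxy
      exact hxy (hv x h1).symm
    · rw [mem_sdiff] at h1 h2
      rw [mem_sdiff]
      refine ⟨mem_filter.2 ⟨h1.1, y, h2.1, hyx, hxy⟩, fun hxZ => ?_⟩
      rcases hZ x hxZ with h3 | ⟨y1, h3, h4, h5, h6⟩
      · exact h1.2 h3
      · have := hF.uniq x h1.1 y h2.1 y1 h4 (Ne.symm hyx) (Ne.symm h5) (fun h => hxy h.2) h6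
        rw [this] at h2
        exact h2.2 h3

theorem BB_insert {F : Finset W} (hF : Good Gr Gb F) {v : W} {Y Z : Finset W}
    (hv : ∀ y ∈ F \ Y, Gr.Adj v y)
    (hZ : ∀ z ∈ Z, z ∈ Y ∨ ∃ y ∈ Y, y ∈ F ∧ y ≠ z ∧ ¬ Gn Gr Gb z y) :
    BB Gr (insert v (F \ Y)) ⊆ BB Gr F \ Z := by
  intro x hx
  unfold BB at hx
  rw [mem_filter] at hx
  obtain ⟨hx1, y, hy1, hyx, hxy⟩ := hx
  rcases mem_insert.1 hx1 with h1 | h1
  · exfalso
    rw [h1] at hxy hyx
    exact hxy (hv y ((mem_insert.1 hy1).resolve_left hyx))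
  · rcases mem_insert.1 hy1 with h2 | h2
    · exfalso
      rw [h2] at hxy
      exact hxy (hv x h1).symm
    · rw [mem_sdiff] at h1 h2
      rw [mem_sdiff]
      refine ⟨mem_filter.2 ⟨h1.1, y, h2.1, hyx, hxy⟩, fun hxZ => ?_⟩
      rcases hZ x hxZ with h3 | ⟨y1, h3, h4, h5, h6⟩
      · exact h1.2 h3
      · have := hF.uniq x h1.1 y h2.1 y1 h4 (Ne.symm hyx) (Ne.symm h5) (fun h => hxy h.1) h6
        rw [this] at h2
        exact h2.2 h3

theorem RR_sub (F : Finset W) : RR Gb F ⊆ F := filter_subset _ _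

theorem BB_sub (F : Finset W) : BB Gr F ⊆ F := filter_subset _ _

theorem card_insert_sdiff {F Y : Finset W} {v : W} (hv : v ∉ F) (hY : Y ⊆ F) :
    (insert v (F \ Y)).card + Y.card = F.card + 1 := by
  rw [card_insert_of_notMem (fun h => hv (mem_sdiff.1 h).1)]
  have := card_sdiff_add_card_inter F Y
  rw [inter_eq_right.2 hY] at this
  omega

/-- the mate of a vertex in a red pair -/
theorem exists_mate_RR {F : Finset W} (hF : Good Gr Gb F) {x : W} (hx : x ∈ RR Gb F) :
    ∃ y ∈ RR Gb F, y ≠ x ∧ ¬ Gb.Adj x y ∧ Gr.Adj x y ∧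
      ∀ z ∈ F, z ≠ x → z ≠ y → Gn Gr Gb x z := by
  unfold RR at hx
  rw [mem_filter] at hx
  obtain ⟨hx1, y, hy, hyx, hxy⟩ := hx
  refine ⟨y, mem_filter.2 ⟨hy, x, hx1, Ne.symm hyx, fun h => hxy h.symm⟩, hyx, hxy,
    (hF.col x hx1 y hy (Ne.symm hyx)).resolve_right hxy, ?_⟩
  intro z hz hzx hzy
  by_contra hcon
  exact hzy (hF.uniq x hx1 y hy z hz (Ne.symm hyx) (Ne.symm hzx) (fun h => hxy h.2) hcon).symm

theorem exists_mate_BB {F : Finset W} (hF : Good Gr Gb F) {x : W} (hx : x ∈ BB Gr F) :
    ∃ y ∈ BB Gr F, y ≠ x ∧ ¬ Gr.Adj x y ∧ Gb.Adj x y ∧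
      ∀ z ∈ F, z ≠ x → z ≠ y → Gn Gr Gb x z := by
  unfold BB at hx
  rw [mem_filter] at hx
  obtain ⟨hx1, y, hy, hyx, hxy⟩ := hx
  refine ⟨y, mem_filter.2 ⟨hy, x, hx1, Ne.symm hyx, fun h => hxy h.symm⟩, hyx, hxy,
    (hF.col x hx1 y hy (Ne.symm hyx)).resolve_left hxy, ?_⟩
  intro z hz hzx hzy
  by_contra hcon
  exact hzy (hF.uniq x hx1 y hy z hz (Ne.symm hyx) (Ne.symm hzx) (fun h => hxy h.1) hcon).symm

theorem green_of_single {F : Finset W} {x : W} (hx : x ∈ F) (hR : x ∉ RR Gb F)
    (hB : x ∉ BB Gr F) : ∀ z ∈ F, z ≠ x → Gn Gr Gb x z := by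
  intro z hz hzx
  by_contra hcon
  unfold Gn at hcon
  rw [not_and_or] at hcon
  rcases hcon with h | h
  · exact hB (mem_filter.2 ⟨hx, z, hz, hzx, h⟩)
  · exact hR (mem_filter.2 ⟨hx, z, hz, hzx, h⟩)

theorem disj_RR_BB {F : Finset W} (hF : Good Gr Gb F) : Disjoint (RR Gb F) (BB Gr F) := by
  rw [Finset.disjoint_left]
  intro x hx hx'
  obtain ⟨y, hy, hyx, h1, h2, h3⟩ := exists_mate_RR hF hx
  obtain ⟨z, hz, hzx, h4, h5, _⟩ := exists_mate_BB hF hx'
  by_cases hzy : z = y
  · subst hzy
    exact h1 h5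
  · exact h4 (h3 z (BB_sub F hz) hzx hzy).1

/-! ### costs -/

/-- the cost of `v` on `S` -/
noncomputable def D (a b : ℝ) (Gr Gb : SimpleGraph W) (v : W) (S : Finset W) : ℝ :=
  ∑ y ∈ S, Mat a b Gr Gb v y

section costs

variable {a b : ℝ}

theorem mat_nonneg (ha : 0 ≤ a) (hab : a ≤ b) (v y : W) : 0 ≤ Mat a b Gr Gb v y := by
  unfold Mat
  split_ifs <;> linarith

theorem mat_ge_a (ha : 0 ≤ a) (hab : a ≤ b) {v y : W} (h : ¬ Gn Gr Gb v y) :
    a ≤ Mat a b Gr Gb v y := by
  unfold Mat
  unfold Gn at h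
  rw [not_and_or] at h
  rcases h with h | h
  · rw [if_neg h]
    split_ifs <;> linarith
  · rw [if_neg h]
    split_ifs <;> linarith

theorem mat_ge_b (ha : 0 ≤ a) {v y : W} (h : ¬ Gb.Adj v y) : b ≤ Mat a b Gr Gb v y := by
  unfold Mat
  rw [if_neg h]
  split_ifs <;> linarith

theorem mat_none {v y : W} (h : ¬ Gb.Adj v y) (h' : ¬ Gr.Adj v y) :
    a + b ≤ Mat a b Gr Gb v y := by
  unfold Mat
  rw [if_neg h, if_neg h']

/-- the hits of `v` on `S` -/
noncomputable def hit (Gr Gb : SimpleGraph W) (v : W) (S : Finset W) : Finset W :=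
  S.filter (fun y => ¬ Gn Gr Gb v y)

theorem mem_hit {v y : W} {S : Finset W} : y ∈ hit Gr Gb v S ↔ y ∈ S ∧ ¬ Gn Gr Gb v y := by
  unfold hit
  rw [mem_filter]

theorem D_ge_card (ha : 0 ≤ a) (hab : a ≤ b) (v : W) (S : Finset W) :
    a * (hit Gr Gb v S).card ≤ D a b Gr Gb v S := by
  unfold D hit
  rw [card_filter]
  push_cast
  rw [mul_sum]
  apply sum_le_sum
  intro y _
  by_cases h : Gn Gr Gb v y
  · rw [if_neg (by simpa using h), mul_zero]
    exact mat_nonneg ha hab v y
  · rw [if_pos h, mul_one]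
    exact mat_ge_a ha hab h

theorem D_ge_one (ha : 0 ≤ a) (hab : a ≤ b) {v y0 : W} {S : Finset W} (hy0 : y0 ∈ S) {c : ℝ}
    (hn : ¬ Gn Gr Gb v y0) (hc : a + c ≤ Mat a b Gr Gb v y0) :
    a * (hit Gr Gb v S).card + c ≤ D a b Gr Gb v S := by
  have h1 : D a b Gr Gb v S = D a b Gr Gb v (S.erase y0) + Mat a b Gr Gb v y0 := by
    unfold D
    rw [sum_erase_add _ _ hy0]
  have h2 : (hit Gr Gb v S).card = (hit Gr Gb v (S.erase y0)).card + 1 := by
    have h3 : hit Gr Gb v (S.erase y0) = (hit Gr Gb v S).erase y0 := by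
      ext y
      simp only [mem_hit, mem_erase]
      tauto
    rw [h3, card_erase_of_mem (mem_hit.2 ⟨hy0, hn⟩)]
    have : 0 < (hit Gr Gb v S).card := card_pos.2 ⟨y0, mem_hit.2 ⟨hy0, hn⟩⟩
    omega
  rw [h1, h2]
  push_cast
  have h3 := D_ge_card (Gr := Gr) (Gb := Gb) ha hab v (S.erase y0)
  linarith

theorem D_nonneg (ha : 0 ≤ a) (hab : a ≤ b) (v : W) (S : Finset W) :
    0 ≤ D a b Gr Gb v S := sum_nonneg (fun y _ => mat_nonneg ha hab v y)

theorem D_mono (ha : 0 ≤ a) (hab : a ≤ b) (v : W) {S T : Finset W} (h : S ⊆ T) :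
    D a b Gr Gb v S ≤ D a b Gr Gb v T :=
  sum_le_sum_of_subset_of_nonneg h (fun y _ _ => mat_nonneg ha hab v y)

theorem D_self (ha : 0 ≤ a) (hab : a ≤ b) {v : W} {S : Finset W} (hv : v ∈ S) :
    a + b ≤ D a b Gr Gb v S := by
  have h1 : ({v} : Finset W) ⊆ S := singleton_subset_iff.2 hv
  refine le_trans ?_ (D_mono ha hab v h1)
  unfold D
  rw [sum_singleton, Mat_self]

end costs

/-! ### the certificates for `F` -/

section cert

variable {F : Finset W} (hB : Best Gr Gb F) {v : W} (hv : v ∉ F)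

include hB hv

theorem Best.no_zero : (hit Gr Gb v F).Nonempty := by
  by_contra hcon
  rw [not_nonempty_iff_eq_empty] at hcon
  have hg : ∀ y ∈ F, Gn Gr Gb v y := by
    intro y hy
    by_contra h
    have : y ∈ hit Gr Gb v F := mem_hit.2 ⟨hy, h⟩
    rw [hcon] at this
    exact absurd this (notMem_empty y)
  have h1 : Good Gr Gb (insert v (F \ ∅)) := by
    apply hB.good.insert
    · intro y hy
      rw [sdiff_empty] at hy
      exact Or.inl (hg y hy).1
    · intro y hy h
      rw [sdiff_empty] at hy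
      exact absurd (hg y hy) h
  have h2 : RR Gb (insert v (F \ ∅)) ⊆ RR Gb F \ ∅ := by
    apply RR_insert hB.good (Gr := Gr)
    · intro y hy
      rw [sdiff_empty] at hy
      exact (hg y hy).2
    · simp
  have h3 := (hB.max _ h1).1
  have h4 := card_le_card (h2.trans sdiff_subset)
  have h5 := card_insert_sdiff hv (empty_subset F)
  unfold P1 at h3
  simp only [card_empty, add_zero] at h5
  omega

/-- a single hit is impossible, unless it is 'none' -/
theorem Best.no_one {y : W} (hy : y ∈ F) (hvy : Gr.Adj v y ∨ Gb.Adj v y)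
    (h1 : ¬ Gn Gr Gb v y) (hg : ∀ z ∈ F, z ≠ y → Gn Gr Gb v z) : False := by
  by_cases hR : y ∈ RR Gb F
  · -- cut the red pair
    obtain ⟨z, hz, hzy, hyz, _, _⟩ := exists_mate_RR hB.good hR
    have h2 : Good Gr Gb (insert v (F \ {y})) := by
      apply hB.good.insert
      · intro x hx
        rw [mem_sdiff, mem_singleton] at hx
        exact Or.inl (hg x hx.1 hx.2).1
      · intro x hx h
        rw [mem_sdiff, mem_singleton] at hx
        exact absurd (hg x hx.1 hx.2) h
    have h3 : RR Gb (insert v (F \ {y})) ⊆ RR Gb F \ {y, z} := by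
      apply RR_insert hB.good (Gr := Gr)
      · intro x hx
        rw [mem_sdiff, mem_singleton] at hx
        exact (hg x hx.1 hx.2).2
      · intro x hx
        rw [mem_insert, mem_singleton] at hx
        rcases hx with rfl | rfl
        · exact Or.inl (mem_singleton_self _)
        · exact Or.inr ⟨y, mem_singleton_self y, hy, Ne.symm hzy, fun h => hyz h.2.symm⟩
    have h4 := (hB.max _ h2).1
    have h5 := card_le_card h3
    have h6 : ({y, z} : Finset W) ⊆ RR Gb F := by
      intro x hx
      rw [mem_insert, mem_singleton] at hx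
      rcases hx with rfl | rfl
      exacts [hR, hz]
    rw [card_sdiff_of_subset h6, card_pair (Ne.symm hzy)] at h5
    have h7 := card_le_card h6
    rw [card_pair (Ne.symm hzy)] at h7
    have h8 := card_insert_sdiff hv (singleton_subset_iff.2 hy)
    rw [card_singleton] at h8
    unfold P1 at h4
    omega
  · by_cases hBy : y ∈ BB Gr F
    · obtain ⟨z, hz, hzy, hyz, _, _⟩ := exists_mate_BB hB.good hBy
      have h2 : Good Gr Gb (insert v (F \ {y})) := by
        apply hB.good.insert
        · intro x hx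
          rw [mem_sdiff, mem_singleton] at hx
          exact Or.inl (hg x hx.1 hx.2).1
        · intro x hx h
          rw [mem_sdiff, mem_singleton] at hx
          exact absurd (hg x hx.1 hx.2) h
      have h3 : RR Gb (insert v (F \ {y})) ⊆ RR Gb F \ ∅ := by
        apply RR_insert hB.good (Gr := Gr)
        · intro x hx
          rw [mem_sdiff, mem_singleton] at hx
          exact (hg x hx.1 hx.2).2
        · simp
      have h3' : BB Gr (insert v (F \ {y})) ⊆ BB Gr F \ {y, z} := by
        apply BB_insert hB.good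
        · intro x hx
          rw [mem_sdiff, mem_singleton] at hx
          exact (hg x hx.1 hx.2).1
        · intro x hx
          rw [mem_insert, mem_singleton] at hx
          rcases hx with rfl | rfl
          · exact Or.inl (mem_singleton_self _)
          · exact Or.inr ⟨y, mem_singleton_self y, hy, Ne.symm hzy, fun h => hyz h.1.symm⟩
      have h4 := hB.max _ h2
      have h5 := card_le_card (h3.trans sdiff_subset)
      have h5' := card_le_card h3'
      have h6 : ({y, z} : Finset W) ⊆ BB Gr F := by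
        intro x hx
        rw [mem_insert, mem_singleton] at hx
        rcases hx with rfl | rfl
        exacts [hBy, hz]
      rw [card_sdiff_of_subset h6, card_pair (Ne.symm hzy)] at h5'
      have h7 := card_le_card h6
      rw [card_pair (Ne.symm hzy)] at h7
      have h8 := card_insert_sdiff hv (singleton_subset_iff.2 hy)
      rw [card_singleton] at h8
      unfold P1 at h4
      have h9 := h4.1
      have h10 := (h4.2 (by omega)).1
      omega
    · -- a new pair
      have hgy := green_of_single hy hR hBy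
      have h2 : Good Gr Gb (insert v (F \ ∅)) := by
        apply hB.good.insert
        · intro x hx
          rw [sdiff_empty] at hx
          by_cases hxy : x = y
          · rw [hxy]
            exact hvy
          · exact Or.inl (hg x hx hxy).1
        · intro x hx h z hz hzx
          rw [sdiff_empty] at hx hz
          by_cases hxy : x = y
          · rw [hxy] at hzx ⊢
            exact ⟨hg z hz hzx, hgy z hz hzx⟩
          · exact absurd (hg x hx hxy) h
      have h8 := card_insert_sdiff hv (empty_subset F)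
      rw [card_empty, add_zero] at h8
      by_cases hb : Gb.Adj v y
      · have h3 : RR Gb (insert v (F \ ∅)) ⊆ RR Gb F \ ∅ := by
          apply RR_insert hB.good (Gr := Gr)
          · intro x hx
            rw [sdiff_empty] at hx
            by_cases hxy : x = y
            · rw [hxy]
              exact hb
            · exact (hg x hx hxy).2
          · simp
        have h4 := (hB.max _ h2).1
        have h5 := card_le_card (h3.trans sdiff_subset)
        unfold P1 at h4
        omega
      · have hr : Gr.Adj v y := hvy.resolve_right hb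
        have h3 : BB Gr (insert v (F \ ∅)) ⊆ BB Gr F \ ∅ := by
          apply BB_insert hB.good
          · intro x hx
            rw [sdiff_empty] at hx
            by_cases hxy : x = y
            · rw [hxy]
              exact hr
            · exact (hg x hx hxy).1
          · simp
        have h3' : RR Gb (insert v (F \ ∅)) ⊆ insert v (insert y (RR Gb F)) := by
          intro x hx
          unfold RR at hx
          rw [mem_filter, sdiff_empty] at hx
          obtain ⟨hx1, z, hz, hzx, hxz⟩ := hx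
          rw [mem_insert, mem_insert]
          by_cases hxv : x = v
          · exact Or.inl hxv
          by_cases hxy : x = y
          · exact Or.inr (Or.inl hxy)
          right
          right
          have hxF : x ∈ F := (mem_insert.1 hx1).resolve_left hxv
          rcases mem_insert.1 hz with hzv | hzF
          · exfalso
            rw [hzv] at hxz
            exact hxz (hg x hxF hxy).2.symm
          · exact mem_filter.2 ⟨hxF, z, hzF, hzx, hxz⟩
        have h4 := hB.max _ h2
        have h5 := card_le_card (h3.trans sdiff_subset)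
        have h5' := (card_le_card h3').trans ((card_insert_le _ _).trans
          (Nat.add_le_add_right (card_insert_le _ _) 1))
        unfold P1 at h4
        have h9 := h4.1
        have h10 := h4.2 (by omega)
        have h11 := h10.1
        have h12 := h10.2 (by omega)
        omega

/-- two hits, both blue-only: not in a red pair -/
theorem Best.two_hits {y y' : W} (hy : y ∈ F) (hy' : y' ∈ F) (hne : y ≠ y') (hb : Gb.Adj v y)
    (hb' : Gb.Adj v y') (hn : ¬ Gn Gr Gb v y') (hg : ∀ z ∈ F, z ≠ y → z ≠ y' → Gn Gr Gb v z) :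
    y ∉ RR Gb F := by
  intro hR
  obtain ⟨m, hm, hmy, hym, _, hgm⟩ := exists_mate_RR hB.good hR
  have h6 : ({y, m} : Finset W) ⊆ RR Gb F := by
    intro x hx
    rw [mem_insert, mem_singleton] at hx
    rcases hx with rfl | rfl
    exacts [hR, hm]
  have h7 := card_le_card h6
  have h6c : (RR Gb F \ {y, m}).card = (RR Gb F).card - 2 := by
    rw [card_sdiff_of_subset h6, card_pair (Ne.symm hmy)]
  rw [card_pair (Ne.symm hmy)] at h7
  by_cases hmy' : m = y'
  · -- both in the same pair
    have h2 : Good Gr Gb (insert v (F \ {y'})) := by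
      apply hB.good.insert
      · intro x hx
        rw [mem_sdiff, mem_singleton] at hx
        by_cases hxy : x = y
        · rw [hxy]
          exact Or.inr hb
        · exact Or.inl (hg x hx.1 hxy hx.2).1
      · intro x hx h z hz hzx
        rw [mem_sdiff, mem_singleton] at hx hz
        by_cases hxy : x = y
        · rw [hxy] at hzx ⊢
          exact ⟨hg z hz.1 hzx hz.2, hgm z hz.1 hzx (by rw [hmy']; exact hz.2)⟩
        · exact absurd (hg x hx.1 hxy hx.2) h
    have h3 : RR Gb (insert v (F \ {y'})) ⊆ RR Gb F \ {y, m} := by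
      apply RR_insert hB.good (Gr := Gr)
      · intro x hx
        rw [mem_sdiff, mem_singleton] at hx
        by_cases hxy : x = y
        · rw [hxy]
          exact hb
        · exact (hg x hx.1 hxy hx.2).2
      · intro x hx
        rw [mem_insert, mem_singleton] at hx
        rcases hx with rfl | rfl
        · exact Or.inr ⟨y', mem_singleton_self _, hy', Ne.symm hne,
            fun h => hym (by rw [hmy']; exact h.2)⟩
        · exact Or.inl (mem_singleton.2 hmy')
    have h4 := (hB.max _ h2).1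
    have h5 := card_le_card h3
    have h8 := card_insert_sdiff hv (singleton_subset_iff.2 hy')
    rw [card_singleton] at h8
    unfold P1 at h4
    omega
  have h9 : ({y, y'} : Finset W) ⊆ F := by
    intro x hx
    rw [mem_insert, mem_singleton] at hx
    rcases hx with rfl | rfl
    exacts [hy, hy']
  have h8 := card_insert_sdiff hv h9
  rw [card_pair hne] at h8
  have hgY : ∀ x ∈ F \ {y, y'}, Gn Gr Gb v x := by
    intro x hx
    rw [mem_sdiff, mem_insert, mem_singleton, not_or] at hx
    exact hg x hx.1 hx.2.1 hx.2.2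
  have h2 : Good Gr Gb (insert v (F \ {y, y'})) := by
    apply hB.good.insert
    · exact fun x hx => Or.inl (hgY x hx).1
    · exact fun x hx h => absurd (hgY x hx) h
  have h4 := hB.max _ h2
  by_cases hR' : y' ∈ RR Gb F
  · obtain ⟨m', hm', hmy1, hym1, _, _⟩ := exists_mate_RR hB.good hR'
    have hm'y : m' ≠ y := by
      intro h
      rw [h] at hym1
      exact hmy' (hB.good.uniq y hy m (RR_sub F hm) y' hy' (Ne.symm hmy) hne
        (fun h => hym h.2) (fun h => hym1 h.2.symm))
    have hmm : m ≠ m' := by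
      intro h
      rw [← h] at hym1
      exact hne (hB.good.uniq m (RR_sub F hm) y hy y' hy' hmy hmy'
        (fun h => hym h.2.symm) (fun h => hym1 h.2.symm))
    have h3 : RR Gb (insert v (F \ {y, y'})) ⊆ RR Gb F \ ({y, m} ∪ {y', m'}) := by
      apply RR_insert hB.good (Gr := Gr)
      · exact fun x hx => (hgY x hx).2
      · intro x hx
        rw [mem_union, mem_insert, mem_singleton, mem_insert, mem_singleton] at hx
        rcases hx with (rfl | rfl) | (rfl | rfl)
        · exact Or.inl (mem_insert_self _ _)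
        · exact Or.inr ⟨y, mem_insert_self _ _, hy, Ne.symm hmy, fun h => hym h.2.symm⟩
        · exact Or.inl (mem_insert_of_mem (mem_singleton_self _))
        · exact Or.inr ⟨y', mem_insert_of_mem (mem_singleton_self _), hy', Ne.symm hmy1,
            fun h => hym1 h.2.symm⟩
    have h10 : ({y, m} ∪ {y', m'} : Finset W) ⊆ RR Gb F := by
      apply union_subset h6
      intro x hx
      rw [mem_insert, mem_singleton] at hx
      rcases hx with rfl | rfl
      exacts [hR', hm']
    have h11 : ({y, m} ∪ {y', m'} : Finset W).card = 4 := by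
      rw [card_union_of_disjoint, card_pair (Ne.symm hmy), card_pair (Ne.symm hmy1)]
      rw [Finset.disjoint_left]
      intro x hx hx'
      rw [mem_insert, mem_singleton] at hx hx'
      rcases hx with rfl | rfl <;> rcases hx' with h | h
      exacts [hne h, hm'y h.symm, hmy' h, hmm h]
    have h12 := card_le_card h10
    have h5 := card_le_card h3
    rw [card_sdiff_of_subset h10, h11] at h5
    rw [h11] at h12
    have h13 := h4.1
    unfold P1 at h13
    omega
  have h3 : RR Gb (insert v (F \ {y, y'})) ⊆ RR Gb F \ {y, m} := by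
    apply RR_insert hB.good (Gr := Gr)
    · exact fun x hx => (hgY x hx).2
    · intro x hx
      rw [mem_insert, mem_singleton] at hx
      rcases hx with rfl | rfl
      · exact Or.inl (mem_insert_self _ _)
      · exact Or.inr ⟨y, mem_insert_self _ _, hy, Ne.symm hmy, fun h => hym h.2.symm⟩
  by_cases hBy : y' ∈ BB Gr F
  · obtain ⟨m', hm', hmy1, hym1, _, _⟩ := exists_mate_BB hB.good hBy
    have h3' : BB Gr (insert v (F \ {y, y'})) ⊆ BB Gr F \ {y', m'} := by
      apply BB_insert hB.good
      · exact fun x hx => (hgY x hx).1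
      · intro x hx
        rw [mem_insert, mem_singleton] at hx
        rcases hx with rfl | rfl
        · exact Or.inl (mem_insert_of_mem (mem_singleton_self _))
        · exact Or.inr ⟨y', mem_insert_of_mem (mem_singleton_self _), hy', Ne.symm hmy1,
            fun h => hym1 h.1.symm⟩
    have h10 : ({y', m'} : Finset W) ⊆ BB Gr F := by
      intro x hx
      rw [mem_insert, mem_singleton] at hx
      rcases hx with rfl | rfl
      exacts [hBy, hm']
    have h12 := card_le_card h10
    have h5 := card_le_card h3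
    have h5' := card_le_card h3'
    rw [card_sdiff_of_subset h10, card_pair (Ne.symm hmy1)] at h5'
    rw [card_pair (Ne.symm hmy1)] at h12
    unfold P1 at h4
    have h14 := h4.1
    have h15 := (h4.2 (by omega)).1
    omega
  · -- a new blue pair
    have hgy := green_of_single hy' hR' hBy
    have h2 : Good Gr Gb (insert v (F \ {y})) := by
      apply hB.good.insert
      · intro x hx
        rw [mem_sdiff, mem_singleton] at hx
        by_cases hxy : x = y'
        · rw [hxy]
          exact Or.inr hb'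
        · exact Or.inl (hg x hx.1 hx.2 hxy).1
      · intro x hx h z hz hzx
        rw [mem_sdiff, mem_singleton] at hx hz
        by_cases hxy : x = y'
        · rw [hxy] at hzx ⊢
          exact ⟨hg z hz.1 hz.2 hzx, hgy z hz.1 hzx⟩
        · exact absurd (hg x hx.1 hx.2 hxy) h
    have h3 : RR Gb (insert v (F \ {y})) ⊆ RR Gb F \ {y, m} := by
      apply RR_insert hB.good (Gr := Gr)
      · intro x hx
        rw [mem_sdiff, mem_singleton] at hx
        by_cases hxy : x = y'
        · rw [hxy]
          exact hb'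
        · exact (hg x hx.1 hx.2 hxy).2
      · intro x hx
        rw [mem_insert, mem_singleton] at hx
        rcases hx with rfl | rfl
        · exact Or.inl (mem_singleton_self _)
        · exact Or.inr ⟨y, mem_singleton_self _, hy, Ne.symm hmy, fun h => hym h.2.symm⟩
    have h4 := (hB.max _ h2).1
    have h5 := card_le_card h3
    have h8 := card_insert_sdiff hv (singleton_subset_iff.2 hy)
    rw [card_singleton] at h8
    unfold P1 at h4
    omega

end cert

section cert2

variable {F : Finset W}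

variable (Gr Gb) in
/-- the vertices with exactly two hits, blue-only, outside the red pairs -/
noncomputable def VV (F : Finset W) : Finset W :=
  univ.filter (fun v => v ∉ F ∧ (hit Gr Gb v F).card = 2 ∧ (∀ y ∈ F, Gb.Adj v y) ∧
    Disjoint (hit Gr Gb v F) (RR Gb F))

theorem mem_VV {v : W} : v ∈ VV Gr Gb F ↔ v ∉ F ∧ (hit Gr Gb v F).card = 2 ∧
    (∀ y ∈ F, Gb.Adj v y) ∧ Disjoint (hit Gr Gb v F) (RR Gb F) := by
  unfold VV
  rw [mem_filter]
  exact ⟨fun h => h.2, fun h => ⟨mem_univ _, h⟩⟩

theorem Best.hits_two (hB : Best Gr Gb F) {v : W} (hv : v ∉ F) :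
    (∃ y ∈ F, ¬ Gb.Adj v y ∧ ¬ Gr.Adj v y) ∨ 2 ≤ (hit Gr Gb v F).card := by
  by_contra hcon
  rw [not_or] at hcon
  obtain ⟨h1, h2⟩ := hcon
  have h3 := card_pos.2 (hB.no_zero hv)
  obtain ⟨y, hy⟩ := card_eq_one.1 (by omega : (hit Gr Gb v F).card = 1)
  have hy1 : y ∈ hit Gr Gb v F := by
    rw [hy]
    exact mem_singleton_self y
  rw [mem_hit] at hy1
  refine hB.no_one hv hy1.1 ?_ hy1.2 ?_
  · by_contra hcon
    rw [not_or] at hcon
    exact h1 ⟨y, hy1.1, hcon.2, hcon.1⟩
  · intro z hz hzy
    by_contra hcon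
    have : z ∈ hit Gr Gb v F := mem_hit.2 ⟨hz, hcon⟩
    rw [hy, mem_singleton] at this
    exact hzy this

theorem Best.mem_VV_of (hB : Best Gr Gb F) {v : W} (hv : v ∉ F) (h2 : (hit Gr Gb v F).card = 2)
    (hb : ∀ y ∈ F, Gb.Adj v y) : v ∈ VV Gr Gb F := by
  refine mem_VV.2 ⟨hv, h2, hb, ?_⟩
  obtain ⟨y, y', hne, hyy⟩ := card_eq_two.1 h2
  have hy1 : y ∈ hit Gr Gb v F := by
    rw [hyy]
    exact mem_insert_self _ _
  have hy2 : y' ∈ hit Gr Gb v F := by
    rw [hyy]
    exact mem_insert_of_mem (mem_singleton_self _)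
  have hg : ∀ z ∈ F, z ≠ y → z ≠ y' → Gn Gr Gb v z := by
    intro z hz h3 h4
    by_contra hcon
    have : z ∈ hit Gr Gb v F := mem_hit.2 ⟨hz, hcon⟩
    rw [hyy, mem_insert, mem_singleton] at this
    exact this.elim h3 h4
  rw [mem_hit] at hy1 hy2
  rw [hyy, Finset.disjoint_left]
  intro x hx
  rw [mem_insert, mem_singleton] at hx
  rcases hx with rfl | rfl
  · exact hB.two_hits hv hy1.1 hy2.1 hne (hb _ hy1.1) (hb _ hy2.1) hy2.2 hg
  · exact hB.two_hits hv hy2.1 hy1.1 (Ne.symm hne) (hb _ hy2.1) (hb _ hy1.1) hy1.2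
      (fun z hz h3 h4 => hg z hz h4 h3)

variable {a b : ℝ}

theorem Best.D_two (hB : Best Gr Gb F) (ha : 0 ≤ a) (hab : a ≤ b) (v : W) :
    2 * a ≤ D a b Gr Gb v F := by
  by_cases hv : v ∈ F
  · have := D_self (Gr := Gr) (Gb := Gb) ha hab hv
    linarith
  rcases hB.hits_two hv with ⟨y, hy, h1, h2⟩ | h
  · have h3 : D a b Gr Gb v {y} ≤ D a b Gr Gb v F := D_mono ha hab v (singleton_subset_iff.2 hy)
    have h4 : D a b Gr Gb v {y} = Mat a b Gr Gb v y := by
      unfold D
      rw [sum_singleton]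
    have h5 := mat_none (a := a) (b := b) h1 h2
    linarith
  · have h1 := D_ge_card (Gr := Gr) (Gb := Gb) ha hab v F
    have h2 : (2 : ℝ) ≤ (hit Gr Gb v F).card := by exact_mod_cast h
    nlinarith

theorem Best.D_ab (hB : Best Gr Gb F) (ha : 0 ≤ a) (hab : a ≤ b) (hb : b ≤ 2 * a) {v : W}
    (hvV : v ∉ VV Gr Gb F) : a + b ≤ D a b Gr Gb v F := by
  by_cases hv : v ∈ F
  · exact D_self (Gr := Gr) (Gb := Gb) ha hab hv
  by_cases hnb : ∃ y ∈ F, ¬ Gb.Adj v y
  · obtain ⟨y, hy, hvy⟩ := hnb
    rcases hB.hits_two hv with ⟨z, hz, h1, h2⟩ | h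
    · have h3 : D a b Gr Gb v {z} ≤ D a b Gr Gb v F :=
        D_mono ha hab v (singleton_subset_iff.2 hz)
      have h4 : D a b Gr Gb v {z} = Mat a b Gr Gb v z := by
        unfold D
        rw [sum_singleton]
      have h5 := mat_none (a := a) (b := b) h1 h2
      linarith
    · have h1 := D_ge_one (Gr := Gr) (Gb := Gb) ha hab (v := v) hy (c := b - a)
        (fun h => hvy h.2) (by
          have := mat_ge_b (b := b) (Gr := Gr) ha hvy
          linarith)
      have h2 : (2 : ℝ) ≤ (hit Gr Gb v F).card := by exact_mod_cast h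
      nlinarith
  · push Not at hnb
    have h2 : 2 ≤ (hit Gr Gb v F).card := by
      rcases hB.hits_two hv with ⟨z, hz, h1, _⟩ | h
      · exact absurd (hnb z hz) h1
      · exact h
    have h3 : 3 ≤ (hit Gr Gb v F).card := by
      by_contra hcon
      exact hvV (hB.mem_VV_of hv (by omega) hnb)
    have h1 := D_ge_card (Gr := Gr) (Gb := Gb) ha hab v F
    have h4 : (3 : ℝ) ≤ (hit Gr Gb v F).card := by exact_mod_cast h3
    nlinarith

/-- a maximal clique between two sets -/
theorem exists_max_clique (G : SimpleGraph W) {A K0 : Finset W} (hK0 : K0 ⊆ A)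
    (hcl : ∀ u ∈ K0, ∀ v ∈ K0, u ≠ v → G.Adj u v) :
    ∃ K, K0 ⊆ K ∧ K ⊆ A ∧ (∀ u ∈ K, ∀ v ∈ K, u ≠ v → G.Adj u v) ∧
      ∀ v ∈ A, v ∉ K → ∃ z ∈ K, ¬ G.Adj v z := by
  obtain ⟨K, hK, hmax⟩ := exists_max_image ((univ : Finset (Finset W)).filter (fun K =>
    K0 ⊆ K ∧ K ⊆ A ∧ ∀ u ∈ K, ∀ v ∈ K, u ≠ v → G.Adj u v)) card
    ⟨K0, mem_filter.2 ⟨mem_univ _, Subset.refl _, hK0, hcl⟩⟩
  rw [mem_filter] at hK
  refine ⟨K, hK.2.1, hK.2.2.1, hK.2.2.2, fun v hvA hvK => ?_⟩
  by_contra hcon
  push Not at hcon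
  have h1 := hmax (insert v K) (mem_filter.2 ⟨mem_univ _,
    hK.2.1.trans (subset_insert _ _), insert_subset hvA hK.2.2.1, ?_⟩)
  · rw [card_insert_of_notMem hvK] at h1
    omega
  · intro x hx y hy hxy
    rcases mem_insert.1 hx with h1 | h1 <;> rcases mem_insert.1 hy with h2 | h2
    · exact absurd (h1.trans h2.symm) hxy
    · rw [h1]
      exact hcon y h2
    · rw [h2]
      exact (hcon x h1).symm
    · exact hK.2.2.2 x h1 y h2 hxy

theorem Best.D_K2 (hB : Best Gr Gb F) (ha : 0 ≤ a) (hab : a ≤ b) (hb : b ≤ 2 * a)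
    {K2 : Finset W} (hmax : ∀ v ∈ VV Gr Gb F, v ∉ K2 → ∃ z ∈ K2, ¬ Gb.Adj v z)
    (hK2 : K2 ⊆ VV Gr Gb F) (v : W) : a + b ≤ D a b Gr Gb v (F ∪ K2) := by
  by_cases hvV : v ∈ VV Gr Gb F
  · by_cases hvK : v ∈ K2
    · exact D_self ha hab (mem_union_right _ hvK)
    · obtain ⟨z, hz, hvz⟩ := hmax v hvV hvK
      have hzF : z ∉ F := (mem_VV.1 (hK2 hz)).1
      have h1 : D a b Gr Gb v (insert z F) ≤ D a b Gr Gb v (F ∪ K2) := by
        apply D_mono ha hab v
        exact insert_subset (mem_union_right _ hz) subset_union_left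
      have h2 : D a b Gr Gb v (insert z F) = Mat a b Gr Gb v z + D a b Gr Gb v F := by
        unfold D
        rw [sum_insert hzF]
      have h3 := hB.D_two ha hab v
      have h4 := mat_ge_b (b := b) (Gr := Gr) ha hvz
      linarith
  · exact (hB.D_ab ha hab hb hvV).trans (D_mono ha hab v subset_union_left)

/-- counting -/
theorem card_gt_of_D {S : Finset W} {J : ℝ} [Nonempty W] (hcost : ∀ v : W,
    D a b Gr Gb v univ < Fintype.card W) (hJ : ∀ v, J ≤ D a b Gr Gb v S) (hS : S.Nonempty) :
    J < S.card := by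
  have h1 : ∑ v : W, D a b Gr Gb v S = ∑ y ∈ S, D a b Gr Gb y univ := by
    unfold D
    rw [sum_comm]
    exact sum_congr rfl (fun y _ => sum_congr rfl (fun v _ => Mat_comm a b Gr Gb v y))
  have h2 : ∑ v : W, J ≤ ∑ v : W, D a b Gr Gb v S := sum_le_sum (fun v _ => hJ v)
  have h3 : ∑ y ∈ S, D a b Gr Gb y univ < ∑ y ∈ S, (Fintype.card W : ℝ) :=
    sum_lt_sum_of_nonempty hS (fun y _ => hcost y)
  rw [sum_const, nsmul_eq_mul] at h3
  rw [sum_const, nsmul_eq_mul, card_univ] at h2
  have h4 : (0 : ℝ) < Fintype.card W := by exact_mod_cast Fintype.card_pos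
  have h5 : (Fintype.card W : ℝ) * J < (Fintype.card W : ℝ) * S.card := by
    rw [mul_comm (Fintype.card W : ℝ) (S.card : ℝ)]
    linarith
  exact lt_of_mul_lt_mul_left h5 h4.le

end cert2

end L1

end Pool.Agent.Lib.MP_a05470_co
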