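import Pool.Agent.Lib.MP_a05470_co.TF.LevEx
import Pool.Agent.Lib.MP_a05470_co.TF.Lev1

/-!
# The two notions of maximal families agree at level one
-/

set_option autoImplicit false
set_option linter.unusedSectionVars false

namespace Pool.Agent.Lib.MP_a05470_co

open Finset Classical JF

namespace LV

variable {W : Type} [Fintype W] {Gr Gb : SimpleGraph W}

theorem fam_count {Fs : Finset (Finset W)} (h : Fam Gr Gb Fs) {κ : Finset W → Finset W}
    (hκ : ∀ C ∈ Fs, κ C ⊆ C ∧ (κ C).card = min 2 C.card) :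
    L1.Good Gr Gb (Fs.biUnion κ) ∧
      (Fs.biUnion κ).card = Fs.card + nr Gr Gb 2 Fs + nb Gr Gb Fs ∧
      (L1.RR Gb (Fs.biUnion κ)).card = 2 * nr Gr Gb 2 Fs ∧
      (L1.BB Gr (Fs.biUnion κ)).card = 2 * nb Gr Gb Fs := by
  have hdisj : ∀ C ∈ Fs, ∀ D ∈ Fs, C ≠ D → Disjoint (κ C) (κ D) := by
    intro C hC D hD hCD
    rw [disjoint_left]
    intro x hx hx'
    exact Gr.irrefl (h.green C hC D hD hCD x ((hκ C hC).1 hx) x ((hκ D hD).1 hx')).1
  -- the elements of a box
  have hone : ∀ C ∈ Fs, (κ C).card = 1 + (if RB Gr Gb C ∧ 2 ≤ C.card then 1 else 0) +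
      (if BB Gr Gb C then 1 else 0) := by
    intro C hC
    rw [(hκ C hC).2]
    rcases h.box C hC with h1 | h1
    · have h2 := card_pos.2 h1.1
      rw [if_neg h1.not_BB]
      by_cases h3 : 2 ≤ C.card
      · rw [if_pos ⟨h1, h3⟩, min_eq_left h3]
      · rw [if_neg (fun h4 => h3 h4.2), min_eq_right (by omega)]
        omega
    · rw [if_neg (fun h4 => h4.1.not_BB h1), if_pos h1, h1.card]
      rfl
  -- nonadjacent vertices of the same box
  have hsame : ∀ C ∈ Fs, ∀ D ∈ Fs, ∀ x ∈ κ C, ∀ y ∈ κ D, ¬ L1.Gn Gr Gb x y → C = D := by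
    intro C hC D hD x hx y hy hxy
    by_contra hcon
    exact hxy (h.green C hC D hD hcon x ((hκ C hC).1 hx) y ((hκ D hD).1 hy))
  refine ⟨⟨?_, ?_⟩, ?_, ?_, ?_⟩
  · intro x hx y hy hxy
    rw [mem_biUnion] at hx hy
    obtain ⟨C, hC, hx⟩ := hx
    obtain ⟨D, hD, hy⟩ := hy
    by_cases hCD : C = D
    · subst hCD
      rcases h.box C hC with h1 | ⟨u, v, huv, rfl, h1, h2⟩
      · exact Or.inl (h1.2 x ((hκ C hC).1 hx) y ((hκ C hC).1 hy) hxy).1
      · have hx' := (hκ _ hC).1 hx
        have hy' := (hκ _ hC).1 hy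
        rw [mem_insert, mem_singleton] at hx' hy'
        right
        rcases hx' with rfl | rfl <;> rcases hy' with rfl | rfl
        · exact absurd rfl hxy
        · exact h1
        · exact h1.symm
        · exact absurd rfl hxy
    · exact Or.inl (h.green C hC D hD hCD x ((hκ C hC).1 hx) y ((hκ D hD).1 hy)).1
  · intro x hx y hy z hz hxy hxz h1 h2
    rw [mem_biUnion] at hx hy hz
    obtain ⟨C, hC, hx⟩ := hx
    obtain ⟨D, hD, hy⟩ := hy
    obtain ⟨E, hE, hz⟩ := hz
    have h3 := hsame C hC D hD x hx y hy h1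
    have h4 := hsame C hC E hE x hx z hz h2
    subst h3
    subst h4
    by_contra hyz
    have h5 : 3 ≤ (κ C).card := by
      have : ({x, y, z} : Finset W) ⊆ κ C := by
        intro w hw
        simp only [mem_insert, mem_singleton] at hw
        rcases hw with rfl | rfl | rfl
        · exact hx
        · exact hy
        · exact hz
      have h6 := card_le_card this
      rwa [card_eq_three.2 ⟨x, y, z, hxy, hxz, hyz, rfl⟩] at h6
    have h6 := (hκ C hC).2
    have h7 := min_le_left 2 C.card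
    omega
  · rw [card_biUnion hdisj, sum_congr rfl hone, sum_add_distrib, sum_add_distrib]
    rw [sum_const, smul_eq_mul, mul_one, ← card_filter, ← card_filter]
    rfl
  · have h1 : L1.RR Gb (Fs.biUnion κ) =
        (Fs.filter (fun C => RB Gr Gb C ∧ 2 ≤ C.card)).biUnion κ := by
      ext x
      unfold L1.RR
      rw [mem_filter, mem_biUnion, mem_biUnion]
      constructor
      · rintro ⟨⟨C, hC, hx⟩, y, hy, hyx, hb⟩
        rw [mem_biUnion] at hy
        obtain ⟨D, hD, hy⟩ := hy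
        have h2 := hsame C hC D hD x hx y hy (fun h3 => hb h3.2)
        subst h2
        have hcard : 2 ≤ C.card := one_lt_card.2
          ⟨x, (hκ C hC).1 hx, y, (hκ C hC).1 hy, Ne.symm hyx⟩
        refine ⟨C, mem_filter.2 ⟨hC, ?_, hcard⟩, hx⟩
        rcases h.box C hC with h1 | ⟨u, v, huv, rfl, h1, h2⟩
        · exact h1
        · exfalso
          have hx' := (hκ _ hC).1 hx
          have hy' := (hκ _ hC).1 hy
          rw [mem_insert, mem_singleton] at hx' hy'
          rcases hx' with rfl | rfl <;> rcases hy' with rfl | rfl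
          · exact absurd rfl hyx
          · exact hb h1
          · exact hb h1.symm
          · exact absurd rfl hyx
      · rintro ⟨C, hC, hx⟩
        rw [mem_filter] at hC
        have h2 : (κ C).card = 2 := by rw [(hκ C hC.1).2, min_eq_left hC.2.2]
        obtain ⟨y, hy, hyx⟩ := exists_mem_ne (s := κ C) (by omega) x
        refine ⟨⟨C, hC.1, hx⟩, y, mem_biUnion.2 ⟨C, hC.1, hy⟩, hyx, ?_⟩
        exact (hC.2.1.2 x ((hκ C hC.1).1 hx) y ((hκ C hC.1).1 hy) (Ne.symm hyx)).2
    rw [h1, card_biUnion (fun C hC D hD => hdisj C (mem_filter.1 hC).1 D (mem_filter.1 hD).1)]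
    rw [sum_congr rfl (g := fun _ => 2) (fun C hC => by
      rw [mem_filter] at hC
      rw [(hκ C hC.1).2, min_eq_left hC.2.2]), sum_const, smul_eq_mul, mul_comm]
    rfl
  · have h1 : L1.BB Gr (Fs.biUnion κ) = (Fs.filter (fun C => BB Gr Gb C)).biUnion κ := by
      ext x
      unfold L1.BB
      rw [mem_filter, mem_biUnion, mem_biUnion]
      constructor
      · rintro ⟨⟨C, hC, hx⟩, y, hy, hyx, hb⟩
        rw [mem_biUnion] at hy
        obtain ⟨D, hD, hy⟩ := hy
        have h2 := hsame C hC D hD x hx y hy (fun h3 => hb h3.1)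
        subst h2
        refine ⟨C, mem_filter.2 ⟨hC, ?_⟩, hx⟩
        rcases h.box C hC with h1 | h1
        · exact absurd (h1.2 x ((hκ C hC).1 hx) y ((hκ C hC).1 hy) (Ne.symm hyx)).1 hb
        · exact h1
      · rintro ⟨C, hC, hx⟩
        rw [mem_filter] at hC
        have h2 : (κ C).card = 2 := by rw [(hκ C hC.1).2, hC.2.card, min_self]
        obtain ⟨y, hy, hyx⟩ := exists_mem_ne (s := κ C) (by omega) x
        refine ⟨⟨C, hC.1, hx⟩, y, mem_biUnion.2 ⟨C, hC.1, hy⟩, hyx, ?_⟩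
        obtain ⟨hC1, u, v, huv, rfl, h1, h2⟩ := hC
        have hx' := (hκ _ hC1).1 hx
        have hy' := (hκ _ hC1).1 hy
        rw [mem_insert, mem_singleton] at hx' hy'
        rcases hx' with rfl | rfl <;> rcases hy' with rfl | rfl
        · exact absurd rfl hyx
        · exact h2
        · exact fun h3 => h2 h3.symm
        · exact absurd rfl hyx
    rw [h1, card_biUnion (fun C hC D hD => hdisj C (mem_filter.1 hC).1 D (mem_filter.1 hD).1)]
    rw [sum_congr rfl (g := fun _ => 2) (fun C hC => by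
      rw [mem_filter] at hC
      rw [(hκ C hC.1).2, hC.2.card, min_self]), sum_const, smul_eq_mul, mul_comm]
    rfl

/-- from families of boxes to sets of vertices -/
theorem good_of_fam {Fs : Finset (Finset W)} (h : Fam Gr Gb Fs) :
    ∃ F, L1.Good Gr Gb F ∧ L1.P1 Gb F = 2 * beta Gr Gb Fs ∧
      (L1.RR Gb F).card = 2 * nr Gr Gb 2 Fs ∧ (L1.BB Gr F).card = 2 * nb Gr Gb Fs := by
  have hch : ∀ C : Finset W, ∃ D ⊆ C, D.card = min 2 C.card := fun C =>
    exists_subset_card_eq (min_le_right 2 C.card)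
  choose κ hκ1 hκ2 using hch
  obtain ⟨h1, h2, h3, h4⟩ := fam_count h (κ := κ) (fun C _ => ⟨hκ1 C, hκ2 C⟩)
  refine ⟨_, h1, ?_, h3, h4⟩
  unfold L1.P1
  rw [h2, h3]
  unfold beta
  push_cast
  ring

/-- from sets of vertices to families of boxes -/
theorem fam_of_good {F : Finset W} (h : L1.Good Gr Gb F) :
    ∃ Fs, Fam Gr Gb Fs ∧ L1.P1 Gb F = 2 * beta Gr Gb Fs ∧
      (L1.RR Gb F).card = 2 * nr Gr Gb 2 Fs ∧ (L1.BB Gr F).card = 2 * nb Gr Gb Fs := by
  set cl : W → Finset W := fun x => F.filter (fun y => ¬ L1.Gn Gr Gb x y) with hcl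
  have hmem : ∀ {x y : W}, y ∈ cl x ↔ y ∈ F ∧ ¬ L1.Gn Gr Gb x y := by
    intro x y
    rw [hcl]
    simp only [mem_filter]
  have hself : ∀ x ∈ F, x ∈ cl x := fun x hx => hmem.2 ⟨hx, L1.not_gn_self x⟩
  have htr : ∀ x ∈ F, ∀ y ∈ F, ∀ z ∈ F, ¬ L1.Gn Gr Gb x y → ¬ L1.Gn Gr Gb x z →
      ¬ L1.Gn Gr Gb y z := by
    intro x hx y hy z hz h1 h2
    by_cases hxy : x = y
    · rw [← hxy]
      exact h2
    by_cases hxz : x = z
    · rw [← hxz]
      exact fun h3 => h1 h3.symm
    rw [h.uniq x hx y hy z hz hxy hxz h1 h2]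
    exact L1.not_gn_self z
  have hcleq : ∀ x ∈ F, ∀ y ∈ F, ¬ L1.Gn Gr Gb x y → cl x = cl y := by
    intro x hx y hy hxy
    ext z
    rw [hmem, hmem]
    constructor
    · rintro ⟨hz, h1⟩
      exact ⟨hz, htr x hx y hy z hz hxy h1⟩
    · rintro ⟨hz, h1⟩
      exact ⟨hz, htr y hy x hx z hz (fun h2 => hxy h2.symm) h1⟩
  have hcl2 : ∀ x ∈ F, (cl x).card ≤ 2 := by
    intro x hx
    have h1 : ((cl x).erase x).card ≤ 1 := by
      rw [card_le_one]
      intro y hy z hz
      rw [mem_erase, hmem] at hy hz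
      exact h.uniq x hx y hy.2.1 z hz.2.1 (Ne.symm hy.1) (Ne.symm hz.1) hy.2.2 hz.2.2
    rw [card_erase_of_mem (hself x hx)] at h1
    omega
  have hfam : Fam Gr Gb (F.image cl) := by
    constructor
    · intro C hC
      rw [mem_image] at hC
      obtain ⟨x, hx, rfl⟩ := hC
      by_cases h1 : ∃ y ∈ cl x, y ≠ x ∧ ¬ Gr.Adj x y
      · obtain ⟨y, hy, hyx, hr⟩ := h1
        rw [hmem] at hy
        have hb : Gb.Adj x y := (h.col x hx y hy.1 (Ne.symm hyx)).resolve_left hr
        right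
        refine ⟨x, y, Ne.symm hyx, ?_, hb, hr⟩
        have h2 : ({x, y} : Finset W) ⊆ cl x := by
          intro z hz
          rw [mem_insert, mem_singleton] at hz
          rcases hz with rfl | rfl
          · exact hself z hx
          · exact hmem.2 hy
        exact (eq_of_subset_of_card_le h2 (by
          rw [card_pair (Ne.symm hyx)]
          exact hcl2 x hx)).symm
      · push Not at h1
        left
        refine ⟨⟨x, hself x hx⟩, ?_⟩
        intro y hy z hz hyz
        have hyz' : y = x ∨ z = x := by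
          by_contra hcon
          push Not at hcon
          rw [hmem] at hy hz
          exact hyz (h.uniq x hx y hy.1 z hz.1 (Ne.symm hcon.1) (Ne.symm hcon.2) hy.2 hz.2)
        rcases hyz' with rfl | rfl
        · have h2 := h1 z hz (Ne.symm hyz)
          rw [hmem] at hz
          exact ⟨h2, fun h3 => hz.2 ⟨h2, h3⟩⟩
        · have h2 := h1 y hy hyz
          rw [hmem] at hy
          exact ⟨h2.symm, fun h3 => hy.2 ⟨h2, h3.symm⟩⟩
    · intro C hC D hD hCD y hy z hz
      rw [mem_image] at hC hD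
      obtain ⟨x, hx, rfl⟩ := hC
      obtain ⟨w, hw, rfl⟩ := hD
      by_contra hcon
      rw [hmem] at hy hz
      apply hCD
      rw [hcleq x hx y hy.1 hy.2, hcleq w hw z hz.1 hz.2]
      exact hcleq y hy.1 z hz.1 hcon
  obtain ⟨_, h2, h3, h4⟩ := fam_count hfam (κ := fun C => C) (by
    intro C hC
    refine ⟨subset_refl _, ?_⟩
    rw [mem_image] at hC
    obtain ⟨x, hx, rfl⟩ := hC
    rw [min_eq_right (hcl2 x hx)])
  have hU : (F.image cl).biUnion (fun C => C) = F := by
    ext y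
    rw [mem_biUnion]
    constructor
    · rintro ⟨C, hC, hy⟩
      rw [mem_image] at hC
      obtain ⟨x, hx, rfl⟩ := hC
      exact (hmem.1 hy).1
    · intro hy
      exact ⟨cl y, mem_image_of_mem _ hy, hself y hy⟩
  rw [hU] at h2 h3 h4
  refine ⟨_, hfam, ?_, h3, h4⟩
  unfold L1.P1
  rw [h2, h3]
  unfold beta
  push_cast
  ring

/-- the two notions agree -/
theorem bridge {Fs : Finset (Finset W)} {F : Finset W} (h1 : Best1 Gr Gb Fs)
    (h2 : L1.Best Gr Gb F) :
    (L1.RR Gb F).card = 2 * nr Gr Gb 2 Fs ∧ (L1.BB Gr F).card = 2 * nb Gr Gb Fs ∧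
      L1.P1 Gb F = 2 * beta Gr Gb Fs := by
  obtain ⟨F1, g1, g2, g3, g4⟩ := good_of_fam h1.fam
  obtain ⟨Fs1, f1, f2, f3, f4⟩ := fam_of_good h2.good
  have h3 := h2.max F1 g1
  have h4 := h1.m0 Fs1 f1
  have h5 := h1.m1 Fs1 f1
  have h6 := h1.m2 Fs1 f1
  have h7 : beta Gr Gb Fs1 = beta Gr Gb Fs := by
    have := h3.1
    omega
  have h8 : L1.P1 Gb F1 = L1.P1 Gb F := by
    rw [g2, f2, h7]
  have h9 := h5 h7
  obtain ⟨h10, h11⟩ := h3.2 h8
  have h12 : nb Gr Gb Fs1 = nb Gr Gb Fs := by omega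
  have h13 := h6 h7 h12
  have h14 := h11 (by omega)
  refine ⟨by omega, by omega, ?_⟩
  rw [f2, h7]

end LV

end Pool.Agent.Lib.MP_a05470_co
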