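import Pool.Agent.Lib.MP_a05470_co.TF.LevM
import Pool.Agent.Lib.MP_a05470_co.TF.Bridge

/-!
# Level one, first the number of boxes
-/

set_option autoImplicit false
set_option linter.unusedSectionVars false

namespace Pool.Agent.Lib.MP_a05470_co

open Finset Classical JF

namespace LV

variable {W : Type} [Fintype W] {Gr Gb : SimpleGraph W}

/-- boxes with at most two vertices are enough -/
theorem Best1M.small {Fs : Finset (Finset W)} (h : Best1M Gr Gb Fs) :
    ∃ F2, Best1M Gr Gb F2 ∧ (∀ C ∈ F2, C.card ≤ 2) ∧ nr Gr Gb 2 F2 = nr Gr Gb 2 Fs := by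
  obtain ⟨F2, Sp, h1, h2, h3, h4, _, _, h5⟩ := h.shrink (s := nr Gr Gb 2 Fs) le_rfl
  refine ⟨F2, h1, ?_, h5⟩
  have h6 : Sp = F2.filter (fun C => RB Gr Gb C ∧ 2 ≤ C.card) := by
    apply eq_of_subset_of_card_le
    · intro C hC
      exact mem_filter.2 ⟨h2 hC, (h4 C hC).1, (h4 C hC).2.ge⟩
    · have h7 : (F2.filter (fun C => RB Gr Gb C ∧ 2 ≤ C.card)).card = nr Gr Gb 2 F2 := rfl
      omega
  intro C hC
  rcases h1.fam.box C hC with h7 | h7
  · by_contra hcon
    have h8 : C ∈ Sp := by
      rw [h6]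
      exact mem_filter.2 ⟨hC, h7, by omega⟩
    exact hcon (h4 C h8).2.le
  · exact h7.card.le

end LV

namespace L1

open LV

variable {W : Type} [Fintype W] {Gr Gb : SimpleGraph W}

/-- level one, first the number of boxes -/
structure L1M (Gr Gb : SimpleGraph W) (F : Finset W) (r : ℕ) : Prop where
  good : Good Gr Gb F
  cardR : (RR Gb F).card = 2 * r
  nz : ∀ v, v ∉ F → (hit Gr Gb v F).Nonempty
  hits : ∀ v, v ∉ F → (∃ y ∈ F, ¬ Gb.Adj v y ∧ ¬ Gr.Adj v y) ∨ 2 ≤ (hit Gr Gb v F).card
  two : ∀ v, v ∉ F → (hit Gr Gb v F).card = 2 → (∀ y ∈ F, Gb.Adj v y) →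
    Disjoint (hit Gr Gb v F) (RR Gb F)
  hall : ∀ U : Finset W, Disjoint U F → (∀ u ∈ U, ∀ v ∈ U, u ≠ v → Gn Gr Gb u v) →
    ∃ Z ⊆ F, Z.card = U.card ∧
      (∀ z ∈ Z, ∀ y ∈ F, ¬ Gn Gr Gb z y → ∃ u ∈ U, ¬ Gn Gr Gb u y) ∧
      ∀ z ∈ Z, ∀ z' ∈ Z, z ≠ z' → Gn Gr Gb z z'

section exist

variable {F2 : Finset (Finset W)}

/-- the hits inside `F` -/
theorem ng_iff (h : Fam Gr Gb F2) {C : Finset W} (hC : C ∈ F2) {x y : W} (hx : x ∈ C)
    (hy : y ∈ F2.biUnion (fun C => C)) : ¬ Gn Gr Gb x y ↔ y ∈ C := by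
  rw [mem_biUnion] at hy
  obtain ⟨D, hD, hy⟩ := hy
  constructor
  · intro h1
    by_cases hCD : C = D
    · rw [hCD]
      exact hy
    · exact absurd (h.green C hC D hD hCD x hx y hy) h1
  · intro hy' h1
    rcases h.box C hC with h2 | ⟨u, v, huv, rfl, h2, h3⟩
    · exact (h2.2 x hx y hy' h1.ne).2 h1.2
    · rw [mem_insert, mem_singleton] at hx hy'
      rcases hx with rfl | rfl <;> rcases hy' with rfl | rfl
      · exact h1.ne rfl
      · exact h3 h1.1
      · exact h3 h1.1.symm
      · exact h1.ne rfl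

/-- from families of boxes to sets of vertices -/
theorem exists_L1M {Fs : Finset (Finset W)} (hFs : Best1M Gr Gb Fs) :
    ∃ F, L1M Gr Gb F (nr Gr Gb 2 Fs) := by
  obtain ⟨F2, hB, hle, hnr⟩ := hFs.small
  rw [← hnr]
  have hfam := hB.fam
  obtain ⟨hgood, _, hRR, _⟩ := fam_count hfam (κ := fun C => C) (fun C hC =>
    ⟨subset_refl _, by rw [min_eq_right (hle C hC)]⟩)
  set F : Finset W := F2.biUnion (fun C => C) with hF
  have hsub : ∀ C ∈ F2, ∀ x ∈ C, x ∈ F := fun C hC x hx => mem_biUnion.2 ⟨C, hC, hx⟩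
  have hout : ∀ v, v ∉ F → ∀ C ∈ F2, v ∉ C := fun v hv C hC h => hv (hsub C hC v h)
  have hhit : ∀ (v : W) (C : Finset W), C ∈ F2 → ∀ x ∈ C,
      (x ∈ hit Gr Gb v F ↔ x ∉ gp Gr Gb v C) := by
    intro v C hC x hx
    rw [mem_hit, mem_gp]
    constructor
    · rintro ⟨_, h1⟩ ⟨_, h2⟩
      exact h1 h2
    · intro h1
      exact ⟨hsub C hC x hx, fun h2 => h1 ⟨hx, h2⟩⟩
  -- the full box
  have hfull : ∀ v, v ∉ F → ∃ C0 ∈ F2, gp Gr Gb v C0 = ∅ := by
    intro v hv
    by_contra hcon
    push Not at hcon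
    exact hB.full (hout v hv) hcon
  have hfull' : ∀ v, v ∉ F → ∃ C0 ∈ F2, gp Gr Gb v C0 = ∅ ∧ C0 ⊆ hit Gr Gb v F := by
    intro v hv
    obtain ⟨C0, hC0, h1⟩ := hfull v hv
    refine ⟨C0, hC0, h1, fun x hx => ?_⟩
    rw [hhit v C0 hC0 x hx, h1]
    exact notMem_empty x
  -- single units
  have huni : ∀ v C0, Uni Gr Gb F2 v C0 → ∀ x ∈ C0, ¬ Gb.Adj v x := fun v C0 hU x hx =>
    hB.uni_nonblue hU hx
  -- a single red hit
  have hred : ∀ v y, Uni Gr Gb F2 v {y} → (∀ D ∈ F2, D ≠ {y} → gp Gr Gb v D = D) →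
      Gr.Adj v y → False := by
    intro v y hU hgr hr
    have hvy : v ≠ y := hr.ne
    have hnb : ¬ Gb.Adj v y := huni v _ hU y (mem_singleton_self y)
    have hD : RB Gr Gb ({v, y} : Finset W) := by
      refine ⟨insert_nonempty _ _, ?_⟩
      intro p hp q hq hpq
      rw [mem_insert, mem_singleton] at hp hq
      rcases hp with rfl | rfl <;> rcases hq with rfl | rfl
      · exact absurd rfl hpq
      · exact ⟨hr, hnb⟩
      · exact ⟨hr.symm, fun h => hnb h.symm⟩
      · exact absurd rfl hpq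
    obtain ⟨F', h1, h2, h3, _, h5⟩ := hB.replace hU (D0 := {v, y}) (Or.inl hD) (by
      intro x hx
      rw [mem_insert] at hx
      exact hx)
    rw [if_neg hD.not_BB, add_zero] at h3
    have h6 := hB.m2 F' h1 h2 h3
    have h7 := h5 ∅ (empty_subset _) (notMem_empty _) (by simp) 2
    rw [sdiff_empty, sdiff_empty] at h7
    have h8 : nr Gr Gb 2 F2 < nr Gr Gb 2 F' := by
      rw [h7]
      unfold nr
      have hsub : F2.filter (fun C => RB Gr Gb C ∧ 2 ≤ C.card) ⊆
          F2.filter (fun C => if C = {y} then (RB Gr Gb {v, y} ∧ 2 ≤ ({v, y} : Finset W).card)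
            else (RB Gr Gb C ∧ 2 ≤ (gp Gr Gb v C).card)) := by
        intro C hC
        rw [mem_filter] at hC ⊢
        refine ⟨hC.1, ?_⟩
        by_cases h : C = {y}
        · rw [if_pos h]
          exact ⟨hD, by rw [card_pair hvy]⟩
        · rw [if_neg h, hgr C hC.1 h]
          exact hC.2
      apply card_lt_card
      rw [Finset.ssubset_iff_of_subset hsub]
      refine ⟨{y}, ?_, ?_⟩
      · rw [mem_filter, if_pos rfl]
        exact ⟨hU.mem, hD, by rw [card_pair hvy]⟩
      · rw [mem_filter]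
        rintro ⟨_, _, h⟩
        rw [card_singleton] at h
        omega
    omega
  refine ⟨F, hgood, hRR, ?_, ?_, ?_, ?_⟩
  · intro v hv
    obtain ⟨C0, hC0, _, h1⟩ := hfull' v hv
    exact (hfam.nonempty hC0).mono h1
  · -- two hits
    intro v hv
    by_contra hcon
    rw [not_or] at hcon
    obtain ⟨hno, hlt⟩ := hcon
    obtain ⟨C0, hC0, h1, h2⟩ := hfull' v hv
    have h3 := card_le_card h2
    have h4 := card_pos.2 (hfam.nonempty hC0)
    obtain ⟨y, rfl⟩ := card_eq_one.1 (by omega : C0.card = 1)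
    have hhy : hit Gr Gb v F = {y} := by
      symm
      apply eq_of_subset_of_card_le h2
      rw [card_singleton]
      omega
    have hgr : ∀ D ∈ F2, D ≠ {y} → gp Gr Gb v D = D := by
      intro D hD hne
      apply Subset.antisymm (gp_subset v D)
      intro x hx
      by_contra hcon
      have h5 := (hhit v D hD x hx).2 hcon
      rw [hhy, mem_singleton] at h5
      subst h5
      apply hne
      by_contra hne'
      exact Gr.irrefl (hfam.green D hD {x} hC0 hne' x hx x (mem_singleton_self x)).1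
    have hU : Uni Gr Gb F2 v {y} := by
      refine ⟨hout v hv, hC0, rb_single y, h1, ?_, ?_⟩
      · intro D hD hne
        rw [hgr D hD hne]
        exact hfam.nonempty hD
      · intro D hD hb
        apply hgr D hD
        rintro rfl
        have := hb.card
        rw [card_singleton] at this
        omega
    have hnb := huni v _ hU y (mem_singleton_self y)
    have hr : ¬ Gr.Adj v y := fun hr => hred v y hU hgr hr
    exact hno ⟨y, hsub _ hC0 y (mem_singleton_self y), hnb, hr⟩
  · -- two blue hits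
    intro v hv h2 hb
    rw [Finset.disjoint_left]
    intro y hy hyR
    have hyF := (mem_hit.1 hy).1
    obtain ⟨C, hC, hyC⟩ := mem_biUnion.1 hyF
    -- the box of `y` is a red pair
    obtain ⟨y', hy'F, hyy', hnb⟩ := (mem_filter.1 hyR).2
    have hy'C : y' ∈ C := (ng_iff hfam hC hyC hy'F).1 (fun h => hnb h.2)
    have hCR : RB Gr Gb C := by
      rcases hfam.box C hC with h | ⟨u, w, huw, rfl, h3, h4⟩
      · exact h
      · exfalso
        rw [mem_insert, mem_singleton] at hyC hy'C
        rcases hyC with rfl | rfl <;> rcases hy'C with rfl | rfl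
        · exact hyy' rfl
        · exact hnb h3
        · exact hnb h3.symm
        · exact hyy' rfl
    obtain ⟨C0, hC0, h5, h6⟩ := hfull' v hv
    -- all other boxes are not hit
    have hkey : Uni Gr Gb F2 v C0 := by
      have hcard0 := card_le_card h6
      by_cases hCC : C = C0
      · subst hCC
        have hC2 : C.card = 2 := by
          have h7 : 1 < C.card := one_lt_card.2 ⟨y, hyC, y', hy'C, Ne.symm hyy'⟩
          omega
        have h7 : C = hit Gr Gb v F := eq_of_subset_of_card_le h6 (by omega)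
        have hgr : ∀ D ∈ F2, D ≠ C → gp Gr Gb v D = D := by
          intro D hD hne
          apply Subset.antisymm (gp_subset v D)
          intro x hx
          by_contra hcon
          have h8 := (hhit v D hD x hx).2 hcon
          rw [← h7] at h8
          exact Gr.irrefl (hfam.green D hD C hC hne x hx x h8).1
        refine ⟨hout v hv, hC, hCR, h5, ?_, ?_⟩
        · intro D hD hne
          rw [hgr D hD hne]
          exact hfam.nonempty hD
        · intro D hD hbb
          apply hgr D hD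
          rintro rfl
          exact hCR.not_BB hbb
      · have hyC0 : y ∉ C0 := fun h =>
          Gr.irrefl (hfam.green C hC C0 hC0 hCC y hyC y h).1
        have h7 : insert y C0 ⊆ hit Gr Gb v F := insert_subset hy h6
        have h8 := card_le_card h7
        rw [card_insert_of_notMem hyC0] at h8
        have h9 := card_pos.2 (hfam.nonempty hC0)
        have hC01 : C0.card = 1 := by omega
        have h10 : insert y C0 = hit Gr Gb v F := by
          apply eq_of_subset_of_card_le h7
          rw [card_insert_of_notMem hyC0]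
          omega
        have hgr : ∀ D ∈ F2, D ≠ C0 → D ≠ C → gp Gr Gb v D = D := by
          intro D hD hne hne'
          apply Subset.antisymm (gp_subset v D)
          intro x hx
          by_contra hcon
          have h11 := (hhit v D hD x hx).2 hcon
          rw [← h10, mem_insert] at h11
          rcases h11 with rfl | h11
          · exact Gr.irrefl (hfam.green D hD C hC hne' x hx x hyC).1
          · exact Gr.irrefl (hfam.green D hD C0 hC0 hne x hx x h11).1
        refine ⟨hout v hv, hC0, ?_, h5, ?_, ?_⟩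
        · rcases hfam.box C0 hC0 with h | h
          · exact h
          · have := h.card
            omega
        · intro D hD hne
          by_cases hDC : D = C
          · subst hDC
            refine ⟨y', ?_⟩
            by_contra hcon
            have h11 := (hhit v D hD y' hy'C).2 hcon
            rw [← h10, mem_insert] at h11
            rcases h11 with h11 | h11
            · exact hyy' h11
            · exact Gr.irrefl (hfam.green D hD C0 hC0 hne y' hy'C y' h11).1
          · rw [hgr D hD hne hDC]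
            exact hfam.nonempty hD
        · intro D hD hbb
          apply hgr D hD
          · rintro rfl
            have := hbb.card
            omega
          · rintro rfl
            exact hCR.not_BB hbb
    obtain ⟨x, hx⟩ := hfam.nonempty hC0
    exact huni v C0 hkey x hx (hb x (hsub C0 hC0 x hx))
  · -- the boxes which are completely hit
    intro U hUF hU
    set Y : Finset W := F.filter (fun y => ∃ u ∈ U, ¬ Gn Gr Gb u y) with hY
    have hmY : ∀ {y : W}, y ∈ Y ↔ y ∈ F ∧ ∃ u ∈ U, ¬ Gn Gr Gb u y := by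
      intro y
      rw [hY, mem_filter]
    set I1 := F2.filter (fun C => ¬ C ⊆ Y) with hI1
    set I2 := F2.filter (fun C => C ⊆ Y) with hI2
    set I3 : Finset (Finset W) := U.image (fun u => ({u} : Finset W)) with hI3
    have hI3c : I3.card = U.card :=
      card_image_of_injective _ (fun u v h => singleton_injective h)
    have hcase : ∀ C ∈ I1 ∪ I3, (C ∈ F2 ∧ (C \ Y).Nonempty ∧ ∀ x ∈ C, x ∉ U) ∨
        (∃ u ∈ U, C = {u} ∧ u ∉ Y) := by
      intro C hC
      rcases mem_union.1 hC with h | h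
      · left
        rw [hI1, mem_filter] at h
        refine ⟨h.1, ?_, ?_⟩
        · rw [nonempty_iff_ne_empty]
          intro h1
          exact h.2 (sdiff_eq_empty_iff_subset.1 h1)
        · intro x hx hxU
          exact Finset.disjoint_left.1 hUF hxU (hsub C h.1 x hx)
      · right
        rw [hI3, mem_image] at h
        obtain ⟨u, hu, rfl⟩ := h
        refine ⟨u, hu, rfl, fun h => ?_⟩
        exact Finset.disjoint_left.1 hUF hu (hmY.1 h).1
    have hgUC : ∀ u ∈ U, ∀ C ∈ F2, ∀ x ∈ C \ Y, Gn Gr Gb u x := by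
      intro u hu C hC x hx
      rw [mem_sdiff] at hx
      by_contra hcon
      exact hx.2 (hmY.2 ⟨hsub C hC x hx.1, u, hu, hcon⟩)
    obtain ⟨h1, h1i, _⟩ := fam_image (Gr := Gr) (Gb := Gb) (I := I1 ∪ I3)
      (κ := fun C => C \ Y)
      (by
        intro C hC
        rcases hcase C hC with ⟨h1, h2, _⟩ | ⟨u, hu, rfl, h2⟩
        · exact (hfam.box C h1).sub sdiff_subset h2
        · have h3 : ({u} : Finset W) \ Y = {u} := by
            ext x
            rw [mem_sdiff, mem_singleton]
            exact ⟨fun h => h.1, fun h => ⟨h, by rw [h]; exact h2⟩⟩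
          simp only [h3]
          exact Or.inl (rb_single u))
      (by
        intro C hC D hD hCD x hx y hy
        rcases hcase C hC with ⟨h1, h2, _⟩ | ⟨u, hu, rfl, h2⟩ <;>
          rcases hcase D hD with ⟨h1', h2', _⟩ | ⟨u', hu', rfl, h2'⟩
        · exact hfam.green C h1 D h1' hCD x (mem_sdiff.1 hx).1 y (mem_sdiff.1 hy).1
        · have hy' : y = u' := mem_singleton.1 (mem_sdiff.1 hy).1
          rw [hy']
          exact (hgUC u' hu' C h1 x hx).symm
        · have hx' : x = u := mem_singleton.1 (mem_sdiff.1 hx).1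
          rw [hx']
          exact hgUC u hu D h1' y hy
        · have hx' : x = u := mem_singleton.1 (mem_sdiff.1 hx).1
          have hy' : y = u' := mem_singleton.1 (mem_sdiff.1 hy).1
          rw [hx', hy']
          exact hU u hu u' hu' (fun h => hCD (by rw [h])))
    have h2 := hB.m0 _ h1
    rw [card_image_of_injOn (fun C hC D hD h => h1i C hC D hD h)] at h2
    have hdis : Disjoint I1 I3 := by
      rw [Finset.disjoint_left]
      intro C hC hC'
      rw [hI3, mem_image] at hC'
      obtain ⟨u, hu, rfl⟩ := hC'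
      exact Finset.disjoint_left.1 hUF hu
        (hsub _ (mem_filter.1 hC).1 u (mem_singleton_self u))
    rw [card_union_of_disjoint hdis, hI3c] at h2
    have h3 : I2.card + I1.card = F2.card := card_filter_add_card_filter_not (fun C => C ⊆ Y)
    obtain ⟨J, hJ, hJc⟩ := exists_subset_card_eq (show U.card ≤ I2.card by omega)
    have hch : ∀ C ∈ J, ∃ x, x ∈ C := fun C hC => hfam.nonempty (mem_filter.1 (hJ hC)).1
    choose f hf using hch
    refine ⟨J.attach.image (fun C => f C.1 C.2), ?_, ?_, ?_, ?_⟩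
    · intro z hz
      rw [mem_image] at hz
      obtain ⟨C, _, rfl⟩ := hz
      exact hsub C.1 (mem_filter.1 (hJ C.2)).1 _ (hf C.1 C.2)
    · rw [card_image_of_injective, card_attach, hJc]
      intro C D hCD
      by_contra hne
      have h4 := hf C.1 C.2
      simp only at hCD
      rw [hCD] at h4
      exact Gr.irrefl (hfam.green C.1 (mem_filter.1 (hJ C.2)).1 D.1 (mem_filter.1 (hJ D.2)).1
        (fun h => hne (Subtype.ext h)) _ h4 _ (hf D.1 D.2)).1
    · intro z hz y hy hzy
      rw [mem_image] at hz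
      obtain ⟨C, _, rfl⟩ := hz
      have h4 := (mem_filter.1 (hJ C.2))
      have h5 : y ∈ C.1 := (ng_iff hfam h4.1 (hf C.1 C.2) hy).1 hzy
      exact (hmY.1 (h4.2 h5)).2
    · intro z hz z' hz' hne
      rw [mem_image] at hz hz'
      obtain ⟨C, _, rfl⟩ := hz
      obtain ⟨D, _, rfl⟩ := hz'
      exact hfam.green C.1 (mem_filter.1 (hJ C.2)).1 D.1 (mem_filter.1 (hJ D.2)).1
        (fun h => hne (by
          have : C = D := Subtype.ext h
          rw [this])) _ (hf C.1 C.2) _ (hf D.1 D.2)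

end exist

section cert

variable {F : Finset W} {r : ℕ} {a b : ℝ}

theorem L1M.nonempty [Nonempty W] (hB : L1M Gr Gb F r) : F.Nonempty := by
  obtain ⟨v⟩ := ‹Nonempty W›
  by_cases hv : v ∈ F
  · exact ⟨v, hv⟩
  · obtain ⟨y, hy⟩ := hB.nz v hv
    exact ⟨y, (mem_hit.1 hy).1⟩

theorem L1M.mem_VV_of (hB : L1M Gr Gb F r) {v : W} (hv : v ∉ F) (h2 : (hit Gr Gb v F).card = 2)
    (hb : ∀ y ∈ F, Gb.Adj v y) : v ∈ VV Gr Gb F :=
  mem_VV.2 ⟨hv, h2, hb, hB.two v hv h2 hb⟩

theorem L1M.D_two (hB : L1M Gr Gb F r) (ha : 0 ≤ a) (hab : a ≤ b) (v : W) :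
    2 * a ≤ D a b Gr Gb v F := by
  by_cases hv : v ∈ F
  · have := D_self (Gr := Gr) (Gb := Gb) ha hab hv
    linarith
  rcases hB.hits v hv with ⟨y, hy, h1, h2⟩ | h
  · have h3 : D a b Gr Gb v {y} ≤ D a b Gr Gb v F := D_mono ha hab v (singleton_subset_iff.2 hy)
    have h4 : D a b Gr Gb v {y} = Mat a b Gr Gb v y := by
      unfold D
      rw [sum_singleton]
    have h5 := mat_none (a := a) (b := b) h1 h2
    linarith
  · have h1 := D_ge_card (Gr := Gr) (Gb := Gb) ha hab v F
    have h2 : (2 : ℝ) ≤ (hit Gr Gb v F).card := by exact_mod_cast h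
    nlinarith

/-- a vertex of `F`, or with a hit which is not blue, is expensive -/
theorem L1M.D_nb (hB : L1M Gr Gb F r) (ha : 0 ≤ a) (hab : a ≤ b) {v : W} (hv : v ∉ F)
    (hnb : ∃ y ∈ F, ¬ Gb.Adj v y) : a + b ≤ D a b Gr Gb v F := by
  obtain ⟨y, hy, hvy⟩ := hnb
  rcases hB.hits v hv with ⟨z, hz, h1, h2⟩ | h
  · have h3 : D a b Gr Gb v {z} ≤ D a b Gr Gb v F :=
      D_mono ha hab v (singleton_subset_iff.2 hz)
    have h4 : D a b Gr Gb v {z} = Mat a b Gr Gb v z := by
      unfold D
      rw [sum_singleton]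
    have h5 := mat_none (a := a) (b := b) h1 h2
    linarith
  · have h1 := D_ge_one (Gr := Gr) (Gb := Gb) ha hab (v := v) hy (c := b - a)
      (fun h => hvy h.2) (by
        have := mat_ge_b (b := b) (Gr := Gr) ha hvy
        linarith)
    have h2 : (2 : ℝ) ≤ (hit Gr Gb v F).card := by exact_mod_cast h
    nlinarith

theorem L1M.D_ab (hB : L1M Gr Gb F r) (ha : 0 ≤ a) (hab : a ≤ b) (hb : b ≤ 2 * a) {v : W}
    (hvV : v ∉ VV Gr Gb F) : a + b ≤ D a b Gr Gb v F := by
  by_cases hv : v ∈ F
  · exact D_self (Gr := Gr) (Gb := Gb) ha hab hv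
  by_cases hnb : ∃ y ∈ F, ¬ Gb.Adj v y
  · exact hB.D_nb ha hab hv hnb
  · push Not at hnb
    have h2 : 2 ≤ (hit Gr Gb v F).card := by
      rcases hB.hits v hv with ⟨z, hz, h1, _⟩ | h
      · exact absurd (hnb z hz) h1
      · exact h
    have h3 : 3 ≤ (hit Gr Gb v F).card := by
      by_contra hcon
      exact hvV (hB.mem_VV_of hv (by omega) hnb)
    have h1 := D_ge_card (Gr := Gr) (Gb := Gb) ha hab v F
    have h4 : (3 : ℝ) ≤ (hit Gr Gb v F).card := by exact_mod_cast h3
    nlinarith

/-- `K` is a blue clique to which no vertex of `VV` can be added -/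
theorem L1M.D_K (hB : L1M Gr Gb F r) (ha : 0 ≤ a) (hab : a ≤ b) (hb : b ≤ 2 * a)
    {K : Finset W} (hmax : ∀ v ∈ VV Gr Gb F, v ∉ K → ∃ z ∈ K, ¬ Gb.Adj v z)
    (hKF : Disjoint F K) (v : W) : a + b ≤ D a b Gr Gb v (F ∪ K) := by
  by_cases hvV : v ∈ VV Gr Gb F
  · by_cases hvK : v ∈ K
    · exact D_self ha hab (mem_union_right _ hvK)
    · obtain ⟨z, hz, hvz⟩ := hmax v hvV hvK
      have hzF : z ∉ F := Finset.disjoint_right.1 hKF hz
      have h1 : D a b Gr Gb v (insert z F) ≤ D a b Gr Gb v (F ∪ K) := by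
        apply D_mono ha hab v
        exact insert_subset (mem_union_right _ hz) subset_union_left
      have h2 : D a b Gr Gb v (insert z F) = Mat a b Gr Gb v z + D a b Gr Gb v F := by
        unfold D
        rw [sum_insert hzF]
      have h3 := hB.D_two ha hab v
      have h4 := mat_ge_b (b := b) (Gr := Gr) ha hvz
      linarith
  · exact (hB.D_ab ha hab hb hvV).trans (D_mono ha hab v subset_union_left)

/-- for `U` green to a transversal of the red pairs, the completely hit boxes are not red pairs -/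
theorem L1M.hall_tv (hB : L1M Gr Gb F r) {Xb : Finset W}
    (hXb : ∀ x ∈ RR Gb F, x ∉ Xb → ∃ y ∈ Xb, y ∈ F ∧ ¬ Gn Gr Gb x y) {U : Finset W}
    (hUF : Disjoint U F) (hU : ∀ u ∈ U, ∀ v ∈ U, u ≠ v → Gn Gr Gb u v)
    (hUX : ∀ u ∈ U, ∀ x ∈ Xb, Gn Gr Gb u x) :
    ∃ Z ⊆ F \ RR Gb F, Z.card = U.card ∧
      (∀ z ∈ Z, ∀ y ∈ F, ¬ Gn Gr Gb z y → ∃ u ∈ U, ¬ Gn Gr Gb u y) ∧
      ∀ z ∈ Z, ∀ z' ∈ Z, z ≠ z' → Gn Gr Gb z z' := by
  obtain ⟨Z, h1, h2, h3, h4⟩ := hB.hall U hUF hU
  refine ⟨Z, ?_, h2, h3, h4⟩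
  intro z hz
  refine mem_sdiff.2 ⟨h1 hz, fun hR => ?_⟩
  by_cases hzX : z ∈ Xb
  · obtain ⟨u, hu, hng⟩ := h3 z hz z (h1 hz) (not_gn_self z)
    exact hng (hUX u hu z hzX)
  · obtain ⟨y, hy, hyF, hzy⟩ := hXb z hR hzX
    obtain ⟨u, hu, hng⟩ := h3 z hz y hyF hzy
    exact hng (hUX u hu y hy)

end cert

end L1

end Pool.Agent.Lib.MP_a05470_co
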