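import Pool.Agent.Lib.MP_a05470_co.TF.LevB
import Pool.Agent.Lib.MP_a05470_co.TF.LevM1

/-!
# Level one: boxes with at most two vertices and a blue clique, first the number of boxes
-/

set_option autoImplicit false
set_option linter.unusedSectionVars false

namespace Pool.Agent.Lib.MP_a05470_co

open Finset Classical JF

namespace LV

variable {W : Type} [Fintype W] {Gr Gb : SimpleGraph W}

theorem exists_levBM [Nonempty W] {a g r : ℕ} {F : Finset W} (ha : 0 < a) (hg : g ≤ a)
    (hcost : ∀ v : W, L1.D (a : ℝ) ((a + g : ℕ) : ℝ) Gr Gb v univ < Fintype.card W)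
    (hB : L1.L1M Gr Gb F r) :
    ∃ Fs K, LevB Gr Gb a g r Fs K := by
  have haR : (0 : ℝ) ≤ a := by positivity
  have habR : (a : ℝ) ≤ ((a + g : ℕ) : ℝ) := by
    push_cast
    have : (0 : ℝ) ≤ g := by positivity
    linarith
  have hbR : ((a + g : ℕ) : ℝ) ≤ 2 * a := by
    push_cast
    have : (g : ℝ) ≤ a := by exact_mod_cast hg
    linarith
  obtain ⟨K2, _, hK2V, hK2cl, hK2max⟩ := L1.exists_max_clique Gb (A := L1.VV Gr Gb F) (K0 := ∅)
    (empty_subset _) (by simp)
  have hFne : F.Nonempty := hB.nonempty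
  have hr := hB.cardR
  have hF1 : 2 * a + 1 ≤ F.card := by
    have h := L1.card_gt_of_D hcost (hB.D_two haR habR) hFne
    have : 2 * a < F.card := by exact_mod_cast h
    omega
  have hFK : Disjoint F K2 := by
    rw [Finset.disjoint_right]
    exact fun z hz => (L1.mem_VV.1 (hK2V hz)).1
  have hF2 : a + (a + g) + 1 ≤ F.card + K2.card := by
    have h := L1.card_gt_of_D hcost (hB.D_K haR habR hbR hK2max hFK)
      (hFne.mono subset_union_left)
    rw [card_union_of_disjoint hFK] at h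
    have : a + (a + g) < F.card + K2.card := by exact_mod_cast h
    omega
  obtain ⟨Fs, h1, h2, h3, h4⟩ := fam_of_good' hB.good
  obtain ⟨K, hK, hKc⟩ := exists_subset_card_eq (min_le_right g K2.card)
  have hsum : ∑ C ∈ Fs, C.card = F.card := by
    conv_rhs => rw [← h3]
    rw [card_biUnion]
    intro C hC D hD hCD
    show Disjoint C D
    rw [Finset.disjoint_left]
    intro x hx hx'
    exact Gr.irrefl (h1.green C hC D hD hCD x hx x hx').1
  have hCF : ∀ C ∈ Fs, ∀ x ∈ C, x ∈ F := by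
    intro C hC x hx
    rw [← h3, mem_biUnion]
    exact ⟨C, hC, hx⟩
  refine ⟨Fs, K, h1, h2, by omega, ?_, ?_, ?_, ?_, ?_, ?_, ?_⟩
  · exact fun z hz z' hz' hne => hK2cl z (hK hz) z' (hK hz') hne
  · exact fun z hz C hC x hx => (L1.mem_VV.1 (hK2V (hK hz))).2.2.1 x (hCF C hC x hx)
  · intro z hz C hC hR hC2 x hx
    have h5 := (L1.mem_VV.1 (hK2V (hK hz))).2.2.2
    obtain ⟨y, hy, hyx⟩ := exists_mem_ne (s := C) (by omega) x
    have h6 : x ∈ L1.RR Gb F := by
      unfold L1.RR
      rw [mem_filter]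
      exact ⟨hCF C hC x hx, y, hCF C hC y hy, hyx, (hR.2 x hx y hy (Ne.symm hyx)).2⟩
    by_contra hcon
    exact Finset.disjoint_left.1 h5 (L1.mem_hit.2 ⟨hCF C hC x hx, fun h => hcon h.1⟩) h6
  · intro z hz
    have h5 := (L1.mem_VV.1 (hK2V (hK hz))).2.1
    rw [← h5]
    have h6 : ∀ C ∈ Fs.filter (fun C => ∃ x ∈ C, ¬ Gr.Adj z x), ∃ x ∈ C, ¬ Gr.Adj z x :=
      fun C hC => (mem_filter.1 hC).2
    choose! f hf1 hf2 using h6
    apply card_le_card_of_injOn f
    · intro C hC
      rw [mem_coe] at hC ⊢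
      rw [L1.mem_hit]
      exact ⟨hCF C (mem_filter.1 hC).1 _ (hf1 C hC), fun h => hf2 C hC h.1⟩
    · intro C hC D hD hCD
      rw [mem_coe] at hC hD
      by_contra hne
      have h7 := hf1 C hC
      rw [hCD] at h7
      exact Gr.irrefl (h1.green C (mem_filter.1 hC).1 D (mem_filter.1 hD).1 hne _ h7 _
        (hf1 D hD)).1
  · rw [hKc]
    exact min_le_left _ _
  · rw [hsum]
    exact hF1
  · rw [hsum, hKc]
    rcases min_cases g K2.card with ⟨h5, _⟩ | ⟨h5, _⟩
    · rw [h5]
      omega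
    · rw [h5]
      omega

end LV

end Pool.Agent.Lib.MP_a05470_co
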