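import Pool.Agent.Lib.MP_a05470_co.TF.LevCut

/-!
# All levels, first the number of boxes

Families of boxes maximal for (number of boxes, number of blue pairs, number of red boxes with at
least two vertices); the rest as for `Best1`, `Best2`.
-/

set_option autoImplicit false
set_option linter.unusedSectionVars false

namespace Pool.Agent.Lib.MP_a05470_co

open Finset Classical JF

namespace LV

variable {W : Type} [Fintype W] {Gr Gb : SimpleGraph W}

section defs

variable (Gr Gb)

/-- stage 1, first the number of boxes -/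
structure Best1M (F : Finset (Finset W)) : Prop where
  fam : Fam Gr Gb F
  m0 : ∀ F', Fam Gr Gb F' → F'.card ≤ F.card
  m1 : ∀ F', Fam Gr Gb F' → F'.card = F.card → nb Gr Gb F' ≤ nb Gr Gb F
  m2 : ∀ F', Fam Gr Gb F' → F'.card = F.card → nb Gr Gb F' = nb Gr Gb F →
    nr Gr Gb 2 F' ≤ nr Gr Gb 2 F

/-- stage 2: `Sp` is the set of special red pairs -/
structure Best2M (F Sp : Finset (Finset W)) : Prop where
  b1 : Best1M Gr Gb F
  sub : Sp ⊆ F
  spc : ∀ C ∈ Sp, RB Gr Gb C ∧ C.card = 2
  max : ∀ F', Best1M Gr Gb F' → Sp ⊆ F' → ∀ i, 3 ≤ i →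
    (∀ j, 3 ≤ j → j < i → nr Gr Gb j (F \ Sp) ≤ nr Gr Gb j (F' \ Sp)) →
    nr Gr Gb i (F' \ Sp) ≤ nr Gr Gb i (F \ Sp)

end defs

theorem exists_best1M (Gr Gb : SimpleGraph W) : ∃ F, Best1M Gr Gb F := by
  set S : Finset (Finset (Finset W)) := univ.filter (fun F => Fam Gr Gb F) with hS
  have hne : S.Nonempty := ⟨∅, by
    rw [hS, mem_filter]
    exact ⟨mem_univ _, fam_empty Gr Gb⟩⟩
  set f : ℕ → Finset (Finset W) → ℕ := fun i F => match i with
    | 0 => F.card
    | 1 => nb Gr Gb F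
    | 2 => nr Gr Gb 2 F
    | _ => 0 with hf
  obtain ⟨F, hF, hmax⟩ := exists_lex_max S hne f
  rw [hS, mem_filter] at hF
  refine ⟨F, hF.2, ?_, ?_, ?_⟩
  · intro F' hF'
    exact hmax F' (by rw [hS, mem_filter]; exact ⟨mem_univ _, hF'⟩) 0 (by
      intro j hj
      omega)
  · intro F' hF' h1
    exact hmax F' (by rw [hS, mem_filter]; exact ⟨mem_univ _, hF'⟩) 1 (by
      intro j hj
      have : j = 0 := by omega
      subst this
      simp only [hf]
      omega)
  · intro F' hF' h1 h2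
    exact hmax F' (by rw [hS, mem_filter]; exact ⟨mem_univ _, hF'⟩) 2 (by
      intro j hj
      have : j = 0 ∨ j = 1 := by omega
      rcases this with rfl | rfl
      · simp only [hf]
        omega
      · simp only [hf]
        omega)

section moves

variable {F : Finset (Finset W)} {v : W}

/-- a vertex outside `F` has a full box -/
theorem Best1M.full (hB : Best1M Gr Gb F) (hv : ∀ C ∈ F, v ∉ C)
    (hne : ∀ C ∈ F, (gp Gr Gb v C).Nonempty) : False := by
  have hvF : ({v} : Finset W) ∉ F := fun h => hv _ h (mem_singleton_self v)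
  have hcase : ∀ C ∈ insert {v} F, (C = {v} ∧ v ∈ C) ∨ (C ∈ F ∧ v ∉ C) := by
    intro C hC
    rcases mem_insert.1 hC with rfl | h
    · exact Or.inl ⟨rfl, mem_singleton_self v⟩
    · exact Or.inr ⟨h, hv C h⟩
  obtain ⟨h1, h1i, _⟩ := fam_image (Gr := Gr) (Gb := Gb) (I := insert {v} F)
    (κ := fun C => if v ∈ C then {v} else gp Gr Gb v C)
    (by
      intro C hC
      rcases hcase C hC with ⟨_, h⟩ | ⟨hCF, h⟩
      · simp only [if_pos h]
        exact Or.inl (rb_single v)
      · simp only [if_neg h]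
        exact (hB.fam.box C hCF).sub (gp_subset v C) (hne C hCF))
    (by
      intro C hC D hD hCD x hx y hy
      rcases hcase C hC with ⟨hC1, h⟩ | ⟨hCF, h⟩ <;> rcases hcase D hD with ⟨hD1, h'⟩ | ⟨hDF, h'⟩
      · exact absurd (hC1.trans hD1.symm) hCD
      · simp only [if_pos h, mem_singleton] at hx
        simp only [if_neg h'] at hy
        rw [hx]
        exact (mem_gp.1 hy).2
      · simp only [if_neg h] at hx
        simp only [if_pos h', mem_singleton] at hy
        rw [hy]
        have := (mem_gp.1 hx).2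
        exact ⟨this.1.symm, this.2.symm⟩
      · simp only [if_neg h] at hx
        simp only [if_neg h'] at hy
        exact hB.fam.green C hCF D hDF hCD x (gp_subset v C hx) y (gp_subset v D hy))
  have h2 := hB.m0 _ h1
  rw [card_image_of_injOn (fun C hC D hD h => h1i C hC D hD h), card_insert_of_notMem hvF] at h2
  omega

/-- replacing `C0` by a box `D0` consisting of `v` and vertices of `C0` -/
theorem Best1M.replace (hB : Best1M Gr Gb F) {C0 D0 : Finset W} (hU : Uni Gr Gb F v C0)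
    (hD : Box Gr Gb D0) (hDC : ∀ x ∈ D0, x = v ∨ x ∈ C0) :
    ∃ F', Fam Gr Gb F' ∧ F'.card = F.card ∧
      nb Gr Gb F' = nb Gr Gb F + (if BB Gr Gb D0 then 1 else 0) ∧
      (∀ D ∈ F, D ≠ C0 → gp Gr Gb v D = D → D ∈ F') ∧
      (∀ Sp : Finset (Finset W), Sp ⊆ F → C0 ∉ Sp → (∀ D ∈ Sp, gp Gr Gb v D = D) → ∀ j,
        nr Gr Gb j (F' \ Sp) = ((F \ Sp).filter (fun C => if C = C0 then
          (RB Gr Gb D0 ∧ j ≤ D0.card) else (RB Gr Gb C ∧ j ≤ (gp Gr Gb v C).card))).card) := by
  have hDx : ∀ D' ∈ F, D' ≠ C0 → ∀ x ∈ D0, ∀ y ∈ gp Gr Gb v D', Gr.Adj x y ∧ Gb.Adj x y := by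
    intro D' hD' hne' x hx y hy
    rcases hDC x hx with rfl | hx
    · exact (mem_gp.1 hy).2
    · exact hB.fam.green C0 hU.mem D' hD' (Ne.symm hne') x hx y (gp_subset v D' hy)
  obtain ⟨h1, h1i, h2⟩ := fam_image (Gr := Gr) (Gb := Gb) (I := F)
    (κ := fun C => if C = C0 then D0 else gp Gr Gb v C)
    (by
      intro C hC
      by_cases h : C = C0
      · simp only [if_pos h]
        exact hD
      · simp only [if_neg h]
        exact (hB.fam.box C hC).sub (gp_subset v C) (hU.ne C hC h))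
    (by
      intro C hC D' hD' hCD x hx y hy
      by_cases h : C = C0 <;> by_cases h' : D' = C0
      · exact absurd (h.trans h'.symm) hCD
      · simp only [if_pos h] at hx
        simp only [if_neg h'] at hy
        exact hDx D' hD' h' x hx y hy
      · simp only [if_neg h] at hx
        simp only [if_pos h'] at hy
        have := hDx C hC h y hy x hx
        exact ⟨this.1.symm, this.2.symm⟩
      · simp only [if_neg h] at hx
        simp only [if_neg h'] at hy
        exact hB.fam.green C hC D' hD' hCD x (gp_subset v C hx) y (gp_subset v D' hy))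
  set κ : Finset W → Finset W := fun C => if C = C0 then D0 else gp Gr Gb v C with hκ
  have hRB : ∀ C ∈ F, C ≠ C0 → (RB Gr Gb (gp Gr Gb v C) ↔ RB Gr Gb C) := by
    intro C hC hne
    constructor
    · intro h
      rcases hB.fam.box C hC with h4 | h4
      · exact h4
      · rw [hU.bb C hC h4] at h
        exact absurd h4 h.not_BB
    · intro h
      exact RB.gp h (hU.ne C hC hne)
  refine ⟨F.image κ, h1, ?_, ?_, ?_, ?_⟩
  · rw [card_image_of_injOn (fun C hC D hD h => h1i C hC D hD h)]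
  · unfold nb
    rw [h2 (fun C => BB Gr Gb C)]
    have h3 : F.filter (fun C => BB Gr Gb (κ C)) = F.filter (fun C => BB Gr Gb C) ∪
        (if BB Gr Gb D0 then {C0} else ∅) := by
      ext C
      rw [mem_filter, mem_union, mem_filter]
      by_cases h : C = C0
      · subst h
        simp only [hκ, if_pos rfl]
        by_cases h' : BB Gr Gb D0
        · simp [h', hU.mem]
        · simp [h', hU.rb.not_BB]
      · simp only [hκ, if_neg h]
        have h5 : C ∉ (if BB Gr Gb D0 then ({C0} : Finset (Finset W)) else ∅) := by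
          split_ifs
          · simp [h]
          · simp
        constructor
        · rintro ⟨hC, h'⟩
          left
          refine ⟨hC, ?_⟩
          rcases hB.fam.box C hC with h4 | h4
          · exact absurd h' ((hRB C hC h).2 h4).not_BB
          · exact h4
        · rintro (⟨hC, h'⟩ | h')
          · refine ⟨hC, ?_⟩
            rw [hU.bb C hC h']
            exact h'
          · exact absurd h' h5
    rw [h3, card_union_of_disjoint]
    · congr 1
      split_ifs <;> simp
    · rw [disjoint_left]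
      intro C hC hC'
      rw [mem_filter] at hC
      split_ifs at hC' with h'
      · rw [mem_singleton] at hC'
        rw [hC'] at hC
        exact hU.rb.not_BB hC.2
      · simp at hC'
  · intro D hD' hne h
    rw [mem_image]
    refine ⟨D, hD', ?_⟩
    simp only [hκ, if_neg hne]
    exact h
  · intro Sp hSp hC0 hgr j
    have h3 : F.image κ \ Sp = (F \ Sp).image κ := by
      ext D
      rw [mem_sdiff, mem_image, mem_image]
      constructor
      · rintro ⟨⟨C, hC, rfl⟩, h⟩
        refine ⟨C, mem_sdiff.2 ⟨hC, ?_⟩, rfl⟩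
        intro hCS
        apply h
        have : C ≠ C0 := fun h' => hC0 (h' ▸ hCS)
        simp only [hκ, if_neg this]
        rw [hgr C hCS]
        exact hCS
      · rintro ⟨C, hC, rfl⟩
        rw [mem_sdiff] at hC
        refine ⟨⟨C, hC.1, rfl⟩, ?_⟩
        intro hS
        have h4 : κ (κ C) = κ C := by
          have : κ C ≠ C0 := fun h' => hC0 (h' ▸ hS)
          simp only [hκ] at this ⊢
          rw [if_neg this]
          exact hgr _ hS
        have h5 := h1i (κ C) (hSp hS) C hC.1 h4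
        rw [h5] at hS
        exact hC.2 hS
    unfold nr
    rw [h3]
    obtain ⟨_, _, h2'⟩ := fam_image (Gr := Gr) (Gb := Gb) (I := F \ Sp) (κ := κ)
      (fun C hC => h1.box _ (mem_image_of_mem κ (mem_sdiff.1 hC).1))
      (fun C hC D hD hne => by
        have hC' := (mem_sdiff.1 hC).1
        have hD' := (mem_sdiff.1 hD).1
        exact h1.green _ (mem_image_of_mem κ hC') _ (mem_image_of_mem κ hD')
          (fun h => hne (h1i C hC' D hD' h)))
    have h6 := h2' (fun C => RB Gr Gb C ∧ j ≤ C.card)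
    have h7 : (F \ Sp).filter (fun C => RB Gr Gb (κ C) ∧ j ≤ (κ C).card) =
        (F \ Sp).filter (fun C => if C = C0 then
          (RB Gr Gb D0 ∧ j ≤ D0.card) else (RB Gr Gb C ∧ j ≤ (gp Gr Gb v C).card)) := by
      apply filter_congr
      intro C hC
      have hC' := (mem_sdiff.1 hC).1
      by_cases h : C = C0
      · simp only [hκ, if_pos h]
      · simp only [hκ, if_neg h]
        rw [hRB C hC' h]
    rw [← h7]
    convert h6

/-- a single unit is completely nonblue -/
theorem Best1M.uni_nonblue (hB : Best1M Gr Gb F) {C0 : Finset W} (hU : Uni Gr Gb F v C0) {x : W}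
    (hx : x ∈ C0) : ¬ Gb.Adj v x := by
  intro hb
  have hr : ¬ Gr.Adj v x := by
    intro hr
    have : x ∈ gp Gr Gb v C0 := mem_gp.2 ⟨hx, hr, hb⟩
    rw [hU.full] at this
    simp at this
  have hvx : v ≠ x := Gb.ne_of_adj hb
  have hD : BB Gr Gb ({v, x} : Finset W) := ⟨v, x, hvx, rfl, hb, hr⟩
  obtain ⟨F', h1, h2, h3, _⟩ := hB.replace hU (D0 := {v, x}) (Or.inr hD) (by
    intro y hy
    rw [mem_insert, mem_singleton] at hy
    rcases hy with h | h
    · exact Or.inl h
    · exact Or.inr (h ▸ hx))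
  rw [if_pos hD] at h3
  have h4 := hB.m1 F' h1 h2
  omega

/-- a single unit which is completely red can only be blocked -/
theorem Best2M.uni_blocked {Sp : Finset (Finset W)} (hB : Best2M Gr Gb F Sp) {C0 : Finset W}
    (hU : Uni Gr Gb F v C0) (hC0 : C0 ∉ Sp) (hr : ∀ x ∈ C0, Gr.Adj v x) :
    ∃ D ∈ F, D ≠ C0 ∧ (Bad Gr Gb C0.card v D ∨ (D ∈ Sp ∧ gp Gr Gb v D ≠ D)) := by
  by_contra hcon
  push Not at hcon
  have hvC : v ∉ C0 := hU.vF C0 hU.mem
  have hD : RB Gr Gb (insert v C0) := by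
    refine ⟨insert_nonempty v C0, ?_⟩
    intro x hx y hy hxy
    rw [mem_insert] at hx hy
    rcases hx with rfl | hx <;> rcases hy with rfl | hy
    · exact absurd rfl hxy
    · exact ⟨hr y hy, hB.b1.uni_nonblue hU hy⟩
    · exact ⟨(hr x hx).symm, fun h => hB.b1.uni_nonblue hU hx h.symm⟩
    · exact hU.rb.2 x hx y hy hxy
  have hcardD : (insert v C0).card = C0.card + 1 := card_insert_of_notMem hvC
  obtain ⟨F', h1, h2, h3, h4, h5⟩ := hB.b1.replace hU (D0 := insert v C0) (Or.inl hD) (by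
    intro y hy
    rwa [mem_insert] at hy)
  rw [if_neg hD.not_BB, add_zero] at h3
  have hbeta : F'.card = F.card := h2
  have hgood : ∀ D ∈ F, D ≠ C0 → gp Gr Gb v D = D ∨ C0.card < (gp Gr Gb v D).card := by
    intro D hD hne
    by_contra h
    exact (hcon D hD hne).1 h
  -- monotonicity of the counts
  have hmono : ∀ Sp' : Finset (Finset W), Sp' ⊆ F → C0 ∉ Sp' → (∀ D ∈ Sp', gp Gr Gb v D = D) →
      ∀ j ≤ C0.card + 1, nr Gr Gb j (F \ Sp') ≤ nr Gr Gb j (F' \ Sp') ∧
        (j = C0.card + 1 → nr Gr Gb j (F \ Sp') < nr Gr Gb j (F' \ Sp')) := by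
    intro Sp' hS1 hS2 hS3 j hj
    rw [h5 Sp' hS1 hS2 hS3 j]
    unfold nr
    have hsub : (F \ Sp').filter (fun C => RB Gr Gb C ∧ j ≤ C.card) ⊆
        (F \ Sp').filter (fun C => if C = C0 then (RB Gr Gb (insert v C0) ∧ j ≤ (insert v C0).card)
          else (RB Gr Gb C ∧ j ≤ (gp Gr Gb v C).card)) := by
      intro C hC
      rw [mem_filter] at hC ⊢
      refine ⟨hC.1, ?_⟩
      by_cases h : C = C0
      · rw [if_pos h]
        exact ⟨hD, by rw [hcardD]; exact hj⟩
      · rw [if_neg h]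
        refine ⟨hC.2.1, ?_⟩
        rcases hgood C (mem_sdiff.1 hC.1).1 h with h' | h'
        · rw [h']
          exact hC.2.2
        · omega
    refine ⟨card_le_card hsub, ?_⟩
    intro hj'
    apply card_lt_card
    rw [Finset.ssubset_iff_of_subset hsub]
    refine ⟨C0, ?_, ?_⟩
    · rw [mem_filter, if_pos rfl]
      exact ⟨mem_sdiff.2 ⟨hU.mem, hS2⟩, hD, by rw [hcardD]; exact hj⟩
    · rw [mem_filter]
      rintro ⟨_, _, h⟩
      omega
  have hm := hmono ∅ (empty_subset F) (by simp) (by simp)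
  simp only [sdiff_empty] at hm
  have hd : 1 ≤ C0.card := card_pos.2 hU.rb.1
  have h6 := hm 2 (by omega)
  have h7 := hB.b1.m2 F' h1 hbeta h3
  have h8 : C0.card ≠ 1 := by
    intro h
    have := h6.2 (by omega)
    omega
  -- now the new family is again maximal at stage 1
  have hnr2 : nr Gr Gb 2 F' = nr Gr Gb 2 F := le_antisymm h7 h6.1
  have hB' : Best1M Gr Gb F' := by
    refine ⟨h1, ?_, ?_, ?_⟩
    · intro G hG
      rw [hbeta]
      exact hB.b1.m0 G hG
    · intro G hG hb
      rw [h3]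
      exact hB.b1.m1 G hG (hb.trans hbeta)
    · intro G hG hb hn
      rw [hnr2]
      exact hB.b1.m2 G hG (hb.trans hbeta) (hn.trans h3)
  have hspgr : ∀ D ∈ Sp, gp Gr Gb v D = D := by
    intro D hD
    by_contra h
    exact h ((hcon D (hB.sub hD) (fun h' => hC0 (h' ▸ hD))).2 hD)
  have hSp' : Sp ⊆ F' := by
    intro D hD
    exact h4 D (hB.sub hD) (fun h' => hC0 (h' ▸ hD)) (hspgr D hD)
  have hm' := hmono Sp hB.sub hC0 hspgr
  have h9 := hB.max F' hB' hSp' (C0.card + 1) (by omega) (fun j hj1 hj2 => (hm' j (by omega)).1)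
  have h10 := (hm' (C0.card + 1) le_rfl).2 rfl
  omega

theorem Best2M.core {Sp : Finset (Finset W)} (hB : Best2M Gr Gb F Sp) : Core Gr Gb F Sp :=
  ⟨hB.b1.fam, hB.sub, hB.spc, fun _ h1 h2 => (hB.b1.full h1 h2).elim,
    fun _ _ h1 _ h2 => hB.b1.uni_nonblue h1 h2, fun _ _ h1 h2 h3 => hB.uni_blocked h1 h2 h3⟩

end moves

/-- shrinking `s` red boxes to pairs -/
theorem Best1M.shrink {F0 : Finset (Finset W)} (h : Best1M Gr Gb F0) {s : ℕ}
    (hs : s ≤ nr Gr Gb 2 F0) :
    ∃ F Sp, Best1M Gr Gb F ∧ Sp ⊆ F ∧ Sp.card = s ∧ (∀ C ∈ Sp, RB Gr Gb C ∧ C.card = 2) ∧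
      F.card = F0.card ∧ nb Gr Gb F = nb Gr Gb F0 ∧ nr Gr Gb 2 F = nr Gr Gb 2 F0 := by
  obtain ⟨Sel, hSel, hcard⟩ := exists_subset_card_eq hs
  have hSelF : ∀ C ∈ Sel, C ∈ F0 ∧ RB Gr Gb C ∧ 2 ≤ C.card := by
    intro C hC
    have := hSel hC
    rw [mem_filter] at this
    exact this
  have hch : ∀ C : Finset W, ∃ D ⊆ C, 2 ≤ C.card → D.card = 2 := by
    intro C
    by_cases h : 2 ≤ C.card
    · obtain ⟨D, hD, hD'⟩ := exists_subset_card_eq h
      exact ⟨D, hD, fun _ => hD'⟩
    · exact ⟨C, subset_refl _, fun h' => absurd h' h⟩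
  choose sh hsh hsh2 using hch
  obtain ⟨h1, h1i, h2⟩ := fam_image (Gr := Gr) (Gb := Gb) (I := F0)
    (κ := fun C => if C ∈ Sel then sh C else C)
    (by
      intro C hC
      by_cases h' : C ∈ Sel
      · simp only [if_pos h']
        have h3 := hSelF C h'
        exact Or.inl (rb_sub h3.2.1 (hsh C) (card_pos.1 (by rw [hsh2 C h3.2.2]; norm_num)))
      · simp only [if_neg h']
        exact h.fam.box C hC)
    (by
      intro C hC D hD hCD x hx y hy
      have hx' : x ∈ C := by
        by_cases h' : C ∈ Sel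
        · simp only [if_pos h'] at hx
          exact hsh C hx
        · simpa only [if_neg h'] using hx
      have hy' : y ∈ D := by
        by_cases h' : D ∈ Sel
        · simp only [if_pos h'] at hy
          exact hsh D hy
        · simpa only [if_neg h'] using hy
      exact h.fam.green C hC D hD hCD x hx' y hy')
  set κ : Finset W → Finset W := fun C => if C ∈ Sel then sh C else C with hκ
  have hFc : (F0.image κ).card = F0.card :=
    card_image_of_injOn (fun C hC D hD h => h1i C hC D hD h)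
  have hκR : ∀ C ∈ F0, (RB Gr Gb (κ C) ∧ 2 ≤ (κ C).card ↔ RB Gr Gb C ∧ 2 ≤ C.card) ∧
      (BB Gr Gb (κ C) ↔ BB Gr Gb C) := by
    intro C hC
    by_cases h' : C ∈ Sel
    · have h3 := hSelF C h'
      have h4 : RB Gr Gb (sh C) :=
        rb_sub h3.2.1 (hsh C) (card_pos.1 (by rw [hsh2 C h3.2.2]; norm_num))
      simp only [hκ, if_pos h']
      refine ⟨⟨fun _ => h3.2, fun _ => ⟨h4, by rw [hsh2 C h3.2.2]⟩⟩, ?_⟩
      exact ⟨fun h5 => absurd h5 h4.not_BB, fun h5 => absurd h5 h3.2.1.not_BB⟩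
    · simp only [hκ, if_neg h', and_self]
  have hnr : nr Gr Gb 2 (F0.image κ) = nr Gr Gb 2 F0 := by
    unfold nr
    have h3 := h2 (fun C => RB Gr Gb C ∧ 2 ≤ C.card)
    have h4 : F0.filter (fun C => RB Gr Gb (κ C) ∧ 2 ≤ (κ C).card) =
        F0.filter (fun C => RB Gr Gb C ∧ 2 ≤ C.card) := by
      apply filter_congr
      intro C hC
      exact (hκR C hC).1
    rw [← h4]
    convert h3
  have hnb : nb Gr Gb (F0.image κ) = nb Gr Gb F0 := by
    unfold nb
    rw [h2 (fun C => BB Gr Gb C)]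
    congr 1
    apply filter_congr
    intro C hC
    exact (hκR C hC).2
  refine ⟨F0.image κ, Sel.image κ, ⟨h1, ?_, ?_, ?_⟩, ?_, ?_, ?_, hFc, hnb, hnr⟩
  · intro G hG
    rw [hFc]
    exact h.m0 G hG
  · intro G hG hb
    rw [hnb]
    exact h.m1 G hG (hb.trans hFc)
  · intro G hG hb hn
    rw [hnr]
    exact h.m2 G hG (hb.trans hFc) (hn.trans hnb)
  · exact image_subset_image (fun C hC => (hSelF C hC).1)
  · rw [card_image_of_injOn, hcard]
    intro C hC D hD h'
    exact h1i C (hSelF C hC).1 D (hSelF D hD).1 h'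
  · intro C hC
    rw [mem_image] at hC
    obtain ⟨C, hC, rfl⟩ := hC
    have h3 := hSelF C hC
    simp only [hκ, if_pos hC]
    exact ⟨rb_sub h3.2.1 (hsh C) (card_pos.1 (by rw [hsh2 C h3.2.2]; norm_num)), hsh2 C h3.2.2⟩

theorem Best1M.exists_best2M {F0 : Finset (Finset W)} (h : Best1M Gr Gb F0) {s : ℕ}
    (hs : s ≤ nr Gr Gb 2 F0) :
    ∃ F Sp, Best2M Gr Gb F Sp ∧ Sp.card = s := by
  obtain ⟨F1, Sp, hF1, hSp, hcard, hspc, _⟩ := h.shrink hs
  set S : Finset (Finset (Finset W)) := univ.filter (fun F => Best1M Gr Gb F ∧ Sp ⊆ F) with hS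
  have hne : S.Nonempty := ⟨F1, by
    rw [hS, mem_filter]
    exact ⟨mem_univ _, hF1, hSp⟩⟩
  obtain ⟨F, hF, hmax⟩ := exists_lex_max S hne
    (fun i F => if 3 ≤ i then nr Gr Gb i (F \ Sp) else 0)
  rw [hS, mem_filter] at hF
  refine ⟨F, Sp, ⟨hF.2.1, hF.2.2, hspc, ?_⟩, hcard⟩
  intro F' hF' hSp' i hi hj
  have h1 := hmax F' (by rw [hS, mem_filter]; exact ⟨mem_univ _, hF', hSp'⟩) i (by
    intro j hji
    by_cases h3 : 3 ≤ j
    · simp only [if_pos h3]
      exact hj j h3 hji
    · simp only [if_neg h3]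
      exact le_rfl)
  simp only [if_pos hi] at h1
  exact h1

/-- any two maximal families have the same number of red boxes with two vertices -/
theorem Best1M.eq {F F' : Finset (Finset W)} (h : Best1M Gr Gb F) (h' : Best1M Gr Gb F') :
    F.card = F'.card ∧ nb Gr Gb F = nb Gr Gb F' ∧ nr Gr Gb 2 F = nr Gr Gb 2 F' := by
  have h1 : F.card = F'.card := le_antisymm (h'.m0 F h.fam) (h.m0 F' h'.fam)
  have h2 : nb Gr Gb F = nb Gr Gb F' :=
    le_antisymm (h'.m1 F h.fam h1) (h.m1 F' h'.fam h1.symm)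
  exact ⟨h1, h2, le_antisymm (h'.m2 F h.fam h1 h2) (h.m2 F' h'.fam h1.symm h2.symm)⟩

section out

variable {a g : ℕ}

/-- the structure theorem, from a family at stage one -/
theorem levelsM (ha : 1 ≤ a) (hga : g ≤ a) (hcheap : Cheap (a : ℝ) ((a : ℝ) + g) Gr Gb)
    {F0 : Finset (Finset W)} (hF0 : Best1M Gr Gb F0) {s : ℕ} (hs : s ≤ nr Gr Gb 2 F0) :
    ∃ F Sp M T, LevelOut Gr Gb a g s F Sp M ∧ TOut Gr Gb F M T ∧
      nr Gr Gb 2 F0 ≤ nr Gr Gb 2 F + s := by
  obtain ⟨F, Sp, hB, hcard⟩ := hF0.exists_best2M hs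
  obtain ⟨F', M, T, h, h', h2⟩ := hB.core.out ha hga hcheap
  rw [hcard] at h h2
  have h3 := (hF0.eq hB.b1).2.2
  exact ⟨F', Sp, M, T, h, h', by omega⟩

end out

end LV

end Pool.Agent.Lib.MP_a05470_co
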