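import Pool.Agent.Lib.MP_a05470_co.TF.Bridge

/-!
# Level one: boxes with at most two vertices and a blue clique
-/

set_option autoImplicit false
set_option linter.unusedSectionVars false

namespace Pool.Agent.Lib.MP_a05470_co

open Finset Classical JF

namespace LV

variable {W : Type} [Fintype W] {Gr Gb : SimpleGraph W}

/-- from sets of vertices to families of boxes -/
theorem fam_of_good' {F : Finset W} (h : L1.Good Gr Gb F) :
    ∃ Fs, Fam Gr Gb Fs ∧ (∀ C ∈ Fs, C.card ≤ 2) ∧ Fs.biUnion (fun C => C) = F ∧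
      (L1.RR Gb F).card = 2 * nr Gr Gb 2 Fs := by
  set cl : W → Finset W := fun x => F.filter (fun y => ¬ L1.Gn Gr Gb x y) with hcl
  have hmem : ∀ {x y : W}, y ∈ cl x ↔ y ∈ F ∧ ¬ L1.Gn Gr Gb x y := by
    intro x y
    rw [hcl]
    simp only [mem_filter]
  have hself : ∀ x ∈ F, x ∈ cl x := fun x hx => hmem.2 ⟨hx, L1.not_gn_self x⟩
  have htr : ∀ x ∈ F, ∀ y ∈ F, ∀ z ∈ F, ¬ L1.Gn Gr Gb x y → ¬ L1.Gn Gr Gb x z →
      ¬ L1.Gn Gr Gb y z := by
    intro x hx y hy z hz h1 h2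
    by_cases hxy : x = y
    · rw [← hxy]
      exact h2
    by_cases hxz : x = z
    · rw [← hxz]
      exact fun h3 => h1 h3.symm
    rw [h.uniq x hx y hy z hz hxy hxz h1 h2]
    exact L1.not_gn_self z
  have hcleq : ∀ x ∈ F, ∀ y ∈ F, ¬ L1.Gn Gr Gb x y → cl x = cl y := by
    intro x hx y hy hxy
    ext z
    rw [hmem, hmem]
    constructor
    · rintro ⟨hz, h1⟩
      exact ⟨hz, htr x hx y hy z hz hxy h1⟩
    · rintro ⟨hz, h1⟩
      exact ⟨hz, htr y hy x hx z hz (fun h2 => hxy h2.symm) h1⟩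
  have hcl2 : ∀ x ∈ F, (cl x).card ≤ 2 := by
    intro x hx
    have h1 : ((cl x).erase x).card ≤ 1 := by
      rw [card_le_one]
      intro y hy z hz
      rw [mem_erase, hmem] at hy hz
      exact h.uniq x hx y hy.2.1 z hz.2.1 (Ne.symm hy.1) (Ne.symm hz.1) hy.2.2 hz.2.2
    rw [card_erase_of_mem (hself x hx)] at h1
    omega
  have hfam : Fam Gr Gb (F.image cl) := by
    constructor
    · intro C hC
      rw [mem_image] at hC
      obtain ⟨x, hx, rfl⟩ := hC
      by_cases h1 : ∃ y ∈ cl x, y ≠ x ∧ ¬ Gr.Adj x y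
      · obtain ⟨y, hy, hyx, hr⟩ := h1
        rw [hmem] at hy
        have hb : Gb.Adj x y := (h.col x hx y hy.1 (Ne.symm hyx)).resolve_left hr
        right
        refine ⟨x, y, Ne.symm hyx, ?_, hb, hr⟩
        have h2 : ({x, y} : Finset W) ⊆ cl x := by
          intro z hz
          rw [mem_insert, mem_singleton] at hz
          rcases hz with rfl | rfl
          · exact hself z hx
          · exact hmem.2 hy
        exact (eq_of_subset_of_card_le h2 (by
          rw [card_pair (Ne.symm hyx)]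
          exact hcl2 x hx)).symm
      · push Not at h1
        left
        refine ⟨⟨x, hself x hx⟩, ?_⟩
        intro y hy z hz hyz
        have hyz' : y = x ∨ z = x := by
          by_contra hcon
          push Not at hcon
          rw [hmem] at hy hz
          exact hyz (h.uniq x hx y hy.1 z hz.1 (Ne.symm hcon.1) (Ne.symm hcon.2) hy.2 hz.2)
        rcases hyz' with rfl | rfl
        · have h2 := h1 z hz (Ne.symm hyz)
          rw [hmem] at hz
          exact ⟨h2, fun h3 => hz.2 ⟨h2, h3⟩⟩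
        · have h2 := h1 y hy hyz
          rw [hmem] at hy
          exact ⟨h2.symm, fun h3 => hy.2 ⟨h2, h3.symm⟩⟩
    · intro C hC D hD hCD y hy z hz
      rw [mem_image] at hC hD
      obtain ⟨x, hx, rfl⟩ := hC
      obtain ⟨w, hw, rfl⟩ := hD
      by_contra hcon
      rw [hmem] at hy hz
      apply hCD
      rw [hcleq x hx y hy.1 hy.2, hcleq w hw z hz.1 hz.2]
      exact hcleq y hy.1 z hz.1 hcon
  have hle2 : ∀ C ∈ F.image cl, C.card ≤ 2 := by
    intro C hC
    rw [mem_image] at hC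
    obtain ⟨x, hx, rfl⟩ := hC
    exact hcl2 x hx
  obtain ⟨_, h2, h3, h4⟩ := fam_count hfam (κ := fun C => C) (fun C hC =>
    ⟨subset_refl _, by rw [min_eq_right (hle2 C hC)]⟩)
  have hU : (F.image cl).biUnion (fun C => C) = F := by
    ext y
    rw [mem_biUnion]
    constructor
    · rintro ⟨C, hC, hy⟩
      rw [mem_image] at hC
      obtain ⟨x, hx, rfl⟩ := hC
      exact (hmem.1 hy).1
    · intro hy
      exact ⟨cl y, mem_image_of_mem _ hy, hself y hy⟩
  rw [hU] at h3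
  exact ⟨_, hfam, hle2, hU, h3⟩

/-- boxes with at most two vertices and a blue clique -/
structure LevB (Gr Gb : SimpleGraph W) (a g r : ℕ) (Fs : Finset (Finset W))
    (K : Finset W) : Prop where
  fam : Fam Gr Gb Fs
  le2 : ∀ C ∈ Fs, C.card ≤ 2
  red : nr Gr Gb 2 Fs = r
  blue : ∀ z ∈ K, ∀ z' ∈ K, z ≠ z' → Gb.Adj z z'
  KF : ∀ z ∈ K, ∀ C ∈ Fs, ∀ x ∈ C, Gb.Adj z x
  KR : ∀ z ∈ K, ∀ C ∈ Fs, RB Gr Gb C → 2 ≤ C.card → ∀ x ∈ C, Gr.Adj z x
  hits : ∀ z ∈ K, (Fs.filter (fun C => ∃ x ∈ C, ¬ Gr.Adj z x)).card ≤ 2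
  cardK : K.card ≤ g
  c1 : 2 * a + 1 ≤ ∑ C ∈ Fs, C.card
  c2 : 2 * a + g + 1 ≤ ∑ C ∈ Fs, C.card + K.card

theorem exists_levB [Nonempty W] {a g r : ℕ} {F : Finset W} (ha : 0 < a) (hg : g ≤ a)
    (hcost : ∀ v : W, L1.D (a : ℝ) ((a + g : ℕ) : ℝ) Gr Gb v univ < Fintype.card W)
    (hB : L1.Best Gr Gb F) (hr : (L1.RR Gb F).card = 2 * r) :
    ∃ Fs K, LevB Gr Gb a g r Fs K := by
  have haR : (0 : ℝ) ≤ a := by positivity
  have habR : (a : ℝ) ≤ ((a + g : ℕ) : ℝ) := by
    push_cast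
    have : (0 : ℝ) ≤ g := by positivity
    linarith
  have hbR : ((a + g : ℕ) : ℝ) ≤ 2 * a := by
    push_cast
    have : (g : ℝ) ≤ a := by exact_mod_cast hg
    linarith
  obtain ⟨K2, _, hK2V, hK2cl, hK2max⟩ := L1.exists_max_clique Gb (A := L1.VV Gr Gb F) (K0 := ∅)
    (empty_subset _) (by simp)
  have hFne : F.Nonempty := by
    obtain ⟨v⟩ := ‹Nonempty W›
    by_cases hv : v ∈ F
    · exact ⟨v, hv⟩
    · obtain ⟨y, hy⟩ := hB.no_zero hv
      exact ⟨y, (L1.mem_hit.1 hy).1⟩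
  have hF1 : 2 * a + 1 ≤ F.card := by
    have h := L1.card_gt_of_D hcost (hB.D_two haR habR) hFne
    have : 2 * a < F.card := by exact_mod_cast h
    omega
  have hFK : Disjoint F K2 := by
    rw [Finset.disjoint_right]
    exact fun z hz => (L1.mem_VV.1 (hK2V hz)).1
  have hF2 : a + (a + g) + 1 ≤ F.card + K2.card := by
    have h := L1.card_gt_of_D hcost (hB.D_K2 haR habR hbR hK2max hK2V)
      (hFne.mono subset_union_left)
    rw [card_union_of_disjoint hFK] at h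
    have : a + (a + g) < F.card + K2.card := by exact_mod_cast h
    omega
  obtain ⟨Fs, h1, h2, h3, h4⟩ := fam_of_good' hB.good
  obtain ⟨K, hK, hKc⟩ := exists_subset_card_eq (min_le_right g K2.card)
  have hsum : ∑ C ∈ Fs, C.card = F.card := by
    conv_rhs => rw [← h3]
    rw [card_biUnion]
    intro C hC D hD hCD
    show Disjoint C D
    rw [Finset.disjoint_left]
    intro x hx hx'
    exact Gr.irrefl (h1.green C hC D hD hCD x hx x hx').1
  have hCF : ∀ C ∈ Fs, ∀ x ∈ C, x ∈ F := by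
    intro C hC x hx
    rw [← h3, mem_biUnion]
    exact ⟨C, hC, hx⟩
  refine ⟨Fs, K, h1, h2, by omega, ?_, ?_, ?_, ?_, ?_, ?_, ?_⟩
  · exact fun z hz z' hz' hne => hK2cl z (hK hz) z' (hK hz') hne
  · exact fun z hz C hC x hx => (L1.mem_VV.1 (hK2V (hK hz))).2.2.1 x (hCF C hC x hx)
  · intro z hz C hC hR hC2 x hx
    have h5 := (L1.mem_VV.1 (hK2V (hK hz))).2.2.2
    obtain ⟨y, hy, hyx⟩ := exists_mem_ne (s := C) (by omega) x
    have h6 : x ∈ L1.RR Gb F := by
      unfold L1.RR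
      rw [mem_filter]
      exact ⟨hCF C hC x hx, y, hCF C hC y hy, hyx, (hR.2 x hx y hy (Ne.symm hyx)).2⟩
    by_contra hcon
    exact Finset.disjoint_left.1 h5 (L1.mem_hit.2 ⟨hCF C hC x hx, fun h => hcon h.1⟩) h6
  · intro z hz
    have h5 := (L1.mem_VV.1 (hK2V (hK hz))).2.1
    rw [← h5]
    have h6 : ∀ C ∈ Fs.filter (fun C => ∃ x ∈ C, ¬ Gr.Adj z x), ∃ x ∈ C, ¬ Gr.Adj z x :=
      fun C hC => (mem_filter.1 hC).2
    choose! f hf1 hf2 using h6
    apply card_le_card_of_injOn f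
    · intro C hC
      rw [mem_coe] at hC ⊢
      rw [L1.mem_hit]
      exact ⟨hCF C (mem_filter.1 hC).1 _ (hf1 C hC), fun h => hf2 C hC h.1⟩
    · intro C hC D hD hCD
      rw [mem_coe] at hC hD
      by_contra hne
      have h7 := hf1 C hC
      rw [hCD] at h7
      exact Gr.irrefl (h1.green C (mem_filter.1 hC).1 D (mem_filter.1 hD).1 hne _ h7 _
        (hf1 D hD)).1
  · rw [hKc]
    exact min_le_left _ _
  · rw [hsum]
    exact hF1
  · rw [hsum, hKc]
    rcases min_cases g K2.card with ⟨h5, _⟩ | ⟨h5, _⟩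
    · rw [h5]
      omega
    · rw [h5]
      omega

end LV

end Pool.Agent.Lib.MP_a05470_co
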