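import Pool.Agent.Lib.MP_a05470_co.JMix

/-!
# The interval lemma for mixed matchings

In a set of at least `2c+1` vertices, the numbers of red pairs in sets of `c` disjoint pairs form
an interval: any two such sets are joined by a sequence of exchanges of a single pair.
-/

set_option autoImplicit false
set_option linter.unusedSectionVars false

namespace Pool.Agent.Lib.MP_a05470_co

open Finset Classical

section MixInt

variable {V : Type} {H : SimpleGraph V} {X : Finset V} {T : Finset (Finset V)}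

/-- the number of red pairs -/
noncomputable def nred (H : SimpleGraph V) (T : Finset (Finset V)) : ℕ :=
  (T.filter (fun e => ∃ x y, e = {x, y} ∧ H.Adj x y)).card

theorem nred_mono {S T : Finset (Finset V)} (h : S ⊆ T) : nred H S ≤ nred H T :=
  card_le_card (filter_subset_filter _ h)

theorem nred_insert_le (e : Finset V) (T : Finset (Finset V)) :
    nred H (insert e T) ≤ nred H T + 1 := by
  unfold nred
  rw [filter_insert]
  split_ifs
  · exact card_insert_le _ _
  · exact Nat.le_succ _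

theorem nred_exchange {e f : Finset V} (he : e ∈ T) :
    nred H (insert f (T.erase e)) ≤ nred H T + 1 ∧
      nred H T ≤ nred H (insert f (T.erase e)) + 1 := by
  have h1 := nred_insert_le (H := H) f (T.erase e)
  have h2 := nred_mono (H := H) (erase_subset e T)
  have h3 := nred_insert_le (H := H) e (T.erase e)
  rw [insert_erase he] at h3
  have h4 := nred_mono (H := H) (subset_insert f (T.erase e))
  exact ⟨by omega, by omega⟩

/-- splitting a set of pairs into the blue and the red ones -/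
theorem hasMix_of_nred {c : ℕ} (h : IsMat (⊤ : SimpleGraph V) X T) (hc : T.card = c) :
    HasMix H X (c - nred H T) (nred H T) := by
  refine ⟨T.filter (fun e => ¬ ∃ x y, e = {x, y} ∧ H.Adj x y),
    T.filter (fun e => ∃ x y, e = {x, y} ∧ H.Adj x y), ⟨?_, ?_⟩, ⟨?_, ?_⟩, ?_, ?_, rfl⟩
  · intro e he
    rw [mem_filter] at he
    obtain ⟨x, hx, y, hy, hxy, rfl⟩ := h.1 e he.1
    refine ⟨x, hx, y, hy, ?_, rfl⟩
    rw [SimpleGraph.compl_adj]
    exact ⟨hxy, fun h1 => he.2 ⟨x, y, rfl, h1⟩⟩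
  · intro e he f hf hef
    exact h.2 e (mem_filter.1 he).1 f (mem_filter.1 hf).1 hef
  · intro e he
    rw [mem_filter] at he
    obtain ⟨x, hx, y, hy, hxy, rfl⟩ := h.1 e he.1
    obtain ⟨x', y', he', hadj⟩ := he.2
    have hx' : x ∈ ({x', y'} : Finset V) := by rw [← he']; simp
    have hy' : y ∈ ({x', y'} : Finset V) := by rw [← he']; simp
    rw [mem_insert, mem_singleton] at hx' hy'
    have hxy' : x ≠ y := hxy
    refine ⟨x, hx, y, hy, ?_, rfl⟩
    rcases hx' with rfl | rfl <;> rcases hy' with rfl | rfl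
    · exact absurd rfl hxy'
    · exact hadj
    · exact hadj.symm
    · exact absurd rfl hxy'
  · intro e he f hf hef
    exact h.2 e (mem_filter.1 he).1 f (mem_filter.1 hf).1 hef
  · intro e he f hf
    apply h.2 e (mem_filter.1 he).1 f (mem_filter.1 hf).1
    rintro rfl
    exact (mem_filter.1 he).2 (mem_filter.1 hf).2
  · have h1 := card_filter_add_card_filter_not (s := T) (fun e => ∃ x y, e = {x, y} ∧ H.Adj x y)
    unfold nred
    omega

/-- exchanging one pair -/
theorem exchange {c : ℕ} (h : IsMat (⊤ : SimpleGraph V) X T) (hc : T.card = c) {e : Finset V}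
    (he : e ∈ T) {x y : V} (hx : x ∈ X) (hy : y ∈ X) (hxy : x ≠ y)
    (hxT : ∀ f ∈ T, f ≠ e → x ∉ f) (hyT : ∀ f ∈ T, f ≠ e → y ∉ f) :
    IsMat (⊤ : SimpleGraph V) X (insert {x, y} (T.erase e)) ∧
      (insert {x, y} (T.erase e)).card = c := by
  have h1 : IsMat (⊤ : SimpleGraph V) X (T.erase e) :=
    ⟨fun f hf => h.1 f (mem_of_mem_erase hf),
      fun f hf f' hf' => h.2 f (mem_of_mem_erase hf) f' (mem_of_mem_erase hf')⟩
  obtain ⟨h2, h3⟩ := h1.insert_pair hx hy (show (⊤ : SimpleGraph V).Adj x y from hxy)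
    (fun f hf => hxT f (mem_of_mem_erase hf) (ne_of_mem_erase hf))
    (fun f hf => hyT f (mem_of_mem_erase hf) (ne_of_mem_erase hf))
  refine ⟨h2, ?_⟩
  rw [h3, card_erase_of_mem he]
  have := card_pos.2 ⟨e, he⟩
  omega

/-- **The interval lemma.** -/
theorem interval_aux {c j : ℕ} (hX : 2 * c + 1 ≤ X.card) {T₁ : Finset (Finset V)}
    (h₁ : IsMat (⊤ : SimpleGraph V) X T₁) (hc₁ : T₁.card = c) (hj : j ≤ nred H T₁) (n : ℕ) :
    ∀ T, IsMat (⊤ : SimpleGraph V) X T → T.card = c → (T₁ \ T).card ≤ n → nred H T ≤ j →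
      ∃ T', IsMat (⊤ : SimpleGraph V) X T' ∧ T'.card = c ∧ nred H T' = j := by
  induction n with
  | zero =>
    intro T h hc hn hT
    have h1 : T₁ ⊆ T := by
      rw [← sdiff_eq_empty_iff_subset, ← card_eq_zero]
      omega
    have h2 : T₁ = T := eq_of_subset_of_card_le h1 (by omega)
    subst h2
    exact ⟨T₁, h, hc, by omega⟩
  | succ n ih =>
    intro T h hc hn hT
    rcases (T₁ \ T).eq_empty_or_nonempty with he | ⟨e₁, he₁⟩
    · exact ih T h hc (by rw [he, card_empty]; exact Nat.zero_le _) hT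
    rw [mem_sdiff] at he₁
    obtain ⟨x, hx, y, hy, hxy', hexy⟩ := h₁.1 e₁ he₁.1
    have hxy : x ≠ y := hxy'
    subst hexy
    -- a pair of `T` which meets the new pair is not in `T₁`
    have hmeet : ∀ f ∈ T, (x ∈ f ∨ y ∈ f) → f ∉ T₁ := by
      intro f hf hxf hf1
      have hne : f ≠ {x, y} := fun h1 => he₁.2 (h1 ▸ hf)
      have hd := h₁.2 f hf1 _ he₁.1 hne
      rcases hxf with hxf | hyf
      · exact disjoint_left.1 hd hxf (by simp)
      · exact disjoint_left.1 hd hyf (by simp)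
    -- finishing with a new set
    have fin : ∀ T', IsMat (⊤ : SimpleGraph V) X T' → T'.card = c → {x, y} ∈ T' →
        (∀ f ∈ T, f ∈ T₁ → f ∈ T') → nred H T' ≤ j →
        ∃ T'', IsMat (⊤ : SimpleGraph V) X T'' ∧ T''.card = c ∧ nred H T'' = j := by
      intro T' h' hc' hxyT' hsub hj'
      apply ih T' h' hc' _ hj'
      have h1 : T₁ \ T' ⊆ (T₁ \ T).erase {x, y} := by
        intro f hf
        rw [mem_sdiff] at hf
        rw [mem_erase, mem_sdiff]
        exact ⟨fun h2 => hf.2 (h2 ▸ hxyT'), hf.1, fun h2 => hf.2 (hsub f h2 hf.1)⟩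
      have h2 := card_le_card h1
      rw [card_erase_of_mem (mem_sdiff.2 he₁)] at h2
      omega
    -- one exchange
    have one : ∀ f ∈ T, f ∉ T₁ → (∀ f' ∈ T, f' ≠ f → x ∉ f') → (∀ f' ∈ T, f' ≠ f → y ∉ f') →
        ∃ T'', IsMat (⊤ : SimpleGraph V) X T'' ∧ T''.card = c ∧ nred H T'' = j := by
      intro f hf hf1 hxf hyf
      obtain ⟨h2, h3⟩ := exchange h hc hf hx hy hxy hxf hyf
      obtain ⟨h4, h5⟩ := nred_exchange (H := H) (f := {x, y}) hf
      rcases Nat.lt_or_ge j (nred H (insert {x, y} (T.erase f))) with h6 | h6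
      · exact ⟨T, h, hc, by omega⟩
      · refine fin _ h2 h3 (mem_insert_self _ _) ?_ h6
        intro f' hf' hf1'
        exact mem_insert_of_mem (mem_erase.2 ⟨fun h7 => hf1 (h7 ▸ hf1'), hf'⟩)
    by_cases hxc : ∃ f ∈ T, x ∈ f
    · obtain ⟨f₁, hf₁, hxf₁⟩ := hxc
      have hx' : ∀ f' ∈ T, f' ≠ f₁ → x ∉ f' := fun f' hf' hne hxf' =>
        disjoint_left.1 (h.2 f' hf' f₁ hf₁ hne) hxf' hxf₁
      by_cases hyc : ∃ f ∈ T, f ≠ f₁ ∧ y ∈ f
      · obtain ⟨f₂, hf₂, hf₂₁, hyf₂⟩ := hyc
        have hy' : ∀ f' ∈ T, f' ≠ f₂ → y ∉ f' := fun f' hf' hne hyf' =>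
          disjoint_left.1 (h.2 f' hf' f₂ hf₂ hne) hyf' hyf₂
        -- the other end of `f₂`
        obtain ⟨y', hy'X, hy'f₂, hyy'⟩ : ∃ y' ∈ X, y' ∈ f₂ ∧ y' ≠ y := by
          obtain ⟨p, hp, q, hq, hpq, rfl⟩ := h.1 f₂ hf₂
          have hpq' : p ≠ q := hpq
          rw [mem_insert, mem_singleton] at hyf₂
          rcases hyf₂ with rfl | rfl
          · exact ⟨q, hq, by simp, hpq'.symm⟩
          · exact ⟨p, hp, by simp, hpq'⟩
        -- an exposed vertex
        obtain ⟨z, hzX, hzT⟩ : ∃ z ∈ X, ∀ f ∈ T, z ∉ f := by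
          have h2 : (X \ T.biUnion id).Nonempty := by
            rw [← card_pos]
            have h3 := card_sdiff_add_card_eq_card h.biUnion_subset
            have h4 := h.card_biUnion
            omega
          obtain ⟨z, hz⟩ := h2
          rw [mem_sdiff] at hz
          exact ⟨z, hz.1, fun f hf hzf => hz.2 (mem_biUnion.2 ⟨f, hf, hzf⟩)⟩
        have hzy' : y' ≠ z := fun h2 => hzT f₂ hf₂ (h2 ▸ hy'f₂)
        have hy'' : ∀ f' ∈ T, f' ≠ f₂ → y' ∉ f' := fun f' hf' hne hyf' =>
          disjoint_left.1 (h.2 f' hf' f₂ hf₂ hne) hyf' hy'f₂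
        obtain ⟨h2, h3⟩ := exchange h hc hf₂ hy'X hzX hzy' hy'' (fun f' hf' _ => hzT f' hf')
        set T₂ := insert {y', z} (T.erase f₂) with hT₂
        have hf₁₂ : f₁ ∈ T₂ := mem_insert_of_mem (mem_erase.2 ⟨hf₂₁.symm, hf₁⟩)
        have hxy'2 : x ≠ y' := fun h4 =>
          disjoint_left.1 (h.2 f₂ hf₂ f₁ hf₁ hf₂₁) (h4 ▸ hy'f₂) hxf₁
        have hxz : x ≠ z := fun h4 => hzT f₁ hf₁ (h4 ▸ hxf₁)
        have hyz : y ≠ z := fun h4 => hzT f₂ hf₂ (h4 ▸ hyf₂)
        obtain ⟨h4, h5⟩ := exchange h2 h3 hf₁₂ hx hy hxy (by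
          intro f' hf' hne
          rw [hT₂, mem_insert, mem_erase] at hf'
          rcases hf' with rfl | hf'
          · rw [mem_insert, mem_singleton]
            push Not
            exact ⟨hxy'2, hxz⟩
          · exact hx' f' hf'.2 hne) (by
          intro f' hf' _
          rw [hT₂, mem_insert, mem_erase] at hf'
          rcases hf' with rfl | hf'
          · rw [mem_insert, mem_singleton]
            push Not
            exact ⟨hyy'.symm, hyz⟩
          · exact hy' f' hf'.2 hf'.1)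
        obtain ⟨h6, h7⟩ := nred_exchange (H := H) (f := {y', z}) hf₂
        rw [← hT₂] at h6 h7
        obtain ⟨h8, h9⟩ := nred_exchange (H := H) (f := {x, y}) hf₁₂
        rcases Nat.lt_or_ge j (nred H (insert {x, y} (T₂.erase f₁))) with h10 | h10
        · rcases eq_or_lt_of_le hT with h11 | h11
          · exact ⟨T, h, hc, h11⟩
          · exact ⟨T₂, h2, h3, by omega⟩
        · refine fin _ h4 h5 (mem_insert_self _ _) ?_ h10
          intro f' hf' hf1'
          have a1 : f' ≠ f₁ := fun h12 => hmeet f₁ hf₁ (Or.inl hxf₁) (h12 ▸ hf1')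
          have a2 : f' ≠ f₂ := fun h12 => hmeet f₂ hf₂ (Or.inr hyf₂) (h12 ▸ hf1')
          exact mem_insert_of_mem (mem_erase.2 ⟨a1, mem_insert_of_mem (mem_erase.2 ⟨a2, hf'⟩)⟩)
      · push Not at hyc
        exact one f₁ hf₁ (hmeet f₁ hf₁ (Or.inl hxf₁)) hx' hyc
    · push Not at hxc
      by_cases hyc : ∃ f ∈ T, y ∈ f
      · obtain ⟨f₂, hf₂, hyf₂⟩ := hyc
        exact one f₂ hf₂ (hmeet f₂ hf₂ (Or.inr hyf₂)) (fun f' hf' _ => hxc f' hf')
          (fun f' hf' hne hyf' => disjoint_left.1 (h.2 f' hf' f₂ hf₂ hne) hyf' hyf₂)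
      · push Not at hyc
        -- any pair of `T` outside `T₁`
        obtain ⟨f, hf, hf1⟩ : ∃ f ∈ T, f ∉ T₁ := by
          by_contra hcon
          push Not at hcon
          have h2 : T = T₁ := eq_of_subset_of_card_le (fun f hf => hcon f hf) (by omega)
          exact he₁.2 (h2 ▸ he₁.1)
        exact one f hf hf1 (fun f' hf' _ => hxc f' hf') (fun f' hf' _ => hyc f' hf')

/-- extending a matching by arbitrary pairs -/
theorem extend_pairs {c : ℕ} (hX : 2 * c ≤ X.card) (k : ℕ) : ∀ T, IsMat (⊤ : SimpleGraph V) X T →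
    T.card + k = c → ∃ T', IsMat (⊤ : SimpleGraph V) X T' ∧ T'.card = c ∧ T ⊆ T' := by
  induction k with
  | zero => exact fun T h hc => ⟨T, h, hc, Subset.refl _⟩
  | succ k ih =>
    intro T h hc
    have h2 : 1 < (X \ T.biUnion id).card := by
      have h3 := card_sdiff_add_card_eq_card h.biUnion_subset
      have h4 := h.card_biUnion
      omega
    obtain ⟨x, hx, y, hy, hxy⟩ := one_lt_card.1 h2
    rw [mem_sdiff] at hx hy
    obtain ⟨h3, h4⟩ := h.insert_pair hx.1 hy.1 (show (⊤ : SimpleGraph V).Adj x y from hxy)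
      (fun f hf hxf => hx.2 (mem_biUnion.2 ⟨f, hf, hxf⟩))
      (fun f hf hyf => hy.2 (mem_biUnion.2 ⟨f, hf, hyf⟩))
    obtain ⟨T', h5, h6, h7⟩ := ih _ h3 (by omega)
    exact ⟨T', h5, h6, (subset_insert _ _).trans h7⟩

theorem IsMat.top {B : SimpleGraph V} (h : IsMat B X T) : IsMat (⊤ : SimpleGraph V) X T := by
  refine ⟨?_, h.2⟩
  intro e he
  obtain ⟨x, hx, y, hy, hxy, rfl⟩ := h.1 e he
  exact ⟨x, hx, y, hy, B.ne_of_adj hxy, rfl⟩

theorem nred_red (h : IsMat H X T) : nred H T = T.card := by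
  unfold nred
  congr 1
  apply filter_true_of_mem
  intro e he
  obtain ⟨x, _, y, _, hxy, rfl⟩ := h.1 e he
  exact ⟨x, y, rfl, hxy⟩

theorem nred_blue (h : IsMat Hᶜ X T) : nred H T = 0 := by
  unfold nred
  rw [card_eq_zero, filter_eq_empty_iff]
  rintro e he ⟨x', y', he', hadj⟩
  obtain ⟨x, _, y, _, hxy, rfl⟩ := h.1 e he
  rw [SimpleGraph.compl_adj] at hxy
  have hx' : x ∈ ({x', y'} : Finset V) := by rw [← he']; simp
  have hy' : y ∈ ({x', y'} : Finset V) := by rw [← he']; simp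
  rw [mem_insert, mem_singleton] at hx' hy'
  rcases hx' with rfl | rfl <;> rcases hy' with rfl | rfl
  · exact hxy.1 rfl
  · exact hxy.2 hadj
  · exact hxy.2 hadj.symm
  · exact hxy.1 rfl

/-- **The interval lemma**: `i` red and `c-i` blue disjoint pairs, and `k` red disjoint pairs, give
`j` red and `c-j` blue disjoint pairs for all `i ≤ j ≤ k`. -/
theorem interval_mix {c i j k : ℕ} (hX : 2 * c + 1 ≤ X.card) (hij : i ≤ j) (hjk : j ≤ k)
    (hkc : k ≤ c) (hmix : HasMix H X (c - i) i) (hmat : HasMat H X k) :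
    HasMix H X (c - j) j := by
  obtain ⟨Tb, Tr, hb, hr, hd, hbc, hrc⟩ := hmix
  obtain ⟨T₀, hT₀, hT₀c⟩ := hmat
  have hne : ∀ e ∈ Tb, e ∉ Tr := by
    intro e he he'
    have h1 := hd e he e he'
    rw [disjoint_self_iff_empty] at h1
    obtain ⟨x, _, y, _, _, h2⟩ := hb.1 e he
    rw [h2] at h1
    exact absurd h1 (by simp)
  have hT : IsMat (⊤ : SimpleGraph V) X (Tb ∪ Tr) := by
    refine ⟨?_, ?_⟩
    · intro e he
      rw [mem_union] at he
      rcases he with he | he
      · exact hb.top.1 e he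
      · exact hr.top.1 e he
    · intro e he f hf hef
      rw [mem_union] at he hf
      rcases he with he | he <;> rcases hf with hf | hf
      · exact hb.2 e he f hf hef
      · exact hd e he f hf
      · exact (hd f hf e he).symm
      · exact hr.2 e he f hf hef
  have hTc : (Tb ∪ Tr).card = c := by
    rw [card_union_of_disjoint (Finset.disjoint_left.2 hne), hbc, hrc]
    omega
  have hTn : nred H (Tb ∪ Tr) ≤ j := by
    have h1 : nred H (Tb ∪ Tr) ≤ nred H Tb + nred H Tr := by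
      unfold nred
      rw [filter_union]
      exact card_union_le _ _
    rw [nred_blue hb, nred_red hr, hrc] at h1
    omega
  obtain ⟨T₁, h₁, hc₁, hsub⟩ := extend_pairs (X := X) (c := c) (by omega) (c - k) T₀ hT₀.top
    (by omega)
  have hj₁ : j ≤ nred H T₁ := by
    have := nred_mono (H := H) hsub
    rw [nred_red hT₀, hT₀c] at this
    omega
  obtain ⟨T', h', hc', hn'⟩ := interval_aux hX h₁ hc₁ hj₁ _ _ hT hTc le_rfl hTn
  have := hasMix_of_nred (H := H) h' hc'
  rwa [hn'] at this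

/-- the case of `c` blue disjoint pairs -/
theorem interval_blue {c j : ℕ} (hX : 2 * c + 1 ≤ X.card) (hjc : j ≤ c) (hb : HasMat Hᶜ X c)
    (hr : HasMat H X j) : HasMix H X (c - j) j := by
  apply interval_mix hX (Nat.zero_le j) le_rfl hjc _ hr
  obtain ⟨T, hT, hTc⟩ := hb
  exact ⟨T, ∅, hT, ⟨by simp, by simp⟩, by simp, by rw [hTc]; rfl, rfl⟩

end MixInt

end Pool.Agent.Lib.MP_a05470_co
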