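import Pool.Agent.Lib.MP_a05470_co.TF.HostII
import Pool.Agent.Lib.MP_a05470_co.TF.LevB
import Pool.Agent.Lib.MP_a05470_co.TF.MixInt

/-!
# Finding the graph on level one, if the special red pairs are red pairs of the family
-/

set_option autoImplicit false
set_option linter.unusedSectionVars false

namespace Pool.Agent.Lib.MP_a05470_co

open Finset Classical JF LV JT JP

namespace HII

variable {n : ℕ} {V : Type} {Gr Gb : SimpleGraph (Fin n)} {H : SimpleGraph V}

section beta

variable {F X Y : Finset (Finset (Fin n))}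

theorem beta_union (h : Disjoint X Y) : beta Gr Gb (X ∪ Y) = beta Gr Gb X + beta Gr Gb Y := by
  have h1 : nb Gr Gb (X ∪ Y) = nb Gr Gb X + nb Gr Gb Y := by
    unfold nb
    rw [filter_union, card_union_of_disjoint]
    exact disjoint_filter_filter h
  unfold beta
  rw [h1, card_union_of_disjoint h]
  omega

theorem beta_sdiff (h : X ⊆ F) : beta Gr Gb (F \ X) + beta Gr Gb X = beta Gr Gb F := by
  rw [← beta_union sdiff_disjoint, sdiff_union_of_subset h]

theorem beta_biUnion (U : Finset (Finset (Finset (Fin n)))) :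
    (∀ s ∈ U, ∀ s' ∈ U, s ≠ s' → Disjoint s s') →
    beta Gr Gb (U.biUnion id) = ∑ s ∈ U, beta Gr Gb s := by
  induction U using Finset.induction_on with
  | empty =>
    intro _
    rw [biUnion_empty, sum_empty]
    simp [beta, nb]
  | insert s U hs ih =>
    intro h
    rw [biUnion_insert, sum_insert hs, beta_union, ih]
    · rfl
    · exact fun s' hs' s'' hs'' => h s' (mem_insert_of_mem hs') s'' (mem_insert_of_mem hs'')
    · rw [disjoint_biUnion_right]
      intro s' hs'
      exact h s (mem_insert_self _ _) s' (mem_insert_of_mem hs') (fun h' => hs (h' ▸ hs'))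

/-- for boxes with at most two vertices -/
theorem beta_eq_sum (hbox : ∀ C ∈ F, Box Gr Gb C) (hle : ∀ C ∈ F, C.card ≤ 2) :
    beta Gr Gb F + nr Gr Gb 2 F = ∑ C ∈ F, C.card := by
  have h1 : ∀ C ∈ F, C.card = 1 + (if BB Gr Gb C then 1 else 0) +
      (if RB Gr Gb C ∧ 2 ≤ C.card then 1 else 0) := by
    intro C hC
    have h2 := hle C hC
    rcases hbox C hC with h | h
    · have h3 := card_pos.2 h.1
      rw [if_neg h.not_BB]
      by_cases h4 : 2 ≤ C.card
      · rw [if_pos ⟨h, h4⟩]
        omega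
      · rw [if_neg (fun h5 => h4 h5.2)]
        omega
    · rw [if_pos h, if_neg (fun h5 => h5.1.not_BB h), h.card]
  rw [sum_congr rfl h1, sum_add_distrib, sum_add_distrib, ← card_filter, ← card_filter,
    ← card_eq_sum_ones]
  rfl

end beta

/-- blue edges and pairwise blue vertices in blue pairs and other boxes -/
theorem packB {X : Finset V} (N : ℕ) : ∀ {F : Finset (Finset (Fin n))} {T : Finset (Finset V)}
    {L : Finset V}, nb Gr Gb F ≤ N → (∀ C ∈ F, Box Gr Gb C) → IsMat Hᶜ X T →
    (∀ x ∈ L, ∀ y ∈ L, x ≠ y → ¬ H.Adj x y) → 2 * T.card + L.card ≤ beta Gr Gb F →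
    Packable H Gr Gb (T.biUnion id ∪ L) F := by
  induction N with
  | zero =>
    intro F T L hN hF hT _ hc
    apply packable_inj (fun C hC => (hF C hC).nonempty)
    have h1 := card_union_le (T.biUnion id) L
    rw [hT.card_biUnion] at h1
    unfold beta at hc
    omega
  | succ N ih =>
    intro F T L hN hF hT hL hc
    by_cases hB : 1 ≤ nb Gr Gb F
    · obtain ⟨D, hD, hBD⟩ := nb_pos hB
      have e1 := nb_erase_blue (Gr := Gr) (Gb := Gb) hD hBD
      have e2 := beta_erase_blue hD hBD
      have hF' : ∀ C ∈ F.erase D, Box Gr Gb C := fun C hC => hF C (mem_of_mem_erase hC)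
      by_cases hTe : T.Nonempty
      · obtain ⟨e, he⟩ := hTe
        obtain ⟨x, hx, y, hy, hxy, he'⟩ := hT.1 e he
        rw [SimpleGraph.compl_adj] at hxy
        have hTc : (T.erase e).card + 1 = T.card := by
          rw [card_erase_of_mem he]
          have := card_pos.2 ⟨e, he⟩
          omega
        refine packable_step hD (T := {x, y}) (Y := (T.erase e).biUnion id ∪ L) ?_
          (loc_bb hBD hxy.2 hxy.1) ?_
        · intro z hz
          rw [mem_union, mem_biUnion] at hz
          rw [mem_union, mem_union, mem_biUnion]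
          rcases hz with ⟨f, hf, hz⟩ | hz
          · by_cases hfe : f = e
            · left
              rw [← he', ← hfe]
              exact hz
            · exact Or.inr (Or.inl ⟨f, mem_erase.2 ⟨hfe, hf⟩, hz⟩)
          · exact Or.inr (Or.inr hz)
        · exact ih (by omega) hF' (hT.sub (erase_subset _ _)) hL (by omega)
      · rw [not_nonempty_iff_eq_empty] at hTe
        subst hTe
        rw [biUnion_empty, empty_union]
        by_cases hL2 : 2 ≤ L.card
        · obtain ⟨x, hx, y, hy, hxy⟩ := one_lt_card.1 hL2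
          have hsub : ({x, y} : Finset V) ⊆ L := by
            intro z hz
            rw [mem_insert, mem_singleton] at hz
            rcases hz with rfl | rfl
            · exact hx
            · exact hy
          have hLc : (L \ {x, y}).card + 2 = L.card := by
            rw [card_sdiff_of_subset hsub, card_pair hxy]
            omega
          refine packable_step hD (T := {x, y}) (Y := L \ {x, y}) ?_
            (loc_bb hBD (hL x hx y hy hxy) hxy) ?_
          · rw [union_sdiff_of_subset hsub]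
          · have h1 := ih (F := F.erase D) (T := ∅) (L := L \ {x, y}) (by omega) hF' hT
              (fun x hx y hy => hL x (mem_sdiff.1 hx).1 y (mem_sdiff.1 hy).1)
              (by rw [card_empty] at hc ⊢; omega)
            rw [biUnion_empty, empty_union] at h1
            exact h1
        · apply packable_inj (fun C hC => (hF C hC).nonempty)
          have := card_pos.2 ⟨D, hD⟩
          omega
    · apply packable_inj (fun C hC => (hF C hC).nonempty)
      have h1 := card_union_le (T.biUnion id) L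
      rw [hT.card_biUnion] at h1
      unfold beta at hc
      omega

/-- slots: blue pairs, and pairs of other boxes -/
theorem exists_slotsB {N1 : Finset (Finset (Fin n))} (hbox : ∀ C ∈ N1, Box Gr Gb C) :
    ∃ S : Finset (Finset (Finset (Fin n))), (∀ s ∈ S, s ⊆ N1) ∧
      (∀ s ∈ S, ∀ s' ∈ S, s ≠ s' → Disjoint s s') ∧ (∀ s ∈ S, BlueSlot H Gr Gb s) ∧
      beta Gr Gb N1 ≤ 2 * S.card + 1 ∧ ∀ s ∈ S, beta Gr Gb s = 2 := by
  set B := N1.filter (fun C => BB Gr Gb C) with hB
  set O := N1 \ B with hO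
  have hBs : B ⊆ N1 := filter_subset _ _
  have hOr : ∀ C ∈ O, RB Gr Gb C := by
    intro C hC
    rw [hO, mem_sdiff] at hC
    rcases hbox C hC.1 with h | h
    · exact h
    · exact absurd (mem_filter.2 ⟨hC.1, h⟩) hC.2
  obtain ⟨M, hM1, hM2, hM3⟩ := exists_pairs' (O.card / 2) (X := O) (by omega)
  have hMO : ∀ s ∈ M, s ⊆ O := by
    intro s hs
    obtain ⟨x, hx, y, hy, _, rfl⟩ := hM1 s hs
    intro z hz
    rw [mem_insert, mem_singleton] at hz
    rcases hz with rfl | rfl
    · exact hx
    · exact hy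
  have hne : ∀ s ∈ M, s.Nonempty := by
    intro s hs
    obtain ⟨x, hx, y, hy, _, rfl⟩ := hM1 s hs
    exact ⟨x, mem_insert_self _ _⟩
  have hBO : Disjoint B O := disjoint_sdiff
  have hBM : ∀ C ∈ B, ∀ s ∈ M, Disjoint ({C} : Finset (Finset (Fin n))) s := by
    intro C hC s hs
    exact disjoint_of_subset_left (singleton_subset_iff.2 hC)
      (disjoint_of_subset_right (hMO s hs) hBO)
  refine ⟨B.image (fun C => {C}) ∪ M, ?_, ?_, ?_, ?_, ?_⟩
  · intro s hs
    rw [mem_union, mem_image] at hs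
    rcases hs with ⟨C, hC, rfl⟩ | hs
    · exact singleton_subset_iff.2 (hBs hC)
    · exact (hMO s hs).trans sdiff_subset
  · intro s hs s' hs' hss
    rw [mem_union, mem_image] at hs hs'
    rcases hs with ⟨C, hC, rfl⟩ | hs <;> rcases hs' with ⟨C', hC', rfl⟩ | hs'
    · rw [disjoint_singleton]
      exact fun h => hss (by rw [h])
    · exact hBM C hC s' hs'
    · exact (hBM C' hC' s hs).symm
    · exact hM2 s hs s' hs' hss
  · intro s hs
    rw [mem_union, mem_image] at hs
    rcases hs with ⟨C, hC, rfl⟩ | hs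
    · intro x y hxy
      rw [SimpleGraph.compl_adj] at hxy
      exact packable_box (loc_bb (mem_filter.1 hC).2 hxy.2 hxy.1)
    · obtain ⟨x, hx, y, hy, hxy, rfl⟩ := hM1 s hs
      exact (slot_pair (hOr x hx).1 (hOr y hy).1 hxy).1
  · rw [card_union_of_disjoint, card_image_of_injective _ singleton_injective, hM3]
    · have h1 : O.card + B.card = N1.card := card_sdiff_add_card_eq_card hBs
      have h2 : nb Gr Gb N1 = B.card := rfl
      unfold beta
      omega
    · rw [disjoint_left]
      intro s hs hs'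
      rw [mem_image] at hs
      obtain ⟨C, hC, rfl⟩ := hs
      have := hBM C hC _ hs'
      rw [disjoint_self_iff_empty] at this
      exact (singleton_ne_empty C) this
  · intro s hs
    rw [mem_union, mem_image] at hs
    rcases hs with ⟨C, hC, rfl⟩ | hs
    · unfold beta nb
      rw [card_singleton, filter_singleton, if_pos (mem_filter.1 hC).2, card_singleton]
    · obtain ⟨x, hx, y, hy, hxy, rfl⟩ := hM1 s hs
      unfold beta nb
      rw [card_pair hxy, filter_insert, filter_singleton, if_neg (hOr x hx).not_BB,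
        if_neg (hOr y hy).not_BB, card_empty]

theorem bad_slotsB {S : Finset (Finset (Finset (Fin n)))} {F : Finset (Finset (Fin n))} {z : Fin n}
    {t : ℕ} (h0 : (F.filter (fun C => ∃ x ∈ C, ¬ Gr.Adj z x)).card ≤ t)
    (hdis : ∀ s ∈ S, ∀ s' ∈ S, s ≠ s' → Disjoint s s') (hsub : ∀ s ∈ S, s ⊆ F) :
    (S.filter (fun s => ∃ D ∈ s, ∃ x ∈ D, ¬ Gr.Adj z x)).card ≤ t := by
  refine le_trans ?_ h0
  have h1 : ∀ s ∈ S.filter (fun s => ∃ D ∈ s, ∃ x ∈ D, ¬ Gr.Adj z x), ∃ D ∈ s,
      ∃ x ∈ D, ¬ Gr.Adj z x := fun s hs => (mem_filter.1 hs).2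
  choose! f hf1 hf2 using h1
  apply card_le_card_of_injOn f
  · intro s hs
    rw [mem_coe] at hs
    rw [mem_coe, mem_filter]
    exact ⟨hsub s (mem_filter.1 hs).1 (hf1 s hs), hf2 s hs⟩
  · intro s hs s' hs' h
    by_contra hne
    rw [mem_coe] at hs hs'
    have h2 := hdis s (mem_filter.1 hs).1 s' (mem_filter.1 hs').1 hne
    exact disjoint_left.1 h2 (hf1 s hs) (by rw [h]; exact hf1 s' hs')

/-- distributing a number -/
theorem exists_rho {κ : Type} (J : Finset κ) (c : κ → ℕ) : ∀ t, t ≤ ∑ j ∈ J, c j →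
    ∃ ρ : κ → ℕ, (∀ j, ρ j ≤ c j) ∧ ∑ j ∈ J, ρ j = t := by
  induction J using Finset.induction_on with
  | empty =>
    intro t ht
    rw [sum_empty] at ht
    exact ⟨fun _ => 0, fun _ => Nat.zero_le _, by rw [sum_empty]; omega⟩
  | insert i J hi ih =>
    intro t ht
    rw [sum_insert hi] at ht
    obtain ⟨ρ, h1, h2⟩ := ih (t - min t (c i)) (by omega)
    refine ⟨Function.update ρ i (min t (c i)), ?_, ?_⟩
    · intro j
      by_cases hj : j = i
      · subst hj
        rw [Function.update_self]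
        exact min_le_right _ _
      · rw [Function.update_of_ne hj]
        exact h1 j
    · have h3 : ∑ j ∈ J, Function.update ρ i (min t (c i)) j = ∑ j ∈ J, ρ j := by
        apply sum_congr rfl
        intro j hj
        rw [Function.update_of_ne]
        rintro rfl
        exact hi hj
      rw [sum_insert hi, Function.update_self, h3, h2]
      omega

/-- the vertex left over by a mixture -/
theorem mix_rest {X : Finset V} {j l : ℕ} (h : HasMix H X j l) (hX : X.card = 2 * (j + l) + 1) :
    ∃ (Tb Tr : Finset (Finset V)) (x : V), IsMat Hᶜ X Tb ∧ IsMat H X Tr ∧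
      (∀ e ∈ Tb, ∀ f ∈ Tr, Disjoint e f) ∧ Tb.card = j ∧ Tr.card = l ∧ x ∈ X ∧
      ∀ y ∈ X, y ≠ x → y ∈ Tb.biUnion id ∨ y ∈ Tr.biUnion id := by
  obtain ⟨Tb, Tr, h1, h2, h3, h4, h5⟩ := h
  have hd : Disjoint (Tb.biUnion id) (Tr.biUnion id) := by
    rw [disjoint_biUnion_left]
    intro e he
    rw [disjoint_biUnion_right]
    intro f hf
    exact h3 e he f hf
  have hsub : Tb.biUnion id ∪ Tr.biUnion id ⊆ X :=
    union_subset h1.biUnion_subset h2.biUnion_subset
  have hc : (X \ (Tb.biUnion id ∪ Tr.biUnion id)).card = 1 := by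
    rw [card_sdiff_of_subset hsub, card_union_of_disjoint hd, h1.card_biUnion, h2.card_biUnion]
    omega
  obtain ⟨x, hx⟩ := card_eq_one.1 hc
  have hxm : x ∈ X \ (Tb.biUnion id ∪ Tr.biUnion id) := by rw [hx]; exact mem_singleton_self x
  refine ⟨Tb, Tr, x, h1, h2, h3, h4, h5, (mem_sdiff.1 hxm).1, ?_⟩
  intro y hy hyx
  by_contra hcon
  have : y ∈ X \ (Tb.biUnion id ∪ Tr.biUnion id) := by
    rw [mem_sdiff, mem_union]
    exact ⟨hy, hcon⟩
  rw [hx, mem_singleton] at this
  exact hyx this

theorem IsMat.mono' {B : SimpleGraph V} {X Y : Finset V} {T : Finset (Finset V)}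
    (h : IsMat B X T) (hXY : X ⊆ Y) : IsMat B Y T := by
  refine ⟨?_, h.2⟩
  intro e he
  obtain ⟨x, hx, y, hy, h'⟩ := h.1 e he
  exact ⟨x, hXY hx, y, hXY hy, h'⟩

theorem IsMat.union' {B : SimpleGraph V} {X Y : Finset V} {S T : Finset (Finset V)}
    (hS : IsMat B X S) (hT : IsMat B Y T) (hXY : Disjoint X Y) :
    IsMat B (X ∪ Y) (S ∪ T) ∧ (S ∪ T).card = S.card + T.card := by
  have hST : ∀ e ∈ S, ∀ f ∈ T, Disjoint e f := by
    intro e he f hf
    have h1 : e ⊆ X := by
      intro z hz
      exact hS.biUnion_subset (mem_biUnion.2 ⟨e, he, hz⟩)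
    have h2 : f ⊆ Y := by
      intro z hz
      exact hT.biUnion_subset (mem_biUnion.2 ⟨f, hf, hz⟩)
    exact disjoint_of_subset_left h1 (disjoint_of_subset_right h2 hXY)
  refine ⟨⟨?_, ?_⟩, ?_⟩
  · intro e he
    rw [mem_union] at he
    rcases he with he | he
    · obtain ⟨x, hx, y, hy, h⟩ := hS.1 e he
      exact ⟨x, mem_union_left _ hx, y, mem_union_left _ hy, h⟩
    · obtain ⟨x, hx, y, hy, h⟩ := hT.1 e he
      exact ⟨x, mem_union_right _ hx, y, mem_union_right _ hy, h⟩
  · intro e he f hf hef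
    rw [mem_union] at he hf
    rcases he with he | he <;> rcases hf with hf | hf
    · exact hS.2 e he f hf hef
    · exact hST e he f hf
    · exact (hST f hf e he).symm
    · exact hT.2 e he f hf hef
  · rw [card_union_of_disjoint]
    rw [disjoint_left]
    intro e he he'
    have h1 := hST e he e he'
    have h2 := hS.card_edge e he
    rw [disjoint_self_iff_empty] at h1
    rw [h1] at h2
    simp at h2

theorem isMat_biUnion {κ : Type} {B : SimpleGraph V} (J : Finset κ) {Q : κ → Finset V}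
    {T : κ → Finset (Finset V)} (hd : ∀ i ∈ J, ∀ j ∈ J, i ≠ j → Disjoint (Q i) (Q j))
    (h : ∀ i ∈ J, IsMat B (Q i) (T i)) :
    IsMat B (J.biUnion Q) (J.biUnion T) ∧ (J.biUnion T).card = ∑ i ∈ J, (T i).card := by
  induction J using Finset.induction_on with
  | empty =>
    rw [biUnion_empty, biUnion_empty, sum_empty, card_empty]
    exact ⟨⟨by simp, by simp⟩, rfl⟩
  | insert i J hi ih =>
    rw [biUnion_insert, biUnion_insert, sum_insert hi]
    obtain ⟨h1, h2⟩ := ih (fun j hj k hk => hd j (mem_insert_of_mem hj) k (mem_insert_of_mem hk))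
      (fun j hj => h j (mem_insert_of_mem hj))
    rw [← h2]
    apply IsMat.union' (h i (mem_insert_self _ _)) h1
    rw [disjoint_biUnion_right]
    intro j hj
    exact hd i (mem_insert_self _ _) j (mem_insert_of_mem hj) (fun h' => hi (h' ▸ hj))

/-- adding blue edges to a mixture -/
theorem HasMix.add_blue {X Y : Finset V} {j l j' : ℕ} (h : HasMix H X j l)
    (h' : HasMat Hᶜ Y j') (hXY : Disjoint X Y) : HasMix H (X ∪ Y) (j + j') l := by
  obtain ⟨Tb, Tr, h1, h2, h3, h4, h5⟩ := h
  obtain ⟨T, hT, hTc⟩ := h'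
  obtain ⟨h6, h7⟩ := IsMat.union' h1 hT hXY
  refine ⟨Tb ∪ T, Tr, h6, IsMat.mono' h2 subset_union_left, ?_, ?_, h5⟩
  · intro e he f hf
    rw [mem_union] at he
    rcases he with he | he
    · exact h3 e he f hf
    · have e1 : e ⊆ Y := by
        intro z hz
        exact hT.biUnion_subset (mem_biUnion.2 ⟨e, he, hz⟩)
      have e2 : f ⊆ X := by
        intro z hz
        exact h2.biUnion_subset (mem_biUnion.2 ⟨f, hf, hz⟩)
      exact (disjoint_of_subset_left e2 (disjoint_of_subset_right e1 hXY)).symm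
  · rw [h7, h4, hTc]

section mainB

variable [Fintype V] {a g A s : ℕ} {RA : Finset V} {u h : Fin s → V}
  {P : Fin s ⊕ Fin g → Finset V} {c : Fin s ⊕ Fin g → ℕ}

/-- the odd set of the vertices which are not in the unmatched pieces -/
noncomputable def XE (RA : Finset V) (h : Fin s → V) (P : Fin s ⊕ Fin g → Finset V) : Finset V :=
  RA ∪ univ.biUnion (fun i : Fin s => (P (Sum.inl i)).erase (h i))

theorem mem_XE {x : V} : x ∈ XE RA h P ↔ x ∈ RA ∨ ∃ i, x ∈ P (Sum.inl i) ∧ x ≠ h i := by
  unfold XE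
  rw [mem_union, mem_biUnion]
  constructor
  · rintro (h1 | ⟨i, _, h1⟩)
    · exact Or.inl h1
    · rw [mem_erase] at h1
      exact Or.inr ⟨i, h1.2, h1.1⟩
  · rintro (h1 | ⟨i, h1, h2⟩)
    · exact Or.inl h1
    · exact Or.inr ⟨i, mem_univ i, mem_erase.2 ⟨h2, h1⟩⟩

theorem sep_XE (hN : NF H a g A s RA u P c) (j : Fin g) : Sep H (XE RA h P) (P (Sum.inr j)) := by
  have h1 := hN.sepA (Sum.inr j)
  have h2 := fun i : Fin s => hN.sep (Sum.inl i) (Sum.inr j) (by simp)
  refine ⟨?_, ?_⟩
  · rw [disjoint_left]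
    intro x hx hx'
    rw [mem_XE] at hx
    rcases hx with hx | ⟨i, hx, _⟩
    · exact disjoint_left.1 h1.1 hx hx'
    · exact disjoint_left.1 (h2 i).1 hx hx'
  · intro x hx y hy hadj
    rw [mem_XE] at hx
    rcases hx with hx | ⟨i, hx, _⟩
    · exact h1.2 x hx y hy hadj
    · exact (h2 i).2 x hx y hy hadj

theorem card_XE (hN : NF H a g A s RA u P c) (hh : ∀ i, h i ∈ P (Sum.inl i)) :
    (XE RA h P).card = 2 * (A + ∑ i : Fin s, c (Sum.inl i)) + 1 := by
  unfold XE
  rw [card_union_of_disjoint, card_biUnion, hN.cardA, sum_congr rfl (fun i _ => by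
    rw [card_erase_of_mem (hh i), (hN.piece (Sum.inl i)).card, Nat.add_sub_cancel]), ← mul_sum]
  · ring
  · intro i _ j _ hij
    exact disjoint_of_subset_left (erase_subset _ _) (disjoint_of_subset_right (erase_subset _ _)
      (hN.sep (Sum.inl i) (Sum.inl j) (by simpa using hij)).1)
  · rw [disjoint_biUnion_right]
    intro i _
    exact disjoint_of_subset_right (erase_subset _ _) (hN.sepA (Sum.inl i)).1

theorem mix_XE (hN : NF H a g A s RA u P c) (hh : ∀ i, h i ∈ P (Sum.inl i)) {i0 : ℕ}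
    (hi0 : i0 ≤ A) (hmix : HasMix H RA (A - i0) i0) :
    HasMix H (XE RA h P) (A + ∑ i : Fin s, c (Sum.inl i) - i0) i0 := by
  have h1 : HasMat Hᶜ (univ.biUnion (fun i : Fin s => (P (Sum.inl i)).erase (h i)))
      (∑ i : Fin s, c (Sum.inl i)) := by
    apply hasMat_biUnion
    · intro i _ j _ hij
      exact disjoint_of_subset_left (erase_subset _ _) (disjoint_of_subset_right
        (erase_subset _ _) (hN.sep (Sum.inl i) (Sum.inl j) (by simpa using hij)).1)
    · intro i _
      exact (hN.piece (Sum.inl i)).blue_mat (hh i)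
  have h2 := HasMix.add_blue hmix h1 (by
    rw [disjoint_biUnion_right]
    intro i _
    exact disjoint_of_subset_right (erase_subset _ _) (hN.sepA (Sum.inl i)).1)
  have h3 : A + ∑ i : Fin s, c (Sum.inl i) - i0 = A - i0 + ∑ i : Fin s, c (Sum.inl i) := by omega
  rw [h3]
  exact h2

/-- the red edges in `XE` -/
theorem mat_XE (hN : NF H a g A s RA u P c) {j : ℕ}
    (hr : HasMat H (univ \ (univ.image u ∪ univ.image h)) j) :
    HasMat H (XE RA h P) (j - ∑ k : Fin g, c (Sum.inr k)) := by
  obtain ⟨T, hT, hTc⟩ := hr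
  set TX := T.filter (fun e => e ⊆ XE RA h P) with hTX
  have hmem : ∀ y, y ∈ univ \ (univ.image u ∪ univ.image h) →
      y ∈ XE RA h P ∨ ∃ k, y ∈ P (Sum.inr k) := by
    intro y hy
    rw [mem_sdiff, mem_union, mem_image, mem_image] at hy
    push Not at hy
    rcases hN.cover y with h1 | ⟨i, h1⟩ | ⟨j, h1⟩
    · exact Or.inl (mem_XE.2 (Or.inl h1))
    · exact absurd h1.symm (hy.2.1 i (mem_univ i))
    · rcases j with i | k
      · exact Or.inl (mem_XE.2 (Or.inr ⟨i, h1, fun h2 => hy.2.2 i (mem_univ i) h2.symm⟩))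
      · exact Or.inr ⟨k, h1⟩
  have hcov : T ⊆ TX ∪ univ.biUnion (fun k : Fin g => T.filter (fun e => e ⊆ P (Sum.inr k))) := by
    intro e he
    obtain ⟨x, hx, y, hy, hxy, he'⟩ := hT.1 e he
    rw [mem_union, mem_biUnion]
    rcases hmem x hx with h1 | ⟨k, h1⟩ <;> rcases hmem y hy with h2 | ⟨l, h2⟩
    · left
      rw [hTX, mem_filter]
      refine ⟨he, ?_⟩
      rw [he']
      intro z hz
      rw [mem_insert, mem_singleton] at hz
      rcases hz with rfl | rfl
      · exact h1
      · exact h2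
    · exact absurd hxy ((sep_XE hN l).2 x h1 y h2)
    · exact absurd hxy.symm ((sep_XE hN k).2 y h2 x h1)
    · right
      have hkl : k = l := by
        by_contra hne
        exact (hN.sep (Sum.inr k) (Sum.inr l) (by simpa using hne)).2 x h1 y h2 hxy
      subst hkl
      refine ⟨k, mem_univ k, ?_⟩
      rw [mem_filter]
      refine ⟨he, ?_⟩
      rw [he']
      intro z hz
      rw [mem_insert, mem_singleton] at hz
      rcases hz with rfl | rfl
      · exact h1
      · exact h2
  have hk : ∀ k : Fin g, (T.filter (fun e => e ⊆ P (Sum.inr k))).card ≤ c (Sum.inr k) := by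
    intro k
    have h1 : IsMat H (P (Sum.inr k)) (T.filter (fun e => e ⊆ P (Sum.inr k))) := by
      refine ⟨?_, fun e he f hf => hT.2 e (mem_filter.1 he).1 f (mem_filter.1 hf).1⟩
      intro e he
      rw [mem_filter] at he
      obtain ⟨x, _, y, _, hxy, he'⟩ := hT.1 e he.1
      refine ⟨x, he.2 ?_, y, he.2 ?_, hxy, he'⟩
      · rw [he']
        exact mem_insert_self _ _
      · rw [he']
        exact mem_insert_of_mem (mem_singleton_self _)
    have h2 := HasMat.two_mul_le ⟨_, h1, rfl⟩
    rw [(hN.piece (Sum.inr k)).card] at h2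
    omega
  have h1 := (card_le_card hcov).trans (card_union_le _ _)
  have h2 : (univ.biUnion (fun k : Fin g => T.filter (fun e => e ⊆ P (Sum.inr k)))).card ≤
      ∑ k : Fin g, c (Sum.inr k) := card_biUnion_le.trans (sum_le_sum (fun k _ => hk k))
  have h3 : HasMat H (XE RA h P) TX.card := by
    refine ⟨TX, ⟨?_, fun e he f hf => hT.2 e (mem_filter.1 he).1 f (mem_filter.1 hf).1⟩, rfl⟩
    intro e he
    rw [hTX, mem_filter] at he
    obtain ⟨x, _, y, _, hxy, he'⟩ := hT.1 e he.1
    refine ⟨x, he.2 ?_, y, he.2 ?_, hxy, he'⟩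
    · rw [he']
      exact mem_insert_self _ _
    · rw [he']
      exact mem_insert_of_mem (mem_singleton_self _)
  exact h3.mono (by omega)

theorem hostB (hN : NF H a g A s RA u P c)
    (hh : ∀ i, h i ∈ P (Sum.inl i) ∧ H.Adj (u i) (h i)) {r i0 : ℕ}
    {Fs : Finset (Finset (Fin n))} {K : Finset (Fin n)} (hL : LevB Gr Gb a g r Fs K)
    (hi0 : i0 ≤ A) (hmix : HasMix H RA (A - i0) i0)
    (hA2 : (∃ j : Fin g, c (Sum.inr j) ≠ 0) → i0 + 2 ≤ A) (hsr : s + i0 ≤ r)
    (hr : HasMat H (univ \ (univ.image u ∪ univ.image h)) (r - s)) :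
    Contains H Hᶜ Gr Gb := by
  have hhP : ∀ i, h i ∈ P (Sum.inl i) := fun i => (hh i).1
  have hPd : ∀ i j, i ≠ j → Disjoint (P i) (P j) := fun i j hij => (hN.sep i j hij).1
  have huP : ∀ i j, u i ∉ P j := hN.disj_P
  have hbox := hL.fam.box
  have hgreen := hL.fam.green
  have hXEc := card_XE hN hhP
  have hXmix := mix_XE hN hhP hi0 hmix
  have hXmat := mat_XE hN hr
  have hXEd : ∀ k, Disjoint (XE RA h P) (P (Sum.inr k)) := fun k => (sep_XE hN k).1
  set A' := A + ∑ i : Fin s, c (Sum.inl i) with hA'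
  have hsum : A' + ∑ k : Fin g, c (Sum.inr k) + s = a := by
    have h1 := hN.sum
    rw [Fintype.sum_sum_type] at h1
    omega
  have hrA : 2 * (r - s - ∑ k : Fin g, c (Sum.inr k)) ≤ 2 * A' + 1 := by
    rw [← hXEc]
    exact hXmat.two_mul_le
  -- the numbers of red edges
  obtain ⟨ρX, ρ, hρ1, hρ2, hρsum, hρX1, hρX2, hρfirst⟩ : ∃ (ρX : ℕ) (ρ : Fin g → ℕ),
      (∀ k, ρ k ≤ c (Sum.inr k)) ∧ i0 ≤ ρX ∧ ρX + ∑ k, ρ k = r - s ∧ ρX ≤ A' ∧
      HasMat H (XE RA h P) ρX ∧ (ρX = i0 ∨ ∀ k, ρ k = c (Sum.inr k)) := by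
    by_cases hle : r - s - i0 ≤ ∑ k : Fin g, c (Sum.inr k)
    · obtain ⟨ρ, h1, h2⟩ := exists_rho univ (fun k : Fin g => c (Sum.inr k)) (r - s - i0) hle
      refine ⟨i0, ρ, h1, le_rfl, by omega, by omega, ?_, Or.inl rfl⟩
      obtain ⟨_, Tr, _, h3, _, _, h4⟩ := hXmix
      exact ⟨Tr, h3, h4⟩
    · refine ⟨r - s - ∑ k : Fin g, c (Sum.inr k), fun k => c (Sum.inr k), fun _ => le_rfl,
        by omega, ?_, by omega, hXmat, Or.inr (fun _ => rfl)⟩
      show r - s - ∑ k : Fin g, c (Sum.inr k) + ∑ k : Fin g, c (Sum.inr k) = r - s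
      omega
  have hXmix' : HasMix H (XE RA h P) (A' - ρX) ρX :=
    interval_mix (c := A') (i := i0) (j := ρX) (k := ρX) hXEc.ge hρ2 le_rfl hρX1 hXmix hρX2
  obtain ⟨TbX, TrX, yX, hbX, hrX, hdX, hbXc, hrXc, hyX, hcovX⟩ := mix_rest hXmix' (by
    rw [hXEc]
    omega)
  have hpk : ∀ k : Fin g, ∃ (Tb Tr : Finset (Finset V)) (x : V), IsMat Hᶜ (P (Sum.inr k)) Tb ∧
      IsMat H (P (Sum.inr k)) Tr ∧ (∀ e ∈ Tb, ∀ f ∈ Tr, Disjoint e f) ∧
      Tb.card = c (Sum.inr k) - ρ k ∧ Tr.card = ρ k ∧ x ∈ P (Sum.inr k) ∧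
      ∀ y ∈ P (Sum.inr k), y ≠ x → y ∈ Tb.biUnion id ∨ y ∈ Tr.biUnion id := by
    intro k
    have h1 := hN.piece (Sum.inr k)
    have h2 := hρ1 k
    obtain ⟨y, hy⟩ := card_pos.1 (show 0 < (P (Sum.inr k)).card by rw [h1.card]; omega)
    have h3 := mixture (H := H) (c (Sum.inr k) - ρ k) (X := P (Sum.inr k)) (c := c (Sum.inr k))
      (by omega) h1.card.ge ((h1.red_mat hy).sub (erase_subset _ _))
      ((h1.blue_mat hy).sub (erase_subset _ _))
    have h4 : c (Sum.inr k) - (c (Sum.inr k) - ρ k) = ρ k := by omega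
    rw [h4] at h3
    apply mix_rest h3
    rw [h1.card]
    omega
  choose Tb Tr x hb hrr hd hbc hrc hx hcov using hpk
  -- the hosted pieces
  obtain ⟨z0⟩ : Nonempty (Fin n) := by
    by_contra hn
    rw [not_nonempty_iff] at hn
    have h1 := hL.c1
    have h3 : Fs = ∅ := by
      rw [eq_empty_iff_forall_notMem]
      intro C hC
      obtain ⟨x, _⟩ := (hbox C hC).nonempty
      exact hn.false x
    rw [h3, sum_empty] at h1
    omega
  obtain ⟨JK, _, hJKc⟩ := exists_subset_card_eq (s := (univ : Finset (Fin g))) (n := K.card)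
    (by rw [card_univ, Fintype.card_fin]; exact hL.cardK)
  obtain ⟨z, hzM, hzi⟩ : ∃ z : Fin g → Fin n, (∀ j ∈ JK, z j ∈ K) ∧
      ∀ i ∈ JK, ∀ j ∈ JK, z i = z j → i = j := by
    have e : JK ≃ K := Finset.equivOfCardEq hJKc
    refine ⟨fun j => if hj : j ∈ JK then e ⟨j, hj⟩ else z0, ?_, ?_⟩
    · intro j hj
      simp only [dif_pos hj]
      exact (e ⟨j, hj⟩).2
    · intro i hi j hj hij
      simp only [dif_pos hi, dif_pos hj] at hij
      have := e.injective (Subtype.ext hij)
      exact congrArg Subtype.val this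
  have hJKc' : (univ \ JK).card + K.card = g := by
    have h1 := card_sdiff_add_card_eq_card (subset_univ JK)
    rw [card_univ, Fintype.card_fin, hJKc] at h1
    exact h1
  -- red pairs and the other boxes
  set Rd := Fs.filter (fun C => RB Gr Gb C ∧ 2 ≤ C.card) with hRd
  have hRdc : Rd.card = r := hL.red
  have hRdF : Rd ⊆ Fs := filter_subset _ _
  obtain ⟨Sp, hSp, hSpc⟩ := exists_subset_card_eq (show s ≤ Rd.card by omega)
  set R1 := Rd \ Sp with hR1
  have hR1c : R1.card = r - s := by
    rw [hR1, card_sdiff_of_subset hSp, hSpc, hRdc]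
  set N1 := Fs \ Rd with hN1
  have hN1F : N1 ⊆ Fs := sdiff_subset
  have hN1box : ∀ C ∈ N1, Box Gr Gb C := fun C hC => hbox C (hN1F hC)
  have hβN1 : beta Gr Gb N1 + r + r = ∑ C ∈ Fs, C.card := by
    have h1 := beta_eq_sum hbox hL.le2
    have h2 := beta_sdiff (Gr := Gr) (Gb := Gb) hRdF
    have h3 : beta Gr Gb Rd = r := by
      have h4 : nb Gr Gb Rd = 0 := by
        unfold nb
        rw [card_eq_zero, filter_eq_empty_iff]
        intro C hC
        exact (mem_filter.1 hC).2.1.not_BB
      unfold beta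
      omega
    rw [hL.red] at h1
    rw [← hN1] at h2
    omega
  -- the number of blue edges
  set σJ := ∑ k ∈ JK, (Tb k).card with hσJ
  have hσall : ∑ k ∈ JK, (Tb k).card + ∑ k ∈ univ \ JK, (Tb k).card + ∑ k, ρ k =
      ∑ k : Fin g, c (Sum.inr k) := by
    rw [add_comm (∑ k ∈ JK, (Tb k).card), sum_sdiff (subset_univ JK), ← sum_add_distrib]
    apply sum_congr rfl
    intro k _
    rw [hbc k]
    have := hρ1 k
    omega
  -- the slots
  obtain ⟨S, hS1, hS2, hS3, hS4, hS5⟩ := exists_slotsB (H := H) hN1box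
  have hcount : 2 * (A' - ρX) + 2 * σJ + 2 * ∑ k ∈ univ \ JK, (Tb k).card + 1 +
      (univ \ JK).card ≤ beta Gr Gb N1 := by
    have h1 := hL.c2
    omega
  obtain ⟨τ, hτ1, hτ2⟩ : ∃ τ : Fin g → Finset (Finset (Finset (Fin n))), (∀ k ∈ JK, τ k ⊆ S ∧
      (τ k).card = (Tb k).card ∧ ∀ s ∈ τ k, ∀ D ∈ s, ∀ w ∈ D, Gr.Adj (z k) w) ∧
      ∀ i ∈ JK, ∀ j ∈ JK, i ≠ j → Disjoint (τ i) (τ j) := by
    by_cases h0 : σJ = 0
    · have h1 : ∀ k ∈ JK, (Tb k).card = 0 := fun k hk => (sum_eq_zero_iff.1 h0) k hk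
      refine ⟨fun _ => ∅, ?_, ?_⟩
      · intro k hk
        refine ⟨empty_subset _, by rw [card_empty, h1 k hk], ?_⟩
        intro s hs
        simp at hs
      · intro i _ j _ _
        exact disjoint_empty_left _
    · have h1 : ∃ k ∈ JK, (Tb k).card ≠ 0 := by
        by_contra hcon
        push Not at hcon
        exact h0 (sum_eq_zero hcon)
      obtain ⟨k0, _, hk0⟩ := h1
      rw [hbc k0] at hk0
      have h2 : ρX = i0 := by
        rcases hρfirst with h3 | h3
        · exact h3
        · have := h3 k0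
          omega
      have h3 : i0 + 2 ≤ A := hA2 ⟨k0, by omega⟩
      obtain ⟨τ, h4, h5⟩ := choose_slots JK S (fun k => (Tb k).card)
        (fun k => S.filter (fun s => ∃ D ∈ s, ∃ x ∈ D, ¬ Gr.Adj (z k) x)) 2
        (fun k hk => bad_slotsB (by
          have h6 := hL.hits (z k) (hzM k hk)
          convert h6) hS2 (fun s hs => (hS1 s hs).trans hN1F)) (by
          show σJ + 2 ≤ S.card
          omega)
      refine ⟨τ, ?_, h5⟩
      intro k hk
      obtain ⟨h6, h7, h8⟩ := h4 k hk
      refine ⟨h6, h7, ?_⟩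
      intro s hs D hD w hw
      by_contra hcon
      apply disjoint_left.1 h8 hs
      rw [mem_filter]
      exact ⟨h6 hs, D, hD, w, hw, hcon⟩
  -- the rest of the boxes
  set Us := JK.biUnion τ with hUs
  have hUsS : Us ⊆ S := by
    intro t ht
    rw [hUs, mem_biUnion] at ht
    obtain ⟨k, hk, ht⟩ := ht
    exact (hτ1 k hk).1 ht
  have hUsc : Us.card = σJ := by
    rw [hUs, card_biUnion hτ2]
    exact sum_congr rfl (fun k hk => (hτ1 k hk).2.1)
  set U2 := Us.biUnion id with hU2
  have hU2N : U2 ⊆ N1 := by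
    intro C hC
    rw [hU2, mem_biUnion] at hC
    obtain ⟨t, ht, hC⟩ := hC
    exact hS1 t (hUsS ht) hC
  set N2 := N1 \ U2 with hN2
  have hβN2 : beta Gr Gb N2 + 2 * σJ = beta Gr Gb N1 := by
    have h1 := beta_sdiff (Gr := Gr) (Gb := Gb) hU2N
    rw [← hN2] at h1
    have h2 : beta Gr Gb U2 = 2 * σJ := by
      rw [hU2, beta_biUnion Us (fun t ht t' ht' => hS2 t (hUsS ht) t' (hUsS ht')),
        sum_congr rfl (fun t ht => hS5 t (hUsS ht)), sum_const, smul_eq_mul, hUsc, mul_comm]
    omega
  -- the hosts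
  have hxinj : ∀ i j, x i = x j → i = j := by
    intro i j hij
    by_contra hne
    refine disjoint_left.1 (hPd (Sum.inr i) (Sum.inr j) (by simpa using hne)) (hx i) ?_
    rw [hij]
    exact hx j
  set ζ : V → Fin n := fun v => if hv : ∃ j, j ∈ JK ∧ x j = v then z hv.choose else z0 with hζ
  have hζx : ∀ j ∈ JK, ζ (x j) = z j := by
    intro j hj
    have hv : ∃ j', j' ∈ JK ∧ x j' = x j := ⟨j, hj, rfl⟩
    simp only [hζ]
    rw [dif_pos hv]
    congr 1
    exact hxinj _ _ hv.choose_spec.2
  set Hs := JK.image x with hHs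
  have hHsm : ∀ v ∈ Hs, ∃ j ∈ JK, v = x j := by
    intro v hv
    rw [hHs, mem_image] at hv
    obtain ⟨j, hj, rfl⟩ := hv
    exact ⟨j, hj, rfl⟩
  set ok : V → Finset (Fin n) → Prop :=
    fun y D => ∀ v ∈ Hs, H.Adj v y → ∀ w ∈ D, Gr.Adj (ζ v) w with hok
  have hokR : ∀ y, ∀ C ∈ Rd, ok y C := by
    intro y C hC
    rw [hok]
    intro v hv _ w hw
    obtain ⟨j, hj, rfl⟩ := hHsm v hv
    rw [hζx j hj]
    have h1 := mem_filter.1 hC
    exact hL.KR (z j) (hzM j hj) C h1.1 h1.2.1 h1.2.2 w hw
  -- the special pairs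
  set E1 : Finset (Finset V) := univ.image (fun i : Fin s => ({u i, h i} : Finset V)) with hE1
  have huh : ∀ i j, u i ≠ h j := by
    intro i j hij
    exact huP i (Sum.inl j) (hij ▸ (hh j).1)
  have hhinj : ∀ i j, h i = h j → i = j := by
    intro i j hij
    by_contra hne
    refine disjoint_left.1 (hPd (Sum.inl i) (Sum.inl j) (by simpa using hne)) (hh i).1 ?_
    rw [hij]
    exact (hh j).1
  have hE1m : IsMat H univ E1 := by
    refine ⟨?_, ?_⟩
    · intro e he
      rw [hE1, mem_image] at he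
      obtain ⟨i, _, rfl⟩ := he
      exact ⟨u i, mem_univ _, h i, mem_univ _, (hh i).2, rfl⟩
    · intro e he f hf hef
      rw [hE1, mem_image] at he hf
      obtain ⟨i, _, rfl⟩ := he
      obtain ⟨j, _, rfl⟩ := hf
      have hij : i ≠ j := fun h' => hef (by rw [h'])
      rw [disjoint_left]
      intro y hy hy'
      rw [mem_insert, mem_singleton] at hy hy'
      rcases hy with rfl | rfl <;> rcases hy' with hy' | hy'
      · exact hij (hN.inj hy')
      · exact huh i j hy'
      · exact huh j i hy'.symm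
      · exact hij (hhinj i j hy')
  have hE1c : E1.card = s := by
    rw [hE1, card_image_of_injective, card_univ, Fintype.card_fin]
    intro i j hij
    have h1 : u i ∈ ({u j, h j} : Finset V) := by
      have h2 : u i ∈ ({u i, h i} : Finset V) := mem_insert_self _ _
      simp only at hij
      rwa [hij] at h2
    rw [mem_insert, mem_singleton] at h1
    rcases h1 with h1 | h1
    · exact hN.inj h1
    · exact absurd h1 (huh i j)
  have g1 : GP H Gr Gb ok (E1.biUnion id) Sp := by
    apply gp_edges hE1m hE1c hSpc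
    · intro C hC
      exact (mem_filter.1 (hSp hC)).2
    · intro y _ C hC
      exact hokR y C (hSp hC)
  -- the red edges
  obtain ⟨hTr1, hTr2⟩ := isMat_biUnion (univ : Finset (Fin g)) (Q := fun k => P (Sum.inr k))
    (T := Tr) (fun i _ j _ hij => hPd _ _ (by simpa using hij)) (fun k _ => hrr k)
  obtain ⟨hTr3, hTr4⟩ := IsMat.union' hrX hTr1 (by
    rw [disjoint_biUnion_right]
    intro k _
    exact hXEd k)
  have g2 : GP H Gr Gb ok ((TrX ∪ univ.biUnion Tr).biUnion id) R1 := by
    apply gp_edges hTr3 (c := r - s) _ hR1c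
    · intro C hC
      exact (mem_filter.1 (mem_sdiff.1 hC).1).2
    · intro y _ C hC
      exact hokR y C (mem_sdiff.1 hC).1
    · rw [hTr4, hTr2, hrXc, sum_congr rfl (fun k _ => hrc k)]
      exact hρsum
  -- the blue edges of the hosted pieces
  have hbiJ : JK.biUnion (fun k => (τ k).biUnion id) = U2 := by
    rw [hU2, hUs]
    ext C
    simp only [mem_biUnion, id]
    constructor
    · rintro ⟨k, hk, t, ht, hC⟩
      exact ⟨t, ⟨k, hk, ht⟩, hC⟩
    · rintro ⟨t, ⟨k, hk, ht⟩, hC⟩
      exact ⟨k, hk, t, ht, hC⟩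
  have g3 : GP H Gr Gb ok (JK.biUnion (fun k => (Tb k).biUnion id)) U2 := by
    rw [← hbiJ]
    apply gp_biUnion JK
    · intro k hk
      obtain ⟨h1, h2, h3⟩ := hτ1 k hk
      apply gp_sets (Tb k).card rfl h2
      · exact fun t ht t' ht' => hS2 t (h1 ht) t' (h1 ht')
      · intro e he t ht
        obtain ⟨v, hv, w, hw, hvw, rfl⟩ := (hb k).1 e he
        apply gp_of_packable (hS3 t (h1 ht) v w hvw)
        intro y hy D hD
        rw [hok]
        intro v' hv' hadj w' hw'
        have hyP : y ∈ P (Sum.inr k) := by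
          rw [mem_insert, mem_singleton] at hy
          rcases hy with rfl | rfl
          · exact hv
          · exact hw
        obtain ⟨i, hi, rfl⟩ := hHsm v' hv'
        by_cases hik : i = k
        · subst hik
          rw [hζx i hi]
          exact h3 t ht D hD w' hw'
        · exact absurd hadj ((hN.sep (Sum.inr i) (Sum.inr k) (by simpa using hik)).2 _ (hx i)
            y hyP)
    · intro i hi j hj hij
      rw [disjoint_biUnion_left]
      intro t ht
      rw [disjoint_biUnion_right]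
      intro t' ht'
      apply hS2 t ((hτ1 i hi).1 ht) t' ((hτ1 j hj).1 ht')
      rintro rfl
      exact disjoint_left.1 (hτ2 i hi j hj hij) ht ht'
  -- the rest
  obtain ⟨hTb1, hTb2⟩ := isMat_biUnion (univ \ JK) (Q := fun k => P (Sum.inr k))
    (T := Tb) (fun i _ j _ hij => hPd _ _ (by simpa using hij)) (fun k _ => hb k)
  obtain ⟨hTb3, hTb4⟩ := IsMat.union' hbX hTb1 (by
    rw [disjoint_biUnion_right]
    intro k _
    exact hXEd k)
  set L := insert yX ((univ \ JK).image x) with hLdef
  have hLm : ∀ y ∈ L, y = yX ∨ ∃ k, k ∉ JK ∧ y = x k := by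
    intro y hy
    rw [hLdef, mem_insert, mem_image] at hy
    rcases hy with hy | ⟨k, hk, rfl⟩
    · exact Or.inl hy
    · exact Or.inr ⟨k, (mem_sdiff.1 hk).2, rfl⟩
  have g4 : GP H Gr Gb ok ((TbX ∪ (univ \ JK).biUnion Tb).biUnion id ∪ L) N2 := by
    apply gp_of_packable
    · apply packB _ le_rfl (fun C hC => hN1box C (mem_sdiff.1 hC).1) hTb3
      · intro y hy y' hy' hne
        rcases hLm y hy with rfl | ⟨k, _, rfl⟩ <;> rcases hLm y' hy' with rfl | ⟨l, _, rfl⟩
        · exact absurd rfl hne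
        · exact (sep_XE hN l).2 _ hyX _ (hx l)
        · exact fun h' => (sep_XE hN k).2 _ hyX _ (hx k) h'.symm
        · have hkl : k ≠ l := fun h' => hne (by rw [h'])
          exact (hN.sep (Sum.inr k) (Sum.inr l) (by simpa using hkl)).2 _ (hx k) _ (hx l)
      · rw [hTb4, hTb2, hbXc, ← hN2]
        have h1 : L.card ≤ (univ \ JK).card + 1 :=
          (card_insert_le _ _).trans (Nat.add_le_add_right card_image_le 1)
        omega
    · intro y hy D _
      rw [hok]
      intro v' hv' hadj
      exfalso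
      obtain ⟨i, hi, rfl⟩ := hHsm v' hv'
      have hyc : y ∈ XE RA h P ∨ ∃ k, k ∉ JK ∧ y ∈ P (Sum.inr k) := by
        rw [mem_union] at hy
        rcases hy with hy | hy
        · have h1 := hTb3.biUnion_subset hy
          rw [mem_union, mem_biUnion] at h1
          rcases h1 with h1 | ⟨k, hk, h1⟩
          · exact Or.inl h1
          · exact Or.inr ⟨k, (mem_sdiff.1 hk).2, h1⟩
        · rcases hLm y hy with rfl | ⟨k, hk, rfl⟩
          · exact Or.inl hyX
          · exact Or.inr ⟨k, hk, hx k⟩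
      rcases hyc with h1 | ⟨k, hk, h1⟩
      · exact (sep_XE hN i).2 y h1 _ (hx i) hadj.symm
      · refine (hN.sep (Sum.inr i) (Sum.inr k) ?_).2 _ (hx i) y h1 hadj
        simp only [ne_eq, Sum.inr.injEq]
        rintro rfl
        exact hk hi
  -- all together
  have g12 := g1.union g2 disjoint_sdiff
  rw [hR1, union_sdiff_of_subset hSp] at g12
  have g123 := g12.union g3 (by
    rw [disjoint_left]
    intro C hC hC'
    exact (mem_sdiff.1 (hU2N hC')).2 hC)
  have g1234 := g123.union g4 (by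
    rw [disjoint_left]
    intro C hC hC'
    rw [hN2, mem_sdiff] at hC'
    rw [mem_union] at hC
    rcases hC with hC | hC
    · exact (mem_sdiff.1 hC'.1).2 hC
    · exact hC'.2 hC)
  have hfinal : GP H Gr Gb ok (univ \ Hs) (Rd ∪ U2 ∪ N2) := by
    obtain ⟨f, hf1, hf2⟩ := g1234
    have hsub : univ \ Hs ⊆ E1.biUnion id ∪ (TrX ∪ univ.biUnion Tr).biUnion id ∪
        JK.biUnion (fun k => (Tb k).biUnion id) ∪
        ((TbX ∪ (univ \ JK).biUnion Tb).biUnion id ∪ L) := by
      intro y hy
      rw [mem_sdiff] at hy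
      have hXc : y ∈ XE RA h P → y ∈ E1.biUnion id ∪ (TrX ∪ univ.biUnion Tr).biUnion id ∪
          JK.biUnion (fun k => (Tb k).biUnion id) ∪
          ((TbX ∪ (univ \ JK).biUnion Tb).biUnion id ∪ L) := by
        intro hyE
        by_cases hyy : y = yX
        · refine mem_union_right _ (mem_union_right _ ?_)
          rw [hLdef, hyy]
          exact mem_insert_self _ _
        · rcases hcovX y hyE hyy with h1 | h1
          · refine mem_union_right _ (mem_union_left _ ?_)
            rw [mem_biUnion] at h1 ⊢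
            obtain ⟨e, he, h1⟩ := h1
            exact ⟨e, mem_union_left _ he, h1⟩
          · refine mem_union_left _ (mem_union_left _ (mem_union_right _ ?_))
            rw [mem_biUnion] at h1 ⊢
            obtain ⟨e, he, h1⟩ := h1
            exact ⟨e, mem_union_left _ he, h1⟩
      have hEc : ∀ i, y = u i ∨ y = h i → y ∈ E1.biUnion id ∪
          (TrX ∪ univ.biUnion Tr).biUnion id ∪ JK.biUnion (fun k => (Tb k).biUnion id) ∪
          ((TbX ∪ (univ \ JK).biUnion Tb).biUnion id ∪ L) := by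
        intro i hi
        refine mem_union_left _ (mem_union_left _ (mem_union_left _ ?_))
        rw [mem_biUnion]
        refine ⟨{u i, h i}, ?_, ?_⟩
        · rw [hE1, mem_image]
          exact ⟨i, mem_univ i, rfl⟩
        · show y ∈ ({u i, h i} : Finset V)
          rw [mem_insert, mem_singleton]
          exact hi
      rcases hN.cover y with h1 | ⟨i, h1⟩ | ⟨j, h1⟩
      · exact hXc (mem_XE.2 (Or.inl h1))
      · exact hEc i (Or.inl h1)
      · rcases j with i | k
        · by_cases hyi : y = h i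
          · exact hEc i (Or.inr hyi)
          · exact hXc (mem_XE.2 (Or.inr ⟨i, h1, hyi⟩))
        · by_cases hyx : y = x k
          · by_cases hk : k ∈ JK
            · exfalso
              apply hy.2
              rw [hHs, hyx]
              exact mem_image_of_mem x hk
            · refine mem_union_right _ (mem_union_right _ ?_)
              rw [hLdef, hyx]
              exact mem_insert_of_mem (mem_image_of_mem x (mem_sdiff.2 ⟨mem_univ k, hk⟩))
          · rcases hcov k y h1 hyx with h2 | h2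
            · by_cases hk : k ∈ JK
              · refine mem_union_left _ (mem_union_right _ ?_)
                rw [mem_biUnion]
                exact ⟨k, hk, h2⟩
              · refine mem_union_right _ (mem_union_left _ ?_)
                rw [mem_biUnion] at h2 ⊢
                obtain ⟨e, he, h2⟩ := h2
                refine ⟨e, mem_union_right _ ?_, h2⟩
                rw [mem_biUnion]
                exact ⟨k, mem_sdiff.2 ⟨mem_univ k, hk⟩, he⟩
            · refine mem_union_left _ (mem_union_left _ (mem_union_right _ ?_))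
              rw [mem_biUnion] at h2 ⊢
              obtain ⟨e, he, h2⟩ := h2
              refine ⟨e, mem_union_right _ ?_, h2⟩
              rw [mem_biUnion]
              exact ⟨k, mem_univ k, he⟩
    exact ⟨f, fun y hy => hf1 y (hsub hy),
      fun C hC => (hf2 C hC).mono (filter_subset_filter _ hsub)⟩
  have hΓF : ∀ C ∈ Rd ∪ U2 ∪ N2, C ∈ Fs := by
    intro C hC
    rw [mem_union, mem_union] at hC
    rcases hC with (hC | hC) | hC
    · exact hRdF hC
    · exact hN1F (hU2N hC)
    · exact hN1F (mem_sdiff.1 hC).1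
  apply contains_of_gp (F := Rd ∪ U2 ∪ N2) (K := K) (Hs := Hs) (ζ := ζ) ?_ hL.blue ?_ ?_ ?_ ?_
    hfinal
  · intro D hD D' hD' hne y hy y' hy'
    exact hgreen D (hΓF D hD) D' (hΓF D' hD') hne y hy y' hy'
  · intro w hw D hD y hy
    exact hL.KF w hw D (hΓF D hD) y hy
  · intro v hv
    obtain ⟨j, hj, rfl⟩ := hHsm v hv
    rw [hζx j hj]
    exact hzM j hj
  · intro v hv v' hv' hvv
    obtain ⟨j, hj, rfl⟩ := hHsm v hv
    obtain ⟨j', hj', rfl⟩ := hHsm v' hv'
    rw [hζx j hj, hζx j' hj'] at hvv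
    rw [hzi j hj j' hj' hvv]
  · intro v hv v' hv' hadj
    obtain ⟨j, hj, rfl⟩ := hHsm v hv
    obtain ⟨j', hj', rfl⟩ := hHsm v' hv'
    by_cases hjj : j = j'
    · subst hjj
      exact H.irrefl hadj
    · exact (hN.sep (Sum.inr j) (Sum.inr j') (by simpa using hjj)).2 _ (hx j) _ (hx j') hadj

end mainB

end HII

end Pool.Agent.Lib.MP_a05470_co
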