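import Pool.Agent.Lib.MP_a05470_co.TF.LevSum

/-!
# Cutting the boxes
-/

set_option autoImplicit false
set_option linter.unusedSectionVars false

namespace Pool.Agent.Lib.MP_a05470_co

open Finset Classical JF

namespace LV

variable {W : Type} [Fintype W] {Gr Gb : SimpleGraph W}

/-- the two cheapest vertices -/
theorem exists_cheap_pair (C : Finset W) (f : W → ℝ) (hf : ∀ x ∈ C, 0 ≤ f x) :
    ∃ T ⊆ C, T.card = min 2 C.card ∧ (C.card : ℝ) * ∑ x ∈ T, f x ≤ 2 * ∑ x ∈ C, f x := by
  by_cases h2 : 2 ≤ C.card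
  · have hne : C.Nonempty := card_pos.1 (by omega)
    obtain ⟨x, hx, hxm⟩ := exists_min_image C f hne
    have hne' : (C.erase x).Nonempty := card_pos.1 (by rw [card_erase_of_mem hx]; omega)
    obtain ⟨y, hy, hym⟩ := exists_min_image (C.erase x) f hne'
    have hyx : y ≠ x := (mem_erase.1 hy).1
    refine ⟨{x, y}, ?_, ?_, ?_⟩
    · intro z hz
      rw [mem_insert, mem_singleton] at hz
      rcases hz with rfl | rfl
      · exact hx
      · exact (mem_erase.1 hy).2
    · rw [card_pair (Ne.symm hyx), min_eq_left h2]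
    · rw [sum_pair (Ne.symm hyx), ← add_sum_erase C f hx]
      have h3 : ((C.erase x).card : ℝ) * f y ≤ ∑ z ∈ C.erase x, f z := by
        rw [← nsmul_eq_mul]
        exact card_nsmul_le_sum _ _ _ hym
      have h4 : ((C.erase x).card : ℝ) = C.card - 1 := by
        rw [card_erase_of_mem hx, Nat.cast_sub (by omega)]
        simp
      have h5 : f x ≤ f y := hxm y (mem_erase.1 hy).2
      have h6 : (2 : ℝ) ≤ C.card := by exact_mod_cast h2
      rw [h4] at h3
      nlinarith [mul_nonneg (sub_nonneg.2 h6) (sub_nonneg.2 h5)]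
  · refine ⟨C, subset_refl _, (min_eq_right (by omega)).symm, ?_⟩
    have h3 : (C.card : ℝ) ≤ 1 := by
      have : C.card ≤ 1 := by omega
      exact_mod_cast this
    have h4 := sum_nonneg hf
    nlinarith

/-- the output of the structure theorem -/
structure LevelOut (Gr Gb : SimpleGraph W) (a g s : ℕ) (F Sp : Finset (Finset W))
    (M : Finset W) : Prop where
  fam : Fam Gr Gb (F ∪ Sp)
  disj : Disjoint F Sp
  spc : ∀ C ∈ Sp, RB Gr Gb C ∧ C.card = 2
  cardS : Sp.card = s
  Mblue : ∀ z ∈ M, ∀ z' ∈ M, z ≠ z' → Gb.Adj z z'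
  MF : ∀ z ∈ M, ∀ C ∈ F, ∀ x ∈ C, Gb.Adj z x
  MSp : ∀ z ∈ M, ∀ C ∈ Sp, ∀ x ∈ C, Gr.Adj z x ∧ Gb.Adj z x
  units : ∀ z ∈ M, ∑ C ∈ F, un Gr Gb z C ≤ 2
  half : ∀ z ∈ M, (F.filter (fun C => RB Gr Gb C ∧ 2 ≤ C.card ∧ (gp Gr Gb z C).card ≤ 1 ∧
    gp Gr Gb z C ≠ ∅)).card ≤ 1
  cardM : M.card ≤ g
  zero : a + g + 1 ≤ beta Gr Gb F + s
  level : ∀ k, 1 ≤ k → k * (a + g) + a + 1 ≤
    k * (beta Gr Gb F + M.card) + nr Gr Gb (k + 1) F + (k + 1) * s

/-- two vertices of every box, almost always green to the vertices of `M` -/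
structure TOut (Gr Gb : SimpleGraph W) (F : Finset (Finset W)) (M : Finset W)
    (T : Finset W → Finset W) : Prop where
  sub : ∀ C ∈ F, T C ⊆ C
  card : ∀ C ∈ F, (T C).card = min 2 C.card
  bad : ∀ z ∈ M, (F.filter (fun C => RB Gr Gb C ∧ ∃ x ∈ T C, ¬ Gr.Adj z x)).card ≤
    min 3 (M.card + 1)

section cut

variable {A G : ℝ} {F Sp : Finset (Finset W)} {K : Finset W}

/-- the good vertices of the blue clique -/
theorem exists_good (hA : 0 ≤ A) (hG : 0 ≤ G) (hK : ∀ z ∈ K, VV Gr Gb A G F Sp z) :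
    ∃ (K' : Finset W) (T : Finset W → Finset W), K' ⊆ K ∧ A * K.card ≤ (A + G) * K'.card ∧
      (∀ C, T C ⊆ C ∧ (T C).card = min 2 C.card) ∧
      ∀ z ∈ K', ∑ C ∈ part Gr Gb F z, ∑ x ∈ T C, Mat A (A + G) Gr Gb x z < A + G := by
  have hch := fun C : Finset W => exists_cheap_pair C
    (fun x => ∑ z ∈ K.filter (fun z => C ∈ part Gr Gb F z), Mat A (A + G) Gr Gb x z)
    (fun x _ => sum_nonneg (fun z _ => mat_nonneg hA hG x z))
  choose T hT1 hT2 hT3 using hch
  set e : W → ℝ := fun z => ∑ C ∈ part Gr Gb F z, ∑ x ∈ T C, Mat A (A + G) Gr Gb x z with he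
  have he0 : ∀ z, 0 ≤ e z := fun z =>
    sum_nonneg (fun C _ => sum_nonneg (fun x _ => mat_nonneg hA hG x z))
  refine ⟨K.filter (fun z => e z < A + G), T, filter_subset _ _, ?_, fun C => ⟨hT1 C, hT2 C⟩, ?_⟩
  · -- the total cost
    have h1 : ∑ z ∈ K, e z ≤ ∑ z ∈ K, G := by
      have h2 : ∑ z ∈ K, e z = ∑ C ∈ F, ∑ x ∈ T C,
          ∑ z ∈ K.filter (fun z => C ∈ part Gr Gb F z), Mat A (A + G) Gr Gb x z := by
        simp only [he]
        have h3 : ∀ z ∈ K, ∑ C ∈ part Gr Gb F z, ∑ x ∈ T C, Mat A (A + G) Gr Gb x z =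
            ∑ C ∈ F, ∑ x ∈ T C, (if C ∈ part Gr Gb F z then Mat A (A + G) Gr Gb x z else 0) := by
          intro z _
          have h4 : part Gr Gb F z = F.filter (fun C => C ∈ part Gr Gb F z) := by
            ext C
            rw [mem_filter]
            constructor
            · intro h
              refine ⟨?_, h⟩
              unfold part at h
              exact (mem_filter.1 h).1
            · exact fun h => h.2
          rw [h4, sum_filter]
          apply sum_congr rfl
          intro C _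
          rw [← h4]
          split_ifs
          · rfl
          · simp
        rw [sum_congr rfl h3, sum_comm]
        apply sum_congr rfl
        intro C _
        rw [sum_comm]
        apply sum_congr rfl
        intro x _
        rw [sum_filter]
      have h3 : ∀ C ∈ F, ∑ x ∈ T C,
          ∑ z ∈ K.filter (fun z => C ∈ part Gr Gb F z), Mat A (A + G) Gr Gb x z ≤
          ∑ z ∈ K.filter (fun z => C ∈ part Gr Gb F z), 2 * (tau A (A + G) Gr Gb z C / C.card) := by
        intro C _
        rcases Nat.eq_zero_or_pos C.card with h0 | h0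
        · have h4 : T C = ∅ := by
            rw [card_eq_zero] at h0
            have := hT1 C
            rw [h0, subset_empty] at this
            rw [h0]
            exact this
          rw [h4, sum_empty]
          apply sum_nonneg
          intro z _
          have := tau_nonneg (Gr := Gr) (Gb := Gb) (v := z) (C := C) hA hG
          positivity
        · have hcp : (0 : ℝ) < C.card := by exact_mod_cast h0
          have h4 := hT3 C
          rw [sum_comm (s := C)] at h4
          have h5 : ∑ z ∈ K.filter (fun z => C ∈ part Gr Gb F z),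
              2 * (tau A (A + G) Gr Gb z C / C.card) =
              (2 * ∑ z ∈ K.filter (fun z => C ∈ part Gr Gb F z), ∑ x ∈ C,
                Mat A (A + G) Gr Gb x z) / C.card := by
            rw [mul_sum, sum_div]
            apply sum_congr rfl
            intro z _
            unfold tau
            ring
          rw [h5, le_div_iff₀ hcp]
          linarith
      have h4 : ∑ C ∈ F, ∑ z ∈ K.filter (fun z => C ∈ part Gr Gb F z),
          2 * (tau A (A + G) Gr Gb z C / C.card) =
          ∑ z ∈ K, 2 * ∑ C ∈ part Gr Gb F z, tau A (A + G) Gr Gb z C / C.card := by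
        simp_rw [sum_filter]
        rw [sum_comm]
        apply sum_congr rfl
        intro z _
        rw [← sum_filter, mul_sum]
        apply sum_congr _ (fun _ _ => rfl)
        ext C
        rw [mem_filter]
        constructor
        · exact fun h => h.2
        · intro h
          refine ⟨?_, h⟩
          unfold part at h
          exact (mem_filter.1 h).1
      rw [h2]
      refine (sum_le_sum h3).trans ?_
      rw [h4]
      apply sum_le_sum
      intro z hz
      have := (hK z hz).part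
      linarith
    have h5 : ∑ z ∈ K.filter (fun z => ¬ e z < A + G), (A + G) ≤ ∑ z ∈ K, e z := by
      refine (sum_le_sum (fun z hz => not_lt.1 (mem_filter.1 hz).2)).trans ?_
      exact sum_le_sum_of_subset_of_nonneg (filter_subset _ _) (fun z _ _ => he0 z)
    have h6 : (K.card : ℝ) = (K.filter (fun z => e z < A + G)).card +
        (K.filter (fun z => ¬ e z < A + G)).card := by
      exact_mod_cast (card_filter_add_card_filter_not (s := K) (fun z => e z < A + G)).symm
    rw [sum_const, nsmul_eq_mul] at h1 h5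
    nlinarith
  · intro z hz
    rw [mem_filter] at hz
    exact hz.2

/-- properties of the cheap pairs -/
theorem good_blue (hA : 0 < A) (hG : 0 ≤ G) {z : W} {T : Finset W → Finset W}
    (hT : ∑ C ∈ part Gr Gb F z, ∑ x ∈ T C, Mat A (A + G) Gr Gb x z < A + G) {C : Finset W}
    (hC : C ∈ part Gr Gb F z) {x : W} (hx : x ∈ T C) : Gb.Adj z x := by
  by_contra hcon
  have h1 : A + G ≤ Mat A (A + G) Gr Gb x z := mat_nonblue hA.le (fun h => hcon h.symm)
  have h2 : Mat A (A + G) Gr Gb x z ≤ ∑ x ∈ T C, Mat A (A + G) Gr Gb x z :=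
    single_le_sum (f := fun x => Mat A (A + G) Gr Gb x z) (fun x _ => mat_nonneg hA.le hG x z) hx
  have h3 : ∑ x ∈ T C, Mat A (A + G) Gr Gb x z ≤
      ∑ C ∈ part Gr Gb F z, ∑ x ∈ T C, Mat A (A + G) Gr Gb x z :=
    single_le_sum (f := fun C => ∑ x ∈ T C, Mat A (A + G) Gr Gb x z)
      (fun C _ => sum_nonneg (fun x _ => mat_nonneg hA.le hG x z)) hC
  linarith

/-- at most one hit in one cheap pair -/
theorem good_one (hA : 0 < A) (hG : 0 ≤ G) (hGA : G ≤ A) {z : W} {T : Finset W → Finset W}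
    (hT : ∑ C ∈ part Gr Gb F z, ∑ x ∈ T C, Mat A (A + G) Gr Gb x z < A + G) {C : Finset W}
    (hC : C ∈ part Gr Gb F z) {x y : W} (hx : x ∈ T C) (hy : y ∈ T C) (hxy : x ≠ y)
    (hx' : ¬ (Gr.Adj z x ∧ Gb.Adj z x)) : Gr.Adj z y ∧ Gb.Adj z y := by
  by_contra hcon
  have h1 : A ≤ Mat A (A + G) Gr Gb x z :=
    mat_nonred hA.le hG (fun h => hx' ⟨h.1.symm, h.2.symm⟩)
  have h1' : A ≤ Mat A (A + G) Gr Gb y z :=
    mat_nonred hA.le hG (fun h => hcon ⟨h.1.symm, h.2.symm⟩)
  have h2 : Mat A (A + G) Gr Gb x z + Mat A (A + G) Gr Gb y z ≤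
      ∑ x ∈ T C, Mat A (A + G) Gr Gb x z := by
    rw [← sum_pair (f := fun x => Mat A (A + G) Gr Gb x z) hxy]
    apply sum_le_sum_of_subset_of_nonneg
    · intro w hw
      rw [mem_insert, mem_singleton] at hw
      rcases hw with rfl | rfl
      · exact hx
      · exact hy
    · intro w _ _
      exact mat_nonneg hA.le hG w z
  have h3 : ∑ x ∈ T C, Mat A (A + G) Gr Gb x z ≤
      ∑ C ∈ part Gr Gb F z, ∑ x ∈ T C, Mat A (A + G) Gr Gb x z :=
    single_le_sum (f := fun C => ∑ x ∈ T C, Mat A (A + G) Gr Gb x z)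
      (fun C _ => sum_nonneg (fun x _ => mat_nonneg hA.le hG x z)) hC
  linarith

theorem good_two (hA : 0 < A) (hG : 0 ≤ G) (hGA : G ≤ A) {z : W} {T : Finset W → Finset W}
    (hT : ∑ C ∈ part Gr Gb F z, ∑ x ∈ T C, Mat A (A + G) Gr Gb x z < A + G) {C D : Finset W}
    (hC : C ∈ part Gr Gb F z) (hD : D ∈ part Gr Gb F z) (hCD : C ≠ D) {x y : W} (hx : x ∈ T C)
    (hy : y ∈ T D) (hx' : ¬ (Gr.Adj z x ∧ Gb.Adj z x)) : Gr.Adj z y ∧ Gb.Adj z y := by
  by_contra hcon
  have h1 : A ≤ Mat A (A + G) Gr Gb x z :=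
    mat_nonred hA.le hG (fun h => hx' ⟨h.1.symm, h.2.symm⟩)
  have h1' : A ≤ Mat A (A + G) Gr Gb y z :=
    mat_nonred hA.le hG (fun h => hcon ⟨h.1.symm, h.2.symm⟩)
  have h2 : Mat A (A + G) Gr Gb x z ≤ ∑ x ∈ T C, Mat A (A + G) Gr Gb x z :=
    single_le_sum (f := fun x => Mat A (A + G) Gr Gb x z) (fun x _ => mat_nonneg hA.le hG x z) hx
  have h2' : Mat A (A + G) Gr Gb y z ≤ ∑ x ∈ T D, Mat A (A + G) Gr Gb x z :=
    single_le_sum (f := fun x => Mat A (A + G) Gr Gb x z) (fun x _ => mat_nonneg hA.le hG x z) hy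
  have h3 : ∑ x ∈ T C, Mat A (A + G) Gr Gb x z + ∑ x ∈ T D, Mat A (A + G) Gr Gb x z ≤
      ∑ C ∈ part Gr Gb F z, ∑ x ∈ T C, Mat A (A + G) Gr Gb x z := by
    rw [← sum_pair (f := fun C => ∑ x ∈ T C, Mat A (A + G) Gr Gb x z) hCD]
    apply sum_le_sum_of_subset_of_nonneg
    · intro w hw
      rw [mem_insert, mem_singleton] at hw
      rcases hw with rfl | rfl
      · exact hC
      · exact hD
    · intro w _ _
      exact sum_nonneg (fun x _ => mat_nonneg hA.le hG x z)
  linarith

end cut

/-- the numerical part -/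
theorem final_arith {a g k β N N' s m cK cK' : ℕ} (ha : 1 ≤ a) (hga : g ≤ a) (hk : 1 ≤ k)
    (hm : m = min g cK') (hKcard : (a : ℝ) * cK ≤ (a + g) * cK')
    (hloss : N ≤ N' + (k - 1) * m)
    (hlev : ∀ κ c : ℝ, 0 ≤ κ → 0 < c → c ≤ k * ((a : ℝ) + g) + a →
      c ≤ 2 * k * a + κ * (a + g) → c < k * β + N + (k + 1) * s + κ * cK) :
    k * (a + g) + a + 1 ≤ k * (β + m) + N' + (k + 1) * s := by
  have hA : (0 : ℝ) < a := by exact_mod_cast ha
  have hG : (0 : ℝ) ≤ g := by positivity
  have hGA : (g : ℝ) ≤ a := by exact_mod_cast hga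
  have hk' : (1 : ℝ) ≤ k := by exact_mod_cast hk
  have hl' : (N : ℝ) ≤ N' + ((k : ℝ) - 1) * m := by
    have h7 : (((k - 1) * m : ℕ) : ℝ) = ((k : ℝ) - 1) * m := by
      rw [Nat.cast_mul, Nat.cast_sub hk]
      simp
    rw [← h7]
    exact_mod_cast hloss
  have hm0 : (0 : ℝ) ≤ m := by positivity
  suffices h : (k : ℝ) * (a + g) + a < k * (β + m) + N' + (k + 1) * s by
    have h2 : k * (a + g) + a < k * (β + m) + N' + (k + 1) * s := by exact_mod_cast h
    omega
  rcases le_or_gt cK' g with hcase | hcase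
  · -- all good vertices are used
    have hm' : m = cK' := by rw [hm, min_eq_right hcase]
    set q : ℝ := max 0 ((a : ℝ) - k * (a - g)) with hq
    have hq0 : 0 ≤ q := le_max_left _ _
    have hq1 : (a : ℝ) - k * (a - g) ≤ q := le_max_right _ _
    have hqa : q ≤ a := by
      rw [hq]
      apply max_le hA.le
      nlinarith
    have hag : (0 : ℝ) < a + g := by positivity
    have h1 := hlev (q / (a + g)) (k * (a + g) + a) (by positivity) (by positivity) le_rfl (by
      rw [div_mul_cancel₀ _ hag.ne']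
      nlinarith)
    have h2 : q / (a + g) * cK ≤ m := by
      rw [hm', div_mul_eq_mul_div, div_le_iff₀ hag]
      have h3 : q * cK ≤ a * cK := mul_le_mul_of_nonneg_right hqa (by positivity)
      linarith
    linarith
  · -- there are enough good vertices
    have hm' : m = g := by rw [hm, min_eq_left hcase.le]
    have hm2 : (m : ℝ) = g := by exact_mod_cast hm'
    rw [hm2] at hl' ⊢
    rcases le_or_gt ((k : ℝ) * (a + g) + a) (2 * k * a) with hc | hc
    · have h1 := hlev 0 (k * (a + g) + a) le_rfl (by positivity) le_rfl (by linarith)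
      linarith
    · have h1 := hlev 0 (2 * k * a) le_rfl (by positivity) hc.le (by linarith)
      have h2 : ((k : ℝ) - 1) * g ≤ (k - 1) * a :=
        mul_le_mul_of_nonneg_left hGA (by linarith)
      linarith

section out

variable {a g : ℕ} {F Sp : Finset (Finset W)}

theorem vv_allblue {A G : ℝ} {z : W} (h : VV Gr Gb A G F Sp z) {C : Finset W} (hC : C ∈ F)
    (hp : C ∉ part Gr Gb F z) {x : W} (hx : x ∈ C) : Gb.Adj z x := by
  by_cases hun : un Gr Gb z C = 0
  · by_cases hb : BB Gr Gb C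
    · have h1 : gp Gr Gb z C = C := by
        by_contra hcon
        have := un_ne_zero hb hcon
        omega
      rw [← h1, mem_gp] at hx
      exact hx.2.2
    · have h1 : gp Gr Gb z C = ∅ := by
        by_contra hcon
        apply hp
        unfold part
        rw [mem_filter]
        exact ⟨hC, hb, hcon⟩
      unfold un at hun
      rw [if_neg hb, if_pos h1] at hun
      omega
  · exact h.blue C hC hun x hx

/-- boxes which are neither blue pairs nor completely hit have many green vertices -/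
theorem VV_green {A G : ℝ} (hA : 0 < A) (hG : 0 ≤ G) (hGA : G ≤ A) {z : W}
    (h : VV Gr Gb A G F Sp z) {C : Finset W} (hC : C ∈ part Gr Gb F z) :
    C.card < 2 * (gp Gr Gb z C).card := by
  have h1 : tau A (A + G) Gr Gb z C / C.card ≤
      ∑ C ∈ part Gr Gb F z, tau A (A + G) Gr Gb z C / C.card :=
    single_le_sum (f := fun C => tau A (A + G) Gr Gb z C / C.card)
      (fun C _ => div_nonneg (tau_nonneg hA.le hG) (by positivity)) hC
  have h2 : (gp Gr Gb z C).Nonempty := nonempty_iff_ne_empty.2 (mem_filter.1 hC).2.2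
  have h3 : 0 < C.card := card_pos.2 (h2.mono (gp_subset z C))
  have hcp : (0 : ℝ) < C.card := by exact_mod_cast h3
  have h4 := lt_of_le_of_lt h1 h.part
  rw [div_lt_iff₀ hcp] at h4
  have h5 := tau_ge_ng (Gr := Gr) (Gb := Gb) (v := z) (C := C) hA.le hG
  have h6 : A * C.card < A * (2 * (gp Gr Gb z C).card) := by
    have h7 : G * C.card ≤ A * C.card := mul_le_mul_of_nonneg_right hGA hcp.le
    linarith
  have h7 := lt_of_mul_lt_mul_left h6 hA.le
  exact_mod_cast h7

/-- the structure theorem -/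
theorem Core.out (hB : Core Gr Gb F Sp) (ha : 1 ≤ a) (hga : g ≤ a)
    (hcheap : Cheap (a : ℝ) ((a : ℝ) + g) Gr Gb) :
    ∃ F' M T, LevelOut Gr Gb a g Sp.card F' Sp M ∧ TOut Gr Gb F' M T ∧
      nr Gr Gb 2 F ≤ nr Gr Gb 2 F' + Sp.card := by
  have hA : (0 : ℝ) < a := by exact_mod_cast ha
  have hG : (0 : ℝ) ≤ g := by positivity
  have hGA : (g : ℝ) ≤ a := by exact_mod_cast hga
  obtain ⟨K, hKV, hKb, hKmax⟩ := exists_max_clique Gb (fun v => VV Gr Gb (a : ℝ) g F Sp v)
  obtain ⟨K', T, hK'K, hKcard, hT, hTe⟩ := exists_good hA.le hG hKV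
  obtain ⟨M, hMK', hMcard⟩ := exists_subset_card_eq (min_le_right g K'.card)
  have hMV : ∀ z ∈ M, VV Gr Gb (a : ℝ) g F Sp z := fun z hz => hKV z (hK'K (hMK' hz))
  have hMe : ∀ z ∈ M, ∑ C ∈ part Gr Gb F z, ∑ x ∈ T C, Mat (a : ℝ) (a + g) Gr Gb x z < a + g :=
    fun z hz => hTe z (hMK' hz)
  -- the cut boxes
  set κ : Finset W → Finset W := fun C => C.filter (fun x => ∀ z ∈ M, Gb.Adj z x) with hκ
  have hκsub : ∀ C, κ C ⊆ C := fun C => filter_subset _ _
  have hκT : ∀ C ∈ F, T C ⊆ κ C := by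
    intro C hC x hx
    rw [hκ]
    simp only [mem_filter]
    refine ⟨(hT C).1 hx, ?_⟩
    intro z hz
    by_cases hp : C ∈ part Gr Gb F z
    · exact good_blue hA hG (hMe z hz) hp hx
    · exact vv_allblue (hMV z hz) hC hp ((hT C).1 hx)
  have hκcard : ∀ C ∈ F, min 2 C.card ≤ (κ C).card := fun C hC =>
    (hT C).2.ge.trans (card_le_card (hκT C hC))
  have hκBB : ∀ C ∈ F, BB Gr Gb C → κ C = C := by
    intro C hC hb
    apply eq_of_subset_of_card_le (hκsub C)
    have := hκcard C hC
    rw [hb.card] at this ⊢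
    simpa using this
  have hκSp : ∀ C ∈ Sp, κ C = C := by
    intro C hC
    apply eq_of_subset_of_card_le (hκsub C)
    have := hκcard C (hB.sub hC)
    rw [(hB.spc C hC).2] at this ⊢
    simpa using this
  have hκne : ∀ C ∈ F, (κ C).Nonempty := by
    intro C hC
    have h1 := hκcard C hC
    have h2 := card_pos.2 (hB.fam.box C hC).nonempty
    apply card_pos.1
    omega
  obtain ⟨hfam, hinj, _⟩ := fam_image (Gr := Gr) (Gb := Gb) (I := F) (κ := κ)
    (fun C hC => (hB.fam.box C hC).sub (hκsub C) (hκne C hC))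
    (fun C hC D hD hCD x hx y hy =>
      hB.fam.green C hC D hD hCD x (hκsub C hx) y (hκsub D hy))
  obtain ⟨_, _, himg⟩ := fam_image (Gr := Gr) (Gb := Gb) (I := F \ Sp) (κ := κ)
    (fun C hC => (hB.fam.box C (mem_sdiff.1 hC).1).sub (hκsub C) (hκne C (mem_sdiff.1 hC).1))
    (fun C hC D hD hCD x hx y hy =>
      hB.fam.green C (mem_sdiff.1 hC).1 D (mem_sdiff.1 hD).1 hCD x (hκsub C hx) y
        (hκsub D hy))
  set F' : Finset (Finset W) := (F \ Sp).image κ with hF'
  have hcardF' : F'.card = (F \ Sp).card :=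
    card_image_of_injOn (fun C hC D hD h => hinj C (mem_sdiff.1 hC).1 D (mem_sdiff.1 hD).1 h)
  have hκRB : ∀ C ∈ F, (RB Gr Gb (κ C) ↔ RB Gr Gb C) ∧ (BB Gr Gb (κ C) ↔ BB Gr Gb C) := by
    intro C hC
    rcases hB.fam.box C hC with h | h
    · have h1 : RB Gr Gb (κ C) := rb_sub h (hκsub C) (hκne C hC)
      exact ⟨⟨fun _ => h, fun _ => h1⟩, ⟨fun h2 => absurd h2 h1.not_BB,
        fun h2 => absurd h2 h.not_BB⟩⟩
    · rw [hκBB C hC h]
      exact ⟨Iff.rfl, Iff.rfl⟩
  have hnb : nb Gr Gb F' = nb Gr Gb (F \ Sp) := by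
    unfold nb
    rw [himg (fun C => BB Gr Gb C)]
    congr 1
    apply filter_congr
    intro C hC
    exact (hκRB C (mem_sdiff.1 hC).1).2
  have hbeta : beta Gr Gb F' = beta Gr Gb (F \ Sp) := by
    unfold beta
    rw [hcardF', hnb]
  have hbetaF : beta Gr Gb F = beta Gr Gb (F \ Sp) + Sp.card := by
    unfold beta nb
    have h1 : F.filter (fun C => BB Gr Gb C) = (F \ Sp).filter (fun C => BB Gr Gb C) := by
      ext C
      rw [mem_filter, mem_filter, mem_sdiff]
      constructor
      · rintro ⟨h1, h2⟩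
        exact ⟨⟨h1, fun h3 => (hB.spc C h3).1.not_BB h2⟩, h2⟩
      · rintro ⟨⟨h1, _⟩, h2⟩
        exact ⟨h1, h2⟩
    rw [h1, card_sdiff_of_subset hB.sub]
    have := card_le_card hB.sub
    omega
  -- the part of a box
  have hgpκ : ∀ z ∈ M, ∀ C ∈ part Gr Gb F z, gp Gr Gb z (κ C) ≠ ∅ := by
    intro z hz C hC
    have hCF : C ∈ F := (mem_filter.1 hC).1
    have hgne : gp Gr Gb z C ≠ ∅ := (mem_filter.1 hC).2.2
    rw [← nonempty_iff_ne_empty]
    have hpos := card_pos.2 (hB.fam.box C hCF).nonempty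
    rcases Nat.lt_or_ge C.card 2 with h2 | h2
    · have h3 : C.card = 1 := by omega
      have h4 : gp Gr Gb z C = C := by
        apply eq_of_subset_of_card_le (gp_subset z C)
        rw [h3]
        exact card_pos.2 (nonempty_iff_ne_empty.2 hgne)
      obtain ⟨x, hx⟩ := hκne C hCF
      refine ⟨x, mem_gp.2 ⟨hx, ?_⟩⟩
      have h5 := hκsub C hx
      rw [← h4, mem_gp] at h5
      exact h5.2
    · have h3 : 2 ≤ (T C).card := by
        have := (hT C).2
        rw [min_eq_left h2] at this
        exact this.ge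
      obtain ⟨x, hx, y, hy, hxy⟩ := one_lt_card.1 h3
      by_cases hg : Gr.Adj z x ∧ Gb.Adj z x
      · exact ⟨x, mem_gp.2 ⟨hκT C hCF hx, hg⟩⟩
      · exact ⟨y, mem_gp.2 ⟨hκT C hCF hy, good_one hA hG hGA (hMe z hz) hC hx hy hxy hg⟩⟩
  have hunκ : ∀ z ∈ M, ∀ C ∈ F, un Gr Gb z (κ C) ≤ un Gr Gb z C := by
    intro z hz C hC
    by_cases hb : BB Gr Gb C
    · rw [hκBB C hC hb]
    · have hb' : ¬ BB Gr Gb (κ C) := fun h => hb ((hκRB C hC).2.1 h)
      unfold un
      rw [if_neg hb, if_neg hb']
      by_cases hg : gp Gr Gb z C = ∅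
      · rw [if_pos hg]
        split_ifs <;> omega
      · have : C ∈ part Gr Gb F z := by
          unfold part
          rw [mem_filter]
          exact ⟨hC, hb, hg⟩
        rw [if_neg (hgpκ z hz C this)]
        omega
  -- the loss
  have hloss : ∀ k, 1 ≤ k → nr Gr Gb (k + 1) (F \ Sp) ≤ nr Gr Gb (k + 1) F' + (k - 1) * M.card := by
    intro k hk
    set L := (F \ Sp).filter (fun C => RB Gr Gb C ∧ k + 1 ≤ C.card ∧ (κ C).card ≤ k) with hL
    have h1 : nr Gr Gb (k + 1) (F \ Sp) ≤ nr Gr Gb (k + 1) F' + L.card := by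
      unfold nr
      have h2 := himg (fun C => RB Gr Gb C ∧ k + 1 ≤ C.card)
      have h3 : (F'.filter (fun C => RB Gr Gb C ∧ k + 1 ≤ C.card)).card =
          ((F \ Sp).filter (fun C => RB Gr Gb (κ C) ∧ k + 1 ≤ (κ C).card)).card := by
        convert h2
      rw [h3]
      refine le_trans (card_le_card ?_) (card_union_le _ _)
      intro C hC
      rw [mem_union]
      rw [mem_filter] at hC
      by_cases h4 : k + 1 ≤ (κ C).card
      · left
        rw [mem_filter]
        exact ⟨hC.1, (hκRB C (mem_sdiff.1 hC.1).1).1.2 hC.2.1, h4⟩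
      · right
        rw [hL, mem_filter]
        exact ⟨hC.1, hC.2.1, hC.2.2, by omega⟩
    refine h1.trans (Nat.add_le_add_left ?_ _)
    rcases Nat.eq_or_lt_of_le hk with rfl | hk2
    · -- no loss at level one
      have h2 : L = ∅ := by
        rw [hL, filter_eq_empty_iff]
        rintro C hC ⟨_, h3, h4⟩
        have h5 := hκcard C (mem_sdiff.1 hC).1
        rw [min_eq_left (by omega)] at h5
        omega
      rw [h2, card_empty]
      exact Nat.zero_le _
    · -- the lost vertices are expensive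
      have h2 : ∀ C ∈ L, ((a : ℝ) + g) / (k + 1) ≤
          ∑ z ∈ M.filter (fun z => C ∈ part Gr Gb F z), tau (a : ℝ) (a + g) Gr Gb z C / C.card := by
        intro C hC
        rw [hL, mem_filter] at hC
        have hCF := (mem_sdiff.1 hC.1).1
        have hcp : (0 : ℝ) < C.card := by
          have : 0 < C.card := by omega
          exact_mod_cast this
        have h3 : ((a : ℝ) + g) * ((C \ κ C).card : ℝ) ≤
            ∑ z ∈ M.filter (fun z => C ∈ part Gr Gb F z), tau (a : ℝ) (a + g) Gr Gb z C := by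
          unfold tau
          rw [sum_comm]
          refine le_trans ?_ (sum_le_sum_of_subset_of_nonneg (sdiff_subset : C \ κ C ⊆ C) ?_)
          · rw [mul_comm, ← nsmul_eq_mul]
            apply card_nsmul_le_sum
            intro x hx
            rw [mem_sdiff] at hx
            have h4 : ∃ z ∈ M, ¬ Gb.Adj z x := by
              by_contra hcon
              push Not at hcon
              apply hx.2
              rw [hκ]
              simp only [mem_filter]
              exact ⟨hx.1, hcon⟩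
            obtain ⟨z, hz, hzx⟩ := h4
            have h5 : z ∈ M.filter (fun z => C ∈ part Gr Gb F z) := by
              rw [mem_filter]
              refine ⟨hz, ?_⟩
              by_contra hcon
              exact hzx (vv_allblue (hMV z hz) hCF hcon hx.1)
            exact (mat_nonblue hA.le (fun h => hzx h.symm)).trans
              (single_le_sum (f := fun z => Mat (a : ℝ) (a + g) Gr Gb x z)
                (fun z _ => mat_nonneg hA.le hG x z) h5)
          · intro x _ _
            exact sum_nonneg (fun z _ => mat_nonneg hA.le hG x z)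
        have h4 : ((C \ κ C).card : ℝ) = (C.card : ℝ) - (κ C).card := by
          rw [card_sdiff_of_subset (hκsub C), Nat.cast_sub (card_le_card (hκsub C))]
        have h5 : ((κ C).card : ℝ) ≤ k := by exact_mod_cast hC.2.2.2
        have h6 : ((k : ℝ) + 1) ≤ C.card := by exact_mod_cast hC.2.2.1
        rw [← sum_div, le_div_iff₀ hcp, div_mul_eq_mul_div, div_le_iff₀ (by positivity)]
        rw [h4] at h3
        have h7 : (C.card : ℝ) ≤ ((C.card : ℝ) - (κ C).card) * (k + 1) := by
          nlinarith [mul_nonneg (by positivity : (0 : ℝ) ≤ k) (sub_nonneg.2 h6),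
            mul_nonneg (by positivity : (0 : ℝ) ≤ (k : ℝ) + 1) (sub_nonneg.2 h5)]
        have h8 := mul_le_mul_of_nonneg_left h7 (by positivity : (0 : ℝ) ≤ (a : ℝ) + g)
        have h9 := mul_le_mul_of_nonneg_right h3 (by positivity : (0 : ℝ) ≤ (k : ℝ) + 1)
        linarith
      have h3 : (L.card : ℝ) * (((a : ℝ) + g) / (k + 1)) ≤ M.card * (g / 2) := by
        have h4 : (L.card : ℝ) * (((a : ℝ) + g) / (k + 1)) ≤ ∑ C ∈ L,
            ∑ z ∈ M.filter (fun z => C ∈ part Gr Gb F z), tau (a : ℝ) (a + g) Gr Gb z C / C.card := by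
          rw [← nsmul_eq_mul]
          exact card_nsmul_le_sum _ _ _ h2
        refine h4.trans ?_
        have h5 : ∑ C ∈ L,
            ∑ z ∈ M.filter (fun z => C ∈ part Gr Gb F z), tau (a : ℝ) (a + g) Gr Gb z C / C.card ≤
            ∑ z ∈ M, ∑ C ∈ part Gr Gb F z, tau (a : ℝ) (a + g) Gr Gb z C / C.card := by
          simp_rw [sum_filter]
          rw [sum_comm]
          apply sum_le_sum
          intro z _
          rw [← sum_filter]
          apply sum_le_sum_of_subset_of_nonneg
          · intro C hC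
            exact (mem_filter.1 hC).2
          · intro C _ _
            exact div_nonneg (tau_nonneg hA.le hG) (by positivity)
        refine h5.trans ?_
        rw [← nsmul_eq_mul, ← sum_const]
        exact sum_le_sum (fun z hz => (hMV z hz).part.le)
      have hk2' : (2 : ℝ) ≤ k := by exact_mod_cast hk2
      have h4 : (L.card : ℝ) * ((a : ℝ) + g) ≤ M.card * (g / 2) * (k + 1) := by
        rw [← mul_div_assoc, div_le_iff₀ (by positivity)] at h3
        exact h3
      have h5 : (L.card : ℝ) * ((a : ℝ) + g) ≤ (((k : ℝ) - 1) * M.card) * (a + g) := by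
        refine h4.trans ?_
        have h6 : (g : ℝ) / 2 * (k + 1) ≤ ((k : ℝ) - 1) * (a + g) := by
          nlinarith
        have h7 : (0 : ℝ) ≤ M.card := by positivity
        nlinarith [mul_le_mul_of_nonneg_left h6 h7]
      have h6 : (L.card : ℝ) ≤ ((k : ℝ) - 1) * M.card := le_of_mul_le_mul_right h5 (by positivity)
      have h7 : (((k - 1) * M.card : ℕ) : ℝ) = ((k : ℝ) - 1) * M.card := by
        rw [Nat.cast_mul, Nat.cast_sub hk]
        simp
      rw [← h7] at h6
      exact_mod_cast h6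
  have hSpF : F.image κ = F' ∪ Sp := by
    have h1 : Sp.image κ = Sp := by
      ext C
      rw [mem_image]
      constructor
      · rintro ⟨D, hD, rfl⟩
        rw [hκSp D hD]
        exact hD
      · intro hC
        exact ⟨C, hC, hκSp C hC⟩
    calc F.image κ = ((F \ Sp) ∪ Sp).image κ := by rw [sdiff_union_of_subset hB.sub]
      _ = (F \ Sp).image κ ∪ Sp.image κ := image_union _ _
      _ = F' ∪ Sp := by rw [h1]
  -- two vertices of every box
  have hmin : ∀ C ∈ F, min 2 (κ C).card = min 2 C.card := by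
    intro C hC
    have h1 := hκcard C hC
    have h2 := card_le_card (hκsub C)
    omega
  have hS : ∀ D : Finset W, ∃ S : Finset W, ∀ C ∈ F \ Sp, κ C = D → S ⊆ D ∧
      S.card = min 2 D.card ∧ ∀ z ∈ M, (∃ x ∈ S, ¬ Gr.Adj z x) → RB Gr Gb C →
        gp Gr Gb z C = ∅ ∨ (M.card ≠ 1 ∧ C ∈ part Gr Gb F z ∧
          ∃ x ∈ T C, ¬ (Gr.Adj z x ∧ Gb.Adj z x)) := by
    intro D
    by_cases hD : ∃ C ∈ F \ Sp, κ C = D
    · obtain ⟨C, hC, rfl⟩ := hD
      have hCF := (mem_sdiff.1 hC).1
      suffices h : ∃ S : Finset W, S ⊆ κ C ∧ S.card = min 2 (κ C).card ∧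
          ∀ z ∈ M, (∃ x ∈ S, ¬ Gr.Adj z x) → RB Gr Gb C →
          gp Gr Gb z C = ∅ ∨ (M.card ≠ 1 ∧ C ∈ part Gr Gb F z ∧
            ∃ x ∈ T C, ¬ (Gr.Adj z x ∧ Gb.Adj z x)) by
        obtain ⟨S, hS⟩ := h
        refine ⟨S, fun C' hC' hCC => ?_⟩
        have h1 := hinj C' (mem_sdiff.1 hC').1 C hCF hCC
        rw [h1]
        exact hS
      by_cases hM1 : M.card = 1 ∧ 2 ≤ C.card ∧ ∃ z ∈ M, C ∈ part Gr Gb F z
      · obtain ⟨hM1, hC2, z, hz, hp⟩ := hM1
        have h1 := VV_green hA hG hGA (hMV z hz) hp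
        have h2 : gp Gr Gb z C ⊆ κ C := by
          intro x hx
          rw [hκ]
          simp only [mem_filter]
          refine ⟨gp_subset z C hx, ?_⟩
          intro z' hz'
          have : z' = z := card_le_one.1 hM1.le z' hz' z hz
          rw [this]
          exact (mem_gp.1 hx).2.2
        obtain ⟨S, hSg, hSc⟩ := exists_subset_card_eq (show 2 ≤ (gp Gr Gb z C).card by omega)
        refine ⟨S, hSg.trans h2, ?_, ?_⟩
        · rw [hmin C hCF, min_eq_left hC2, hSc]
        · rintro z' hz' ⟨x, hx, hx'⟩ _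
          exfalso
          have : z' = z := card_le_one.1 hM1.le z' hz' z hz
          rw [this] at hx'
          exact hx' (mem_gp.1 (hSg hx)).2.1
      · refine ⟨T C, hκT C hCF, ?_, ?_⟩
        · rw [hmin C hCF]
          exact (hT C).2
        · rintro z hz ⟨x, hx, hx'⟩ hR
          by_cases hg : gp Gr Gb z C = ∅
          · exact Or.inl hg
          · right
            have hp : C ∈ part Gr Gb F z := by
              unfold part
              rw [mem_filter]
              exact ⟨hCF, hR.not_BB, hg⟩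
            refine ⟨?_, hp, x, hx, fun h => hx' h.1⟩
            intro hM
            apply hM1
            refine ⟨hM, ?_, z, hz, hp⟩
            by_contra hcon
            have h1 : C.card = 1 := by
              have := card_pos.2 hR.1
              omega
            have h4 : gp Gr Gb z C = C := by
              apply eq_of_subset_of_card_le (gp_subset z C)
              rw [h1]
              exact card_pos.2 (nonempty_iff_ne_empty.2 hg)
            have h5 := (hT C).1 hx
            rw [← h4, mem_gp] at h5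
            exact hx' h5.2.1
    · refine ⟨∅, fun C hC hCD => absurd ⟨C, hC, hCD⟩ hD⟩
  choose T' hT' using hS
  have hTO : TOut Gr Gb F' M T' := by
    refine ⟨?_, ?_, ?_⟩
    · intro D hD
      obtain ⟨C, hC, hCD⟩ := mem_image.1 hD
      exact (hT' D C hC hCD).1
    · intro D hD
      obtain ⟨C, hC, hCD⟩ := mem_image.1 hD
      exact (hT' D C hC hCD).2.1
    · intro z hz
      set B1 := (F \ Sp).filter (fun C => RB Gr Gb C ∧ gp Gr Gb z C = ∅) with hB1
      set B2 := (F \ Sp).filter (fun C => M.card ≠ 1 ∧ C ∈ part Gr Gb F z ∧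
        ∃ x ∈ T C, ¬ (Gr.Adj z x ∧ Gb.Adj z x)) with hB2
      have h1 : F'.filter (fun C => RB Gr Gb C ∧ ∃ x ∈ T' C, ¬ Gr.Adj z x) ⊆
          (B1 ∪ B2).image κ := by
        intro D hD
        rw [mem_filter] at hD
        obtain ⟨C, hC, hCD⟩ := mem_image.1 hD.1
        have hRC : RB Gr Gb C := by
          rw [← hCD] at hD
          exact (hκRB C (mem_sdiff.1 hC).1).1.1 hD.2.1
        have h2 := (hT' D C hC hCD).2.2 z hz hD.2.2 hRC
        rw [mem_image]
        refine ⟨C, ?_, hCD⟩
        rw [mem_union]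
        rcases h2 with h2 | h2
        · left
          rw [hB1, mem_filter]
          exact ⟨hC, hRC, h2⟩
        · right
          rw [hB2, mem_filter]
          exact ⟨hC, h2⟩
      have h2 : B1.card ≤ 2 := by
        rw [← (hMV z hz).two, hB1, card_eq_sum_ones, sum_filter]
        refine le_trans ?_ (sum_le_sum_of_subset (sdiff_subset : F \ Sp ⊆ F))
        apply sum_le_sum
        intro C _
        split_ifs with h
        · unfold un
          rw [if_neg h.1.not_BB, if_pos h.2]
        · exact Nat.zero_le _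
      have h3 : B2.card ≤ 1 := by
        rw [card_le_one]
        intro C1 hC1 C2 hC2
        rw [hB2, mem_filter] at hC1 hC2
        obtain ⟨_, _, hp1, x1, hx1, hx1'⟩ := hC1
        obtain ⟨_, _, hp2, x2, hx2, hx2'⟩ := hC2
        by_contra hcon
        exact hx2' (good_two hA hG hGA (hMe z hz) hp1 hp2 hcon hx1 hx2 hx1')
      have h4 : M.card = 1 → B2.card = 0 := by
        intro h
        rw [card_eq_zero, hB2, filter_eq_empty_iff]
        rintro C _ ⟨h5, _⟩
        exact h5 h
      have h5 := card_le_card h1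
      have h6 := card_image_le (s := B1 ∪ B2) (f := κ)
      have h7 := card_union_le B1 B2
      have h8 := card_pos.2 ⟨z, hz⟩
      by_cases hM1 : M.card = 1
      · have := h4 hM1
        rw [hM1]
        omega
      · have : min 3 (M.card + 1) = 3 := by omega
        omega
  have hnr2 : nr Gr Gb 2 F ≤ nr Gr Gb 2 F' + Sp.card := by
    have h1 := hloss 1 le_rfl
    have h2 : nr Gr Gb 2 F ≤ nr Gr Gb 2 (F \ Sp) + Sp.card := by
      unfold nr
      refine le_trans (card_le_card ?_) (card_union_le _ _)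
      intro C hC
      rw [mem_filter] at hC
      by_cases h3 : C ∈ Sp
      · exact mem_union_right _ h3
      · refine mem_union_left _ ?_
        rw [mem_filter, mem_sdiff]
        exact ⟨⟨hC.1, h3⟩, hC.2⟩
    simp only [Nat.sub_self, Nat.zero_mul, Nat.add_zero, Nat.reduceAdd] at h1
    omega
  refine ⟨F', M, T', ⟨?_, ?_, hB.spc, rfl, ?_, ?_, ?_, ?_, ?_, ?_, ?_, ?_⟩, hTO, hnr2⟩
  · rw [← hSpF]
    exact hfam
  · rw [disjoint_left]
    intro C hC hCS
    rw [hF', mem_image] at hC
    obtain ⟨D, hD, hDC⟩ := hC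
    rw [mem_sdiff] at hD
    have h1 : D = C := hinj D hD.1 C (hB.sub hCS) (by rw [hDC, hκSp C hCS])
    exact hD.2 (h1 ▸ hCS)
  · intro z hz z' hz' hne
    exact hKb z (hK'K (hMK' hz)) z' (hK'K (hMK' hz')) hne
  · intro z hz C hC x hx
    rw [hF', mem_image] at hC
    obtain ⟨D, hD, rfl⟩ := hC
    rw [hκ] at hx
    simp only [mem_filter] at hx
    exact hx.2 z hz
  · intro z hz C hC x hx
    have h1 := (hMV z hz).sp C hC
    rw [← h1, mem_gp] at hx
    exact hx.2
  · intro z hz
    rw [hF', sum_image (fun C hC D hD h => hinj C (mem_sdiff.1 hC).1 D (mem_sdiff.1 hD).1 h)]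
    rw [← (hMV z hz).two]
    refine (sum_le_sum (fun C hC => hunκ z hz C (mem_sdiff.1 hC).1)).trans ?_
    exact sum_le_sum_of_subset sdiff_subset
  · intro z hz
    rw [card_le_one]
    intro C1 hC1 C2 hC2
    rw [mem_filter, hF', mem_image] at hC1 hC2
    obtain ⟨⟨D1, hD1, rfl⟩, hR1, h21, hle1, hne1⟩ := hC1
    obtain ⟨⟨D2, hD2, rfl⟩, hR2, h22, hle2, hne2⟩ := hC2
    have hkey : ∀ D ∈ F \ Sp, RB Gr Gb (κ D) → 2 ≤ (κ D).card → (gp Gr Gb z (κ D)).card ≤ 1 →
        gp Gr Gb z (κ D) ≠ ∅ → D ∈ part Gr Gb F z ∧ ∃ x ∈ T D, ¬ (Gr.Adj z x ∧ Gb.Adj z x) := by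
      intro D hD hR h2 hle hne
      have hDF := (mem_sdiff.1 hD).1
      have hgD : gp Gr Gb z D ≠ ∅ := by
        rw [← nonempty_iff_ne_empty] at hne ⊢
        obtain ⟨x, hx⟩ := hne
        rw [mem_gp] at hx
        exact ⟨x, mem_gp.2 ⟨hκsub D hx.1, hx.2⟩⟩
      refine ⟨?_, ?_⟩
      · unfold part
        rw [mem_filter]
        exact ⟨hDF, fun h => hR.not_BB ((hκRB D hDF).2.2 h), hgD⟩
      · have h3 : 2 ≤ (T D).card := by
          have h4 := (hT D).2
          have h5 := card_le_card (hκsub D)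
          rw [min_eq_left (by omega)] at h4
          exact h4.ge
        by_contra hcon
        push Not at hcon
        have h4 : T D ⊆ gp Gr Gb z (κ D) := by
          intro x hx
          exact mem_gp.2 ⟨hκT D hDF hx, hcon x hx⟩
        have h5 := card_le_card h4
        omega
    obtain ⟨hp1, x1, hx1, hx1'⟩ := hkey D1 hD1 hR1 h21 hle1 hne1
    obtain ⟨hp2, x2, hx2, hx2'⟩ := hkey D2 hD2 hR2 h22 hle2 hne2
    by_contra hcon
    have hD12 : D1 ≠ D2 := fun h => hcon (by rw [h])
    exact hx2' (good_two hA hG hGA (hMe z hz) hp1 hp2 hD12 hx1 hx2 hx1')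
  · rw [hMcard]
    exact min_le_left _ _
  · have h1 := hB.zero hA hG hGA hcheap
    rw [hbetaF] at h1
    rw [hbeta]
    have h2 : a + g < beta Gr Gb (F \ Sp) + Sp.card := by exact_mod_cast h1
    omega
  · intro k hk
    rw [hbeta]
    exact final_arith ha hga hk hMcard hKcard (hloss k hk)
      (fun κ c hκ hc hc1 hc2 => hB.level hA.le hG hGA hcheap hKmax hk hκ hc hc1 hc2)

/-- the structure theorem, from a family at stage one -/
theorem levels (ha : 1 ≤ a) (hga : g ≤ a) (hcheap : Cheap (a : ℝ) ((a : ℝ) + g) Gr Gb)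
    {F0 : Finset (Finset W)} (hF0 : Best1 Gr Gb F0) {s : ℕ} (hs : s ≤ nr Gr Gb 2 F0) :
    ∃ F Sp M T, LevelOut Gr Gb a g s F Sp M ∧ TOut Gr Gb F M T ∧
      nr Gr Gb 2 F0 ≤ nr Gr Gb 2 F + s := by
  obtain ⟨F, Sp, hB, hcard⟩ := hF0.exists_best2 hs
  obtain ⟨F', M, T, h, h', h2⟩ := hB.core.out ha hga hcheap
  rw [hcard] at h h2
  have h3 := (hF0.eq hB.b1).2.2
  exact ⟨F', Sp, M, T, h, h', by omega⟩

end out

end LV

end Pool.Agent.Lib.MP_a05470_co
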