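import Pool.Agent.Lib.MP_a05470_co.NF

/-!
# Perfect matchings of a tight piece minus a vertex
-/

set_option autoImplicit false
set_option linter.unusedSectionVars false

namespace Pool.Agent.Lib.MP_a05470_co

open Finset Classical

/-- a perfect matching of `Y`, as an involution -/
def PM {V : Type} (B : SimpleGraph V) (Y : Finset V) : Prop :=
  ∃ σ : V → V, ∀ v ∈ Y, σ v ∈ Y ∧ B.Adj v (σ v) ∧ σ (σ v) = v

section PM

variable {V : Type} {B : SimpleGraph V} {Y : Finset V}

theorem pm_of_hasMat {c : ℕ} (h : HasMat B Y c) (hY : Y.card = 2 * c) : PM B Y := by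
  obtain ⟨T, hT, hTc⟩ := h
  have h1 : T.biUnion id = Y := by
    apply eq_of_subset_of_card_le hT.biUnion_subset
    rw [hT.card_biUnion]
    omega
  have h2 : ∀ v ∈ Y, ∃ v' ∈ Y, {v, v'} ∈ T ∧ B.Adj v v' := by
    intro v hv
    rw [← h1, mem_biUnion] at hv
    obtain ⟨e, he, hve⟩ := hv
    obtain ⟨x, hx, y, hy, hxy, rfl⟩ := hT.1 e he
    change v ∈ ({x, y} : Finset V) at hve
    rw [mem_insert, mem_singleton] at hve
    rcases hve with rfl | rfl
    · exact ⟨y, hy, he, hxy⟩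
    · exact ⟨x, hx, by rw [pair_comm]; exact he, hxy.symm⟩
  choose! σ h3 h4 h5 using h2
  refine ⟨σ, fun v hv => ⟨h3 v hv, h5 v hv, ?_⟩⟩
  have h6 := h4 v hv
  have h7 := h4 (σ v) (h3 v hv)
  have h8 : ({v, σ v} : Finset V) = {σ v, σ (σ v)} := by
    by_contra hne
    exact disjoint_left.1 (hT.2 _ h6 _ h7 hne) (show σ v ∈ ({v, σ v} : Finset V) by simp) (by simp)
  have h9 : v ∈ ({σ v, σ (σ v)} : Finset V) := by
    rw [← h8]
    simp
  rw [mem_insert, mem_singleton] at h9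
  rcases h9 with h9 | h9
  · exact absurd h9 (B.ne_of_adj (h5 v hv))
  · exact h9.symm

theorem hasMat_of_pm {c : ℕ} (h : PM B Y) (hY : Y.card = 2 * c) : HasMat B Y c := by
  obtain ⟨σ, hσ⟩ := h
  have hT : IsMat B Y (Y.image (fun v => {v, σ v})) := by
    refine ⟨?_, ?_⟩
    · intro e he
      rw [mem_image] at he
      obtain ⟨v, hv, rfl⟩ := he
      exact ⟨v, hv, σ v, (hσ v hv).1, (hσ v hv).2.1, rfl⟩
    · intro e he f hf hef
      rw [mem_image] at he hf
      obtain ⟨v, hv, rfl⟩ := he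
      obtain ⟨w, hw, rfl⟩ := hf
      rw [Finset.disjoint_left]
      intro z hz hz'
      rw [mem_insert, mem_singleton] at hz hz'
      apply hef
      rcases hz with rfl | rfl <;> rcases hz' with h1 | h1
      · rw [h1]
      · rw [h1, (hσ w hw).2.2, pair_comm]
      · rw [← h1, (hσ v hv).2.2, pair_comm]
      · have h2 : v = w := by
          rw [← (hσ v hv).2.2, h1, (hσ w hw).2.2]
        rw [h2]
  refine ⟨_, hT, ?_⟩
  have h1 := hT.card_biUnion
  have h2 : (Y.image (fun v => ({v, σ v} : Finset V))).biUnion id = Y := by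
    apply Subset.antisymm hT.biUnion_subset
    intro v hv
    exact mem_biUnion.2 ⟨_, mem_image_of_mem _ hv, by simp⟩
  rw [h2] at h1
  omega

/-- the exchange argument -/
theorem pm_adj {P : Finset V} {c : ℕ} (hP : P.card = 2 * c + 1)
    (hdeg' : ∀ x ∈ P, ∃ Y ⊆ P, c ≤ Y.card ∧ ∀ y ∈ Y, B.Adj x y) {x h : V} (hx : x ∈ P)
    (hh : h ∈ P) (hne : x ≠ h) (h1 : PM B (P.erase x)) (h2 : ¬ PM B (P.erase h)) :
    B.Adj x h := by
  by_contra hn
  have hdeg : ∀ x ∈ P, c ≤ (P.filter (fun y => B.Adj x y)).card := by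
    intro x hx
    obtain ⟨Y, h1, h2, h3⟩ := hdeg' x hx
    exact h2.trans (card_le_card (fun y hy => mem_filter.2 ⟨h1 hy, h3 y hy⟩))
  obtain ⟨σ, hσ⟩ := h1
  have hσ1 : ∀ v ∈ P, v ≠ x → σ v ∈ P ∧ σ v ≠ x ∧ B.Adj v (σ v) ∧ σ (σ v) = v := by
    intro v hv hvx
    obtain ⟨a1, a2, a3⟩ := hσ v (mem_erase.2 ⟨hvx, hv⟩)
    exact ⟨mem_of_mem_erase a1, ne_of_mem_erase a1, a2, a3⟩
  obtain ⟨b1, b2, b3, b4⟩ := hσ1 h hh hne.symm
  have hhh : σ h ≠ h := (B.ne_of_adj b3).symm
  have hx' : ¬ B.Adj x (σ h) := by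
    intro hadj
    apply h2
    refine ⟨fun v => if v = x then σ h else if v = σ h then x else σ v, ?_⟩
    intro v hv
    rw [mem_erase] at hv
    by_cases e1 : v = x
    · subst e1
      simp only [if_true]
      rw [if_neg b2]
      exact ⟨mem_erase.2 ⟨hhh, b1⟩, hadj, by trivial⟩
    · by_cases e2 : v = σ h
      · subst e2
        simp only [if_neg e1, if_true]
        exact ⟨mem_erase.2 ⟨hne, hx⟩, hadj.symm, by trivial⟩
      · obtain ⟨c1, c2, c3, c4⟩ := hσ1 v hv.2 e1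
        have c5 : σ v ≠ h := fun h3 => e2 (by rw [← c4, h3])
        have c6 : σ v ≠ σ h := fun h3 => hv.1 (by rw [← c4, h3, b4])
        simp only [if_neg e1, if_neg e2, if_neg c2, if_neg c6]
        exact ⟨mem_erase.2 ⟨c5, c1⟩, c3, c4⟩
  have hpq : ∀ p ∈ P, B.Adj x p → ¬ B.Adj (σ h) (σ p) := by
    intro p hp hxp hadj
    have d1 : p ≠ x := (B.ne_of_adj hxp).symm
    have d2 : p ≠ h := fun h3 => hn (h3 ▸ hxp)
    have d3 : p ≠ σ h := fun h3 => hx' (h3 ▸ hxp)
    obtain ⟨c1, c2, c3, c4⟩ := hσ1 p hp d1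
    have d4 : σ p ≠ h := fun h3 => d3 (by rw [← c4, h3])
    have d5 : σ p ≠ σ h := fun h3 => d2 (by rw [← c4, h3, b4])
    have d6 : σ p ≠ p := (B.ne_of_adj c3).symm
    apply h2
    refine ⟨fun v => if v = x then p else if v = p then x else if v = σ h then σ p else
      if v = σ p then σ h else σ v, ?_⟩
    intro v hv
    rw [mem_erase] at hv
    by_cases e1 : v = x
    · subst e1
      simp only [if_true, if_neg d1]
      exact ⟨mem_erase.2 ⟨d2, hp⟩, hxp, by trivial⟩
    · by_cases e2 : v = p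
      · subst e2
        simp only [if_true, if_neg e1]
        exact ⟨mem_erase.2 ⟨hne, hx⟩, hxp.symm, by trivial⟩
      · by_cases e3 : v = σ h
        · subst e3
          simp only [if_neg e1, if_neg e2, if_true, if_neg c2, if_neg d6, if_neg d5]
          exact ⟨mem_erase.2 ⟨d4, c1⟩, hadj, by trivial⟩
        · by_cases e4 : v = σ p
          · subst e4
            simp only [if_neg e1, if_neg e2, if_neg e3, if_true, if_neg b2, if_neg (Ne.symm d3)]
            exact ⟨mem_erase.2 ⟨hhh, b1⟩, hadj.symm, by trivial⟩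
          · obtain ⟨k1, k2, k3, k4⟩ := hσ1 v hv.2 e1
            have k5 : σ v ≠ h := fun h3 => e3 (by rw [← k4, h3])
            have k6 : σ v ≠ σ h := fun h3 => hv.1 (by rw [← k4, h3, b4])
            have k7 : σ v ≠ p := fun h3 => e4 (by rw [← k4, h3])
            have k8 : σ v ≠ σ p := fun h3 => e2 (by rw [← k4, h3, c4])
            simp only [if_neg e1, if_neg e2, if_neg e3, if_neg e4, if_neg k2, if_neg k7,
              if_neg k6, if_neg k8]
            exact ⟨mem_erase.2 ⟨k5, k1⟩, k3, k4⟩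
  -- counting
  set N1 := P.filter (fun y => B.Adj x y) with hN1
  set N2 := (P.filter (fun y => B.Adj (σ h) y)).erase h with hN2
  set R := ((P.erase x).erase h).erase (σ h) with hR
  have hRc : R.card = 2 * c - 2 := by
    rw [hR, card_erase_of_mem (mem_erase.2 ⟨hhh, mem_erase.2 ⟨b2, b1⟩⟩),
      card_erase_of_mem (mem_erase.2 ⟨hne.symm, hh⟩), card_erase_of_mem hx, hP]
    omega
  have hRpos : 3 ≤ P.card := by
    have h3 : ({x, h, σ h} : Finset V) ⊆ P := by
      intro v hv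
      simp only [mem_insert, mem_singleton] at hv
      rcases hv with rfl | rfl | rfl
      · exact hx
      · exact hh
      · exact b1
    have h4 := card_le_card h3
    rw [card_insert_of_notMem, card_pair hhh.symm] at h4
    · exact h4
    · simp only [mem_insert, mem_singleton]
      push Not
      exact ⟨hne, b2.symm⟩
  have hi1 : N1.image σ ⊆ R := by
    intro q hq
    rw [mem_image] at hq
    obtain ⟨p, hp, rfl⟩ := hq
    rw [hN1, mem_filter] at hp
    have d1 : p ≠ x := (B.ne_of_adj hp.2).symm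
    have d2 : p ≠ h := fun h3 => hn (h3 ▸ hp.2)
    have d3 : p ≠ σ h := fun h3 => hx' (h3 ▸ hp.2)
    obtain ⟨c1, c2, c3, c4⟩ := hσ1 p hp.1 d1
    have d4 : σ p ≠ h := fun h3 => d3 (by rw [← c4, h3])
    have d5 : σ p ≠ σ h := fun h3 => d2 (by rw [← c4, h3, b4])
    exact mem_erase.2 ⟨d5, mem_erase.2 ⟨d4, mem_erase.2 ⟨c2, c1⟩⟩⟩
  have hi2 : N2 ⊆ R := by
    intro q hq
    rw [hN2, mem_erase, mem_filter] at hq
    have d1 : q ≠ x := fun h3 => hx' (h3 ▸ hq.2.2.symm)
    exact mem_erase.2 ⟨(B.ne_of_adj hq.2.2).symm, mem_erase.2 ⟨hq.1, mem_erase.2 ⟨d1, hq.2.1⟩⟩⟩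
  have hdis : Disjoint (N1.image σ) N2 := by
    rw [Finset.disjoint_left]
    intro q hq hq'
    rw [mem_image] at hq
    obtain ⟨p, hp, rfl⟩ := hq
    rw [hN1, mem_filter] at hp
    rw [hN2, mem_erase, mem_filter] at hq'
    exact hpq p hp.1 hp.2 hq'.2.2
  have hinj : (N1.image σ).card = N1.card := by
    apply card_image_of_injOn
    intro p hp q hq hpq'
    rw [mem_coe, hN1, mem_filter] at hp hq
    obtain ⟨_, _, _, c4⟩ := hσ1 p hp.1 (B.ne_of_adj hp.2).symm
    obtain ⟨_, _, _, c4'⟩ := hσ1 q hq.1 (B.ne_of_adj hq.2).symm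
    have hpq'' : σ p = σ q := hpq'
    rw [← c4, hpq'', c4']
  have h5 := card_le_card (union_subset hi1 hi2)
  rw [card_union_of_disjoint hdis, hinj, hRc] at h5
  have h6 : c ≤ N1.card := hdeg x hx
  have h7 := hdeg (σ h) b1
  have h8 : (P.filter (fun y => B.Adj (σ h) y)).card - 1 ≤ N2.card :=
    pred_card_le_card_erase
  omega

end PM

namespace JT

variable {V : Type} [Fintype V] {R : SimpleGraph V} {P : Finset V} {c : ℕ}

/-- a tight piece minus a vertex has a perfect red matching -/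
theorem TightPiece.red_mat (h : TightPiece R P c) {x : V} (hx : x ∈ P) :
    HasMat R (P.erase x) c := by
  obtain ⟨f, h1, h2, h3, h4⟩ := crit_cover h.conn h.crit h.theta hx
  set L := (P.image f).erase (f x) with hL
  have hLc : L.card = c := by
    rw [hL, card_erase_of_mem (mem_image_of_mem f hx), h2]
    rfl
  have key : ∀ i ∈ L, ∃ y ∈ P.erase x, ∃ z ∈ P.erase x, f y = i ∧ f z = i ∧ y ≠ z := by
    intro i hi
    rw [hL, mem_erase, mem_image] at hi
    obtain ⟨hix, y, hy, rfl⟩ := hi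
    have hyx : y ≠ x := fun h => hix (by rw [h])
    obtain ⟨z, hz, hzy, hfz⟩ := h4 y hy hyx
    have hzx : z ≠ x := fun h' => hyx (h3 y hy (by rw [← hfz, h']))
    exact ⟨y, mem_erase.2 ⟨hyx, hy⟩, z, mem_erase.2 ⟨hzx, hz⟩, rfl, hfz, Ne.symm hzy⟩
  have : Nonempty V := ⟨x⟩
  choose! y hy z hz hfy hfz hyz using key
  refine ⟨L.image (fun i => {y i, z i}), ⟨?_, ?_⟩, ?_⟩
  · intro e he
    rw [mem_image] at he
    obtain ⟨i, hi, rfl⟩ := he
    exact ⟨y i, hy i hi, z i, hz i hi, h1 _ (mem_of_mem_erase (hy i hi)) _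
      (mem_of_mem_erase (hz i hi)) (hyz i hi) (by rw [hfy i hi, hfz i hi]), rfl⟩
  · intro e he e' he' hee
    rw [mem_image] at he he'
    obtain ⟨i, hi, rfl⟩ := he
    obtain ⟨j, hj, rfl⟩ := he'
    have hij : i ≠ j := fun h => hee (by rw [h])
    rw [Finset.disjoint_left]
    intro w hw hw'
    rw [mem_insert, mem_singleton] at hw hw'
    have e1 : f w = i := by
      rcases hw with rfl | rfl
      · exact hfy i hi
      · exact hfz i hi
    have e2 : f w = j := by
      rcases hw' with rfl | rfl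
      · exact hfy j hj
      · exact hfz j hj
    exact hij (e1.symm.trans e2)
  · rw [card_image_of_injOn, hLc]
    intro i hi j hj hij
    rw [mem_coe] at hi hj
    have hij' : ({y i, z i} : Finset V) = {y j, z j} := hij
    have e1 : y i ∈ ({y j, z j} : Finset V) := by
      rw [← hij']
      simp
    rw [mem_insert, mem_singleton] at e1
    rcases e1 with e1 | e1
    · rw [← hfy i hi, e1, hfy j hj]
    · rw [← hfy i hi, e1, hfz j hj]

/-- a tight piece minus a vertex has a perfect blue matching -/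
theorem TightPiece.blue_mat (h : TightPiece R P c) {x : V} (hx : x ∈ P) :
    HasMat Rᶜ (P.erase x) c := by
  have hcx : ∀ y ∈ P, (P.erase y).card = 2 * c := by
    intro y hy
    rw [card_erase_of_mem hy, h.card]
    rfl
  rcases h.size with h0 | hc2
  · subst h0
    exact ⟨∅, ⟨by simp, by simp⟩, rfl⟩
  have hdeg : ∀ w ∈ P, ∃ Y ⊆ P, c ≤ Y.card ∧ ∀ y ∈ Y, Rᶜ.Adj w y := by
    intro w hw
    have h5 := h.crit.erase hw
    rw [h.theta] at h5
    obtain ⟨Y, h6, h7, h8⟩ := nonadj_ge (R := R) (notMem_erase w P)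
      (by rw [insert_erase hw, h.theta]; omega)
    exact ⟨Y, h6.trans (erase_subset _ _), by omega, h8⟩
  by_contra hcon
  have hxn : ¬ PM Rᶜ (P.erase x) := fun h1 => hcon (hasMat_of_pm h1 (hcx x hx))
  -- a vertex that can be missed
  obtain ⟨z, hz, hzP⟩ : ∃ z ∈ P, PM Rᶜ (P.erase z) := by
    obtain ⟨c', h1, h2, h3, h4, T, hT, hTc⟩ := crit_data h.conn h.crit (by rw [h.card]; omega)
    have hcc : c' = c := by
      rw [h.theta] at h2
      omega
    subst hcc
    have h5 : (P \ T.biUnion id).Nonempty := by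
      rw [← card_pos]
      have h6 := card_sdiff_add_card_eq_card hT.biUnion_subset
      have h7 := hT.card_biUnion
      omega
    obtain ⟨z, hz⟩ := h5
    rw [mem_sdiff] at hz
    refine ⟨z, hz.1, pm_of_hasMat ⟨T, ?_, hTc⟩ (hcx z hz.1)⟩
    refine ⟨?_, hT.2⟩
    intro e he
    obtain ⟨p, hp, q, hq, hpq, rfl⟩ := hT.1 e he
    have h6 : z ∉ ({p, q} : Finset V) := fun h7 => hz.2 (mem_biUnion.2 ⟨_, he, h7⟩)
    rw [mem_insert, mem_singleton] at h6
    push Not at h6
    exact ⟨p, mem_erase.2 ⟨h6.1.symm, hp⟩, q, mem_erase.2 ⟨h6.2.symm, hq⟩, hpq, rfl⟩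
  -- the boundary edge
  obtain ⟨p⟩ := h.conn ⟨z, hz⟩ ⟨x, hx⟩
  obtain ⟨d, _, hd1, hd2⟩ := p.exists_boundary_dart
    {y : {x // x ∈ P} | PM Rᶜ (P.erase y.1)} hzP hxn
  have hadj : R.Adj d.fst.1 d.snd.1 := d.adj
  have h1 := pm_adj h.card hdeg d.fst.2 d.snd.2 (R.ne_of_adj hadj) hd1 hd2
  rw [SimpleGraph.compl_adj] at h1
  exact h1.2 hadj

end JT

end Pool.Agent.Lib.MP_a05470_co
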