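import Pool.Agent.Lib.MP_a05470_co.TF.PK
import Pool.Agent.Lib.MP_a05470_co.TF.LevCut
import Pool.Agent.Lib.MP_a05470_co.JAssemble
import Pool.Agent.Lib.MP_a05470_co.TF.PieceMat

/-!
# Finding the graph, if there are many red boxes
-/

set_option autoImplicit false
set_option linter.unusedSectionVars false

namespace Pool.Agent.Lib.MP_a05470_co

open Finset Classical JF LV JT JP

namespace HII

variable {n : ℕ} {V : Type} {Gr Gb : SimpleGraph (Fin n)} {H : SimpleGraph V}

section slots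

variable {F U : Finset (Finset (Fin n))}

theorem filter_sdiff_true (P : Finset (Fin n) → Prop) [DecidablePred P] (hU : U ⊆ F)
    (h : ∀ C ∈ U, P C) : ((F \ U).filter P).card + U.card = (F.filter P).card := by
  have h1 : F.filter P = (F \ U).filter P ∪ U := by
    ext D
    simp only [mem_filter, mem_union, mem_sdiff]
    constructor
    · rintro ⟨h1, h2⟩
      by_cases h3 : D ∈ U
      · exact Or.inr h3
      · exact Or.inl ⟨⟨h1, h3⟩, h2⟩
    · rintro (⟨⟨h1, _⟩, h2⟩ | h3)
      · exact ⟨h1, h2⟩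
      · exact ⟨hU h3, h D h3⟩
  rw [h1, card_union_of_disjoint]
  rw [disjoint_left]
  intro D hD
  exact (mem_sdiff.1 (mem_filter.1 hD).1).2

theorem filter_sdiff_false (P : Finset (Fin n) → Prop) [DecidablePred P]
    (h : ∀ C ∈ U, ¬ P C) : ((F \ U).filter P).card = (F.filter P).card := by
  congr 1
  ext D
  simp only [mem_filter, mem_sdiff]
  constructor
  · rintro ⟨h1, h2⟩
    exact ⟨h1.1, h2⟩
  · rintro ⟨h1, h2⟩
    exact ⟨⟨h1, fun h3 => h D h3 h2⟩, h2⟩

/-- the slots -/
theorem exists_tau {g t : ℕ} {JK : Finset (Fin g)} {c : Fin g → ℕ} {M : Finset (Fin n)}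
    {z : Fin g → Fin n} (hz : ∀ j ∈ JK, z j ∈ M) {T : Finset (Fin n) → Finset (Fin n)}
    (hbad : ∀ z ∈ M, (F.filter (fun C => RB Gr Gb C ∧ ∃ x ∈ T C, ¬ Gr.Adj z x)).card ≤ t)
    (hN : ∑ j ∈ JK, c j ≠ 0 → ∑ j ∈ JK, c j + t ≤ nr Gr Gb 2 F) :
    ∃ τ : Fin g → Finset (Finset (Fin n)), (∀ j ∈ JK, τ j ⊆ F ∧ (τ j).card = c j ∧
      ∀ C ∈ τ j, RB Gr Gb C ∧ 2 ≤ C.card ∧ ∀ w ∈ T C, Gr.Adj (z j) w) ∧
      (∀ i ∈ JK, ∀ j ∈ JK, i ≠ j → Disjoint (τ i) (τ j)) ∧
      beta Gr Gb (F \ JK.biUnion τ) + ∑ j ∈ JK, c j = beta Gr Gb F ∧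
      nr Gr Gb 2 (F \ JK.biUnion τ) + ∑ j ∈ JK, c j = nr Gr Gb 2 F ∧
      ∀ k, nr Gr Gb (k + 2) F ≤ nr Gr Gb (k + 2) (F \ JK.biUnion τ) ∨
        nr Gr Gb 2 (F \ JK.biUnion τ) ≤ nr Gr Gb (k + 2) (F \ JK.biUnion τ) + t := by
  by_cases h0 : ∑ j ∈ JK, c j = 0
  · have hc : ∀ j ∈ JK, c j = 0 := fun j hj => (sum_eq_zero_iff.1 h0) j hj
    refine ⟨fun _ => ∅, ?_, ?_, ?_, ?_, ?_⟩
    · intro j hj
      refine ⟨empty_subset _, ?_, ?_⟩
      · rw [card_empty, hc j hj]
      · intro C hC
        simp at hC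
    · intro i _ j _ _
      exact disjoint_empty_left _
    · have h1 : JK.biUnion (fun _ => (∅ : Finset (Finset (Fin n)))) = ∅ := by
        ext
        simp
      rw [h1, sdiff_empty, h0, add_zero]
    · have h1 : JK.biUnion (fun _ => (∅ : Finset (Finset (Fin n)))) = ∅ := by
        ext
        simp
      rw [h1, sdiff_empty, h0, add_zero]
    · intro k
      left
      have h1 : JK.biUnion (fun _ => (∅ : Finset (Finset (Fin n)))) = ∅ := by
        ext
        simp
      rw [h1, sdiff_empty]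
  · set L := F.filter (fun C => RB Gr Gb C ∧ 2 ≤ C.card) with hL
    have hLF : L ⊆ F := filter_subset _ _
    have hLc : L.card = nr Gr Gb 2 F := rfl
    obtain ⟨Q, hQ, hQc, hQmin⟩ := exists_smallest (fun D : Finset (Fin n) => D.card)
      (∑ j ∈ JK, c j + t) L (by rw [hLc]; exact hN h0)
    obtain ⟨τ, hτ1, hτ2⟩ := choose_slots JK Q c
      (fun j => Q.filter (fun C => ∃ x ∈ T C, ¬ Gr.Adj (z j) x)) t
      (by
        intro j hj
        refine (card_le_card ?_).trans (hbad (z j) (hz j hj))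
        intro C hC
        rw [mem_filter] at hC ⊢
        have h1 := hQ hC.1
        rw [hL, mem_filter] at h1
        exact ⟨h1.1, h1.2.1, hC.2⟩)
      (by rw [hQc])
    set U := JK.biUnion τ with hU
    have hUQ : U ⊆ Q := by
      rw [hU]
      intro C hC
      rw [mem_biUnion] at hC
      obtain ⟨j, hj, hC⟩ := hC
      exact (hτ1 j hj).1 hC
    have hUc : U.card = ∑ j ∈ JK, c j := by
      rw [hU, card_biUnion hτ2]
      exact sum_congr rfl (fun j hj => (hτ1 j hj).2.1)
    have hUL : U ⊆ L := hUQ.trans hQ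
    have hUF : U ⊆ F := hUL.trans hLF
    have hUR : ∀ C ∈ U, RB Gr Gb C ∧ 2 ≤ C.card := by
      intro C hC
      have := hUL hC
      rw [hL, mem_filter] at this
      exact this.2
    refine ⟨τ, ?_, hτ2, ?_, ?_, ?_⟩
    · intro j hj
      obtain ⟨h1, h2, h3⟩ := hτ1 j hj
      refine ⟨h1.trans (hQ.trans hLF), h2, ?_⟩
      intro C hC
      have h4 := hQ (h1 hC)
      rw [hL, mem_filter] at h4
      refine ⟨h4.2.1, h4.2.2, ?_⟩
      intro w hw
      by_contra hcon
      apply disjoint_left.1 h3 hC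
      rw [mem_filter]
      exact ⟨h1 hC, w, hw, hcon⟩
    · have h1 : nb Gr Gb (F \ U) = nb Gr Gb F :=
        filter_sdiff_false (fun C => BB Gr Gb C) (fun C hC => (hUR C hC).1.not_BB)
      have h2 : (F \ U).card + U.card = F.card := card_sdiff_add_card_eq_card hUF
      rw [← hU]
      unfold beta
      rw [h1]
      omega
    · rw [← hUc]
      exact filter_sdiff_true (fun C => RB Gr Gb C ∧ 2 ≤ C.card) hUF hUR
    · intro k
      by_cases hk : ∃ C ∈ U, k + 2 ≤ C.card
      · right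
        obtain ⟨C, hC, hCk⟩ := hk
        have h1 : (F \ U).filter (fun C => RB Gr Gb C ∧ 2 ≤ C.card) ⊆
            (F \ U).filter (fun C => RB Gr Gb C ∧ k + 2 ≤ C.card) ∪ (Q \ U) := by
          intro D hD
          rw [mem_filter] at hD
          rw [mem_union, mem_filter]
          by_cases hDQ : D ∈ Q
          · right
            rw [mem_sdiff]
            exact ⟨hDQ, (mem_sdiff.1 hD.1).2⟩
          · left
            refine ⟨hD.1, hD.2.1, hCk.trans ?_⟩
            apply hQmin C (hUQ hC) D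
            rw [mem_sdiff, hL, mem_filter]
            exact ⟨⟨(mem_sdiff.1 hD.1).1, hD.2⟩, hDQ⟩
        have h2 := (card_le_card h1).trans (card_union_le _ _)
        have h3 : (Q \ U).card = t := by
          have h4 := card_sdiff_add_card_eq_card hUQ
          omega
        rw [h3] at h2
        exact h2
      · left
        push Not at hk
        apply le_of_eq
        symm
        exact filter_sdiff_false (fun C => RB Gr Gb C ∧ k + 2 ≤ C.card)
          (fun C hC h => by have := hk C hC; omega)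

end slots

/-- the perfect matching of a piece minus a vertex -/
theorem exists_rest {P : Finset V} {c : ℕ} (hP : P.card = 2 * c + 1) (h : HasMat H P c) :
    ∃ x ∈ P, ∃ E, IsMat H P E ∧ E.card = c ∧ E.biUnion id = P.erase x := by
  obtain ⟨E, hE, hc⟩ := h
  have h1 := hE.card_biUnion
  have h2 : (P \ E.biUnion id).card = 1 := by
    rw [card_sdiff_of_subset hE.biUnion_subset, h1, hP, hc]
    omega
  obtain ⟨x, hx⟩ := card_eq_one.1 h2
  have hxm : x ∈ P \ E.biUnion id := by rw [hx]; exact mem_singleton_self x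
  rw [mem_sdiff] at hxm
  refine ⟨x, hxm.1, E, hE, hc, ?_⟩
  ext y
  rw [mem_erase]
  constructor
  · intro h6
    exact ⟨fun h7 => hxm.2 (h7 ▸ h6), hE.biUnion_subset h6⟩
  · rintro ⟨h6, h7⟩
    by_contra hcon
    have : y ∈ P \ E.biUnion id := mem_sdiff.2 ⟨h7, hcon⟩
    rw [hx, mem_singleton] at this
    exact h6 this

/-- red pairs into red boxes -/
theorem gp_edges {ok : V → Finset (Fin n) → Prop} {P : Finset V} {E : Finset (Finset V)}
    {c : ℕ} (hE : IsMat H P E) (hEc : E.card = c) {S : Finset (Finset (Fin n))} (hS : S.card = c)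
    (hbox : ∀ C ∈ S, RB Gr Gb C ∧ 2 ≤ C.card)
    (hok : ∀ x ∈ E.biUnion id, ∀ C ∈ S, ok x C) : GP H Gr Gb ok (E.biUnion id) S := by
  have h1 := gp_sets (H := H) (Gr := Gr) (Gb := Gb) (ok := ok) c hEc
    (S := S.image (fun C => ({C} : Finset (Finset (Fin n)))))
    (by rw [card_image_of_injective _ singleton_injective, hS])
    (by
      intro s hs s' hs' hss
      rw [mem_image] at hs hs'
      obtain ⟨D, _, rfl⟩ := hs
      obtain ⟨D', _, rfl⟩ := hs'
      rw [disjoint_singleton]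
      exact fun h => hss (by rw [h]))
    (by
      intro e he s hs
      rw [mem_image] at hs
      obtain ⟨C, hC, rfl⟩ := hs
      apply gp_of_packable
      · apply packable_box
        obtain ⟨x, hx, y, hy, hxy, he'⟩ := hE.1 e he
        apply loc_rb (hbox C hC).1
        · intro u hu v hv huv
          rw [he', mem_insert, mem_singleton] at hu hv
          rcases hu with rfl | rfl <;> rcases hv with rfl | rfl
          · exact absurd rfl huv
          · exact hxy
          · exact hxy.symm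
          · exact absurd rfl huv
        · rw [hE.card_edge e he]
          exact (hbox C hC).2
      · intro x hx D hD
        rw [mem_singleton] at hD
        rw [hD]
        exact hok x (mem_biUnion.2 ⟨e, he, hx⟩) C hC)
  rwa [biUnion_singletons] at h1

/-- the arithmetic of the packing -/
theorem arith_pack {a g β N2 q γ m σ s β' N N' N2' θ ν : ℕ} (k : ℕ) (hθ : θ ≤ q + 1 + γ)
    (hν : ν ≤ 2 * q + 1 + γ) (ha : a = s + σ + q) (hg : g = m + γ) (hβ : β' + σ = β)
    (hN2 : N2' + σ = N2) (h0 : a + g + 1 ≤ β + s)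
    (h1 : 1 * (a + g) + a + 1 ≤ 1 * (β + m) + N2 + (1 + 1) * s)
    (hk : (k + 1) * (a + g) + a + 1 ≤ (k + 1) * (β + m) + N + (k + 1 + 1) * s)
    (hN : N ≤ N' ∨ N2' ≤ N' + min 3 (m + 1)) (h00 : k = 0 → N' = N2') :
    k * θ + ν ≤ (k + 1) * β' + N' + k := by
  subst ha
  subst hg
  subst hβ
  subst hN2
  have hθ' : k * θ ≤ k * (q + 1 + γ) := Nat.mul_le_mul_left k hθ
  rcases Nat.eq_zero_or_pos k with rfl | hk1
  · have := h00 rfl
    omega
  · rcases hN with hN | hN
    · nlinarith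
    · have h2 : k * (q + m + γ + 1) ≤ k * β' := Nat.mul_le_mul_left k (by omega)
      have h3 : m ≤ k * m := Nat.le_mul_of_pos_left m hk1
      have h4 : min 3 (m + 1) ≤ m + 1 := min_le_right _ _
      nlinarith

section main

variable [Fintype V] {a g A s : ℕ} {RA : Finset V} {u h : Fin s → V}
  {P : Fin s ⊕ Fin g → Finset V} {c : Fin s ⊕ Fin g → ℕ}
  {F Sp : Finset (Finset (Fin n))} {M : Finset (Fin n)} {T : Finset (Fin n) → Finset (Fin n)}

/-- the remaining vertices -/
noncomputable def rest (RA : Finset V) (h : Fin s → V) (P : Fin s ⊕ Fin g → Finset V)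
    (JK : Finset (Fin g)) : Finset V :=
  RA ∪ (univ.biUnion (fun i : Fin s => (P (Sum.inl i)).erase (h i)) ∪
    (univ \ JK).biUnion (fun j : Fin g => P (Sum.inr j)))

theorem mem_rest {JK : Finset (Fin g)} {x : V} : x ∈ rest RA h P JK ↔ x ∈ RA ∨
    (∃ i, x ∈ P (Sum.inl i) ∧ x ≠ h i) ∨ ∃ j, j ∉ JK ∧ x ∈ P (Sum.inr j) := by
  unfold rest
  rw [mem_union, mem_union, mem_biUnion, mem_biUnion]
  constructor
  · rintro (h1 | ⟨i, _, h1⟩ | ⟨j, hj, h1⟩)
    · exact Or.inl h1
    · rw [mem_erase] at h1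
      exact Or.inr (Or.inl ⟨i, h1.2, h1.1⟩)
    · exact Or.inr (Or.inr ⟨j, (mem_sdiff.1 hj).2, h1⟩)
  · rintro (h1 | ⟨i, h1, h2⟩ | ⟨j, hj, h1⟩)
    · exact Or.inl h1
    · exact Or.inr (Or.inl ⟨i, mem_univ i, mem_erase.2 ⟨h2, h1⟩⟩)
    · exact Or.inr (Or.inr ⟨j, mem_sdiff.2 ⟨mem_univ j, hj⟩, h1⟩)

theorem hostII (hN : NF H a g A s RA u P c)
    (hh : ∀ i, h i ∈ P (Sum.inl i) ∧ H.Adj (u i) (h i))
    (hO : LevelOut Gr Gb a g s F Sp M) (hT : TOut Gr Gb F M T)
    (hA2 : (∃ j : Fin g, c (Sum.inr j) ≠ 0) → HasMat H RA 2)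
    (hr : ∀ r, HasMat H (univ \ (univ.image u ∪ univ.image h)) r → r + 1 ≤ nr Gr Gb 2 F) :
    Contains H Hᶜ Gr Gb := by
  -- the boxes
  have hbox : ∀ C ∈ F, Box Gr Gb C := fun C hC => hO.fam.box C (by simp [hC])
  have hgreen : ∀ C, (C ∈ F ∨ C ∈ Sp) → ∀ D, (D ∈ F ∨ D ∈ Sp) → C ≠ D →
      ∀ x ∈ C, ∀ y ∈ D, Gr.Adj x y ∧ Gb.Adj x y := by
    intro C hC D hD
    exact hO.fam.green C (by simpa using hC) D (by simpa using hD)
  -- there is a vertex
  obtain ⟨z0⟩ : Nonempty (Fin n) := by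
    by_contra hn
    rw [not_nonempty_iff] at hn
    have h1 := hO.zero
    have h2 : beta Gr Gb F ≤ 2 * F.card := by
      unfold beta nb
      have := card_filter_le F (fun C => BB Gr Gb C)
      omega
    have h3 : F = ∅ := by
      rw [eq_empty_iff_forall_notMem]
      intro C hC
      obtain ⟨x, _⟩ := (hbox C hC).nonempty
      exact hn.false x
    have h4 : Sp = ∅ := by
      rw [eq_empty_iff_forall_notMem]
      intro C hC
      obtain ⟨x, _⟩ := (hO.spc C hC).1.1
      exact hn.false x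
    have h5 := hO.cardS
    rw [h4, card_empty] at h5
    rw [h3] at h1 h2
    rw [card_empty] at h2
    omega
  -- the hosted pieces
  obtain ⟨JK, _, hJKc⟩ := exists_subset_card_eq (s := (univ : Finset (Fin g))) (n := M.card)
    (by rw [card_univ, Fintype.card_fin]; exact hO.cardM)
  obtain ⟨z, hzM, hzi⟩ : ∃ z : Fin g → Fin n, (∀ j ∈ JK, z j ∈ M) ∧
      ∀ i ∈ JK, ∀ j ∈ JK, z i = z j → i = j := by
    have e : JK ≃ M := Finset.equivOfCardEq hJKc
    refine ⟨fun j => if hj : j ∈ JK then e ⟨j, hj⟩ else z0, ?_, ?_⟩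
    · intro j hj
      simp only [dif_pos hj]
      exact (e ⟨j, hj⟩).2
    · intro i hi j hj hij
      simp only [dif_pos hi, dif_pos hj] at hij
      have := e.injective (Subtype.ext hij)
      exact congrArg Subtype.val this
  -- the hosted vertices
  have hpt : ∀ j : Fin g, ∃ x ∈ P (Sum.inr j), ∃ E, IsMat H (P (Sum.inr j)) E ∧
      E.card = c (Sum.inr j) ∧ E.biUnion id = (P (Sum.inr j)).erase x := by
    intro j
    have h1 := (hN.piece (Sum.inr j))
    obtain ⟨y, hy⟩ := card_pos.1 (show 0 < (P (Sum.inr j)).card by rw [h1.card]; omega)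
    exact exists_rest h1.card ((h1.red_mat hy).sub (erase_subset _ _))
  choose x hx E hE hEc hEu using hpt
  have hPne : ∀ j, HasMat H (P (Sum.inr j)) (c (Sum.inr j)) := fun j => ⟨E j, hE j, hEc j⟩
  -- sums
  set σ := ∑ j ∈ JK, c (Sum.inr j) with hσ
  set q := A + ∑ i : Fin s, c (Sum.inl i) + ∑ j ∈ univ \ JK, c (Sum.inr j) with hq
  have hsum : a = s + σ + q := by
    have h1 := hN.sum
    rw [Fintype.sum_sum_type] at h1
    have h2 : ∑ j : Fin g, c (Sum.inr j) = σ + ∑ j ∈ univ \ JK, c (Sum.inr j) := by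
      rw [hσ, add_comm, sum_sdiff (subset_univ JK)]
    rw [h2] at h1
    omega
  obtain ⟨γ, hγ⟩ : ∃ γ, g = M.card + γ := ⟨g - M.card, by have := hO.cardM; omega⟩
  have hJc : (univ \ JK).card = γ := by
    rw [card_sdiff_of_subset (subset_univ JK), card_univ, Fintype.card_fin, hJKc]
    omega
  -- disjointness
  have hPd : ∀ i j, i ≠ j → Disjoint (P i) (P j) := fun i j hij => (hN.sep i j hij).1
  have huP : ∀ i j, u i ∉ P j := hN.disj_P
  -- matchings in the big rest
  set R2 := univ \ (univ.image u ∪ univ.image h) with hR2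
  have hmemR : ∀ y, y ∈ R2 ↔ (∀ i, y ≠ u i) ∧ ∀ i, y ≠ h i := by
    intro y
    rw [hR2, mem_sdiff, mem_union, mem_image, mem_image]
    constructor
    · rintro ⟨_, h1⟩
      push Not at h1
      exact ⟨fun i hi => h1.1 i (mem_univ i) hi.symm, fun i hi => h1.2 i (mem_univ i) hi.symm⟩
    · rintro ⟨h1, h2⟩
      refine ⟨mem_univ y, ?_⟩
      rintro (⟨i, _, hi⟩ | ⟨i, _, hi⟩)
      · exact h1 i hi.symm
      · exact h2 i hi.symm
  have hRA2 : RA ⊆ R2 := by
    intro y hy
    rw [hmemR]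
    refine ⟨?_, ?_⟩
    · rintro i rfl
      exact hN.disj_u i hy
    · rintro i rfl
      exact disjoint_left.1 (hN.sepA (Sum.inl i)).1 hy (hh i).1
  have hPr2 : ∀ j : Fin g, P (Sum.inr j) ⊆ R2 := by
    intro j y hy
    rw [hmemR]
    refine ⟨?_, ?_⟩
    · rintro i rfl
      exact huP i _ hy
    · rintro i rfl
      exact disjoint_left.1 (hPd (Sum.inr j) (Sum.inl i) (by simp)) hy (hh i).1
  have hrest2 : rest RA h P JK ⊆ R2 := by
    intro y hy
    rw [mem_rest] at hy
    rcases hy with hy | ⟨i, hy, hyi⟩ | ⟨j, _, hy⟩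
    · exact hRA2 hy
    · rw [hmemR]
      refine ⟨?_, ?_⟩
      · rintro k rfl
        exact huP k _ hy
      · rintro k rfl
        by_cases hik : i = k
        · subst hik
          exact hyi rfl
        · exact disjoint_left.1 (hPd (Sum.inl i) (Sum.inl k) (by simpa using hik)) hy (hh k).1
    · exact hPr2 j hy
  have hdisJ : ∀ X ⊆ rest RA h P JK, Disjoint X (JK.biUnion (fun j => P (Sum.inr j))) := by
    intro X hX
    rw [disjoint_left]
    intro y hy hy'
    rw [mem_biUnion] at hy'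
    obtain ⟨j, hj, hy'⟩ := hy'
    have h1 := mem_rest.1 (hX hy)
    rcases h1 with h1 | ⟨i, h1, _⟩ | ⟨k, hk, h1⟩
    · exact disjoint_left.1 (hN.sepA (Sum.inr j)).1 h1 hy'
    · exact disjoint_left.1 (hPd (Sum.inl i) (Sum.inr j) (by simp)) h1 hy'
    · exact disjoint_left.1 (hPd (Sum.inr k) (Sum.inr j) (by
        simp only [ne_eq, Sum.inr.injEq]
        rintro rfl
        exact hk hj)) h1 hy'
  have hmatJ : HasMat H (JK.biUnion (fun j => P (Sum.inr j))) σ := by
    apply hasMat_biUnion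
    · intro i _ j _ hij
      exact hPd _ _ (by simpa using hij)
    · exact fun j _ => hPne j
  have hJsub : JK.biUnion (fun j => P (Sum.inr j)) ⊆ R2 := by
    intro y hy
    rw [mem_biUnion] at hy
    obtain ⟨j, _, hy⟩ := hy
    exact hPr2 j hy
  have hbig : ∀ X ⊆ rest RA h P JK, ∀ r, HasMat H X r → r + σ + 1 ≤ nr Gr Gb 2 F := by
    intro X hX r hXr
    apply hr
    exact (HasMat.union' hXr hmatJ (hdisJ X hX)).sub (union_subset (hX.trans hrest2) hJsub)
  have hRAs : RA ⊆ rest RA h P JK := by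
    intro y hy
    rw [mem_rest]
    exact Or.inl hy
  -- the slots
  obtain ⟨τ, hτ1, hτ2, hβ, h2, hk⟩ := exists_tau (Gr := Gr) (Gb := Gb) (F := F) (JK := JK)
    (c := fun j => c (Sum.inr j)) (t := min 3 (M.card + 1)) hzM (T := T) (by
      intro w hw
      refine le_trans (le_of_eq ?_) (hT.bad w hw)
      congr) (by
      intro h0
      have h1 : ∃ j : Fin g, c (Sum.inr j) ≠ 0 := by
        by_contra hcon
        push Not at hcon
        exact h0 (sum_eq_zero (fun j _ => hcon j))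
      have h3 := hbig RA hRAs 2 (hA2 h1)
      have h4 : min 3 (M.card + 1) ≤ 3 := min_le_left _ _
      omega)
  set U := JK.biUnion τ with hU
  have hUF : U ⊆ F := by
    intro C hC
    rw [hU, mem_biUnion] at hC
    obtain ⟨j, hj, hC⟩ := hC
    exact (hτ1 j hj).1 hC
  have hUR : ∀ C ∈ U, 2 ≤ C.card := by
    intro C hC
    rw [hU, mem_biUnion] at hC
    obtain ⟨j, hj, hC⟩ := hC
    exact ((hτ1 j hj).2.2 C hC).2.1
  have hTU : ∀ C ∈ U, T C ⊆ C ∧ (T C).card = 2 := by
    intro C hC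
    refine ⟨hT.sub C (hUF hC), ?_⟩
    rw [hT.card C (hUF hC), min_eq_left (hUR C hC)]
  have hTne : ∀ C ∈ U, (T C).Nonempty := fun C hC => card_pos.1 (by rw [(hTU C hC).2]; omega)
  have hTinj : ∀ C ∈ U, ∀ D ∈ U, T C = T D → C = D := by
    intro C hC D hD hCD
    by_contra hne
    obtain ⟨y, hy⟩ := hTne C hC
    have h1 : y ∈ T D := hCD ▸ hy
    exact Gr.irrefl (hgreen C (Or.inl (hUF hC)) D (Or.inl (hUF hD)) hne y
      ((hTU C hC).1 hy) y ((hTU D hD).1 h1)).1
  have hτU : ∀ j ∈ JK, τ j ⊆ U := by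
    intro j hj C hC
    rw [hU, mem_biUnion]
    exact ⟨j, hj, hC⟩
  -- the hosts
  have hxinj : ∀ i j, x i = x j → i = j := by
    intro i j hij
    by_contra hne
    refine disjoint_left.1 (hPd (Sum.inr i) (Sum.inr j) (by simpa using hne)) (hx i) ?_
    rw [hij]
    exact hx j
  set ζ : V → Fin n := fun v => if hv : ∃ j, j ∈ JK ∧ x j = v then z hv.choose else z0 with hζ
  have hζx : ∀ j ∈ JK, ζ (x j) = z j := by
    intro j hj
    have hv : ∃ j', j' ∈ JK ∧ x j' = x j := ⟨j, hj, rfl⟩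
    simp only [hζ]
    rw [dif_pos hv]
    congr 1
    exact hxinj _ _ hv.choose_spec.2
  set Hs := JK.image x with hHs
  have hHsm : ∀ v ∈ Hs, ∃ j ∈ JK, v = x j := by
    intro v hv
    rw [hHs, mem_image] at hv
    obtain ⟨j, hj, rfl⟩ := hv
    exact ⟨j, hj, rfl⟩
  set ok : V → Finset (Fin n) → Prop :=
    fun y D => ∀ v ∈ Hs, H.Adj v y → ∀ w ∈ D, Gr.Adj (ζ v) w with hok
  -- the special pairs
  set E1 : Finset (Finset V) := univ.image (fun i : Fin s => ({u i, h i} : Finset V)) with hE1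
  have huh : ∀ i j, u i ≠ h j := by
    intro i j hij
    exact huP i (Sum.inl j) (hij ▸ (hh j).1)
  have hhinj : ∀ i j, h i = h j → i = j := by
    intro i j hij
    by_contra hne
    refine disjoint_left.1 (hPd (Sum.inl i) (Sum.inl j) (by simpa using hne)) (hh i).1 ?_
    rw [hij]
    exact (hh j).1
  have hE1m : IsMat H univ E1 := by
    refine ⟨?_, ?_⟩
    · intro e he
      rw [hE1, mem_image] at he
      obtain ⟨i, _, rfl⟩ := he
      exact ⟨u i, mem_univ _, h i, mem_univ _, (hh i).2, rfl⟩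
    · intro e he f hf hef
      rw [hE1, mem_image] at he hf
      obtain ⟨i, _, rfl⟩ := he
      obtain ⟨j, _, rfl⟩ := hf
      have hij : i ≠ j := fun h' => hef (by rw [h'])
      rw [disjoint_left]
      intro y hy hy'
      rw [mem_insert, mem_singleton] at hy hy'
      rcases hy with rfl | rfl <;> rcases hy' with hy' | hy'
      · exact hij (hN.inj hy')
      · exact huh i j hy'
      · exact huh j i hy'.symm
      · exact hij (hhinj i j hy')
  have hE1c : E1.card = s := by
    rw [hE1, card_image_of_injective, card_univ, Fintype.card_fin]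
    intro i j hij
    have h1 : u i ∈ ({u j, h j} : Finset V) := by
      have h2 : u i ∈ ({u i, h i} : Finset V) := mem_insert_self _ _
      simp only at hij
      rwa [hij] at h2
    rw [mem_insert, mem_singleton] at h1
    rcases h1 with h1 | h1
    · exact hN.inj h1
    · exact absurd h1 (huh i j)
  have g1 : GP H Gr Gb ok (E1.biUnion id) Sp := by
    apply gp_edges hE1m hE1c hO.cardS
    · intro C hC
      exact ⟨(hO.spc C hC).1, (hO.spc C hC).2.ge⟩
    · intro y _ C hC
      rw [hok]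
      intro v hv _ w hw
      obtain ⟨j, hj, rfl⟩ := hHsm v hv
      rw [hζx j hj]
      exact (hO.MSp (z j) (hzM j hj) C hC w hw).1
  -- the rest
  have hJK1 : ∑ j ∈ univ \ JK, (c (Sum.inr j) + 1) = ∑ j ∈ univ \ JK, c (Sum.inr j) + γ := by
    rw [sum_add_distrib, ← card_eq_sum_ones, hJc]
  have hth : th H (rest RA h P JK) ≤ q + 1 + γ := by
    unfold rest
    refine th_union_le.trans ?_
    have e1 : th H ((univ.biUnion (fun i : Fin s => (P (Sum.inl i)).erase (h i))) ∪
        (univ \ JK).biUnion (fun j : Fin g => P (Sum.inr j))) ≤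
        ∑ i : Fin s, c (Sum.inl i) + ∑ j ∈ univ \ JK, (c (Sum.inr j) + 1) := by
      refine th_union_le.trans (add_le_add ?_ ?_)
      · refine (th_biUnion_le _ _).trans (le_of_eq ?_)
        exact sum_congr rfl (fun i _ => (hN.piece (Sum.inl i)).erase (hh i).1)
      · refine (th_biUnion_le _ _).trans (le_of_eq ?_)
        exact sum_congr rfl (fun j _ => (hN.piece (Sum.inr j)).theta)
    rw [hJK1] at e1
    rw [hN.thA]
    omega
  have hcard : (rest RA h P JK).card ≤ 2 * q + 1 + γ := by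
    unfold rest
    refine (card_union_le _ _).trans ?_
    have e1 : ((univ.biUnion (fun i : Fin s => (P (Sum.inl i)).erase (h i))) ∪
        (univ \ JK).biUnion (fun j : Fin g => P (Sum.inr j))).card ≤
        ∑ i : Fin s, 2 * c (Sum.inl i) + ∑ j ∈ univ \ JK, (2 * c (Sum.inr j) + 1) := by
      refine (card_union_le _ _).trans (add_le_add ?_ ?_)
      · refine card_biUnion_le.trans (le_of_eq ?_)
        apply sum_congr rfl
        intro i _
        rw [card_erase_of_mem (hh i).1, (hN.piece (Sum.inl i)).card]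
        omega
      · refine card_biUnion_le.trans (le_of_eq ?_)
        exact sum_congr rfl (fun j _ => (hN.piece (Sum.inr j)).card)
    rw [sum_add_distrib, ← card_eq_sum_ones, hJc, ← mul_sum, ← mul_sum] at e1
    rw [hN.cardA]
    omega
  have g2 : GP H Gr Gb ok (rest RA h P JK) (F \ U) := by
    apply gp_of_packable
    · apply pk _ le_rfl
      · intro C hC
        exact hbox C (mem_sdiff.1 hC).1
      · have h3 := hO.zero
        omega
      · intro k
        refine arith_pack (N := nr Gr Gb (k + 2) F) k hth hcard hsum hγ hβ h2 hO.zero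
          (hO.level 1 le_rfl) (hO.level (k + 1) (Nat.succ_le_succ (Nat.zero_le k))) (hk k) ?_
        rintro rfl
        rfl
      · intro r hrr
        have h3 := hbig _ (subset_refl _) r hrr
        omega
    · intro y hy C _
      rw [hok]
      intro v hv hadj
      exfalso
      obtain ⟨j, hj, rfl⟩ := hHsm v hv
      rw [mem_rest] at hy
      rcases hy with hy | ⟨i, hy, _⟩ | ⟨k, hk', hy⟩
      · exact (hN.sepA (Sum.inr j)).2 y hy _ (hx j) hadj.symm
      · exact (hN.sep (Sum.inr j) (Sum.inl i) (by simp)).2 _ (hx j) y hy hadj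
      · refine (hN.sep (Sum.inr j) (Sum.inr k) ?_).2 _ (hx j) y hy hadj
        simp only [ne_eq, Sum.inr.injEq]
        rintro rfl
        exact hk' hj
  -- the pieces
  have g3 : GP H Gr Gb ok (JK.biUnion (fun j => (P (Sum.inr j)).erase (x j)))
      (JK.biUnion (fun j => (τ j).image T)) := by
    apply gp_biUnion JK
    · intro j hj
      rw [← hEu j]
      apply gp_edges (hE j) (hEc j)
      · rw [card_image_of_injOn]
        · exact (hτ1 j hj).2.1
        · intro C hC D hD hCD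
          exact hTinj C (hτU j hj hC) D (hτU j hj hD) hCD
      · intro D hD
        rw [mem_image] at hD
        obtain ⟨C, hC, rfl⟩ := hD
        have h1 := hTU C (hτU j hj hC)
        refine ⟨?_, h1.2.ge⟩
        have h3 := ((hτ1 j hj).2.2 C hC).1
        exact ⟨hTne C (hτU j hj hC), fun y hy w hw => h3.2 y (h1.1 hy) w (h1.1 hw)⟩
      · intro y hy D hD
        rw [hEu j, mem_erase] at hy
        rw [mem_image] at hD
        obtain ⟨C, hC, rfl⟩ := hD
        rw [hok]
        intro v hv hadj w hw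
        obtain ⟨i, hi, rfl⟩ := hHsm v hv
        by_cases hij : i = j
        · subst hij
          rw [hζx i hi]
          exact ((hτ1 i hi).2.2 C hC).2.2 w hw
        · exact absurd hadj ((hN.sep (Sum.inr i) (Sum.inr j) (by simpa using hij)).2 _ (hx i) y
            hy.2)
    · intro i hi j hj hij
      rw [disjoint_left]
      intro D hD hD'
      rw [mem_image] at hD hD'
      obtain ⟨C, hC, rfl⟩ := hD
      obtain ⟨C', hC', hCC⟩ := hD'
      have h1 := hTinj C' (hτU j hj hC') C (hτU i hi hC) hCC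
      rw [h1] at hC'
      exact disjoint_left.1 (hτ2 i hi j hj hij) hC hC'
  -- all together
  set Γ3 := JK.biUnion (fun j => (τ j).image T) with hΓ3
  have hΓ3m : ∀ D ∈ Γ3, ∃ C ∈ U, D = T C := by
    intro D hD
    rw [hΓ3, mem_biUnion] at hD
    obtain ⟨j, hj, hD⟩ := hD
    rw [mem_image] at hD
    obtain ⟨C, hC, rfl⟩ := hD
    exact ⟨C, hτU j hj hC, rfl⟩
  have hSpF : ∀ C ∈ Sp, C ∉ F := by
    intro C hC hC'
    exact disjoint_left.1 hO.disj hC' hC
  have hself : ∀ C, (C ∈ F ∨ C ∈ Sp) → ∀ D, (D ∈ F ∨ D ∈ Sp) → ∀ y ∈ C, y ∈ D → C = D := by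
    intro C hC D hD y hy hy'
    by_contra hne
    exact Gr.irrefl (hgreen C hC D hD hne y hy y hy').1
  have hTF : ∀ C ∈ U, T C ∈ F ∨ T C ∈ Sp → T C = C := by
    intro C hC h1
    obtain ⟨y, hy⟩ := hTne C hC
    exact hself _ h1 _ (Or.inl (hUF hC)) y hy ((hTU C hC).1 hy)
  have g12 := g1.union g2 (by
    rw [disjoint_left]
    intro C hC hC'
    exact hSpF C hC (mem_sdiff.1 hC').1)
  have g123 := g12.union g3 (by
    rw [disjoint_left]
    intro D hD hD'
    obtain ⟨C, hC, rfl⟩ := hΓ3m D hD'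
    rw [mem_union, mem_sdiff] at hD
    rcases hD with hD | ⟨hD, hD2⟩
    · have h1 := hTF C hC (Or.inr hD)
      rw [h1] at hD
      exact hSpF C hD (hUF hC)
    · have h1 := hTF C hC (Or.inl hD)
      rw [h1] at hD2
      exact hD2 hC)
  have hfinal : GP H Gr Gb ok (univ \ Hs) (Sp ∪ F \ U ∪ Γ3) := by
    obtain ⟨f, hf1, hf2⟩ := g123
    have hsub : univ \ Hs ⊆ E1.biUnion id ∪ rest RA h P JK ∪
        JK.biUnion (fun j => (P (Sum.inr j)).erase (x j)) := by
      intro y hy
      rw [mem_sdiff] at hy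
      rw [mem_union, mem_union, mem_rest]
      rcases hN.cover y with h1 | ⟨i, h1⟩ | ⟨j, h1⟩
      · exact Or.inl (Or.inr (Or.inl h1))
      · left
        left
        rw [mem_biUnion]
        refine ⟨{u i, h i}, ?_, ?_⟩
        · rw [hE1, mem_image]
          exact ⟨i, mem_univ i, rfl⟩
        · rw [h1]
          exact mem_insert_self _ _
      · rcases j with i | j
        · by_cases hyi : y = h i
          · left
            left
            rw [mem_biUnion]
            refine ⟨{u i, h i}, ?_, ?_⟩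
            · rw [hE1, mem_image]
              exact ⟨i, mem_univ i, rfl⟩
            · rw [hyi]
              exact mem_insert_of_mem (mem_singleton_self _)
          · exact Or.inl (Or.inr (Or.inr (Or.inl ⟨i, h1, hyi⟩)))
        · by_cases hj : j ∈ JK
          · right
            rw [mem_biUnion]
            refine ⟨j, hj, mem_erase.2 ⟨?_, h1⟩⟩
            rintro rfl
            apply hy.2
            rw [hHs]
            exact mem_image_of_mem x hj
          · exact Or.inl (Or.inr (Or.inr (Or.inr ⟨j, hj, h1⟩)))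
    exact ⟨f, fun y hy => hf1 y (hsub hy),
      fun C hC => (hf2 C hC).mono (filter_subset_filter _ hsub)⟩
  have hpar : ∀ D ∈ Sp ∪ F \ U ∪ Γ3, ∃ C, (C ∈ F ∨ C ∈ Sp) ∧ D ⊆ C ∧
      ((C ∈ U ∧ D = T C) ∨ (C ∉ U ∧ D = C)) := by
    intro D hD
    rw [mem_union, mem_union, mem_sdiff] at hD
    rcases hD with (hD | hD) | hD
    · exact ⟨D, Or.inr hD, subset_refl D, Or.inr ⟨fun h1 => hSpF D hD (hUF h1), rfl⟩⟩
    · exact ⟨D, Or.inl hD.1, subset_refl D, Or.inr ⟨hD.2, rfl⟩⟩
    · obtain ⟨C, hC, rfl⟩ := hΓ3m D hD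
      exact ⟨C, Or.inl (hUF hC), (hTU C hC).1, Or.inl ⟨hC, rfl⟩⟩
  apply contains_of_gp (F := Sp ∪ F \ U ∪ Γ3) (K := M) (Hs := Hs) (ζ := ζ) ?_ hO.Mblue ?_ ?_ ?_ ?_
    hfinal
  · intro D hD D' hD' hne y hy y' hy'
    obtain ⟨C, hC, hDC, h1⟩ := hpar D hD
    obtain ⟨C', hC', hDC', h1'⟩ := hpar D' hD'
    apply hgreen C hC C' hC' _ y (hDC hy) y' (hDC' hy')
    rintro rfl
    apply hne
    rcases h1 with ⟨h1, rfl⟩ | ⟨h1, rfl⟩ <;> rcases h1' with ⟨h1', rfl⟩ | ⟨h1', rfl⟩
    · rfl
    · exact absurd h1 h1'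
    · exact absurd h1' h1
    · rfl
  · intro w hw D hD y hy
    obtain ⟨C, hC, hDC, _⟩ := hpar D hD
    rcases hC with hC | hC
    · exact hO.MF w hw C hC y (hDC hy)
    · exact (hO.MSp w hw C hC y (hDC hy)).2
  · intro v hv
    obtain ⟨j, hj, rfl⟩ := hHsm v hv
    rw [hζx j hj]
    exact hzM j hj
  · intro v hv v' hv' hvv
    obtain ⟨j, hj, rfl⟩ := hHsm v hv
    obtain ⟨j', hj', rfl⟩ := hHsm v' hv'
    rw [hζx j hj, hζx j' hj'] at hvv
    rw [hzi j hj j' hj' hvv]
  · intro v hv v' hv' hadj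
    obtain ⟨j, hj, rfl⟩ := hHsm v hv
    obtain ⟨j', hj', rfl⟩ := hHsm v' hv'
    by_cases hjj : j = j'
    · subst hjj
      exact H.irrefl hadj
    · exact (hN.sep (Sum.inr j) (Sum.inr j') (by simpa using hjj)).2 _ (hx j) _ (hx j') hadj

end main

end HII

end Pool.Agent.Lib.MP_a05470_co
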