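import Pool.Agent.Lib.MP_a05470_co.JCert

/-!
# All levels, families of boxes (F-first)

Families of boxes maximal for (beta, - number of blue pairs, number of red boxes with at least two
vertices); a set `Sp` of special red pairs; then the numbers of larger ordinary red boxes.
-/

set_option autoImplicit false
set_option linter.unusedSectionVars false

namespace Pool.Agent.Lib.MP_a05470_co

open Finset Classical JF

namespace LV

variable {W : Type} [Fintype W] {Gr Gb : SimpleGraph W}

section defs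

variable (Gr Gb)

/-- a family of boxes, green between different boxes -/
structure Fam (F : Finset (Finset W)) : Prop where
  box : ∀ C ∈ F, Box Gr Gb C
  green : ∀ C ∈ F, ∀ D ∈ F, C ≠ D → ∀ x ∈ C, ∀ y ∈ D, Gr.Adj x y ∧ Gb.Adj x y

/-- the number of blue pairs -/
noncomputable def nb (F : Finset (Finset W)) : ℕ := (F.filter (fun C => BB Gr Gb C)).card

/-- red boxes count once, blue pairs twice -/
noncomputable def beta (F : Finset (Finset W)) : ℕ := F.card + nb Gr Gb F

/-- the number of red boxes with at least `j` vertices -/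
noncomputable def nr (j : ℕ) (F : Finset (Finset W)) : ℕ :=
  (F.filter (fun C => RB Gr Gb C ∧ j ≤ C.card)).card

/-- stage 1 -/
structure Best1 (F : Finset (Finset W)) : Prop where
  fam : Fam Gr Gb F
  m0 : ∀ F', Fam Gr Gb F' → beta Gr Gb F' ≤ beta Gr Gb F
  m1 : ∀ F', Fam Gr Gb F' → beta Gr Gb F' = beta Gr Gb F → nb Gr Gb F ≤ nb Gr Gb F'
  m2 : ∀ F', Fam Gr Gb F' → beta Gr Gb F' = beta Gr Gb F → nb Gr Gb F' = nb Gr Gb F →
    nr Gr Gb 2 F' ≤ nr Gr Gb 2 F

/-- stage 2: `Sp` is the set of special red pairs -/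
structure Best2 (F Sp : Finset (Finset W)) : Prop where
  b1 : Best1 Gr Gb F
  sub : Sp ⊆ F
  spc : ∀ C ∈ Sp, RB Gr Gb C ∧ C.card = 2
  max : ∀ F', Best1 Gr Gb F' → Sp ⊆ F' → ∀ i, 3 ≤ i →
    (∀ j, 3 ≤ j → j < i → nr Gr Gb j (F \ Sp) ≤ nr Gr Gb j (F' \ Sp)) →
    nr Gr Gb i (F' \ Sp) ≤ nr Gr Gb i (F \ Sp)

end defs

theorem Fam.nonempty {F : Finset (Finset W)} (h : Fam Gr Gb F) {C : Finset W} (hC : C ∈ F) :
    C.Nonempty := (h.box C hC).nonempty

theorem Box.cases {C : Finset W} (h : Box Gr Gb C) : RB Gr Gb C ∨ BB Gr Gb C := h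

/-- the general modification of a family -/
theorem fam_image {I : Finset (Finset W)} {κ : Finset W → Finset W}
    (hbox : ∀ C ∈ I, Box Gr Gb (κ C))
    (hgreen : ∀ C ∈ I, ∀ D ∈ I, C ≠ D → ∀ x ∈ κ C, ∀ y ∈ κ D, Gr.Adj x y ∧ Gb.Adj x y) :
    Fam Gr Gb (I.image κ) ∧ (∀ C ∈ I, ∀ D ∈ I, κ C = κ D → C = D) ∧
      ∀ P : Finset W → Prop, ((I.image κ).filter P).card = (I.filter (fun C => P (κ C))).card := by
  have hinj : ∀ C ∈ I, ∀ D ∈ I, κ C = κ D → C = D := by
    intro C hC D hD h
    by_contra hcon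
    obtain ⟨x, hx⟩ := (hbox C hC).nonempty
    exact Gr.irrefl (hgreen C hC D hD hcon x hx x (by rw [← h]; exact hx)).1
  refine ⟨⟨?_, ?_⟩, hinj, ?_⟩
  · intro C hC
    rw [mem_image] at hC
    obtain ⟨C, hC, rfl⟩ := hC
    exact hbox C hC
  · intro C hC D hD hCD
    rw [mem_image] at hC hD
    obtain ⟨C, hC, rfl⟩ := hC
    obtain ⟨D, hD, rfl⟩ := hD
    exact hgreen C hC D hD (fun h => hCD (by rw [h]))
  · intro P
    rw [filter_image, card_image_of_injOn]
    intro C hC D hD h
    rw [mem_coe, mem_filter] at hC hD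
    exact hinj C hC.1 D hD.1 h

theorem gp_BB_eq {v : W} {C : Finset W} (hC : BB Gr Gb C) (hg : BB Gr Gb (gp Gr Gb v C)) :
    gp Gr Gb v C = C :=
  eq_of_subset_of_card_le (gp_subset v C) (by rw [hC.card, hg.card])

/-- the part of a red box green to `v` is a red box -/
theorem RB.gp {v : W} {C : Finset W} (hC : RB Gr Gb C) (hne : (gp Gr Gb v C).Nonempty) :
    RB Gr Gb (gp Gr Gb v C) :=
  ⟨hne, fun x hx y hy => hC.2 x (gp_subset v C hx) y (gp_subset v C hy)⟩

section moves

variable {F : Finset (Finset W)} {v : W}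

/-- a vertex outside `F` without full box hits at least two blue pairs -/
theorem Best1.two_hits (hB : Best1 Gr Gb F) (hv : ∀ C ∈ F, v ∉ C)
    (hne : ∀ C ∈ F, (gp Gr Gb v C).Nonempty) :
    2 ≤ (F.filter (fun C => BB Gr Gb C ∧ gp Gr Gb v C ≠ C)).card := by
  have hvF : ({v} : Finset W) ∉ F := fun h => hv _ h (mem_singleton_self v)
  have hcase : ∀ C ∈ insert {v} F, (C = {v} ∧ v ∈ C) ∨ (C ∈ F ∧ v ∉ C) := by
    intro C hC
    rcases mem_insert.1 hC with rfl | h
    · exact Or.inl ⟨rfl, mem_singleton_self v⟩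
    · exact Or.inr ⟨h, hv C h⟩
  obtain ⟨h1, h1i, h2⟩ := fam_image (Gr := Gr) (Gb := Gb) (I := insert {v} F)
    (κ := fun C => if v ∈ C then {v} else gp Gr Gb v C)
    (by
      intro C hC
      rcases hcase C hC with ⟨_, h⟩ | ⟨hCF, h⟩
      · simp only [if_pos h]
        exact Or.inl (rb_single v)
      · simp only [if_neg h]
        exact (hB.fam.box C hCF).sub (gp_subset v C) (hne C hCF))
    (by
      intro C hC D hD hCD x hx y hy
      rcases hcase C hC with ⟨hC1, h⟩ | ⟨hCF, h⟩ <;> rcases hcase D hD with ⟨hD1, h'⟩ | ⟨hDF, h'⟩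
      · exact absurd (hC1.trans hD1.symm) hCD
      · simp only [if_pos h, mem_singleton] at hx
        simp only [if_neg h'] at hy
        rw [hx]
        exact (mem_gp.1 hy).2
      · simp only [if_neg h] at hx
        simp only [if_pos h', mem_singleton] at hy
        rw [hy]
        have := (mem_gp.1 hx).2
        exact ⟨this.1.symm, this.2.symm⟩
      · simp only [if_neg h] at hx
        simp only [if_neg h'] at hy
        exact hB.fam.green C hCF D hDF hCD x (gp_subset v C hx) y (gp_subset v D hy))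
  set F' := (insert {v} F).image (fun C => if v ∈ C then {v} else gp Gr Gb v C) with hF'
  have hcard : F'.card = F.card + 1 := by
    rw [hF', card_image_of_injOn (fun C hC D hD h => h1i C hC D hD h), card_insert_of_notMem hvF]
  have hnb : nb Gr Gb F' + (F.filter (fun C => BB Gr Gb C ∧ gp Gr Gb v C ≠ C)).card =
      nb Gr Gb F := by
    unfold nb
    rw [h2 (fun C => BB Gr Gb C)]
    have h3 : (insert {v} F).filter (fun C => BB Gr Gb (if v ∈ C then {v} else gp Gr Gb v C)) =
        F.filter (fun C => BB Gr Gb C ∧ gp Gr Gb v C = C) := by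
      ext C
      simp only [mem_filter]
      constructor
      · rintro ⟨hC, h⟩
        rcases hcase C hC with ⟨_, h'⟩ | ⟨hCF, h'⟩
        · rw [if_pos h'] at h
          have := h.card
          simp at this
        · rw [if_neg h'] at h
          refine ⟨hCF, ?_⟩
          rcases hB.fam.box C hCF with h4 | h4
          · exact absurd h (RB.gp h4 (hne C hCF)).not_BB
          · exact ⟨h4, gp_BB_eq h4 h⟩
      · rintro ⟨hCF, h, h'⟩
        refine ⟨mem_insert_of_mem hCF, ?_⟩
        rw [if_neg (hv C hCF), h']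
        exact h
    rw [h3, ← card_union_of_disjoint]
    · congr 1
      ext C
      simp only [mem_union, mem_filter]
      tauto
    · rw [disjoint_left]
      intro C hC hC'
      rw [mem_filter] at hC hC'
      exact hC'.2.2 hC.2.2
  have h4 := hB.m0 F' h1
  have h5 := hB.m1 F' h1
  unfold beta at h4 h5
  by_contra hcon
  push Not at hcon
  have h6 : (F.filter (fun C => BB Gr Gb C ∧ gp Gr Gb v C ≠ C)).card = 1 := by omega
  have h7 := h5 (by omega)
  omega

/-- the hypothesis that `C0` is the only unit, and that it is a full red box -/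
structure Uni (Gr Gb : SimpleGraph W) (F : Finset (Finset W)) (v : W) (C0 : Finset W) : Prop where
  vF : ∀ C ∈ F, v ∉ C
  mem : C0 ∈ F
  rb : RB Gr Gb C0
  full : gp Gr Gb v C0 = ∅
  ne : ∀ D ∈ F, D ≠ C0 → (gp Gr Gb v D).Nonempty
  bb : ∀ D ∈ F, BB Gr Gb D → gp Gr Gb v D = D

/-- replacing `C0` by a box `D0` consisting of `v` and vertices of `C0` -/
theorem Best1.replace (hB : Best1 Gr Gb F) {C0 D0 : Finset W} (hU : Uni Gr Gb F v C0)
    (hD : Box Gr Gb D0) (hDC : ∀ x ∈ D0, x = v ∨ x ∈ C0) :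
    ∃ F', Fam Gr Gb F' ∧ F'.card = F.card ∧
      nb Gr Gb F' = nb Gr Gb F + (if BB Gr Gb D0 then 1 else 0) ∧
      (∀ D ∈ F, D ≠ C0 → gp Gr Gb v D = D → D ∈ F') ∧
      (∀ Sp : Finset (Finset W), Sp ⊆ F → C0 ∉ Sp → (∀ D ∈ Sp, gp Gr Gb v D = D) → ∀ j,
        nr Gr Gb j (F' \ Sp) = ((F \ Sp).filter (fun C => if C = C0 then
          (RB Gr Gb D0 ∧ j ≤ D0.card) else (RB Gr Gb C ∧ j ≤ (gp Gr Gb v C).card))).card) := by
  have hDx : ∀ D' ∈ F, D' ≠ C0 → ∀ x ∈ D0, ∀ y ∈ gp Gr Gb v D', Gr.Adj x y ∧ Gb.Adj x y := by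
    intro D' hD' hne' x hx y hy
    rcases hDC x hx with rfl | hx
    · exact (mem_gp.1 hy).2
    · exact hB.fam.green C0 hU.mem D' hD' (Ne.symm hne') x hx y (gp_subset v D' hy)
  obtain ⟨h1, h1i, h2⟩ := fam_image (Gr := Gr) (Gb := Gb) (I := F)
    (κ := fun C => if C = C0 then D0 else gp Gr Gb v C)
    (by
      intro C hC
      by_cases h : C = C0
      · simp only [if_pos h]
        exact hD
      · simp only [if_neg h]
        exact (hB.fam.box C hC).sub (gp_subset v C) (hU.ne C hC h))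
    (by
      intro C hC D' hD' hCD x hx y hy
      by_cases h : C = C0 <;> by_cases h' : D' = C0
      · exact absurd (h.trans h'.symm) hCD
      · simp only [if_pos h] at hx
        simp only [if_neg h'] at hy
        exact hDx D' hD' h' x hx y hy
      · simp only [if_neg h] at hx
        simp only [if_pos h'] at hy
        have := hDx C hC h y hy x hx
        exact ⟨this.1.symm, this.2.symm⟩
      · simp only [if_neg h] at hx
        simp only [if_neg h'] at hy
        exact hB.fam.green C hC D' hD' hCD x (gp_subset v C hx) y (gp_subset v D' hy))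
  set κ : Finset W → Finset W := fun C => if C = C0 then D0 else gp Gr Gb v C with hκ
  have hRB : ∀ C ∈ F, C ≠ C0 → (RB Gr Gb (gp Gr Gb v C) ↔ RB Gr Gb C) := by
    intro C hC hne
    constructor
    · intro h
      rcases hB.fam.box C hC with h4 | h4
      · exact h4
      · rw [hU.bb C hC h4] at h
        exact absurd h4 h.not_BB
    · intro h
      exact RB.gp h (hU.ne C hC hne)
  refine ⟨F.image κ, h1, ?_, ?_, ?_, ?_⟩
  · rw [card_image_of_injOn (fun C hC D hD h => h1i C hC D hD h)]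
  · unfold nb
    rw [h2 (fun C => BB Gr Gb C)]
    have h3 : F.filter (fun C => BB Gr Gb (κ C)) = F.filter (fun C => BB Gr Gb C) ∪
        (if BB Gr Gb D0 then {C0} else ∅) := by
      ext C
      rw [mem_filter, mem_union, mem_filter]
      by_cases h : C = C0
      · subst h
        simp only [hκ, if_pos rfl]
        by_cases h' : BB Gr Gb D0
        · simp [h', hU.mem]
        · simp [h', hU.rb.not_BB]
      · simp only [hκ, if_neg h]
        have h5 : C ∉ (if BB Gr Gb D0 then ({C0} : Finset (Finset W)) else ∅) := by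
          split_ifs
          · simp [h]
          · simp
        constructor
        · rintro ⟨hC, h'⟩
          left
          refine ⟨hC, ?_⟩
          rcases hB.fam.box C hC with h4 | h4
          · exact absurd h' ((hRB C hC h).2 h4).not_BB
          · exact h4
        · rintro (⟨hC, h'⟩ | h')
          · refine ⟨hC, ?_⟩
            rw [hU.bb C hC h']
            exact h'
          · exact absurd h' h5
    rw [h3, card_union_of_disjoint]
    · congr 1
      split_ifs <;> simp
    · rw [disjoint_left]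
      intro C hC hC'
      rw [mem_filter] at hC
      split_ifs at hC' with h'
      · rw [mem_singleton] at hC'
        rw [hC'] at hC
        exact hU.rb.not_BB hC.2
      · simp at hC'
  · intro D hD' hne h
    rw [mem_image]
    refine ⟨D, hD', ?_⟩
    simp only [hκ, if_neg hne]
    exact h
  · intro Sp hSp hC0 hgr j
    have h3 : F.image κ \ Sp = (F \ Sp).image κ := by
      ext D
      rw [mem_sdiff, mem_image, mem_image]
      constructor
      · rintro ⟨⟨C, hC, rfl⟩, h⟩
        refine ⟨C, mem_sdiff.2 ⟨hC, ?_⟩, rfl⟩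
        intro hCS
        apply h
        have : C ≠ C0 := fun h' => hC0 (h' ▸ hCS)
        simp only [hκ, if_neg this]
        rw [hgr C hCS]
        exact hCS
      · rintro ⟨C, hC, rfl⟩
        rw [mem_sdiff] at hC
        refine ⟨⟨C, hC.1, rfl⟩, ?_⟩
        intro hS
        have h4 : κ (κ C) = κ C := by
          have : κ C ≠ C0 := fun h' => hC0 (h' ▸ hS)
          simp only [hκ] at this ⊢
          rw [if_neg this]
          exact hgr _ hS
        have h5 := h1i (κ C) (hSp hS) C hC.1 h4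
        rw [h5] at hS
        exact hC.2 hS
    unfold nr
    rw [h3]
    obtain ⟨_, _, h2'⟩ := fam_image (Gr := Gr) (Gb := Gb) (I := F \ Sp) (κ := κ)
      (fun C hC => h1.box _ (mem_image_of_mem κ (mem_sdiff.1 hC).1))
      (fun C hC D hD hne => by
        have hC' := (mem_sdiff.1 hC).1
        have hD' := (mem_sdiff.1 hD).1
        exact h1.green _ (mem_image_of_mem κ hC') _ (mem_image_of_mem κ hD')
          (fun h => hne (h1i C hC' D hD' h)))
    have h6 := h2' (fun C => RB Gr Gb C ∧ j ≤ C.card)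
    have h7 : (F \ Sp).filter (fun C => RB Gr Gb (κ C) ∧ j ≤ (κ C).card) =
        (F \ Sp).filter (fun C => if C = C0 then
          (RB Gr Gb D0 ∧ j ≤ D0.card) else (RB Gr Gb C ∧ j ≤ (gp Gr Gb v C).card)) := by
      apply filter_congr
      intro C hC
      have hC' := (mem_sdiff.1 hC).1
      by_cases h : C = C0
      · simp only [hκ, if_pos h]
      · simp only [hκ, if_neg h]
        rw [hRB C hC' h]
    rw [← h7]
    convert h6

/-- a single unit is completely nonblue -/
theorem Best1.uni_nonblue (hB : Best1 Gr Gb F) {C0 : Finset W} (hU : Uni Gr Gb F v C0) {x : W}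
    (hx : x ∈ C0) : ¬ Gb.Adj v x := by
  intro hb
  have hr : ¬ Gr.Adj v x := by
    intro hr
    have : x ∈ gp Gr Gb v C0 := mem_gp.2 ⟨hx, hr, hb⟩
    rw [hU.full] at this
    simp at this
  have hvx : v ≠ x := Gb.ne_of_adj hb
  have hD : BB Gr Gb ({v, x} : Finset W) := ⟨v, x, hvx, rfl, hb, hr⟩
  obtain ⟨F', h1, h2, h3, _⟩ := hB.replace hU (D0 := {v, x}) (Or.inr hD) (by
    intro y hy
    rw [mem_insert, mem_singleton] at hy
    rcases hy with h | h
    · exact Or.inl h
    · exact Or.inr (h ▸ hx))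
  rw [if_pos hD] at h3
  have h4 := hB.m0 F' h1
  unfold beta at h4
  omega

/-- a single unit which is completely red can only be blocked -/
theorem Best2.uni_blocked {Sp : Finset (Finset W)} (hB : Best2 Gr Gb F Sp) {C0 : Finset W}
    (hU : Uni Gr Gb F v C0) (hC0 : C0 ∉ Sp) (hr : ∀ x ∈ C0, Gr.Adj v x) :
    ∃ D ∈ F, D ≠ C0 ∧ (Bad Gr Gb C0.card v D ∨ (D ∈ Sp ∧ gp Gr Gb v D ≠ D)) := by
  by_contra hcon
  push Not at hcon
  have hvC : v ∉ C0 := hU.vF C0 hU.mem
  have hD : RB Gr Gb (insert v C0) := by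
    refine ⟨insert_nonempty v C0, ?_⟩
    intro x hx y hy hxy
    rw [mem_insert] at hx hy
    rcases hx with rfl | hx <;> rcases hy with rfl | hy
    · exact absurd rfl hxy
    · exact ⟨hr y hy, hB.b1.uni_nonblue hU hy⟩
    · exact ⟨(hr x hx).symm, fun h => hB.b1.uni_nonblue hU hx h.symm⟩
    · exact hU.rb.2 x hx y hy hxy
  have hcardD : (insert v C0).card = C0.card + 1 := card_insert_of_notMem hvC
  obtain ⟨F', h1, h2, h3, h4, h5⟩ := hB.b1.replace hU (D0 := insert v C0) (Or.inl hD) (by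
    intro y hy
    rwa [mem_insert] at hy)
  rw [if_neg hD.not_BB, add_zero] at h3
  have hbeta : beta Gr Gb F' = beta Gr Gb F := by
    unfold beta
    rw [h2, h3]
  have hgood : ∀ D ∈ F, D ≠ C0 → gp Gr Gb v D = D ∨ C0.card < (gp Gr Gb v D).card := by
    intro D hD hne
    by_contra h
    exact (hcon D hD hne).1 h
  -- monotonicity of the counts
  have hmono : ∀ Sp' : Finset (Finset W), Sp' ⊆ F → C0 ∉ Sp' → (∀ D ∈ Sp', gp Gr Gb v D = D) →
      ∀ j ≤ C0.card + 1, nr Gr Gb j (F \ Sp') ≤ nr Gr Gb j (F' \ Sp') ∧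
        (j = C0.card + 1 → nr Gr Gb j (F \ Sp') < nr Gr Gb j (F' \ Sp')) := by
    intro Sp' hS1 hS2 hS3 j hj
    rw [h5 Sp' hS1 hS2 hS3 j]
    unfold nr
    have hsub : (F \ Sp').filter (fun C => RB Gr Gb C ∧ j ≤ C.card) ⊆
        (F \ Sp').filter (fun C => if C = C0 then (RB Gr Gb (insert v C0) ∧ j ≤ (insert v C0).card)
          else (RB Gr Gb C ∧ j ≤ (gp Gr Gb v C).card)) := by
      intro C hC
      rw [mem_filter] at hC ⊢
      refine ⟨hC.1, ?_⟩
      by_cases h : C = C0
      · rw [if_pos h]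
        exact ⟨hD, by rw [hcardD]; exact hj⟩
      · rw [if_neg h]
        refine ⟨hC.2.1, ?_⟩
        rcases hgood C (mem_sdiff.1 hC.1).1 h with h' | h'
        · rw [h']
          exact hC.2.2
        · omega
    refine ⟨card_le_card hsub, ?_⟩
    intro hj'
    apply card_lt_card
    rw [Finset.ssubset_iff_of_subset hsub]
    refine ⟨C0, ?_, ?_⟩
    · rw [mem_filter, if_pos rfl]
      exact ⟨mem_sdiff.2 ⟨hU.mem, hS2⟩, hD, by rw [hcardD]; exact hj⟩
    · rw [mem_filter]
      rintro ⟨_, _, h⟩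
      omega
  have hm := hmono ∅ (empty_subset F) (by simp) (by simp)
  simp only [sdiff_empty] at hm
  have hd : 1 ≤ C0.card := card_pos.2 hU.rb.1
  have h6 := hm 2 (by omega)
  have h7 := hB.b1.m2 F' h1 hbeta h3
  have h8 : C0.card ≠ 1 := by
    intro h
    have := h6.2 (by omega)
    omega
  -- now the new family is again maximal at stage 1
  have hnr2 : nr Gr Gb 2 F' = nr Gr Gb 2 F := le_antisymm h7 h6.1
  have hB' : Best1 Gr Gb F' := by
    refine ⟨h1, ?_, ?_, ?_⟩
    · intro G hG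
      rw [hbeta]
      exact hB.b1.m0 G hG
    · intro G hG hb
      rw [h3]
      exact hB.b1.m1 G hG (hb.trans hbeta)
    · intro G hG hb hn
      rw [hnr2]
      exact hB.b1.m2 G hG (hb.trans hbeta) (hn.trans h3)
  have hspgr : ∀ D ∈ Sp, gp Gr Gb v D = D := by
    intro D hD
    by_contra h
    exact h ((hcon D (hB.sub hD) (fun h' => hC0 (h' ▸ hD))).2 hD)
  have hSp' : Sp ⊆ F' := by
    intro D hD
    exact h4 D (hB.sub hD) (fun h' => hC0 (h' ▸ hD)) (hspgr D hD)
  have hm' := hmono Sp hB.sub hC0 hspgr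
  have h9 := hB.max F' hB' hSp' (C0.card + 1) (by omega) (fun j hj1 hj2 => (hm' j (by omega)).1)
  have h10 := (hm' (C0.card + 1) le_rfl).2 rfl
  omega

/-- what is needed of a maximal family -/
structure Core (Gr Gb : SimpleGraph W) (F Sp : Finset (Finset W)) : Prop where
  fam : Fam Gr Gb F
  sub : Sp ⊆ F
  spc : ∀ C ∈ Sp, RB Gr Gb C ∧ C.card = 2
  two : ∀ v, (∀ C ∈ F, v ∉ C) → (∀ C ∈ F, (gp Gr Gb v C).Nonempty) →
    2 ≤ (F.filter (fun C => BB Gr Gb C ∧ gp Gr Gb v C ≠ C)).card
  nonblue : ∀ v C0, Uni Gr Gb F v C0 → ∀ x ∈ C0, ¬ Gb.Adj v x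
  blocked : ∀ v C0, Uni Gr Gb F v C0 → C0 ∉ Sp → (∀ x ∈ C0, Gr.Adj v x) →
    ∃ D ∈ F, D ≠ C0 ∧ (Bad Gr Gb C0.card v D ∨ (D ∈ Sp ∧ gp Gr Gb v D ≠ D))

theorem Best2.core {Sp : Finset (Finset W)} (hB : Best2 Gr Gb F Sp) : Core Gr Gb F Sp :=
  ⟨hB.b1.fam, hB.sub, hB.spc, fun _ h1 h2 => hB.b1.two_hits h1 h2,
    fun _ _ h1 _ h2 => hB.b1.uni_nonblue h1 h2, fun _ _ h1 h2 h3 => hB.uni_blocked h1 h2 h3⟩

end moves

end LV

end Pool.Agent.Lib.MP_a05470_co
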