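import Pool.Agent.Lib.MP_a05470_co.JPack
import Pool.Agent.Lib.MP_a05470_co.JTheta
import Pool.Agent.Lib.MP_a05470_co.Cover
import Pool.Agent.Lib.MP_a05470_co.TF.LevFam

/-!
# Packing cliques into red boxes and blue pairs
-/

set_option autoImplicit false
set_option linter.unusedSectionVars false

namespace Pool.Agent.Lib.MP_a05470_co

open Finset Classical JF LV JT

namespace HII

variable {n : ℕ} {V : Type} {Gr Gb : SimpleGraph (Fin n)} {H : SimpleGraph V}

/-! ### counting boxes -/

section count

variable {F : Finset (Finset (Fin n))} {C : Finset (Fin n)}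

theorem filter_erase_true (P : Finset (Fin n) → Prop) [DecidablePred P] (hC : C ∈ F) (h : P C) :
    ((F.erase C).filter P).card + 1 = (F.filter P).card := by
  have h1 : (F.erase C).filter P = (F.filter P).erase C := by
    ext D
    simp only [mem_filter, mem_erase]
    tauto
  rw [h1, card_erase_of_mem (mem_filter.2 ⟨hC, h⟩)]
  have := card_pos.2 ⟨C, mem_filter.2 ⟨hC, h⟩⟩
  omega

theorem filter_erase_false (P : Finset (Fin n) → Prop) [DecidablePred P] (h : ¬ P C) :
    ((F.erase C).filter P).card = (F.filter P).card := by
  congr 1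
  ext D
  simp only [mem_filter, mem_erase]
  constructor
  · rintro ⟨h1, h2⟩
    exact ⟨h1.2, h2⟩
  · rintro ⟨h1, h2⟩
    exact ⟨⟨fun h3 => h (h3 ▸ h2), h1⟩, h2⟩

theorem card_erase' (hC : C ∈ F) : (F.erase C).card + 1 = F.card := by
  rw [card_erase_of_mem hC]
  have := card_pos.2 ⟨C, hC⟩
  omega

theorem nb_erase_red (h : RB Gr Gb C) : nb Gr Gb (F.erase C) = nb Gr Gb F :=
  filter_erase_false _ h.not_BB

theorem nb_erase_blue (hC : C ∈ F) (h : BB Gr Gb C) :
    nb Gr Gb (F.erase C) + 1 = nb Gr Gb F := filter_erase_true _ hC h

theorem beta_erase_red (hC : C ∈ F) (h : RB Gr Gb C) :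
    beta Gr Gb (F.erase C) + 1 = beta Gr Gb F := by
  unfold beta
  rw [nb_erase_red h]
  have := card_erase' hC
  omega

theorem beta_erase_blue (hC : C ∈ F) (h : BB Gr Gb C) :
    beta Gr Gb (F.erase C) + 2 = beta Gr Gb F := by
  unfold beta
  have h1 := nb_erase_blue (Gr := Gr) (Gb := Gb) hC h
  have := card_erase' hC
  omega

theorem nr_erase_blue (j : ℕ) (h : BB Gr Gb C) : nr Gr Gb j (F.erase C) = nr Gr Gb j F :=
  filter_erase_false (fun C => RB Gr Gb C ∧ j ≤ C.card) (fun h1 => h1.1.not_BB h)

theorem nr_erase_red (j : ℕ) (hC : C ∈ F) (h : RB Gr Gb C) (hj : j ≤ C.card) :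
    nr Gr Gb j (F.erase C) + 1 = nr Gr Gb j F :=
  filter_erase_true (fun C => RB Gr Gb C ∧ j ≤ C.card) hC ⟨h, hj⟩

theorem nr_erase_red' (j : ℕ) (hj : C.card < j) :
    nr Gr Gb j (F.erase C) = nr Gr Gb j F :=
  filter_erase_false (fun C => RB Gr Gb C ∧ j ≤ C.card) (fun h1 => absurd h1.2 (by omega))

theorem nr_erase_ge (j : ℕ) : nr Gr Gb j F ≤ nr Gr Gb j (F.erase C) + 1 := by
  by_cases hC : C ∈ F
  · by_cases h : RB Gr Gb C ∧ j ≤ C.card
    · exact (nr_erase_red j hC h.1 h.2).ge
    · have := filter_erase_false (F := F) (fun C => RB Gr Gb C ∧ j ≤ C.card) h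
      unfold nr
      omega
  · rw [erase_eq_of_notMem hC]
    exact Nat.le_succ _

theorem nr_mono {i j : ℕ} (h : i ≤ j) (F : Finset (Finset (Fin n))) :
    nr Gr Gb j F ≤ nr Gr Gb i F := by
  unfold nr
  apply card_le_card
  intro C hC
  rw [mem_filter] at hC ⊢
  exact ⟨hC.1, hC.2.1, h.trans hC.2.2⟩

theorem nr_nb (j : ℕ) : nr Gr Gb j F + nb Gr Gb F ≤ F.card := by
  unfold nr nb
  rw [← card_union_of_disjoint]
  · exact card_le_card (union_subset (filter_subset _ _) (filter_subset _ _))
  · rw [disjoint_left]
    intro D hD hD'
    rw [mem_filter] at hD hD'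
    exact hD.2.1.not_BB hD'.2

theorem nr_pos {j : ℕ} (h : 1 ≤ nr Gr Gb j F) : ∃ C ∈ F, RB Gr Gb C ∧ j ≤ C.card := by
  obtain ⟨C, hC⟩ := card_pos.1 h
  rw [mem_filter] at hC
  exact ⟨C, hC.1, hC.2⟩

theorem nb_pos (h : 1 ≤ nb Gr Gb F) : ∃ C ∈ F, BB Gr Gb C := by
  obtain ⟨C, hC⟩ := card_pos.1 h
  rw [mem_filter] at hC
  exact ⟨C, hC.1, hC.2⟩

end count

/-! ### packings -/

theorem Packable.mono {X Y : Finset V} {F : Finset (Finset (Fin n))}
    (h : Packable H Gr Gb Y F) (hX : X ⊆ Y) : Packable H Gr Gb X F := by
  obtain ⟨g, h1, h2⟩ := h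
  exact ⟨g, fun x hx => h1 x (hX hx),
    fun C hC => (h2 C hC).mono (filter_subset_filter _ hX)⟩

theorem packable_step {X Y T : Finset V} {F : Finset (Finset (Fin n))} {C : Finset (Fin n)}
    (hC : C ∈ F) (hX : X ⊆ T ∪ Y) (hT : Loc H Gr Gb T C) (hY : Packable H Gr Gb Y (F.erase C)) :
    Packable H Gr Gb X F := by
  have h1 := (packable_box hT).union hY (by
    rw [disjoint_singleton_left]
    exact notMem_erase C F)
  rw [← insert_eq, insert_erase hC] at h1
  exact Packable.mono h1 hX

theorem loc_bb {C : Finset (Fin n)} (hC : BB Gr Gb C) {x y : V} (hxy : ¬ H.Adj x y) (hne : x ≠ y) :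
    Loc H Gr Gb {x, y} C := by
  obtain ⟨p, q, hpq, hC', hb, _⟩ := hC
  exact loc_blue (p := p) (q := q) (by simp [hC']) (by simp [hC']) hb
    ((SimpleGraph.compl_adj _ _ _).2 ⟨hne, hxy⟩)

theorem loc_rb {C : Finset (Fin n)} (hC : RB Gr Gb C) {T : Finset V}
    (hT : ∀ x ∈ T, ∀ y ∈ T, x ≠ y → H.Adj x y) (hc : T.card ≤ C.card) : Loc H Gr Gb T C :=
  loc_red (fun x hx y hy hxy => (hC.2 x hx y hy hxy).1) hC.1 hT hc

section classes

variable {ι : Type} {J : Finset ι} {Q : ι → Finset V} {F : Finset (Finset (Fin n))}

/-- disjoint red cliques -/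
structure Cl (H : SimpleGraph V) (J : Finset ι) (Q : ι → Finset V) : Prop where
  clique : ∀ i ∈ J, ∀ x ∈ Q i, ∀ y ∈ Q i, x ≠ y → H.Adj x y
  disj : ∀ i ∈ J, ∀ j ∈ J, i ≠ j → Disjoint (Q i) (Q j)

theorem upd_sub (Q : ι → Finset V) {i : ι} {Y : Finset V} (hY : Y ⊆ Q i) (j : ι) :
    Function.update Q i Y j ⊆ Q j := by
  by_cases h : j = i
  · subst h
    rw [Function.update_self]
    exact hY
  · rw [Function.update_of_ne h]

theorem Cl.update (h : Cl H J Q) {i : ι} {Y : Finset V} (hY : Y ⊆ Q i) :
    Cl H J (Function.update Q i Y) :=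
  ⟨fun j hj x hx y hy => h.clique j hj x (upd_sub Q hY j hx) y (upd_sub Q hY j hy),
    fun j hj k hk hjk => disjoint_of_subset_left (upd_sub Q hY j)
      (disjoint_of_subset_right (upd_sub Q hY k) (h.disj j hj k hk hjk))⟩

theorem sum_upd (f : ℕ → ℕ) (Q : ι → Finset V) {i : ι} (hi : i ∈ J) (Y : Finset V) :
    ∑ j ∈ J, f ((Function.update Q i Y j).card) + f (Q i).card =
      ∑ j ∈ J, f (Q j).card + f Y.card := by
  rw [← add_sum_erase J (fun j => f ((Function.update Q i Y j).card)) hi,
    ← add_sum_erase J (fun j => f (Q j).card) hi]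
  have h1 : ∑ j ∈ J.erase i, f ((Function.update Q i Y j).card) =
      ∑ j ∈ J.erase i, f (Q j).card := by
    apply sum_congr rfl
    intro j hj
    rw [Function.update_of_ne (mem_erase.1 hj).1]
  rw [h1]
  simp only [Function.update_self]
  omega

theorem biUnion_upd {i : ι} {T : Finset V} (Q : ι → Finset V) :
    J.biUnion Q ⊆ T ∪ J.biUnion (Function.update Q i (Q i \ T)) := by
  intro x hx
  rw [mem_biUnion] at hx
  obtain ⟨j, hj, hx⟩ := hx
  rw [mem_union]
  by_cases hxT : x ∈ T
  · exact Or.inl hxT
  · right
    rw [mem_biUnion]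
    refine ⟨j, hj, ?_⟩
    by_cases h : j = i
    · subst h
      rw [Function.update_self, mem_sdiff]
      exact ⟨hx, hxT⟩
    · rw [Function.update_of_ne h]
      exact hx

/-- only pairs and singletons, in red boxes -/
theorem pk2 (N : ℕ) : ∀ {F : Finset (Finset (Fin n))} {Q : ι → Finset V},
    ∑ i ∈ J, (Q i).card ≤ N → (∀ C ∈ F, RB Gr Gb C) → Cl H J Q →
    ∑ i ∈ J, (Q i).card / 2 ≤ nr Gr Gb 2 F →
    ∑ i ∈ J, (Q i).card % 2 + ∑ i ∈ J, (Q i).card / 2 ≤ F.card →
    Packable H Gr Gb (J.biUnion Q) F := by
  induction N with
  | zero =>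
    intro F Q hN hF _ _ _
    have h1 : J.biUnion Q = ∅ := by
      rw [← card_eq_zero]
      have := card_biUnion_le (s := J) (t := Q)
      omega
    rw [h1]
    exact packable_empty (fun C hC => (hF C hC).1)
  | succ N ih =>
    intro F Q hN hF hQ h1 h2
    by_cases hbig : ∃ i ∈ J, 2 ≤ (Q i).card
    · obtain ⟨i, hi, hi2⟩ := hbig
      have h3 : (Q i).card / 2 ≤ ∑ i ∈ J, (Q i).card / 2 :=
        single_le_sum (f := fun i => (Q i).card / 2) (fun _ _ => Nat.zero_le _) hi
      obtain ⟨C, hC, hRC, hC2⟩ := nr_pos (Gr := Gr) (Gb := Gb) (F := F) (j := 2) (by omega)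
      obtain ⟨T, hT, hTc⟩ := exists_subset_card_eq hi2
      have hTq : (Q i \ T).card = (Q i).card - 2 := by rw [card_sdiff_of_subset hT, hTc]
      have e1 := sum_upd (J := J) (fun q => q) Q hi (Q i \ T)
      have e2 := sum_upd (J := J) (fun q => q / 2) Q hi (Q i \ T)
      have e3 := sum_upd (J := J) (fun q => q % 2) Q hi (Q i \ T)
      simp only [hTq] at e1 e2 e3
      have e4 := nr_erase_red 2 hC hRC hC2
      have e5 := card_erase' hC
      refine packable_step hC (biUnion_upd (i := i) (T := T) Q)
        (loc_rb hRC (fun x hx y hy => hQ.clique i hi x (hT hx) y (hT hy)) (by omega)) ?_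
      apply ih
      · omega
      · exact fun D hD => hF D (mem_of_mem_erase hD)
      · exact hQ.update sdiff_subset
      · omega
      · omega
    · push Not at hbig
      apply packable_inj (fun C hC => (hF C hC).1)
      refine card_biUnion_le.trans ?_
      have h3 : ∑ i ∈ J, (Q i).card = ∑ i ∈ J, (Q i).card % 2 := by
        apply sum_congr rfl
        intro i hi
        have := hbig i hi
        omega
      rw [h3]
      omega

/-- pairs, triples and singletons in red boxes, blue pairs in blue boxes -/
theorem pk3 (N : ℕ) : ∀ {F : Finset (Finset (Fin n))} {Q : ι → Finset V},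
    ∑ i ∈ J, (Q i).card + F.card ≤ N → (∀ C ∈ F, Box Gr Gb C) → Cl H J Q →
    (∀ i ∈ J, ∀ j ∈ J, i ≠ j → (Q i).card % 2 = 1 → (Q j).card % 2 = 1 →
      ∃ x ∈ Q i, ∃ y ∈ Q j, ¬ H.Adj x y) →
    ∑ i ∈ J, (Q i).card / 2 ≤ nr Gr Gb 2 F →
    ∑ i ∈ J, (if (Q i).card = 1 then 1 else 0) + ∑ i ∈ J, (Q i).card / 2 ≤ beta Gr Gb F →
    ∑ i ∈ J, (Q i).card % 2 + ∑ i ∈ J, (Q i).card / 2 ≤ beta Gr Gb F + nr Gr Gb 3 F →
    Packable H Gr Gb (J.biUnion Q) F := by
  induction N with
  | zero =>
    intro F Q hN hF _ _ _ _ _
    have h1 : J.biUnion Q = ∅ := by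
      rw [← card_eq_zero]
      have := card_biUnion_le (s := J) (t := Q)
      omega
    rw [h1]
    exact packable_empty (fun C hC => (hF C hC).nonempty)
  | succ N ih =>
    intro F Q hN hF hQ hb h1 h2 h3
    have hnn := nr_nb (Gr := Gr) (Gb := Gb) (F := F) 2
    by_cases hB : 1 ≤ nb Gr Gb F
    · obtain ⟨D, hD, hBD⟩ := nb_pos hB
      have eβ := beta_erase_blue hD hBD
      have er2 := nr_erase_blue (Gr := Gr) (Gb := Gb) (F := F) 2 hBD
      have er3 := nr_erase_blue (Gr := Gr) (Gb := Gb) (F := F) 3 hBD
      have ec := card_erase' hD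
      have hF' : ∀ C ∈ F.erase D, Box Gr Gb C := fun C hC => hF C (mem_of_mem_erase hC)
      have hβ' : nr Gr Gb 2 (F.erase D) ≤ beta Gr Gb (F.erase D) := by
        have := nr_nb (Gr := Gr) (Gb := Gb) (F := F.erase D) 2
        unfold beta
        omega
      -- two odd classes
      have key : ∀ i ∈ J, ∀ j ∈ J, i ≠ j → (Q i).card % 2 = 1 → (Q j).card % 2 = 1 →
          (∑ i ∈ J, (if (Q i).card = 1 then 1 else 0) ≤ (if (Q i).card = 1 then 1 else 0) +
            (if (Q j).card = 1 then 1 else 0) ∨ ((Q i).card = 1 ∧ (Q j).card = 1)) →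
          Packable H Gr Gb (J.biUnion Q) F := by
        intro i hi j hj hij hi1 hj1 hs
        obtain ⟨x, hx, y, hy, hxy⟩ := hb i hi j hj hij hi1 hj1
        have hne : x ≠ y := fun h => disjoint_left.1 (hQ.disj i hi j hj hij) hx (h ▸ hy)
        have hxc : (Q i \ {x}).card = (Q i).card - 1 := by
          rw [card_sdiff_of_subset (singleton_subset_iff.2 hx), card_singleton]
        have hyc : (Q j \ {y}).card = (Q j).card - 1 := by
          rw [card_sdiff_of_subset (singleton_subset_iff.2 hy), card_singleton]
        set Q1 := Function.update Q i (Q i \ {x}) with hQ1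
        have hQ1j : Q1 j = Q j := by rw [hQ1, Function.update_of_ne hij.symm]
        set Q2 := Function.update Q1 j (Q1 j \ {y}) with hQ2
        have hcl1 : Cl H J Q1 := hQ.update sdiff_subset
        have hcl2 : Cl H J Q2 := hcl1.update sdiff_subset
        have hsub : J.biUnion Q ⊆ {x, y} ∪ J.biUnion Q2 := by
          intro z hz
          have h4 := biUnion_upd (J := J) (i := i) (T := {x}) Q hz
          rw [mem_union] at h4 ⊢
          rcases h4 with h4 | h4
          · left
            rw [mem_singleton] at h4
            rw [h4]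
            exact mem_insert_self _ _
          · have h5 := biUnion_upd (J := J) (i := j) (T := {y}) Q1 h4
            rw [mem_union] at h5
            rcases h5 with h5 | h5
            · left
              exact mem_insert_of_mem h5
            · exact Or.inr h5
        have hsum : ∀ f : ℕ → ℕ, ∑ k ∈ J, f (Q2 k).card + f (Q i).card + f (Q j).card =
            ∑ k ∈ J, f (Q k).card + f ((Q i).card - 1) + f ((Q j).card - 1) := by
          intro f
          have e1 := sum_upd (J := J) f Q hi (Q i \ {x})
          have e2 := sum_upd (J := J) f Q1 hj (Q1 j \ {y})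
          rw [← hQ1, hxc] at e1
          rw [← hQ2, hQ1j, hyc] at e2
          omega
        have e1 := hsum (fun q => q)
        have e2 := hsum (fun q => q / 2)
        have e3 := hsum (fun q => q % 2)
        have e4 := hsum (fun q => if q = 1 then 1 else 0)
        have hodd : ∀ k ∈ J, (Q2 k).card % 2 = 1 → k ≠ i ∧ k ≠ j ∧ Q2 k = Q k := by
          intro k hk hk1
          have hki : k ≠ i := by
            rintro rfl
            rw [hQ2, Function.update_of_ne hij, hQ1, Function.update_self, hxc] at hk1
            omega
          have hkj : k ≠ j := by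
            rintro rfl
            rw [hQ2, Function.update_self, hQ1j, hyc] at hk1
            omega
          refine ⟨hki, hkj, ?_⟩
          rw [hQ2, Function.update_of_ne hkj, hQ1, Function.update_of_ne hki]
        refine packable_step hD hsub (loc_bb hBD hxy hne) ?_
        apply ih
        · omega
        · exact hF'
        · exact hcl2
        · intro k hk l hl hkl hk1 hl1
          obtain ⟨_, _, hk2⟩ := hodd k hk hk1
          obtain ⟨_, _, hl2⟩ := hodd l hl hl1
          rw [hk2] at hk1 ⊢
          rw [hl2] at hl1 ⊢
          exact hb k hk l hl hkl hk1 hl1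
        · omega
        · have h5 : (if (Q i).card - 1 = 1 then 1 else 0) = 0 := by
            rw [if_neg]
            omega
          have h6 : (if (Q j).card - 1 = 1 then 1 else 0) = 0 := by
            rw [if_neg]
            omega
          rw [h5, h6] at e4
          rcases hs with hs | ⟨hs1, hs2⟩
          · omega
          · rw [if_pos hs1, if_pos hs2] at e4
            omega
        · omega
      by_cases ho : ∃ i ∈ J, ∃ j ∈ J, i ≠ j ∧ (Q i).card % 2 = 1 ∧ (Q j).card % 2 = 1
      · -- choose singletons first
        by_cases hs2 : ∃ i ∈ J, ∃ j ∈ J, i ≠ j ∧ (Q i).card = 1 ∧ (Q j).card = 1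
        · obtain ⟨i, hi, j, hj, hij, hi1, hj1⟩ := hs2
          exact key i hi j hj hij (by omega) (by omega) (Or.inr ⟨hi1, hj1⟩)
        · push Not at hs2
          by_cases hs1 : ∃ i ∈ J, (Q i).card = 1
          · obtain ⟨i, hi, hi1⟩ := hs1
            have h4 : ∑ k ∈ J, (if (Q k).card = 1 then 1 else 0) = 1 := by
              rw [sum_eq_single_of_mem i hi]
              · rw [if_pos hi1]
              · intro k hk hki
                rw [if_neg]
                exact fun h => hs2 i hi k hk hki.symm hi1 h
            obtain ⟨k, hk, l, hl, hkl, hk1, hl1⟩ := ho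
            by_cases hik : i = k
            · subst hik
              apply key i hi l hl hkl hk1 hl1
              left
              rw [h4, if_pos hi1]
              omega
            · apply key i hi k hk hik (by omega) hk1
              left
              rw [h4, if_pos hi1]
              omega
          · push Not at hs1
            obtain ⟨k, hk, l, hl, hkl, hk1, hl1⟩ := ho
            apply key k hk l hl hkl hk1 hl1
            left
            have h4 : ∑ k ∈ J, (if (Q k).card = 1 then 1 else 0) = 0 := by
              apply sum_eq_zero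
              intro k hk
              rw [if_neg (hs1 k hk)]
            omega
      · push Not at ho
        by_cases ho1 : ∃ i ∈ J, (Q i).card % 2 = 1
        · -- one odd class
          obtain ⟨i, hi, hi1⟩ := ho1
          have h4 : ∀ k ∈ J, k ≠ i → (Q k).card % 2 = 0 := by
            intro k hk hki
            have := ho i hi k hk hki.symm hi1
            omega
          obtain ⟨x, hx⟩ := card_pos.1 (show 0 < (Q i).card by omega)
          have hxc : (Q i \ {x}).card = (Q i).card - 1 := by
            rw [card_sdiff_of_subset (singleton_subset_iff.2 hx), card_singleton]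
          have e1 := sum_upd (J := J) (fun q => q) Q hi (Q i \ {x})
          have e2 := sum_upd (J := J) (fun q => q / 2) Q hi (Q i \ {x})
          simp only [hxc] at e1 e2
          have h5 : ∀ k ∈ J, (Function.update Q i (Q i \ {x}) k).card % 2 = 0 := by
            intro k hk
            by_cases hki : k = i
            · subst hki
              rw [Function.update_self, hxc]
              omega
            · rw [Function.update_of_ne hki]
              exact h4 k hk hki
          refine packable_step hD (biUnion_upd (i := i) (T := {x}) Q) ?_ ?_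
          · exact loc_single (card_pos.1 (by rw [hBD.card]; omega)) x
          · apply ih
            · omega
            · exact hF'
            · exact hQ.update sdiff_subset
            · intro k hk l _ _ hk1
              have := h5 k hk
              omega
            · omega
            · have h6 : ∑ k ∈ J, (if (Function.update Q i (Q i \ {x}) k).card = 1 then 1 else 0) =
                  0 := by
                apply sum_eq_zero
                intro k hk
                have := h5 k hk
                rw [if_neg]
                omega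
              omega
            · have h6 : ∑ k ∈ J, (Function.update Q i (Q i \ {x}) k).card % 2 = 0 :=
                sum_eq_zero h5
              omega
        · push Not at ho1
          refine Packable.mono_boxes (I := F.erase D) ?_ (erase_subset _ _)
            (fun C hC => (hF C hC).nonempty)
          apply ih
          · omega
          · exact hF'
          · exact hQ
          · intro k hk l _ _ hk1
            exact absurd hk1 (ho1 k hk)
          · omega
          · have h6 : ∑ k ∈ J, (if (Q k).card = 1 then 1 else 0) = 0 := by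
              apply sum_eq_zero
              intro k hk
              have := ho1 k hk
              rw [if_neg]
              omega
            omega
          · have h6 : ∑ k ∈ J, (Q k).card % 2 = 0 := by
              apply sum_eq_zero
              intro k hk
              have := ho1 k hk
              omega
            omega
    · -- only red boxes
      have hB0 : nb Gr Gb F = 0 := by omega
      have hred : ∀ C ∈ F, RB Gr Gb C := by
        intro C hC
        rcases hF C hC with h | h
        · exact h
        · exfalso
          have : C ∈ F.filter (fun C => BB Gr Gb C) := mem_filter.2 ⟨hC, h⟩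
          unfold nb at hB0
          rw [card_eq_zero] at hB0
          rw [hB0] at this
          simp at this
      have hβ : beta Gr Gb F = F.card := by
        unfold beta
        omega
      by_cases h3' : 1 ≤ nr Gr Gb 3 F ∧ ∃ i ∈ J, 3 ≤ (Q i).card ∧ (Q i).card % 2 = 1
      · obtain ⟨hn3, i, hi, hi3, hi1⟩ := h3'
        obtain ⟨C, hC, hRC, hC3⟩ := nr_pos hn3
        obtain ⟨T, hT, hTc⟩ := exists_subset_card_eq hi3
        have hTq : (Q i \ T).card = (Q i).card - 3 := by rw [card_sdiff_of_subset hT, hTc]
        have e1 := sum_upd (J := J) (fun q => q) Q hi (Q i \ T)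
        have e2 := sum_upd (J := J) (fun q => q / 2) Q hi (Q i \ T)
        have e3 := sum_upd (J := J) (fun q => q % 2) Q hi (Q i \ T)
        have e4 := sum_upd (J := J) (fun q => if q = 1 then 1 else 0) Q hi (Q i \ T)
        simp only [hTq] at e1 e2 e3 e4
        have f1 := nr_erase_red 2 hC hRC (by omega)
        have f2 := nr_erase_red 3 hC hRC hC3
        have f3 := card_erase' hC
        have f4 := beta_erase_red hC hRC
        refine packable_step hC (biUnion_upd (i := i) (T := T) Q)
          (loc_rb hRC (fun x hx y hy => hQ.clique i hi x (hT hx) y (hT hy)) (by omega)) ?_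
        apply ih
        · omega
        · exact fun D hD => hF D (mem_of_mem_erase hD)
        · exact hQ.update sdiff_subset
        · intro k hk l hl hkl hk1 hl1
          have hne : ∀ k, (Function.update Q i (Q i \ T) k).card % 2 = 1 → k ≠ i := by
            intro k hk1 h4
            subst h4
            rw [Function.update_self, hTq] at hk1
            omega
          have hk' := hne k hk1
          have hl' := hne l hl1
          rw [Function.update_of_ne hk'] at hk1 ⊢
          rw [Function.update_of_ne hl'] at hl1 ⊢
          exact hb k hk l hl hkl hk1 hl1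
        · omega
        · have h5 : (if (Q i).card - 3 = 1 then 1 else 0) = 0 := by
            rw [if_neg]
            omega
          have h6 : (if (Q i).card = 1 then 1 else 0) = 0 := by
            rw [if_neg]
            omega
          rw [h5, h6] at e4
          omega
        · omega
      · apply pk2 _ le_rfl hred hQ h1
        rw [← hβ]
        by_cases hn3 : 1 ≤ nr Gr Gb 3 F
        · have h4 : ∀ i ∈ J, (Q i).card % 2 = (if (Q i).card = 1 then 1 else 0) := by
            intro i hi
            by_cases h5 : (Q i).card = 1
            · rw [if_pos h5]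
              omega
            · rw [if_neg h5]
              by_contra h6
              exact h3' ⟨hn3, i, hi, by omega, by omega⟩
          rw [sum_congr rfl h4]
          exact h2
        · omega

end classes

/-! ### matchings and covers -/

theorem HasMat.union' {B : SimpleGraph V} {X Y : Finset V} {a b : ℕ} (hX : HasMat B X a)
    (hY : HasMat B Y b) (hXY : Disjoint X Y) : HasMat B (X ∪ Y) (a + b) := by
  obtain ⟨S, hS, hSc⟩ := hX
  obtain ⟨T, hT, hTc⟩ := hY
  have hST : ∀ e ∈ S, ∀ f ∈ T, Disjoint e f := by
    intro e he f hf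
    have h1 : e ⊆ X := by
      intro z hz
      exact hS.biUnion_subset (mem_biUnion.2 ⟨e, he, hz⟩)
    have h2 : f ⊆ Y := by
      intro z hz
      exact hT.biUnion_subset (mem_biUnion.2 ⟨f, hf, hz⟩)
    exact disjoint_of_subset_left h1 (disjoint_of_subset_right h2 hXY)
  refine ⟨S ∪ T, ⟨?_, ?_⟩, ?_⟩
  · intro e he
    rw [mem_union] at he
    rcases he with he | he
    · obtain ⟨x, hx, y, hy, h⟩ := hS.1 e he
      exact ⟨x, mem_union_left _ hx, y, mem_union_left _ hy, h⟩
    · obtain ⟨x, hx, y, hy, h⟩ := hT.1 e he
      exact ⟨x, mem_union_right _ hx, y, mem_union_right _ hy, h⟩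
  · intro e he f hf hef
    rw [mem_union] at he hf
    rcases he with he | he <;> rcases hf with hf | hf
    · exact hS.2 e he f hf hef
    · exact hST e he f hf
    · exact (hST f hf e he).symm
    · exact hT.2 e he f hf hef
  · rw [card_union_of_disjoint, hSc, hTc]
    rw [disjoint_left]
    intro e he he'
    have h1 := hST e he e he'
    have h2 := hS.card_edge e he
    rw [disjoint_self_iff_empty] at h1
    rw [h1] at h2
    simp at h2

theorem hasMat_clique {B : SimpleGraph V} {X : Finset V}
    (h : ∀ x ∈ X, ∀ y ∈ X, x ≠ y → B.Adj x y) : HasMat B X (X.card / 2) := by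
  obtain ⟨T, hT, hc⟩ := exists_pairs (X.card / 2) (X := X) (by omega)
  refine ⟨T, ⟨?_, hT.2⟩, hc⟩
  intro e he
  obtain ⟨x, hx, y, hy, hxy, he'⟩ := hT.1 e he
  exact ⟨x, hx, y, hy, h x hx y hy hxy.ne, he'⟩

theorem hasMat_biUnion {ι : Type} {B : SimpleGraph V} (J : Finset ι) {Q : ι → Finset V} {c : ι → ℕ}
    (hd : ∀ i ∈ J, ∀ j ∈ J, i ≠ j → Disjoint (Q i) (Q j)) (h : ∀ i ∈ J, HasMat B (Q i) (c i)) :
    HasMat B (J.biUnion Q) (∑ i ∈ J, c i) := by
  induction J using Finset.induction_on with
  | empty => exact hasMat_zero
  | insert i J hi ih =>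
    rw [biUnion_insert, sum_insert hi]
    apply HasMat.union' (h i (mem_insert_self _ _))
    · exact ih (fun j hj k hk => hd j (mem_insert_of_mem hj) k (mem_insert_of_mem hk))
        (fun j hj => h j (mem_insert_of_mem hj))
    · rw [disjoint_biUnion_right]
      intro j hj
      exact hd i (mem_insert_self _ _) j (mem_insert_of_mem hj) (fun h' => hi (h' ▸ hj))

section cover

variable [Fintype V]

/-- two classes of a minimum cover contain a pair without edge -/
theorem min_cover {X : Finset V} {f : V → ℕ} (hf : CovOn H X f) (hc : (X.image f).card = th H X)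
    {i j : ℕ} (hi : i ∈ X.image f) (hj : j ∈ X.image f) (hij : i ≠ j) :
    ∃ x ∈ X, ∃ y ∈ X, f x = i ∧ f y = j ∧ ¬ H.Adj x y := by
  by_contra hcon
  push Not at hcon
  set f' : V → ℕ := fun z => if f z = j then i else f z with hf'
  have hcov : CovOn H X f' := by
    intro x hx y hy hxy h
    simp only [hf'] at h
    by_cases h1 : f x = j <;> by_cases h2 : f y = j
    · exact hf x hx y hy hxy (h1.trans h2.symm)
    · rw [if_pos h1, if_neg h2] at h
      exact (hcon y hy x hx h.symm h1).symm
    · rw [if_neg h1, if_pos h2] at h
      exact hcon x hx y hy h h2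
    · rw [if_neg h1, if_neg h2] at h
      exact hf x hx y hy hxy h
  have h1 : X.image f' ⊆ (X.image f).erase j := by
    intro k hk
    rw [mem_image] at hk
    obtain ⟨x, hx, rfl⟩ := hk
    rw [mem_erase]
    simp only [hf']
    by_cases h2 : f x = j
    · rw [if_pos h2]
      exact ⟨hij, hi⟩
    · rw [if_neg h2]
      exact ⟨h2, mem_image_of_mem f hx⟩
  have h2 := th_le hcov
  have h3 := card_le_card h1
  rw [card_erase_of_mem hj, hc] at h3
  have h4 : 0 < (X.image f).card := card_pos.2 ⟨j, hj⟩
  omega

/-- **packing**: cliques in red boxes and blue pairs -/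
theorem pk (N : ℕ) : ∀ {X : Finset V} {F : Finset (Finset (Fin n))}, X.card ≤ N →
    (∀ C ∈ F, Box Gr Gb C) → th H X ≤ beta Gr Gb F →
    (∀ k, k * th H X + X.card ≤ (k + 1) * beta Gr Gb F + nr Gr Gb (k + 2) F + k) →
    (∀ r, HasMat H X r → r ≤ nr Gr Gb 2 F) → Packable H Gr Gb X F := by
  induction N with
  | zero =>
    intro X F hX hF _ _ _
    have h1 : X = ∅ := by
      rw [← card_eq_zero]
      omega
    rw [h1]
    exact packable_empty (fun C hC => (hF C hC).nonempty)
  | succ N ih =>
    intro X F hX hF h0 hk hm
    by_cases hB : 1 ≤ nb Gr Gb F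
    · obtain ⟨D, hD, hBD⟩ := nb_pos hB
      by_cases hs : ∃ f : V → ℕ, CovOn H X f ∧ (X.image f).card = th H X ∧ ∃ x ∈ X, ∃ y ∈ X,
          x ≠ y ∧ (∀ z ∈ X, f z = f x → z = x) ∧ ∀ z ∈ X, f z = f y → z = y
      · obtain ⟨f, hf, hc, x, hx, y, hy, hxy, hx1, hy1⟩ := hs
        have hfxy : f x ≠ f y := fun h => hxy (hy1 x hx h)
        obtain ⟨x', hx', y', hy', hfx, hfy, hadj⟩ := min_cover hf hc (mem_image_of_mem f hx)
          (mem_image_of_mem f hy) hfxy
        rw [hx1 x' hx' hfx, hy1 y' hy' hfy] at hadj
        have hsub : ({x, y} : Finset V) ⊆ X := by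
          intro z hz
          rw [mem_insert, mem_singleton] at hz
          rcases hz with rfl | rfl
          · exact hx
          · exact hy
        have hcard : (X \ {x, y}).card + 2 = X.card := by
          rw [card_sdiff_of_subset hsub, card_pair hxy]
          have := card_le_card hsub
          rw [card_pair hxy] at this
          omega
        have hth : th H (X \ {x, y}) + 2 ≤ th H X := by
          have h1 : (X \ {x, y}).image f ⊆ ((X.image f).erase (f x)).erase (f y) := by
            intro k hk
            rw [mem_image] at hk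
            obtain ⟨z, hz, rfl⟩ := hk
            rw [mem_sdiff, mem_insert, mem_singleton] at hz
            push Not at hz
            rw [mem_erase, mem_erase]
            exact ⟨fun h => hz.2.2 (hy1 z hz.1 h), fun h => hz.2.1 (hx1 z hz.1 h),
              mem_image_of_mem f hz.1⟩
          have h2 := card_le_card h1
          have h3 := th_le (hf.mono (sdiff_subset : X \ {x, y} ⊆ X))
          have h4 : f y ∈ (X.image f).erase (f x) :=
            mem_erase.2 ⟨hfxy.symm, mem_image_of_mem f hy⟩
          have h5 : f x ∈ X.image f := mem_image_of_mem f hx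
          have h6 := card_pos.2 ⟨_, h4⟩
          have h7 := card_erase_of_mem h4
          have h8 := card_erase_of_mem h5
          omega
        have eβ := beta_erase_blue hD hBD
        refine packable_step hD (T := {x, y}) (Y := X \ {x, y}) ?_ (loc_bb hBD hadj hxy) ?_
        · rw [union_sdiff_of_subset hsub]
        · apply ih
          · omega
          · exact fun C hC => hF C (mem_of_mem_erase hC)
          · omega
          · intro k
            rw [nr_erase_blue _ hBD]
            have h1 := hk k
            have h2 : k * th H (X \ {x, y}) + 2 * k ≤ k * th H X := by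
              have := Nat.mul_le_mul_left k hth
              linarith [Nat.mul_add k (th H (X \ {x, y})) 2]
            have h3 : (k + 1) * beta Gr Gb F = (k + 1) * beta Gr Gb (F.erase D) + 2 * k + 2 := by
              rw [← eβ]
              ring
            omega
          · intro r hr
            rw [nr_erase_blue _ hBD]
            exact hm r (hr.sub sdiff_subset)
      · -- at most one singleton in every minimum cover
        obtain ⟨f, hf, hc⟩ := th_spec H X
        set Q : ℕ → Finset V := fun i => X.filter (fun x => f x = i) with hQ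
        have hcl : Cl H (X.image f) Q := by
          refine ⟨?_, ?_⟩
          · intro i _ x hx y hy hxy
            simp only [hQ, mem_filter] at hx hy
            exact hf x hx.1 y hy.1 hxy (hx.2.trans hy.2.symm)
          · intro i _ j _ hij
            rw [disjoint_left]
            intro x hx hy
            simp only [hQ, mem_filter] at hx hy
            exact hij (hx.2.symm.trans hy.2)
        have hXu : (X.image f).biUnion Q = X := by
          ext x
          rw [mem_biUnion]
          constructor
          · rintro ⟨i, _, hx⟩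
            simp only [hQ, mem_filter] at hx
            exact hx.1
          · intro hx
            exact ⟨f x, mem_image_of_mem f hx, mem_filter.2 ⟨hx, rfl⟩⟩
        have hmat : HasMat H X (∑ i ∈ X.image f, (Q i).card / 2) := by
          have h1 := hasMat_biUnion (X.image f) hcl.disj
            (fun i hi => hasMat_clique (hcl.clique i hi))
          rwa [hXu] at h1
        have hp := hm _ hmat
        have hn : X.card = ∑ i ∈ X.image f, (Q i).card := by
          have hn' := card_biUnion hcl.disj
          rwa [hXu] at hn'
        have hn2 : ∑ i ∈ X.image f, (Q i).card = 2 * ∑ i ∈ X.image f, (Q i).card / 2 +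
            ∑ i ∈ X.image f, (Q i).card % 2 := by
          rw [mul_sum, ← sum_add_distrib]
          apply sum_congr rfl
          intro i _
          omega
        have ho : ∑ i ∈ X.image f, (Q i).card % 2 ≤ (X.image f).card := by
          rw [card_eq_sum_ones]
          apply sum_le_sum
          intro i _
          omega
        have hsing : ∀ i ∈ X.image f, (Q i).card = 1 → ∃ x ∈ X, f x = i ∧
            ∀ z ∈ X, f z = f x → z = x := by
          intro i _ h1
          obtain ⟨x, hx⟩ := card_eq_one.1 h1
          have hx2 : x ∈ Q i := by rw [hx]; exact mem_singleton_self x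
          simp only [hQ, mem_filter] at hx2
          refine ⟨x, hx2.1, hx2.2, ?_⟩
          intro z hz hzx
          have : z ∈ Q i := by
            simp only [hQ, mem_filter]
            exact ⟨hz, hzx.trans hx2.2⟩
          rw [hx, mem_singleton] at this
          exact this
        have ho1 : ∑ i ∈ X.image f, (if (Q i).card = 1 then 1 else 0) ≤ 1 := by
          rw [← card_filter, card_le_one]
          intro i hi j hj
          rw [mem_filter] at hi hj
          by_contra hij
          obtain ⟨x, hx, hxi, hx1⟩ := hsing i hi.1 hi.2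
          obtain ⟨y, hy, hyj, hy1⟩ := hsing j hj.1 hj.2
          apply hs
          refine ⟨f, hf, hc, x, hx, y, hy, ?_, hx1, hy1⟩
          rintro rfl
          exact hij (hxi.symm.trans hyj)
        have hnn := nr_nb (Gr := Gr) (Gb := Gb) (F := F) 2
        have h1 : 1 * th H X + X.card ≤ (1 + 1) * beta Gr Gb F + nr Gr Gb 3 F + 1 := hk 1
        rw [← hXu]
        apply pk3 _ le_rfl hF hcl
        · intro i hi j hj hij _ _
          obtain ⟨x, hx, y, hy, hxi, hyj, hadj⟩ := min_cover hf hc hi hj hij
          refine ⟨x, ?_, y, ?_, hadj⟩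
          · simp only [hQ, mem_filter]
            exact ⟨hx, hxi⟩
          · simp only [hQ, mem_filter]
            exact ⟨hy, hyj⟩
        · exact hp
        · unfold beta
          omega
        · omega
    · -- only red boxes
      have hB0 : nb Gr Gb F = 0 := by omega
      have hred : ∀ C ∈ F, RB Gr Gb C := by
        intro C hC
        rcases hF C hC with h | h
        · exact h
        · exfalso
          have : C ∈ F.filter (fun C => BB Gr Gb C) := mem_filter.2 ⟨hC, h⟩
          unfold nb at hB0
          rw [card_eq_zero] at hB0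
          rw [hB0] at this
          simp at this
      have hβ : beta Gr Gb F = F.card := by
        unfold beta
        omega
      rcases X.eq_empty_or_nonempty with rfl | hXne
      · exact packable_empty (fun C hC => (hF C hC).nonempty)
      obtain ⟨f, hf, hc⟩ := th_spec H X
      apply packable_red F.card rfl (fun C hC => (hred C hC).1)
        (fun C hC x hx y hy hxy => ((hred C hC).2 x hx y hy hxy).1) (c := f)
        (fun x hx y hy hxy h => hf x hx y hy hxy h)
      intro k hk1
      obtain ⟨k, rfl⟩ : ∃ k', k = k' + 1 := ⟨k - 1, by omega⟩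
      have h1 := hk k
      rw [hβ] at h1
      have h2 : nr Gr Gb (k + 2) F = (F.filter (fun C => k + 1 < C.card)).card := by
        unfold nr
        congr 1
        apply filter_congr
        intro C hC
        exact ⟨fun h => h.2, fun h => ⟨hred C hC, h⟩⟩
      rw [h2] at h1
      have hc2 : (@Finset.image V ℕ (fun a b => Classical.propDecidable (a = b)) f X).card =
          th H X := by
        refine (congrArg Finset.card ?_).trans hc
        ext i
        exact (@mem_image V ℕ (fun a b => Classical.propDecidable (a = b)) f X i).trans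
          mem_image.symm
      rw [hc2]
      have h3 : ((k * th H X + X.card : ℕ) : ℤ) ≤
          (((k + 1) * F.card + (F.filter (fun C => k + 1 < C.card)).card + k : ℕ) : ℤ) := by
        exact_mod_cast h1
      push_cast at h3 ⊢
      linarith

end cover

end HII

end Pool.Agent.Lib.MP_a05470_co
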