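import Pool.Agent.Lib.MP_a05470_co.TF.HostL
import Pool.Agent.Lib.MP_a05470_co.TF.PK

/-!
# The normal form for cases (B) and (C), from a critical set
-/

set_option autoImplicit false
set_option linter.unusedSectionVars false

namespace Pool.Agent.Lib.MP_a05470_co

open Finset Classical JT

namespace NB

/-- the Dulmage-Mendelsohn decomposition -/
theorem dm {α β : Type} [DecidableEq α] [DecidableEq β] [Nonempty α] [Nonempty β]
    (U0 : Finset α) (Tt : Finset β)
    (E : α → β → Prop) :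
    ∃ (U : Finset α) (T : Finset β) (f : α → β) (f' : β → α), U ⊆ U0 ∧ T ⊆ Tt ∧
      (∀ u ∈ U0, u ∉ U → ∀ t ∈ T, ¬ E u t) ∧ (∀ u ∈ U, f u ∈ T ∧ E u (f u)) ∧
      Set.InjOn f U ∧ (∀ t ∈ Tt \ T, f' t ∈ U0 \ U ∧ E (f' t) t) ∧
      Set.InjOn f' (Tt \ T : Finset β) := by
  set N : Finset β → Finset α := fun W => U0.filter (fun u => ∃ t ∈ W, E u t) with hN
  obtain ⟨T, hT, hmax⟩ := exists_max_image Tt.powerset (fun W => W.card + (U0 \ N W).card)
    ⟨∅, empty_mem_powerset _⟩
  rw [mem_powerset] at hT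
  have hNU : ∀ W, N W ⊆ U0 := fun W => filter_subset _ _
  have hcardN : ∀ W, (U0 \ N W).card + (N W).card = U0.card := fun W => by
    rw [card_sdiff_add_card, union_eq_left.2 (hNU W)]
  obtain ⟨f, hf, hf'⟩ : ∃ f : {x // x ∈ N T} → β, Function.Injective f ∧
      ∀ x, f x ∈ T.filter (fun t => E x.1 t) := by
    apply (Finset.all_card_le_biUnion_card_iff_exists_injective
      (fun x : {x // x ∈ N T} => T.filter (fun t => E x.1 t))).1
    intro Q
    set B := Q.biUnion (fun x : {x // x ∈ N T} => T.filter (fun t => E x.1 t)) with hB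
    set Q' := Q.map ⟨Subtype.val, Subtype.val_injective⟩ with hQ'
    have hQc : Q'.card = Q.card := card_map _
    have hQP : Q' ⊆ N T := by
      intro x hx
      rw [hQ', mem_map] at hx
      obtain ⟨y, _, rfl⟩ := hx
      exact y.2
    have hBS : B ⊆ T := by
      intro C hC
      rw [hB, mem_biUnion] at hC
      obtain ⟨x, _, hC⟩ := hC
      exact (mem_filter.1 hC).1
    have h1 : (T \ B).card + (U0 \ N (T \ B)).card ≤ T.card + (U0 \ N T).card :=
      hmax (T \ B) (mem_powerset.2 (sdiff_subset.trans hT))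
    have h2 : N (T \ B) ⊆ N T \ Q' := by
      intro v hv
      rw [hN, mem_filter] at hv
      obtain ⟨hvU, t, ht, hvt⟩ := hv
      rw [mem_sdiff] at ht ⊢
      refine ⟨mem_filter.2 ⟨hvU, t, ht.1, hvt⟩, fun hv => ht.2 ?_⟩
      rw [hQ', mem_map] at hv
      obtain ⟨y, hy, rfl⟩ := hv
      rw [hB, mem_biUnion]
      exact ⟨y, hy, mem_filter.2 ⟨ht.1, hvt⟩⟩
    have h3 := card_le_card h2
    have h4 : (N T \ Q').card + Q'.card = (N T).card := by
      rw [card_sdiff_add_card, union_eq_left.2 hQP]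
    have h5 : (T \ B).card + B.card = T.card := by
      rw [card_sdiff_add_card, union_eq_left.2 hBS]
    have h6 := hcardN (T \ B)
    have h7 := hcardN T
    omega
  obtain ⟨f', hg, hg'⟩ : ∃ f' : {t // t ∈ Tt \ T} → α, Function.Injective f' ∧
      ∀ t, f' t ∈ (U0 \ N T).filter (fun u => E u t.1) := by
    apply (Finset.all_card_le_biUnion_card_iff_exists_injective
      (fun t : {t // t ∈ Tt \ T} => (U0 \ N T).filter (fun u => E u t.1))).1
    intro Y
    set B := Y.biUnion (fun t : {t // t ∈ Tt \ T} => (U0 \ N T).filter (fun u => E u t.1)) with hB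
    set Y' := Y.map ⟨Subtype.val, Subtype.val_injective⟩ with hY'
    have hYc : Y'.card = Y.card := card_map _
    have hYT : Y' ⊆ Tt \ T := by
      intro x hx
      rw [hY', mem_map] at hx
      obtain ⟨y, _, rfl⟩ := hx
      exact y.2
    have hYd : Disjoint T Y' := by
      rw [Finset.disjoint_left]
      intro t ht ht'
      exact (mem_sdiff.1 (hYT ht')).2 ht
    have h1 : (T ∪ Y').card + (U0 \ N (T ∪ Y')).card ≤ T.card + (U0 \ N T).card :=
      hmax (T ∪ Y') (mem_powerset.2 (union_subset hT (hYT.trans sdiff_subset)))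
    rw [card_union_of_disjoint hYd] at h1
    have h2 : N (T ∪ Y') ⊆ N T ∪ B := by
      intro v hv
      rw [hN, mem_filter] at hv
      obtain ⟨hvU, t, ht, hvt⟩ := hv
      rw [mem_union] at ht ⊢
      by_cases h3 : v ∈ N T
      · exact Or.inl h3
      · right
        rcases ht with ht | ht
        · exact absurd (mem_filter.2 ⟨hvU, t, ht, hvt⟩) h3
        · rw [hY', mem_map] at ht
          obtain ⟨y, hy, rfl⟩ := ht
          rw [hB, mem_biUnion]
          exact ⟨y, hy, mem_filter.2 ⟨mem_sdiff.2 ⟨hvU, h3⟩, hvt⟩⟩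
    have h3 := (card_le_card h2).trans (card_union_le _ _)
    have h6 := hcardN (T ∪ Y')
    have h7 := hcardN T
    omega
  refine ⟨N T, T, fun u => if hu : u ∈ N T then f ⟨u, hu⟩ else Classical.choice inferInstance,
    fun t => if ht : t ∈ Tt \ T then f' ⟨t, ht⟩ else Classical.choice inferInstance, hNU T, hT,
    ?_, ?_, ?_, ?_, ?_⟩
  · intro u hu hun t ht hut
    exact hun (mem_filter.2 ⟨hu, t, ht, hut⟩)
  · intro u hu
    simp only [dif_pos hu]
    exact mem_filter.1 (hf' ⟨u, hu⟩)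
  · intro u hu v hv huv
    rw [mem_coe] at hu hv
    simp only [dif_pos hu, dif_pos hv] at huv
    exact congrArg Subtype.val (hf huv)
  · intro t ht
    simp only [dif_pos ht]
    exact mem_filter.1 (hg' ⟨t, ht⟩)
  · intro u hu v hv huv
    rw [mem_coe] at hu hv
    simp only [dif_pos hu, dif_pos hv] at huv
    exact congrArg Subtype.val (hg huv)

variable {V : Type} [Fintype V] {R : SimpleGraph V}

/-- the tight components -/
noncomputable def Tt (R : SimpleGraph V) (X : Finset V) : Finset (Finset V) :=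
  (cmps R X).filter (fun C => C.card + 1 = 2 * th R C)

theorem Tt_piece {X C : Finset V} (hX : Crit R X) (hC : C ∈ Tt R X) :
    TightPiece R C (th R C - 1) := by
  unfold Tt at hC
  rw [mem_filter] at hC
  obtain ⟨c, h1, h2, h3⟩ := cmps_data hX hC.1
  have hc : th R C - 1 = c := by omega
  rw [hc]
  exact ⟨by omega, cmps_preconn hC.1, cmps_crit hX hC.1, h1, h3⟩

/-- the number of tight components -/
theorem card_Tt {X : Finset V} (hX : Crit R X) : 2 * th R X ≤ X.card + (Tt R X).card := by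
  have hcov : X = (cmps R X).biUnion id := by
    ext x
    rw [mem_biUnion]
    constructor
    · exact fun hx => cmps_cover hx
    · rintro ⟨C, hC, hx⟩
      exact cmps_sub hC hx
  have h1 : X.card = ∑ C ∈ cmps R X, C.card := by
    conv_lhs => rw [hcov]
    exact card_biUnion (fun C hC D hD hCD => (cmps_sep hC hD hCD).1)
  have h2 : th R X = ∑ C ∈ cmps R X, th R C := by
    conv_lhs => rw [hcov]
    exact th_biUnion (R := R) (cmps R X) id (fun C hC D hD hCD => cmps_sep hC hD hCD)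
  rw [h1, h2, mul_sum]
  unfold Tt
  rw [card_filter, ← sum_add_distrib]
  apply sum_le_sum
  intro C hC
  obtain ⟨c, h3, h4, _⟩ := cmps_data hX hC
  split_ifs with h5
  · omega
  · omega

/-- The normal form (N) with an explicit remainder. -/
theorem nf' {a g : ℕ} {T : Finset (Finset V)} {U : Finset V} {c : Finset V → ℕ}
    (h : Setup R a g T U c) (hV : Fintype.card V = 2 * a + g + 1)
    (f : {x // x ∈ U} → Finset V) (hinj : Function.Injective f)
    (hf : ∀ x, f x ∈ T ∧ ∃ y ∈ f x, R.Adj x.1 y) {G : Finset (Finset V)} (hGT : G ⊆ T)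
    (hGc : G.card = g) (hGf : ∀ C ∈ G, ∀ x, f x ≠ C) {C0 : Finset V} (hC0 : C0 ∈ T)
    (hC0G : C0 ∉ G) (hC0f : ∀ x, f x ≠ C0) :
    ∃ (A : ℕ) (RA : Finset V) (u : Fin U.card → V) (P : Fin U.card ⊕ Fin g → Finset V)
      (c' : Fin U.card ⊕ Fin g → ℕ), NF R a g A U.card RA u P c' ∧
      RA = (univ \ U) \ (univ.image f ∪ G).biUnion id ∧
      ∀ j, ∃ C ∈ G, c' (Sum.inr j) = c C := by
  let eU : Fin U.card ≃ {x // x ∈ U} := (Finset.equivFinOfCardEq rfl).symm
  let eG : Fin g ≃ {x // x ∈ G} := (Finset.equivFinOfCardEq hGc).symm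
  set P : Fin U.card ⊕ Fin g → Finset V := Sum.elim (fun i => f (eU i)) (fun j => (eG j).1)
    with hP
  have hPinj : Function.Injective P := by
    rintro (i | i) (j | j) hij
    · exact congrArg Sum.inl (eU.injective (hinj hij))
    · exact absurd hij (hGf _ (eG j).2 (eU i))
    · exact absurd hij.symm (hGf _ (eG i).2 (eU j))
    · exact congrArg Sum.inr (eG.injective (Subtype.ext hij))
  have hPT : ∀ j, P j ∈ T := by
    rintro (i | i)
    · exact (hf (eU i)).1
    · exact hGT (eG i).2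
  have hPC0 : ∀ j, P j ≠ C0 := by
    rintro (i | i) h1
    · exact hC0f _ h1
    · exact hC0G (by rw [← h1]; exact (eG i).2)
  set S : Finset (Finset V) := univ.image P with hS
  have hSeq : S = univ.image f ∪ G := by
    ext C
    rw [hS, mem_image, mem_union, mem_image]
    constructor
    · rintro ⟨j | j, _, rfl⟩
      · exact Or.inl ⟨eU j, mem_univ _, rfl⟩
      · exact Or.inr (eG j).2
    · rintro (⟨x, _, rfl⟩ | hC)
      · exact ⟨Sum.inl (eU.symm x), mem_univ _, by simp [hP]⟩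
      · exact ⟨Sum.inr (eG.symm ⟨C, hC⟩), mem_univ _, by simp [hP]⟩
  have hST : S ⊆ T := by
    intro C hC
    rw [hS, mem_image] at hC
    obtain ⟨j, _, rfl⟩ := hC
    exact hPT j
  have hC0S : C0 ∉ S := by
    rw [hS, mem_image]
    rintro ⟨j, _, h1⟩
    exact hPC0 j h1
  have hsum : ∀ F : Finset V → ℕ, ∑ C ∈ S, F C = ∑ j, F (P j) := by
    intro F
    rw [hS, sum_image (fun i _ j _ h => hPinj h)]
  have hconst : ∑ _j : Fin U.card ⊕ Fin g, 1 = U.card + g := by
    rw [sum_const, card_univ, Fintype.card_sum, Fintype.card_fin, Fintype.card_fin, smul_eq_mul,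
      mul_one]
  have hle := h.sum_lt hST hC0 hC0S
  have hth := h.th_sdiff hST
  rw [hsum, sum_add_distrib, hconst] at hle hth
  have hcd := h.card_pieces hST
  rw [hsum, sum_add_distrib, hconst, ← mul_sum] at hcd
  rw [← hSeq]
  set RA : Finset V := (univ \ U) \ S.biUnion id with hRA
  have hRAc : RA.card = 2 * (a - U.card - ∑ j, c (P j)) + 1 := by
    have h1 : RA.card + (S.biUnion id).card = (univ \ U).card := by
      rw [hRA, card_sdiff_add_card, union_eq_left.2 (h.sub_rest hST)]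
    have h2 : (univ \ U).card + U.card = 2 * a + g + 1 := by
      rw [card_sdiff_add_card, union_eq_left.2 (subset_univ U), card_univ, hV]
    omega
  refine ⟨a - U.card - ∑ j, c (P j), RA, fun i => (eU i).1, P, fun j => c (P j), ⟨?_, ?_, ?_, ?_,
    ?_, ?_, ?_, ?_, hRAc, ?_, ?_⟩, rfl, fun j => ⟨(eG j).1, (eG j).2, rfl⟩⟩
  · exact fun i j h1 => eU.injective (Subtype.ext h1)
  · intro v
    by_cases h1 : v ∈ U
    · right; left
      exact ⟨eU.symm ⟨v, h1⟩, by simp⟩
    · by_cases h2 : v ∈ S.biUnion id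
      · right; right
        rw [mem_biUnion] at h2
        obtain ⟨C, hC, h2⟩ := h2
        rw [hS, mem_image] at hC
        obtain ⟨j, _, rfl⟩ := hC
        exact ⟨j, h2⟩
      · exact Or.inl (mem_sdiff.2 ⟨mem_sdiff.2 ⟨mem_univ _, h1⟩, h2⟩)
  · intro i h1
    exact (mem_sdiff.1 (mem_sdiff.1 h1).1).2 (eU i).2
  · intro i j h1
    exact disjoint_left.1 (h.disjU _ (hPT j)) (eU i).2 h1
  · exact fun i j hij => h.sep (hPT i) (hPT j) (fun h' => hij (hPinj h'))
  · intro j
    have h1 := h.sep_rest hST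
    have h2 : P j ⊆ S.biUnion id :=
      subset_biUnion_of_mem id (mem_image_of_mem P (mem_univ j))
    refine ⟨disjoint_of_subset_right h2 h1.1.symm, fun x hx y hy hadj => ?_⟩
    exact h1.2 y (h2 hy) x hx hadj.symm
  · exact fun j => h.piece _ (hPT j)
  · intro i
    obtain ⟨_, y, hy, hadj⟩ := hf (eU i)
    exact ⟨y, hy, hadj⟩
  · omega
  · omega

/-- a matching from two injective maps -/
theorem hasMat_of_maps {α : Type} {B : SimpleGraph V} {p q : α → V} {S : Finset α} {X : Finset V}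
    (hp : Set.InjOn p S) (hq : Set.InjOn q S) (hpq : ∀ i ∈ S, ∀ j ∈ S, p i ≠ q j)
    (hB : ∀ i ∈ S, B.Adj (p i) (q i)) (hX : ∀ i ∈ S, p i ∈ X ∧ q i ∈ X) :
    HasMat B X S.card := by
  refine ⟨S.image (fun i => {p i, q i}), ⟨?_, ?_⟩, ?_⟩
  · intro e he
    rw [mem_image] at he
    obtain ⟨i, hi, rfl⟩ := he
    exact ⟨p i, (hX i hi).1, q i, (hX i hi).2, hB i hi, rfl⟩
  · intro e he e' he' hne
    rw [mem_image] at he he'
    obtain ⟨i, hi, rfl⟩ := he
    obtain ⟨j, hj, rfl⟩ := he'
    have hij : i ≠ j := fun h => hne (by rw [h])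
    rw [Finset.disjoint_left]
    intro v hv hv'
    rw [mem_insert, mem_singleton] at hv hv'
    rcases hv with rfl | rfl <;> rcases hv' with h1 | h1
    · exact hij (hp hi hj h1)
    · exact hpq i hi j hj h1
    · exact hpq j hj i hi h1.symm
    · exact hij (hq hi hj h1)
  · apply card_image_of_injOn
    intro i hi j hj hij
    have h1 : p i ∈ ({p j, q j} : Finset V) := by
      have h2 : ({p i, q i} : Finset V) = {p j, q j} := hij
      rw [← h2]
      exact mem_insert_self _ _
    rw [mem_insert, mem_singleton] at h1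
    rcases h1 with h1 | h1
    · exact hp hi hj h1
    · exact absurd h1 (hpq i hi j hj)

/-- a mixture from a red and a blue matching of disjoint sets -/
theorem hasMix_of {X X1 X2 : Finset V} {j l : ℕ} (h1 : HasMat R X1 l) (h2 : HasMat Rᶜ X2 j)
    (hd : Disjoint X1 X2) (h1X : X1 ⊆ X) (h2X : X2 ⊆ X) : HasMix R X j l := by
  obtain ⟨Tr, hTr, hTrc⟩ := h1
  obtain ⟨Tb, hTb, hTbc⟩ := h2
  refine ⟨Tb, Tr, hTb.mono_set h2X, hTr.mono_set h1X, ?_, hTbc, hTrc⟩
  intro e he f hf
  exact (disjoint_of_subset_left (hTr.subset_of_mem hf)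
    (disjoint_of_subset_right (hTb.subset_of_mem he) hd)).symm

/-- **The normal form for cases (B) and (C).** -/
theorem exists_NFB {a g : ℕ} {X : Finset V} (hV : Fintype.card V = 2 * a + g + 1)
    (hX : Crit R X) (hthX : th R X = a + g + 1) (hth : th R univ = a + g + 1) :
    ∃ (s i0 A : ℕ) (RA : Finset V) (u : Fin s → V) (P : Fin s ⊕ Fin g → Finset V)
      (c : Fin s ⊕ Fin g → ℕ), NF R a g A s RA u P c ∧ i0 ≤ A ∧ HasMix R RA (A - i0) i0 ∧
      ((∃ j, c (Sum.inr j) ≠ 0) → i0 + 2 ≤ A ∧ HasMat R RA 2) ∧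
      ∃ (M : Finset V) (f : V → Finset V), M.card = s + i0 ∧ (∀ u ∈ M, u ∉ X) ∧
        Set.InjOn f M ∧ ∀ u ∈ M, f u ∈ Tt R X ∧ ∃ h ∈ f u, R.Adj u h := by
  have hne : Nonempty V := by
    rw [← Fintype.card_pos_iff]
    omega
  set U0 : Finset V := univ \ X with hU0
  have hU0c : U0.card + X.card = 2 * a + g + 1 := by
    rw [hU0, card_sdiff_add_card, union_eq_left.2 (subset_univ X), card_univ, hV]
  have hTtc := card_Tt hX
  rw [hthX] at hTtc
  obtain ⟨U, T, f, f', hUU0, hTT, hno, hf1, hf2, hf'1, hf'2⟩ := dm U0 (Tt R X)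
    (fun u C => ∃ h ∈ C, R.Adj u h)
  set c : Finset V → ℕ := fun C => th R C - 1 with hc
  have hcm : ∀ C ∈ Tt R X, C ∈ cmps R X := fun C hC => (mem_filter.1 hC).1
  have hCX : ∀ C ∈ Tt R X, C ⊆ X := fun C hC => cmps_sub (hcm C hC)
  have hpiece : ∀ C ∈ Tt R X, TightPiece R C (c C) := fun C hC => Tt_piece hX hC
  have hUX : ∀ u ∈ U0, u ∉ X := fun u hu => (mem_sdiff.1 hu).2
  have hf'card : (Tt R X \ T).card ≤ (U0 \ U).card :=
    card_le_card_of_injOn f' (fun t ht => (hf'1 t (by exact_mod_cast ht)).1) hf'2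
  have hTc : (Tt R X \ T).card + T.card = (Tt R X).card := card_sdiff_add_card_eq_card hTT
  have hUc : (U0 \ U).card + U.card = U0.card := card_sdiff_add_card_eq_card hUU0
  have hS : Setup R a g T U c := by
    constructor
    · exact fun C hC => hpiece C (hTT hC)
    · exact fun C hC D hD hCD => (cmps_sep (hcm C (hTT hC)) (hcm D (hTT hD)) hCD).1
    · intro C hC
      rw [Finset.disjoint_left]
      exact fun u hu hu' => hUX u (hUU0 hu) (hCX C (hTT hC) hu')
    · intro C hC x hx y hxy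
      by_cases hy : y ∈ X
      · exact Or.inl (cmps_closed (hcm C (hTT hC)) hx hy hxy)
      · right
        by_contra hyU
        exact hno y (mem_sdiff.2 ⟨mem_univ _, hy⟩) hyU C hC ⟨x, hx, hxy.symm⟩
    · intro Q hQ
      apply card_le_card_of_injOn f
      · intro u hu
        obtain ⟨h1, x, hx, hux⟩ := hf1 u (hQ hu)
        exact mem_filter.2 ⟨h1, u, hu, x, hx, hux⟩
      · exact hf2.mono (by exact_mod_cast hQ)
    · omega
    · apply le_antisymm
      · rw [← hth]
        exact th_mono (subset_univ _)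
      · rw [← hthX]
        apply th_mono
        intro x hx
        exact mem_sdiff.2 ⟨mem_univ _, fun h => hUX x (hUU0 h) hx⟩
  -- the unmatched pieces
  set Un := T \ U.image f with hUn
  have hfT : U.image f ⊆ T := by
    intro C hC
    rw [mem_image] at hC
    obtain ⟨u, hu, rfl⟩ := hC
    exact (hf1 u hu).1
  have hUnc : Un.card + U.card = T.card := by
    have h1 : Un.card + (U.image f).card = T.card := card_sdiff_add_card_eq_card hfT
    rwa [card_image_of_injOn hf2] at h1
  set N := (U0 \ U) \ (Tt R X \ T).image f' with hN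
  have hf'U : (Tt R X \ T).image f' ⊆ U0 \ U := by
    intro u hu
    rw [mem_image] at hu
    obtain ⟨t, ht, rfl⟩ := hu
    exact (hf'1 t ht).1
  have hNc : N.card + (Tt R X \ T).card = (U0 \ U).card := by
    have h1 : N.card + ((Tt R X \ T).image f').card = (U0 \ U).card :=
      card_sdiff_add_card_eq_card hf'U
    rwa [card_image_of_injOn hf'2] at h1
  obtain ⟨G', hG', hG'c⟩ := exists_subset_card_eq (show g + 1 ≤ Un.card by omega)
  obtain ⟨D0, hD0, hD0max⟩ := exists_max_image G' c (by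
    rw [← card_pos]
    omega)
  set G := G'.erase D0 with hG
  have hGc : G.card = g := by
    rw [hG, card_erase_of_mem hD0, hG'c]
    omega
  have hGG' : G ⊆ G' := erase_subset _ _
  have hGT : G ⊆ T := hGG'.trans (hG'.trans sdiff_subset)
  have hUnf : ∀ C ∈ Un, ∀ x ∈ U, f x ≠ C := by
    intro C hC x hx hxC
    rw [hUn, mem_sdiff] at hC
    exact hC.2 (hxC ▸ mem_image_of_mem f hx)
  have hD0Un : D0 ∈ Un := hG' hD0
  have hD0T : D0 ∈ T := (mem_sdiff.1 hD0Un).1
  obtain ⟨A, RA, u, P, c', hNF, hRA, hcG⟩ := nf' hS hV (fun x => f x.1)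
    (fun x y hxy => Subtype.ext (hf2 x.2 y.2 hxy)) (fun x => hf1 x.1 x.2) hGT hGc
    (fun C hC x => hUnf C (hG' (hGG' hC)) x.1 x.2) hD0T (notMem_erase _ _)
    (fun x => hUnf D0 hD0Un x.1 x.2)
  set S : Finset (Finset V) := U.image f ∪ G with hSdef
  have himg : (univ : Finset {x // x ∈ U}).image (fun x => f x.1) = U.image f := by
    ext C
    rw [mem_image, mem_image]
    constructor
    · rintro ⟨x, _, rfl⟩
      exact ⟨x.1, x.2, rfl⟩
    · rintro ⟨x, hx, rfl⟩
      exact ⟨⟨x, hx⟩, mem_univ _, rfl⟩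
  rw [himg, ← hSdef] at hRA
  have hST : S ⊆ T := union_subset hfT hGT
  have hScard : S.card = U.card + g := by
    rw [hSdef, card_union_of_disjoint, card_image_of_injOn hf2, hGc]
    rw [Finset.disjoint_left]
    intro C hC hC'
    exact (mem_sdiff.1 (hG' (hGG' hC'))).2 hC
  -- the critical part of the remainder
  set XA : Finset V := X \ S.biUnion id with hXA
  have hsepX : ∀ C ∈ Tt R X, Sep R C (X \ C) := by
    intro C hC
    refine ⟨disjoint_sdiff, fun x hx y hy hxy => ?_⟩
    rw [mem_sdiff] at hy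
    exact hy.2 (cmps_closed (hcm C hC) hx hy.1 hxy)
  have hrest : ∀ S' ⊆ Tt R X, Crit R (X \ S'.biUnion id) ∧
      th R (X \ S'.biUnion id) + ∑ C ∈ S', (c C + 1) = a + g + 1 ∧
      (X \ S'.biUnion id).card + ∑ C ∈ S', (2 * c C + 1) = X.card := by
    intro S' hS'
    obtain ⟨h1, h2, h3⟩ := HL.crit_rest (P := (id : Finset V → Finset V)) (J := S') hX
      (fun C hC => hCX C (hS' hC)) (fun C hC => hsepX C (hS' hC))
      (fun C hC D hD hCD => (cmps_sep (hcm C (hS' hC)) (hcm D (hS' hD)) hCD).1)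
    refine ⟨h1, ?_, ?_⟩
    · rw [← hthX, ← h2]
      congr 1
      exact sum_congr rfl (fun C hC => (hpiece C (hS' hC)).theta.symm)
    · rw [← h3]
      congr 1
      exact sum_congr rfl (fun C hC => (hpiece C (hS' hC)).card.symm)
  obtain ⟨hXAcrit, hXAth, hXAcard⟩ := hrest S (hST.trans hTT)
  rw [← hXA] at hXAcrit hXAth hXAcard
  have hs1 : ∑ C ∈ S, (c C + 1) = ∑ C ∈ S, c C + (U.card + g) := by
    rw [sum_add_distrib, sum_const, smul_eq_mul, mul_one, hScard]
  have hs2 : ∑ C ∈ S, (2 * c C + 1) = 2 * ∑ C ∈ S, c C + (U.card + g) := by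
    rw [sum_add_distrib, sum_const, smul_eq_mul, mul_one, hScard, mul_sum]
  rw [hs1] at hXAth
  rw [hs2] at hXAcard
  -- the remainder
  have hRAeq : RA = (U0 \ U) ∪ XA := by
    rw [hRA]
    ext v
    simp only [mem_sdiff, mem_union, mem_univ, true_and, hXA, hU0]
    constructor
    · rintro ⟨h1, h2⟩
      by_cases hv : v ∈ X
      · exact Or.inr ⟨hv, h2⟩
      · exact Or.inl ⟨hv, h1⟩
    · rintro (⟨h1, h2⟩ | ⟨h1, h2⟩)
      · refine ⟨h2, fun h3 => ?_⟩
        obtain ⟨C, hC, hvC⟩ := mem_biUnion.1 h3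
        exact h1 (hCX C (hTT (hST hC)) hvC)
      · exact ⟨fun h3 => hUX v (hUU0 h3) h1, h2⟩
  have hUXA : Disjoint (U0 \ U) XA := by
    rw [Finset.disjoint_left]
    intro v hv hv'
    exact hUX v (mem_sdiff.1 hv).1 (mem_sdiff.1 hv').1
  have hRAc := hNF.cardA
  rw [hRAeq, card_union_of_disjoint hUXA] at hRAc
  -- the matched pairs of the remainder
  have hhex : ∀ C, ∃ h, C ∈ Tt R X \ T → h ∈ C ∧ R.Adj (f' C) h := by
    intro C
    by_cases hC : C ∈ Tt R X \ T
    · obtain ⟨_, h, h1, h2⟩ := hf'1 C hC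
      exact ⟨h, fun _ => ⟨h1, h2⟩⟩
    · obtain ⟨v⟩ := hne
      exact ⟨v, fun h => absurd h hC⟩
  choose h hh using hhex
  -- partners of the rest
  have hNle : N.card ≤ (Un \ G).card := by
    have h1 : (Un \ G).card + G.card = Un.card := card_sdiff_add_card_eq_card (hGG'.trans hG')
    omega
  obtain ⟨κ, hκ1, hκ2⟩ : ∃ κ : V → Finset V, (∀ v ∈ N, κ v ∈ Un \ G) ∧ Set.InjOn κ N := by
    obtain ⟨W, hW, hWc⟩ := exists_subset_card_eq hNle
    have e : N ≃ W := Finset.equivOfCardEq hWc.symm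
    refine ⟨fun v => if hv : v ∈ N then (e ⟨v, hv⟩).1 else ∅, ?_, ?_⟩
    · intro v hv
      simp only [dif_pos hv]
      exact hW (e ⟨v, hv⟩).2
    · intro v hv w hw hvw
      rw [mem_coe] at hv hw
      simp only [dif_pos hv, dif_pos hw] at hvw
      exact congrArg Subtype.val (e.injective (Subtype.ext hvw))
  have hκT : ∀ v ∈ N, κ v ∈ T := fun v hv => (mem_sdiff.1 (mem_sdiff.1 (hκ1 v hv)).1).1
  have hyex : ∀ v, ∃ y, v ∈ N → y ∈ κ v := by
    intro v
    by_cases hv : v ∈ N
    · obtain ⟨y, hy⟩ := cmps_ne (hcm _ (hTT (hκT v hv)))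
      exact ⟨y, fun _ => hy⟩
    · exact ⟨v, fun h => absurd h hv⟩
  choose y hy using hyex
  have hsame : ∀ C ∈ Tt R X, ∀ D ∈ Tt R X, ∀ v, v ∈ C → v ∈ D → C = D := by
    intro C hC D hD v h1 h2
    by_contra hCD
    exact disjoint_left.1 (cmps_sep (hcm C hC) (hcm D hD) hCD).1 h1 h2
  have hpart : ∀ C ∈ Tt R X, C ∉ S → ∀ v ∈ C, v ∈ XA := by
    intro C hC hCS v hv
    rw [hXA, mem_sdiff, mem_biUnion]
    refine ⟨hCX C hC hv, ?_⟩
    rintro ⟨D, hD, hvD⟩
    exact hCS (hsame C hC D (hTT (hST hD)) v hv hvD ▸ hD)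
  have hhXA : ∀ C ∈ Tt R X \ T, h C ∈ XA := by
    intro C hC
    have h1 := mem_sdiff.1 hC
    exact hpart C h1.1 (fun h2 => h1.2 (hST h2)) _ (hh C hC).1
  have hyXA : ∀ v ∈ N, y v ∈ XA := by
    intro v hv
    have h1 := mem_sdiff.1 (hκ1 v hv)
    refine hpart (κ v) (hTT (hκT v hv)) ?_ _ (hy v hv)
    rw [hSdef, mem_union]
    rintro (h2 | h2)
    · exact (mem_sdiff.1 h1.1).2 h2
    · exact h1.2 h2
  have hhinj : Set.InjOn h (Tt R X \ T : Finset (Finset V)) := by
    intro C hC D hD hCD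
    rw [mem_coe] at hC hD
    exact hsame C (mem_sdiff.1 hC).1 D (mem_sdiff.1 hD).1 (h C) (hh C hC).1
      (by rw [hCD]; exact (hh D hD).1)
  have hyinj : Set.InjOn y N := by
    intro v hv w hw hvw
    rw [mem_coe] at hv hw
    apply hκ2 hv hw
    exact hsame _ (hTT (hκT v hv)) _ (hTT (hκT w hw)) (y v) (hy v hv)
      (by rw [hvw]; exact hy w hw)
  have hyh : ∀ v ∈ N, ∀ C ∈ Tt R X \ T, y v ≠ h C := by
    intro v hv C hC hvC
    have h1 := hsame _ (hTT (hκT v hv)) C (mem_sdiff.1 hC).1 (y v) (hy v hv)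
      (by rw [hvC]; exact (hh C hC).1)
    exact (mem_sdiff.1 hC).2 (h1 ▸ hκT v hv)
  have hNU0 : ∀ v ∈ N, v ∈ U0 \ U := fun v hv => (mem_sdiff.1 hv).1
  set X1 : Finset V := (Tt R X \ T).image f' ∪ (Tt R X \ T).image h with hX1
  set X2 : Finset V := N ∪ N.image y with hX2
  have hX1c : X1.card = 2 * (Tt R X \ T).card := by
    rw [hX1, card_union_of_disjoint, card_image_of_injOn hf'2, card_image_of_injOn hhinj]
    · ring
    · rw [Finset.disjoint_left]
      intro v hv hv'
      rw [mem_image] at hv'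
      obtain ⟨C, hC, rfl⟩ := hv'
      exact disjoint_left.1 hUXA (hf'U hv) (hhXA C hC)
  have hX2c : X2.card = 2 * N.card := by
    rw [hX2, card_union_of_disjoint, card_image_of_injOn hyinj]
    · ring
    · rw [Finset.disjoint_left]
      intro v hv hv'
      rw [mem_image] at hv'
      obtain ⟨w, hw, rfl⟩ := hv'
      exact disjoint_left.1 hUXA (hNU0 _ hv) (hyXA w hw)
  have hX12 : Disjoint X1 X2 := by
    rw [Finset.disjoint_left]
    intro v hv hv'
    rw [hX1, mem_union] at hv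
    rw [hX2, mem_union] at hv'
    rcases hv with hv | hv <;> rcases hv' with hv' | hv'
    · exact (mem_sdiff.1 hv').2 hv
    · rw [mem_image] at hv'
      obtain ⟨w, hw, rfl⟩ := hv'
      exact disjoint_left.1 hUXA (hf'U hv) (hyXA w hw)
    · rw [mem_image] at hv
      obtain ⟨C, hC, rfl⟩ := hv
      exact disjoint_left.1 hUXA (hNU0 _ hv') (hhXA C hC)
    · rw [mem_image] at hv hv'
      obtain ⟨C, hC, rfl⟩ := hv
      obtain ⟨w, hw, hwC⟩ := hv'
      exact hyh w hw C hC hwC
  have hX1RA : X1 ⊆ RA := by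
    intro v hv
    rw [hRAeq, mem_union]
    rw [hX1, mem_union] at hv
    rcases hv with hv | hv
    · exact Or.inl (hf'U hv)
    · rw [mem_image] at hv
      obtain ⟨C, hC, rfl⟩ := hv
      exact Or.inr (hhXA C hC)
  have hX2RA : X2 ⊆ RA := by
    intro v hv
    rw [hRAeq, mem_union]
    rw [hX2, mem_union] at hv
    rcases hv with hv | hv
    · exact Or.inl (hNU0 v hv)
    · rw [mem_image] at hv
      obtain ⟨w, hw, rfl⟩ := hv
      exact Or.inr (hyXA w hw)
  set Q : Finset V := RA \ (X1 ∪ X2) with hQ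
  have hQX : Q ⊆ XA := by
    intro v hv
    rw [hQ, mem_sdiff, hRAeq, mem_union, mem_union] at hv
    rcases hv.1 with h1 | h1
    · exfalso
      by_cases h2 : v ∈ (Tt R X \ T).image f'
      · exact hv.2 (Or.inl (mem_union_left _ h2))
      · exact hv.2 (Or.inr (mem_union_left _ (mem_sdiff.2 ⟨h1, h2⟩)))
    · exact h1
  have hQc : Q.card + 2 * (Tt R X \ T).card + 2 * N.card = RA.card := by
    have h1 : Q.card + (X1 ∪ X2).card = RA.card :=
      card_sdiff_add_card_eq_card (union_subset hX1RA hX2RA)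
    rw [card_union_of_disjoint hX12, hX1c, hX2c] at h1
    omega
  have hdeg : ∀ v ∈ Q, (Q.filter (fun w => R.Adj v w)).card ≤ XA.card - th R XA := by
    intro v hv
    have h1 := HL.red_degree hXAcrit (hQX hv)
    have h2 : (Q.filter (fun w => R.Adj v w)).card ≤ (XA.filter (fun w => R.Adj v w)).card :=
      card_le_card (filter_subset_filter _ hQX)
    omega
  have hXle : th R XA ≤ XA.card := th_le_card XA
  have hRAc' := hNF.cardA
  have hbl := HL.blue_matching hdeg
  have hQcc : Q.card = 2 * (XA.card - th R XA) + 1 := by omega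
  have hmin : min (Q.card / 2) (Q.card - 1 - (XA.card - th R XA)) = XA.card - th R XA := by
    rw [hQcc]
    omega
  rw [hmin] at hbl
  have hA : A = (XA.card - th R XA) + N.card + (Tt R X \ T).card := by omega
  have hm1 : HasMat R X1 (Tt R X \ T).card := by
    apply hasMat_of_maps (p := f') (q := h) hf'2 hhinj
    · intro C hC D hD hCD
      exact disjoint_left.1 hUXA (hf'U (mem_image_of_mem f' hC)) (hCD ▸ hhXA D hD)
    · exact fun C hC => (hh C hC).2
    · exact fun C hC => ⟨mem_union_left _ (mem_image_of_mem _ hC),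
        mem_union_right _ (mem_image_of_mem _ hC)⟩
  have hm2 : HasMat Rᶜ X2 N.card := by
    apply hasMat_of_maps (p := fun v => v) (q := y) (Set.injOn_id _) hyinj
    · intro v hv w hw hvw
      exact disjoint_left.1 hUXA (hNU0 v hv) (hvw ▸ hyXA w hw)
    · intro v hv
      rw [SimpleGraph.compl_adj]
      refine ⟨fun hvw => disjoint_left.1 hUXA (hNU0 v hv) (hvw ▸ hyXA v hv), fun hvw => ?_⟩
      have h1 := mem_sdiff.1 (hNU0 v hv)
      exact hno v h1.1 h1.2 (κ v) (hκT v hv) ⟨y v, hy v hv, hvw⟩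
    · exact fun v hv => ⟨mem_union_left _ hv, mem_union_right _ (mem_image_of_mem _ hv)⟩
  have hX12Q : Disjoint X1 (X2 ∪ Q) := by
    rw [disjoint_union_right]
    refine ⟨hX12, ?_⟩
    rw [Finset.disjoint_right]
    intro v hv hv'
    exact (mem_sdiff.1 hv).2 (mem_union_left _ hv')
  have hX2Q : Disjoint X2 Q := by
    rw [Finset.disjoint_right]
    intro v hv hv'
    exact (mem_sdiff.1 hv).2 (mem_union_right _ hv')
  refine ⟨U.card, (Tt R X \ T).card, A, RA, u, P, c', hNF, by omega, ?_, ?_, ?_⟩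
  · have h1 : A - (Tt R X \ T).card = N.card + (XA.card - th R XA) := by omega
    rw [h1]
    exact hasMix_of hm1 (HII.HasMat.union' hm2 hbl hX2Q) hX12Q hX1RA
      (union_subset hX2RA sdiff_subset)
  · rintro ⟨j, hj⟩
    obtain ⟨C, hC, hCc⟩ := hcG j
    have h1 := hD0max C (hGG' hC)
    have h2 : 2 ≤ c D0 := by
      have := (hpiece D0 (hTT hD0T)).size
      omega
    have hD0S : D0 ∉ S := by
      rw [hSdef, mem_union]
      rintro (h3 | h3)
      · exact (mem_sdiff.1 hD0Un).2 h3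
      · exact notMem_erase _ _ h3
    have hD0RA : D0 ⊆ RA := by
      intro v hv
      rw [hRAeq, mem_union]
      exact Or.inr (hpart D0 (hTT hD0T) hD0S v hv)
    constructor
    · obtain ⟨_, h4, h5⟩ := hrest (insert D0 S) (insert_subset (hTT hD0T) (hST.trans hTT))
      have h6 : th R (X \ (insert D0 S).biUnion id) ≤ (X \ (insert D0 S).biUnion id).card :=
        th_le_card _
      rw [sum_insert hD0S, hs1] at h4
      rw [sum_insert hD0S, hs2] at h5
      omega
    · obtain ⟨v, hv⟩ := cmps_ne (hcm D0 (hTT hD0T))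
      exact (((hpiece D0 (hTT hD0T)).red_mat hv).mono h2).sub
        ((erase_subset _ _).trans hD0RA)
  · -- the matching
    have hinv : ∀ v, ∃ C, v ∈ (Tt R X \ T).image f' → C ∈ Tt R X \ T ∧ f' C = v := by
      intro v
      by_cases hv : v ∈ (Tt R X \ T).image f'
      · obtain ⟨C, hC, hCv⟩ := mem_image.1 hv
        exact ⟨C, fun _ => ⟨hC, hCv⟩⟩
      · exact ⟨∅, fun h => absurd h hv⟩
    choose k hk using hinv
    refine ⟨U ∪ (Tt R X \ T).image f', fun v => if v ∈ U then f v else k v, ?_, ?_, ?_, ?_⟩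
    · rw [card_union_of_disjoint, card_image_of_injOn hf'2]
      rw [Finset.disjoint_left]
      intro v hv hv'
      exact (mem_sdiff.1 (hf'U hv')).2 hv
    · intro v hv
      rw [mem_union] at hv
      rcases hv with hv | hv
      · exact hUX v (hUU0 hv)
      · exact hUX v (mem_sdiff.1 (hf'U hv)).1
    · have hk' : ∀ v, v ∈ U ∪ (Tt R X \ T).image f' → v ∉ U → k v ∈ Tt R X \ T ∧ f' (k v) = v := by
        intro v hv hvU
        exact hk v ((mem_union.1 hv).resolve_left hvU)
      intro v hv w hw hvw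
      rw [mem_coe] at hv hw
      simp only at hvw
      by_cases h1 : v ∈ U <;> by_cases h2 : w ∈ U
      · rw [if_pos h1, if_pos h2] at hvw
        exact hf2 h1 h2 hvw
      · rw [if_pos h1, if_neg h2] at hvw
        exact absurd (hvw ▸ (hf1 v h1).1) (mem_sdiff.1 (hk' w hw h2).1).2
      · rw [if_neg h1, if_pos h2] at hvw
        exact absurd (hvw ▸ (hf1 w h2).1) (mem_sdiff.1 (hk' v hv h1).1).2
      · rw [if_neg h1, if_neg h2] at hvw
        rw [← (hk' v hv h1).2, ← (hk' w hw h2).2, hvw]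
    · intro v hv
      simp only
      by_cases h1 : v ∈ U
      · rw [if_pos h1]
        exact ⟨hTT (hf1 v h1).1, (hf1 v h1).2⟩
      · rw [if_neg h1]
        obtain ⟨h2, h3⟩ := hk v ((mem_union.1 hv).resolve_left h1)
        refine ⟨(mem_sdiff.1 h2).1, h (k v), (hh _ h2).1, ?_⟩
        have h4 := (hh _ h2).2
        rwa [h3] at h4

end NB

end Pool.Agent.Lib.MP_a05470_co
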