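import Pool.Agent.Lib.MP_a05470_co.TF.LevBM
import Pool.Agent.Lib.MP_a05470_co.TF.HostB
import Pool.Agent.Lib.MP_a05470_co.TF.HostII
import Pool.Agent.Lib.MP_a05470_co.TF.NFB

/-!
# Cases (B) and (C): as many red pairs as the matching of the tight components
-/

set_option autoImplicit false
set_option linter.unusedSectionVars false

namespace Pool.Agent.Lib.MP_a05470_co

open Finset Classical JF JT LV

namespace HII

/-- cases (B) and (C) from a normal form with a start mixture on the remainder -/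
theorem caseBC {V : Type} [Fintype V] {n a g A s i0 : ℕ} {H : SimpleGraph V}
    {Gr Gb : SimpleGraph (Fin n)} [Nonempty (Fin n)] {RA : Finset V} {u : Fin s → V}
    {P : Fin s ⊕ Fin g → Finset V} {c : Fin s ⊕ Fin g → ℕ} (ha : 1 ≤ a) (hga : g ≤ a)
    (hcost : ∀ v : Fin n, L1.D (a : ℝ) ((a + g : ℕ) : ℝ) Gr Gb v univ < Fintype.card (Fin n))
    (hcheap : Cheap (a : ℝ) ((a : ℝ) + g) Gr Gb) (hN : NF H a g A s RA u P c)
    (hi0 : i0 ≤ A) (hmix : HasMix H RA (A - i0) i0)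
    (hA2 : (∃ j : Fin g, c (Sum.inr j) ≠ 0) → i0 + 2 ≤ A ∧ HasMat H RA 2)
    {F0 : Finset (Finset (Fin n))} (hF0 : LV.Best1M Gr Gb F0)
    (hr : s + i0 ≤ nr Gr Gb 2 F0) : Contains H Hᶜ Gr Gb := by
  choose h hh using hN.adj
  by_cases hB : HasMat H (univ \ (univ.image u ∪ univ.image h)) (nr Gr Gb 2 F0 - s)
  · obtain ⟨F, hF⟩ := L1.exists_L1M hF0
    obtain ⟨Fs, K, hL⟩ := LV.exists_levBM (g := g) (by omega) hga hcost hF
    exact hostB hN hh hL hi0 hmix (fun h => (hA2 h).1) hr hB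
  · obtain ⟨F, Sp, M, T, hO, hT, hle⟩ := LV.levelsM ha hga hcheap hF0 (s := s) (by omega)
    refine hostII hN hh hO hT (fun h => (hA2 h).2) ?_
    intro r hrm
    by_contra hcon
    apply hB
    obtain ⟨E, hE, hEc⟩ := hrm
    obtain ⟨E', hE', hEc'⟩ := exists_subset_card_eq
      (show nr Gr Gb 2 F0 - s ≤ E.card by omega)
    exact ⟨E', hE.sub hE', hEc'⟩

/-- **Cases (B) and (C)**: `X` is critical, `ν` bounds the size of a matching of the vertices
outside `X` into distinct tight components of `X`, and there are at least `ν` red pairs. -/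
theorem case_ge {V : Type} [Fintype V] {n a g ν : ℕ} {R : SimpleGraph V}
    {Gr Gb : SimpleGraph (Fin n)} [Nonempty (Fin n)] (ha : 1 ≤ a) (hga : g ≤ a)
    (hcost : ∀ v : Fin n, L1.D (a : ℝ) ((a + g : ℕ) : ℝ) Gr Gb v univ < Fintype.card (Fin n))
    (hcheap : Cheap (a : ℝ) ((a : ℝ) + g) Gr Gb) (hV : Fintype.card V = 2 * a + g + 1)
    {X : Finset V} (hX : Crit R X) (hthX : th R X = a + g + 1) (hth : th R univ = a + g + 1)
    (hmax : ∀ (M : Finset V) (f : V → Finset V), (∀ u ∈ M, u ∉ X) → Set.InjOn f M →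
      (∀ u ∈ M, f u ∈ NB.Tt R X ∧ ∃ h ∈ f u, R.Adj u h) → M.card ≤ ν)
    {F0 : Finset (Finset (Fin n))} (hF0 : LV.Best1M Gr Gb F0)
    (hr : ν ≤ nr Gr Gb 2 F0) : Contains R Rᶜ Gr Gb := by
  obtain ⟨s, i0, A, RA, u, P, c, hN, hi0, hmix, hA2, M, f, h1, h2, h3, h4⟩ :=
    NB.exists_NFB hV hX hthX hth
  have h5 := hmax M f h2 h3 h4
  exact caseBC ha hga hcost hcheap hN hi0 hmix hA2 hF0 (by omega)

end HII

end Pool.Agent.Lib.MP_a05470_co
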