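import Pool.Agent.Lib.MP_a05470_co.TF.Lev1
import Pool.Agent.Lib.MP_a05470_co.TF.PieceMat
import Pool.Agent.Lib.MP_a05470_co.JPack

/-!
# Hosting of the rest of the critical part

`Z` is a set of places, blue between each other, and the non-red pairs of places form a matching.
A set of vertices of red degree at most `C'` can be placed on `2C'+1` places.
-/

set_option autoImplicit false
set_option linter.unusedSectionVars false

namespace Pool.Agent.Lib.MP_a05470_co

open Finset Classical JT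

namespace HL

/-- a graph with minimum degree at least `c` on at least `2c` vertices has `c` disjoint edges -/
theorem hasMat_of_degree2 {V : Type} {B : SimpleGraph V} {X : Finset V} {c : ℕ}
    (hX : 2 * c ≤ X.card)
    (hdeg : ∀ x ∈ X, c ≤ (X.filter (fun y => B.Adj x y)).card) : HasMat B X c := by
  have main : ∀ m ≤ c, HasMat B X m := by
    intro m
    induction m with
    | zero => exact fun _ => ⟨∅, ⟨by simp, by simp⟩, rfl⟩
    | succ m ih =>
      intro hm
      obtain ⟨T, hT, hTc⟩ := ih (by omega)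
      have hU : 1 < (X \ T.biUnion id).card := by
        have h1 := card_sdiff_add_card_eq_card hT.biUnion_subset
        have h2 := hT.card_biUnion
        omega
      obtain ⟨u1, hu1, u2, hu2, hne⟩ := one_lt_card.1 hU
      rw [mem_sdiff] at hu1 hu2
      have hu1T : ∀ e ∈ T, u1 ∉ e := fun e he h => hu1.2 (mem_biUnion.2 ⟨e, he, h⟩)
      have hu2T : ∀ e ∈ T, u2 ∉ e := fun e he h => hu2.2 (mem_biUnion.2 ⟨e, he, h⟩)
      by_cases h1 : ∃ y ∈ X \ T.biUnion id, B.Adj u1 y
      · obtain ⟨y, hy, hxy⟩ := h1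
        rw [mem_sdiff] at hy
        obtain ⟨h2, h3⟩ := hT.insert_pair hu1.1 hy.1 hxy hu1T
          (fun e he h => hy.2 (mem_biUnion.2 ⟨e, he, h⟩))
        exact ⟨_, h2, by rw [h3, hTc]⟩
      by_cases h2 : ∃ y ∈ X \ T.biUnion id, B.Adj u2 y
      · obtain ⟨y, hy, hxy⟩ := h2
        rw [mem_sdiff] at hy
        obtain ⟨h2, h3⟩ := hT.insert_pair hu2.1 hy.1 hxy hu2T
          (fun e he h => hy.2 (mem_biUnion.2 ⟨e, he, h⟩))
        exact ⟨_, h2, by rw [h3, hTc]⟩
      push Not at h1 h2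
      -- all neighbours are covered
      have hcount : ∀ u ∈ X, (∀ y ∈ X \ T.biUnion id, ¬ B.Adj u y) →
          c ≤ ∑ e ∈ T, (e.filter (fun y => B.Adj u y)).card := by
        intro u hu hno
        refine (hdeg u hu).trans ?_
        have h3 : X.filter (fun y => B.Adj u y) ⊆
            T.biUnion (fun e => e.filter (fun y => B.Adj u y)) := by
          intro y hy
          rw [mem_filter] at hy
          have h4 : y ∈ T.biUnion id := by
            by_contra hcon
            exact hno y (mem_sdiff.2 ⟨hy.1, hcon⟩) hy.2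
          rw [mem_biUnion] at h4 ⊢
          obtain ⟨e, he, hye⟩ := h4
          exact ⟨e, he, mem_filter.2 ⟨hye, hy.2⟩⟩
        exact (card_le_card h3).trans card_biUnion_le
      have h3 := hcount u1 hu1.1 h1
      have h4 := hcount u2 hu2.1 h2
      have h5 : ∃ e ∈ T, 2 < (e.filter (fun y => B.Adj u1 y)).card +
          (e.filter (fun y => B.Adj u2 y)).card := by
        by_contra hcon
        push Not at hcon
        have h6 := sum_le_sum hcon
        rw [sum_add_distrib, sum_const, smul_eq_mul] at h6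
        omega
      obtain ⟨e, he, h6⟩ := h5
      obtain ⟨x, hx, y, hy, hxy, rfl⟩ := hT.1 e he
      have hxy' := B.ne_of_adj hxy
      have h7 : ∀ u, ((({x, y} : Finset V).filter (fun y => B.Adj u y)).card : ℕ) =
          (if B.Adj u x then 1 else 0) + (if B.Adj u y then 1 else 0) := by
        intro u
        rw [filter_insert, filter_singleton]
        by_cases p : B.Adj u x <;> by_cases q : B.Adj u y
        · simp only [if_pos p, if_pos q]
          rw [card_pair hxy']
        · simp [if_pos p, if_neg q]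
        · simp [if_neg p, if_pos q]
        · simp [if_neg p, if_neg q]
      rw [h7, h7] at h6
      have key : ∀ p q, p ∈ X → q ∈ X → p ∈ ({x, y} : Finset V) → q ∈ ({x, y} : Finset V) →
          p ≠ q → B.Adj u1 p → B.Adj u2 q → HasMat B X (m + 1) := by
        intro p q hp hq hpe hqe hpq h8 h9
        have hT' := hT.sub (Finset.erase_subset ({x, y} : Finset V) T)
        have hout : ∀ z ∈ ({x, y} : Finset V), ∀ e ∈ T.erase {x, y}, z ∉ e := by
          intro z hz e he' hze
          rw [mem_erase] at he'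
          exact disjoint_left.1 (hT.2 e he'.2 _ he he'.1) hze hz
        obtain ⟨h10, h11⟩ := hT'.insert_pair hu1.1 hp h8
          (fun e he => hu1T e (mem_of_mem_erase he)) (hout p hpe)
        have hne2 : ∀ z ∈ ({x, y} : Finset V), u2 ≠ z ∧ u1 ≠ z := by
          intro z hz
          constructor
          · rintro rfl; exact hu2T _ he hz
          · rintro rfl; exact hu1T _ he hz
        obtain ⟨h12, h13⟩ := h10.insert_pair hu2.1 hq h9 (by
          intro e he'
          rcases mem_insert.1 he' with rfl | he'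
          · rw [mem_insert, mem_singleton]
            push Not
            exact ⟨hne.symm, (hne2 p hpe).1⟩
          · exact hu2T e (mem_of_mem_erase he')) (by
          intro e he'
          rcases mem_insert.1 he' with rfl | he'
          · rw [mem_insert, mem_singleton]
            push Not
            exact ⟨(hne2 q hqe).2.symm, hpq.symm⟩
          · exact hout q hqe e he')
        refine ⟨_, h12, ?_⟩
        rw [h13, h11, card_erase_of_mem he]
        have : 1 ≤ T.card := card_pos.2 ⟨_, he⟩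
        omega
      by_cases a1 : B.Adj u1 x <;> by_cases a2 : B.Adj u1 y <;> by_cases a3 : B.Adj u2 x <;>
        by_cases a4 : B.Adj u2 y <;> simp only [a1, a2, a3, a4, if_true, if_false] at h6 <;>
        first
        | omega
        | exact key x y hx hy (by simp) (by simp) hxy' a1 a4
        | exact key y x hy hx (by simp) (by simp) hxy'.symm a2 a3
  exact main c le_rfl

section degree

variable {V : Type} {R : SimpleGraph V} {Q : Finset V} {C : ℕ}

/-- the blue matching of a set of small red degree -/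
theorem blue_matching (hdeg : ∀ v ∈ Q, (Q.filter (fun w => R.Adj v w)).card ≤ C) :
    HasMat Rᶜ Q (min (Q.card / 2) (Q.card - 1 - C)) := by
  apply hasMat_of_degree2
  · have := min_le_left (Q.card / 2) (Q.card - 1 - C)
    omega
  · intro v hv
    refine (min_le_right _ _).trans ?_
    have h1 : (Q.filter (fun w => Rᶜ.Adj v w)).card + (Q.filter (fun w => R.Adj v w)).card + 1 =
        Q.card := by
      have h2 : Q = (Q.filter (fun w => Rᶜ.Adj v w)) ∪ ((Q.filter (fun w => R.Adj v w)) ∪ {v}) := by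
        ext w
        rw [mem_union, mem_union, mem_filter, mem_filter, mem_singleton, SimpleGraph.compl_adj]
        constructor
        · intro hw
          by_cases h3 : w = v
          · exact Or.inr (Or.inr h3)
          · by_cases h4 : R.Adj v w
            · exact Or.inr (Or.inl ⟨hw, h4⟩)
            · exact Or.inl ⟨hw, fun h5 => h3 h5.symm, h4⟩
        · rintro (h3 | h3 | h3)
          · exact h3.1
          · exact h3.1
          · rw [h3]
            exact hv
      conv_rhs => rw [h2]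
      rw [card_union_of_disjoint, card_union_of_disjoint, card_singleton]
      · ring
      · rw [disjoint_singleton_right, mem_filter]
        exact fun h3 => R.irrefl h3.2
      · rw [Finset.disjoint_left]
        intro w hw hw'
        rw [mem_filter, SimpleGraph.compl_adj] at hw
        rw [mem_union, mem_filter, mem_singleton] at hw'
        rcases hw' with h3 | h3
        · exact hw.2.2 h3.2
        · exact hw.2.1 h3.symm
    have h3 := hdeg v hv
    have h4 : Q.card - 1 - C ≤ (Q.filter (fun w => Rᶜ.Adj v w)).card := by omega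
    refine h4.trans (le_of_eq ?_)
    congr

/-- red degrees in a critical set -/
theorem red_degree [Fintype V] (hQ : Crit R Q) {v : V} (hv : v ∈ Q) :
    (Q.filter (fun w => R.Adj v w)).card + th R Q ≤ Q.card := by
  obtain ⟨f, hf, hc⟩ := th_spec R (Q.erase v)
  have h1 := hQ.erase hv
  -- every class contains a vertex which is not red to `v`
  have h2 : ∀ i ∈ (Q.erase v).image f, ∃ w ∈ Q.erase v, f w = i ∧ ¬ R.Adj v w := by
    intro i hi
    by_contra hcon
    push Not at hcon
    have hcov : CovOn R Q (fun w => if w = v then i else f w) := by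
      intro x hx y hy hxy hxy'
      simp only at hxy'
      by_cases hxv : x = v
      · have hyv : y ≠ v := fun h => hxy (hxv.trans h.symm)
        rw [if_pos hxv, if_neg hyv] at hxy'
        rw [hxv]
        exact hcon y (mem_erase.2 ⟨hyv, hy⟩) hxy'.symm
      · by_cases hyv : y = v
        · rw [if_neg hxv, if_pos hyv] at hxy'
          rw [hyv]
          exact (hcon x (mem_erase.2 ⟨hxv, hx⟩) hxy').symm
        · rw [if_neg hxv, if_neg hyv] at hxy'
          exact hf x (mem_erase.2 ⟨hxv, hx⟩) y (mem_erase.2 ⟨hyv, hy⟩) hxy hxy'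
    have h3 := th_le hcov
    have h4 : Q.image (fun w => if w = v then i else f w) ⊆ (Q.erase v).image f := by
      intro j hj
      rw [mem_image] at hj
      obtain ⟨w, hw, rfl⟩ := hj
      by_cases hwv : w = v
      · rw [if_pos hwv]
        exact hi
      · rw [if_neg hwv]
        exact mem_image_of_mem f (mem_erase.2 ⟨hwv, hw⟩)
    have h5 := card_le_card h4
    omega
  have h3 : (Q.erase v).image f ⊆ ((Q.erase v).filter (fun w => ¬ R.Adj v w)).image f := by
    intro i hi
    obtain ⟨w, hw, hwi, hw2⟩ := h2 i hi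
    rw [mem_image]
    exact ⟨w, mem_filter.2 ⟨hw, hw2⟩, hwi⟩
  have h4 := (card_le_card h3).trans card_image_le
  have h5 := card_filter_add_card_filter_not (s := Q.erase v) (fun w => R.Adj v w)
  have h6 : (Q.erase v).filter (fun w => R.Adj v w) = Q.filter (fun w => R.Adj v w) := by
    ext w
    rw [mem_filter, mem_filter, mem_erase]
    constructor
    · exact fun h => ⟨h.1.2, h.2⟩
    · exact fun h => ⟨⟨fun h' => R.irrefl (h' ▸ h.2), h.1⟩, h.2⟩
  rw [h6, card_erase_of_mem hv] at h5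
  have h7 := card_pos.2 ⟨v, hv⟩
  omega

end degree

section places

variable {T V : Type} [Fintype T] {Gr Gb : SimpleGraph T} {R : SimpleGraph V}

/-- places: blue between each other, the non-red pairs form a matching -/
structure Places (Gr Gb : SimpleGraph T) (Z : Finset T) : Prop where
  blue : ∀ x ∈ Z, ∀ y ∈ Z, x ≠ y → Gb.Adj x y
  uniq : ∀ x ∈ Z, ∀ y ∈ Z, ∀ z ∈ Z, x ≠ y → x ≠ z → ¬ Gr.Adj x y → ¬ Gr.Adj x z → y = z

theorem Places.mono {Z Z' : Finset T} (h : Places Gr Gb Z) (hZ : Z' ⊆ Z) : Places Gr Gb Z' :=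
  ⟨fun x hx y hy => h.blue x (hZ hx) y (hZ hy),
    fun x hx y hy z hz => h.uniq x (hZ hx) y (hZ hy) z (hZ hz)⟩

theorem mem_BB {Z : Finset T} {x : T} : x ∈ L1.BB Gr Z ↔ x ∈ Z ∧ ∃ y ∈ Z, y ≠ x ∧ ¬ Gr.Adj x y := by
  unfold L1.BB
  rw [mem_filter]

/-- removing a vertex of a blue pair -/
theorem BB_erase {Z : Finset T} (h : Places Gr Gb Z) {y y' : T} (hy : y ∈ Z) (hy' : y' ∈ Z)
    (hne : y' ≠ y) (hr : ¬ Gr.Adj y y') {Z' : Finset T} (hZ' : Z' = Z.erase y' ∨ Z' = Z \ {y, y'}) :
    (L1.BB Gr Z').card + 2 = (L1.BB Gr Z).card := by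
  have hyB : y ∈ L1.BB Gr Z := mem_BB.2 ⟨hy, y', hy', hne, hr⟩
  have hyB' : y' ∈ L1.BB Gr Z := mem_BB.2 ⟨hy', y, hy, hne.symm, fun h' => hr h'.symm⟩
  have hZs : Z' ⊆ Z := by
    rcases hZ' with rfl | rfl
    · exact erase_subset _ _
    · exact sdiff_subset
  have hy'Z : y' ∉ Z' := by
    rcases hZ' with rfl | rfl
    · exact notMem_erase _ _
    · simp
  have hmemZ : ∀ x ∈ Z, x ≠ y → x ≠ y' → x ∈ Z' := by
    intro x hx h1 h2
    rcases hZ' with rfl | rfl
    · exact mem_erase.2 ⟨h2, hx⟩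
    · rw [mem_sdiff, mem_insert, mem_singleton]
      exact ⟨hx, fun h3 => by rcases h3 with h3 | h3; exacts [h1 h3, h2 h3]⟩
  have heq : L1.BB Gr Z' = L1.BB Gr Z \ {y, y'} := by
    ext x
    rw [mem_BB, mem_sdiff, mem_BB, mem_insert, mem_singleton]
    constructor
    · rintro ⟨hx, z, hz, hzx, hxz⟩
      refine ⟨⟨hZs hx, z, hZs hz, hzx, hxz⟩, ?_⟩
      rintro (rfl | rfl)
      · have := h.uniq _ (hZs hx) z (hZs hz) y' hy' hzx.symm hne.symm hxz hr
        rw [this] at hz
        exact hy'Z hz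
      · exact hy'Z hx
    · rintro ⟨⟨hx, z, hz, hzx, hxz⟩, hn⟩
      push Not at hn
      have h1 : z ≠ y := by
        rintro rfl
        have h2 := h.uniq z hz x hx y' hy' hzx hne.symm (fun h' => hxz h'.symm) hr
        exact hn.2 h2
      have h2 : z ≠ y' := by
        rintro rfl
        have h3 := h.uniq z hz x hx y hy hzx hne (fun h' => hxz h'.symm) (fun h' => hr h'.symm)
        exact hn.1 h3
      exact ⟨hmemZ x hx hn.1 hn.2, z, hmemZ z hz h1 h2, hzx, hxz⟩
  have hsub : ({y, y'} : Finset T) ⊆ L1.BB Gr Z := by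
    intro x hx
    rw [mem_insert, mem_singleton] at hx
    rcases hx with rfl | rfl
    · exact hyB
    · exact hyB'
  rw [heq, card_sdiff_of_subset hsub, card_pair hne.symm]
  have := card_le_card hsub
  rw [card_pair hne.symm] at this
  omega

theorem BB_even (N : ℕ) : ∀ {Z : Finset T}, Z.card ≤ N → Places Gr Gb Z →
    ∃ k, (L1.BB Gr Z).card = 2 * k := by
  induction N with
  | zero =>
    intro Z hZ _
    refine ⟨0, ?_⟩
    have := card_le_card (L1.BB_sub (Gr := Gr) Z)
    omega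
  | succ N ih =>
    intro Z hZ h
    rcases (L1.BB Gr Z).eq_empty_or_nonempty with h0 | ⟨y, hy⟩
    · exact ⟨0, by rw [h0]; rfl⟩
    · obtain ⟨hyZ, y', hy'Z, hne, hr⟩ := mem_BB.1 hy
      have h1 := BB_erase h hyZ hy'Z hne hr (Or.inl rfl)
      have h2 := card_erase_of_mem hy'Z
      have h3 := card_pos.2 ⟨y', hy'Z⟩
      obtain ⟨k, hk⟩ := ih (Z := Z.erase y') (by omega) (h.mono (erase_subset _ _))
      exact ⟨k + 1, by omega⟩

/-- placing a set with a blue matching -/
theorem place [Nonempty T] (N : ℕ) : ∀ {Z : Finset T} {Q : Finset V} {t : ℕ}, Z.card ≤ N →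
    Places Gr Gb Z → HasMat Rᶜ Q t → Q.card ≤ Z.card →
    2 * Q.card + (L1.BB Gr Z).card ≤ 2 * Z.card + 2 * t →
    ∃ φ : V → T, (∀ v ∈ Q, φ v ∈ Z) ∧ ∀ v ∈ Q, ∀ w ∈ Q, v ≠ w →
      φ v ≠ φ w ∧ (R.Adj v w → Gr.Adj (φ v) (φ w)) := by
  induction N with
  | zero =>
    intro Z Q t hZN _ _ hQZ _
    have h1 : Q = ∅ := by
      rw [← card_eq_zero]
      omega
    subst h1
    exact ⟨fun _ => Classical.choice inferInstance, by simp, by simp⟩
  | succ N ih =>
    intro Z Q t hZN hZ hT hQZ hc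
    rcases (L1.BB Gr Z).eq_empty_or_nonempty with h0 | ⟨y, hy⟩
    · -- everything is green
      have h1 : Fintype.card Q ≤ Fintype.card Z := by simpa using hQZ
      obtain ⟨e⟩ := Function.Embedding.nonempty_of_card_le h1
      refine ⟨fun v => if hv : v ∈ Q then (e ⟨v, hv⟩ : T) else Classical.choice inferInstance,
        ?_, ?_⟩
      · intro v hv
        simp only [dif_pos hv]
        exact (e ⟨v, hv⟩).2
      · intro v hv w hw hvw
        simp only [dif_pos hv, dif_pos hw]
        have hne : (e ⟨v, hv⟩ : T) ≠ e ⟨w, hw⟩ := by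
          intro h2
          have h3 := e.injective (Subtype.ext h2)
          exact hvw (congrArg Subtype.val h3)
        refine ⟨hne, fun _ => ?_⟩
        by_contra hcon
        have h2 : (e ⟨v, hv⟩ : T) ∈ L1.BB Gr Z :=
          mem_BB.2 ⟨(e ⟨v, hv⟩).2, _, (e ⟨w, hw⟩).2, hne.symm, hcon⟩
        rw [h0] at h2
        simp at h2
    · obtain ⟨hyZ, y', hy'Z, hne, hr⟩ := mem_BB.1 hy
      rcases Nat.eq_zero_or_pos t with rfl | ht
      · -- drop a vertex of a blue pair
        have h1 := BB_erase hZ hyZ hy'Z hne hr (Or.inl rfl)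
        have h2 := card_erase_of_mem hy'Z
        have h3 := card_pos.2 ⟨y', hy'Z⟩
        obtain ⟨φ, h4, h5⟩ := ih (Z := Z.erase y') (Q := Q) (t := 0) (by omega)
          (hZ.mono (erase_subset _ _)) hT (by omega) (by omega)
        exact ⟨φ, fun v hv => erase_subset _ _ (h4 v hv), h5⟩
      · -- put a blue edge on a blue pair
        obtain ⟨E, hE, hEt⟩ := hT
        obtain ⟨e, he⟩ := card_pos.1 (show 0 < E.card by omega)
        obtain ⟨v, hv, w, hw, hvw, rfl⟩ := hE.1 e he
        have hvw' := hvw.ne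
        rw [SimpleGraph.compl_adj] at hvw
        have hsubQ : ({v, w} : Finset V) ⊆ Q := by
          intro z hz
          rw [mem_insert, mem_singleton] at hz
          rcases hz with rfl | rfl
          · exact hv
          · exact hw
        have hsubZ : ({y, y'} : Finset T) ⊆ Z := by
          intro z hz
          rw [mem_insert, mem_singleton] at hz
          rcases hz with rfl | rfl
          · exact hyZ
          · exact hy'Z
        have h1 := BB_erase hZ hyZ hy'Z hne hr (Or.inr rfl)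
        have h2 : (Z \ {y, y'}).card + 2 = Z.card := by
          rw [card_sdiff_of_subset hsubZ, card_pair hne.symm]
          have := card_le_card hsubZ
          rw [card_pair hne.symm] at this
          omega
        have h3 : (Q \ {v, w}).card + 2 = Q.card := by
          rw [card_sdiff_of_subset hsubQ, card_pair hvw']
          have := card_le_card hsubQ
          rw [card_pair hvw'] at this
          omega
        have h4 : HasMat Rᶜ (Q \ {v, w}) (t - 1) :=
          ⟨E.erase {v, w}, hE.erase_edge he, by rw [card_erase_of_mem he]; omega⟩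
        obtain ⟨φ, h5, h6⟩ := ih (Z := Z \ {y, y'}) (Q := Q \ {v, w}) (t := t - 1) (by omega)
          (hZ.mono sdiff_subset) h4 (by omega) (by omega)
        have h7 : ∀ z ∈ Q, z ≠ v → z ≠ w → z ∈ Q \ {v, w} := by
          intro z hz h8 h9
          rw [mem_sdiff, mem_insert, mem_singleton]
          exact ⟨hz, fun h10 => by rcases h10 with h10 | h10; exacts [h8 h10, h9 h10]⟩
        have hφ : ∀ z ∈ Q, z ≠ v → z ≠ w → φ z ∈ Z ∧ φ z ≠ y ∧ φ z ≠ y' := by
          intro z hz h8 h9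
          have h10 := h5 z (h7 z hz h8 h9)
          rw [mem_sdiff, mem_insert, mem_singleton] at h10
          push Not at h10
          exact ⟨h10.1, h10.2.1, h10.2.2⟩
        -- places which are not on the pair are green to the pair
        have hgr : ∀ z ∈ Z, z ≠ y → z ≠ y' → Gr.Adj y z ∧ Gr.Adj y' z := by
          intro z hz h8 h9
          constructor
          · by_contra hcon
            exact h9 (hZ.uniq y hyZ z hz y' hy'Z h8.symm hne.symm hcon hr)
          · by_contra hcon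
            exact h8 (hZ.uniq y' hy'Z z hz y hyZ h9.symm hne hcon (fun h' => hr h'.symm))
        set ψ : V → T := fun z => if z = v then y else if z = w then y' else φ z with hψ
        have hψv : ψ v = y := by simp only [hψ, if_pos]
        have hψw : ψ w = y' := by
          show (if w = v then y else if w = w then y' else φ w) = y'
          rw [if_neg (Ne.symm hvw'), if_pos rfl]
        have hψz : ∀ z, z ≠ v → z ≠ w → ψ z = φ z := by
          intro z h8 h9
          simp only [hψ]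
          rw [if_neg h8, if_neg h9]
        refine ⟨ψ, ?_, ?_⟩
        · intro z hz
          by_cases h8 : z = v
          · rw [h8, hψv]
            exact hyZ
          · by_cases h9 : z = w
            · rw [h9, hψw]
              exact hy'Z
            · rw [hψz z h8 h9]
              exact (hφ z hz h8 h9).1
        · intro p hp q hq hpq
          by_cases p1 : p = v
          · have q1 : q ≠ v := fun h8 => hpq (p1.trans h8.symm)
            rw [p1, hψv]
            by_cases q2 : q = w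
            · rw [q2, hψw]
              exact ⟨hne.symm, fun h8 => absurd h8 hvw.2⟩
            · rw [hψz q q1 q2]
              have h8 := hφ q hq q1 q2
              exact ⟨Ne.symm h8.2.1, fun _ => (hgr _ h8.1 h8.2.1 h8.2.2).1⟩
          · by_cases p2 : p = w
            · have q2 : q ≠ w := fun h8 => hpq (p2.trans h8.symm)
              rw [p2, hψw]
              by_cases q1 : q = v
              · rw [q1, hψv]
                exact ⟨hne, fun h8 => absurd h8.symm hvw.2⟩
              · rw [hψz q q1 q2]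
                have h8 := hφ q hq q1 q2
                exact ⟨Ne.symm h8.2.2, fun _ => (hgr _ h8.1 h8.2.1 h8.2.2).2⟩
            · rw [hψz p p1 p2]
              have h8 := hφ p hp p1 p2
              by_cases q1 : q = v
              · rw [q1, hψv]
                exact ⟨h8.2.1, fun _ => (hgr _ h8.1 h8.2.1 h8.2.2).1.symm⟩
              · by_cases q2 : q = w
                · rw [q2, hψw]
                  exact ⟨h8.2.2, fun _ => (hgr _ h8.1 h8.2.1 h8.2.2).2.symm⟩
                · rw [hψz q q1 q2]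
                  exact h6 p (h7 p hp p1 p2) q (h7 q hq q1 q2) hpq

/-- placing a set of small red degree -/
theorem place_degree [Nonempty T] {Z : Finset T} {Q : Finset V} {C : ℕ} (hZ : Places Gr Gb Z)
    (hdeg : ∀ v ∈ Q, (Q.filter (fun w => R.Adj v w)).card ≤ C) (hC : 2 * C + 1 ≤ Z.card)
    (hQZ : Q.card ≤ Z.card) :
    ∃ φ : V → T, (∀ v ∈ Q, φ v ∈ Z) ∧ ∀ v ∈ Q, ∀ w ∈ Q, v ≠ w →
      φ v ≠ φ w ∧ (R.Adj v w → Gr.Adj (φ v) (φ w)) := by
  obtain ⟨k, hk⟩ := BB_even _ le_rfl hZ
  have h1 := card_le_card (L1.BB_sub (Gr := Gr) Z)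
  apply place _ le_rfl hZ (blue_matching hdeg) hQZ
  rcases min_cases (Q.card / 2) (Q.card - 1 - C) with ⟨h2, _⟩ | ⟨h2, _⟩
  · rw [h2]
    omega
  · rw [h2]
    omega

/-- placing parts which are separated from each other and from the rest -/
theorem glue [Nonempty T] {κ : Type} [DecidableEq κ] {Z : Finset T}
    (J : Finset κ) (B : κ → Finset V) (A : κ → Finset T) {Q : Finset V}
    (hA : ∀ j ∈ J, A j ⊆ Z) (hAA : ∀ i ∈ J, ∀ j ∈ J, i ≠ j → Disjoint (A i) (A j))
    (hB : ∀ i ∈ J, ∀ j ∈ J, i ≠ j → Sep R (B i) (B j)) (hBQ : ∀ j ∈ J, Sep R Q (B j))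
    (hloc : ∀ j ∈ J, ∃ φ : V → T, (∀ v ∈ B j, φ v ∈ A j) ∧ ∀ v ∈ B j, ∀ w ∈ B j, v ≠ w →
      φ v ≠ φ w ∧ (R.Adj v w → Gr.Adj (φ v) (φ w)))
    (hQ : ∃ φ : V → T, (∀ v ∈ Q, φ v ∈ Z \ J.biUnion A) ∧ ∀ v ∈ Q, ∀ w ∈ Q, v ≠ w →
      φ v ≠ φ w ∧ (R.Adj v w → Gr.Adj (φ v) (φ w))) :
    ∃ φ : V → T, (∀ v ∈ Q ∪ J.biUnion B, φ v ∈ Z) ∧ (∀ j ∈ J, ∀ v ∈ B j, φ v ∈ A j) ∧
      ∀ v ∈ Q ∪ J.biUnion B, ∀ w ∈ Q ∪ J.biUnion B, v ≠ w →
        φ v ≠ φ w ∧ (R.Adj v w → Gr.Adj (φ v) (φ w)) := by
  obtain ⟨φQ, hQ1, hQ2⟩ := hQ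
  have : Nonempty (V → T) := ⟨φQ⟩
  choose! φ' h1 h2 using hloc
  -- the index of a vertex
  set ι : V → Option κ := fun v => if h : ∃ j ∈ J, v ∈ B j then some h.choose else none with hι
  have hιB : ∀ j ∈ J, ∀ v ∈ B j, ι v = some j := by
    intro j hj v hv
    have hex : ∃ j ∈ J, v ∈ B j := ⟨j, hj, hv⟩
    have h3 : ι v = some hex.choose := by
      simp only [hι]
      rw [dif_pos hex]
    rw [h3]
    congr 1
    by_contra hne
    exact disjoint_left.1 (hB _ hex.choose_spec.1 _ hj hne).1 hex.choose_spec.2 hv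
  have hιQ : ∀ v ∈ Q, ι v = none := by
    intro v hv
    simp only [hι]
    rw [dif_neg]
    rintro ⟨j, hj, hvj⟩
    exact disjoint_left.1 (hBQ j hj).1 hv hvj
  set φ : V → T := fun v => match ι v with
    | some j => φ' j v
    | none => φQ v with hφ
  have hφB : ∀ j ∈ J, ∀ v ∈ B j, φ v = φ' j v := by
    intro j hj v hv
    simp only [hφ]
    rw [hιB j hj v hv]
  have hφQ : ∀ v ∈ Q, φ v = φQ v := by
    intro v hv
    simp only [hφ]
    rw [hιQ v hv]
  refine ⟨φ, ?_, ?_, ?_⟩
  · intro v hv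
    rw [mem_union, mem_biUnion] at hv
    rcases hv with hv | ⟨j, hj, hv⟩
    · rw [hφQ v hv]
      exact (mem_sdiff.1 (hQ1 v hv)).1
    · rw [hφB j hj v hv]
      exact hA j hj (h1 j hj v hv)
  · intro j hj v hv
    rw [hφB j hj v hv]
    exact h1 j hj v hv
  · intro v hv w hw hvw
    rw [mem_union, mem_biUnion] at hv hw
    rcases hv with hv | ⟨i, hi, hv⟩ <;> rcases hw with hw | ⟨j, hj, hw⟩
    · rw [hφQ v hv, hφQ w hw]
      exact hQ2 v hv w hw hvw
    · rw [hφQ v hv, hφB j hj w hw]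
      refine ⟨fun h3 => ?_, fun h3 => absurd h3 ((hBQ j hj).2 v hv w hw)⟩
      have h4 := mem_sdiff.1 (hQ1 v hv)
      exact h4.2 (mem_biUnion.2 ⟨j, hj, by rw [h3]; exact h1 j hj w hw⟩)
    · rw [hφQ w hw, hφB i hi v hv]
      refine ⟨fun h3 => ?_, fun h3 => absurd h3.symm ((hBQ i hi).2 w hw v hv)⟩
      have h4 := mem_sdiff.1 (hQ1 w hw)
      exact h4.2 (mem_biUnion.2 ⟨i, hi, by rw [← h3]; exact h1 i hi v hv⟩)
    · rw [hφB i hi v hv, hφB j hj w hw]
      by_cases hij : i = j
      · subst hij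
        exact h2 i hi v hv w hw hvw
      · refine ⟨fun h3 => ?_, fun h3 => absurd h3 ((hB i hi j hj hij).2 v hv w hw)⟩
        exact disjoint_left.1 (hAA i hi j hj hij) (h1 i hi v hv) (by rw [h3]; exact h1 j hj w hw)

/-- placing the rests of the pieces which have one vertex elsewhere, and a set of small red
degree -/
theorem host_rest [Fintype V] [Nonempty T] {κ : Type} [DecidableEq κ] {Z : Finset T}
    (hZ : Places Gr Gb Z) {J4 J1 : Finset κ} (hJ : Disjoint J4 J1) {P : κ → Finset V} {x : κ → V}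
    {c : κ → ℕ} {f : κ → Finset T} {Q : Finset V} {C : ℕ}
    (hP : ∀ j ∈ J4 ∪ J1, TightPiece R (P j) (c j)) (hx : ∀ j ∈ J4 ∪ J1, x j ∈ P j)
    (hPP : ∀ i ∈ J4 ∪ J1, ∀ j ∈ J4 ∪ J1, i ≠ j → Sep R (P i) (P j))
    (hPQ : ∀ j ∈ J4 ∪ J1, Sep R Q (P j))
    (hdeg : ∀ v ∈ Q, (Q.filter (fun w => R.Adj v w)).card ≤ C)
    (hf4 : ∀ j ∈ J4, (f j).card ≤ 4) (hf1 : ∀ j ∈ J1, (f j).card ≤ 1)
    (hmore : J4.Nonempty → 2 ≤ C + ∑ j ∈ J1, c j)
    (hC : 2 * (C + ∑ j ∈ J4 ∪ J1, c j) + 1 ≤ Z.card)
    (hcard : Q.card + ∑ j ∈ J4 ∪ J1, 2 * c j ≤ Z.card) :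
    ∃ φ : V → T, (∀ v ∈ Q ∪ (J4 ∪ J1).biUnion (fun j => (P j).erase (x j)), φ v ∈ Z) ∧
      (∀ j ∈ J4 ∪ J1, ∀ v ∈ (P j).erase (x j), φ v ∉ f j) ∧
      ∀ v ∈ Q ∪ (J4 ∪ J1).biUnion (fun j => (P j).erase (x j)),
        ∀ w ∈ Q ∪ (J4 ∪ J1).biUnion (fun j => (P j).erase (x j)), v ≠ w →
        φ v ≠ φ w ∧ (R.Adj v w → Gr.Adj (φ v) (φ w)) := by
  rw [sum_union hJ] at hC
  have hs2 : ∑ j ∈ J4 ∪ J1, 2 * c j = 2 * ∑ j ∈ J4, c j + 2 * ∑ j ∈ J1, c j := by
    rw [sum_union hJ, mul_sum, mul_sum]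
  rw [hs2] at hcard
  -- the places of the pieces of the first kind
  have h4 : ∃ τ : κ → Finset T, (∀ j ∈ J4, τ j ⊆ Z ∧ (τ j).card = 2 * c j ∧
      Disjoint (τ j) (f j)) ∧ ∀ i ∈ J4, ∀ j ∈ J4, i ≠ j → Disjoint (τ i) (τ j) := by
    rcases J4.eq_empty_or_nonempty with h0 | h0
    · subst h0
      exact ⟨fun _ => ∅, by simp, by simp⟩
    · refine JP.choose_slots J4 Z (fun j => 2 * c j) f 4 hf4 ?_
      have h1 := hmore h0
      rw [← mul_sum]
      omega
  obtain ⟨τ4, h41, h42⟩ := h4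
  have hc4 : (J4.biUnion τ4).card = 2 * ∑ j ∈ J4, c j := by
    rw [card_biUnion (fun i hi j hj hij => h42 i hi j hj hij), mul_sum]
    exact sum_congr rfl (fun j hj => (h41 j hj).2.1)
  have hs4 : J4.biUnion τ4 ⊆ Z := biUnion_subset.2 (fun j hj => (h41 j hj).1)
  have h1 : ∃ τ : κ → Finset T, (∀ j ∈ J1, τ j ⊆ Z \ J4.biUnion τ4 ∧ (τ j).card = 2 * c j ∧
      Disjoint (τ j) (f j)) ∧ ∀ i ∈ J1, ∀ j ∈ J1, i ≠ j → Disjoint (τ i) (τ j) := by
    refine JP.choose_slots J1 _ (fun j => 2 * c j) f 1 hf1 ?_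
    rw [← mul_sum, card_sdiff_of_subset hs4, hc4]
    omega
  obtain ⟨τ1, h11, h12⟩ := h1
  set A : κ → Finset T := fun j => if j ∈ J4 then τ4 j else τ1 j with hA
  have hA4 : ∀ j ∈ J4, A j = τ4 j := fun j hj => if_pos hj
  have hA1 : ∀ j ∈ J1, A j = τ1 j := fun j hj => if_neg (fun h => disjoint_left.1 hJ h hj)
  have hAZ : ∀ j ∈ J4 ∪ J1, A j ⊆ Z ∧ (A j).card = 2 * c j ∧ Disjoint (A j) (f j) := by
    intro j hj
    rcases mem_union.1 hj with hj | hj
    · rw [hA4 j hj]
      exact h41 j hj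
    · rw [hA1 j hj]
      exact ⟨(h11 j hj).1.trans sdiff_subset, (h11 j hj).2⟩
  have hAA : ∀ i ∈ J4 ∪ J1, ∀ j ∈ J4 ∪ J1, i ≠ j → Disjoint (A i) (A j) := by
    have hcross : ∀ i ∈ J4, ∀ j ∈ J1, Disjoint (τ4 i) (τ1 j) := by
      intro i hi j hj
      rw [Finset.disjoint_right]
      intro z hz hz'
      exact (mem_sdiff.1 ((h11 j hj).1 hz)).2 (mem_biUnion.2 ⟨i, hi, hz'⟩)
    intro i hi j hj hij
    rcases mem_union.1 hi with hi | hi <;> rcases mem_union.1 hj with hj | hj
    · rw [hA4 i hi, hA4 j hj]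
      exact h42 i hi j hj hij
    · rw [hA4 i hi, hA1 j hj]
      exact hcross i hi j hj
    · rw [hA1 i hi, hA4 j hj]
      exact (hcross j hj i hi).symm
    · rw [hA1 i hi, hA1 j hj]
      exact h12 i hi j hj hij
  have hcA : ((J4 ∪ J1).biUnion A).card = 2 * ∑ j ∈ J4, c j + 2 * ∑ j ∈ J1, c j := by
    rw [card_biUnion (fun i hi j hj hij => hAA i hi j hj hij), ← hs2]
    exact sum_congr rfl (fun j hj => (hAZ j hj).2.1)
  have hsA : (J4 ∪ J1).biUnion A ⊆ Z := biUnion_subset.2 (fun j hj => (hAZ j hj).1)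
  obtain ⟨φ, h5, h6, h7⟩ := glue (R := R) (J4 ∪ J1) (fun j => (P j).erase (x j)) A (Q := Q)
    (fun j hj => (hAZ j hj).1) hAA
    (fun i hi j hj hij => ⟨disjoint_of_subset_left (erase_subset _ _)
        (disjoint_of_subset_right (erase_subset _ _) (hPP i hi j hj hij).1),
      fun v hv w hw => (hPP i hi j hj hij).2 v (mem_of_mem_erase hv) w (mem_of_mem_erase hw)⟩)
    (fun j hj => ⟨disjoint_of_subset_right (erase_subset _ _) (hPQ j hj).1,
      fun v hv w hw => (hPQ j hj).2 v hv w (mem_of_mem_erase hw)⟩)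
    (by
      intro j hj
      have hc : ((P j).erase (x j)).card = 2 * c j := by
        rw [card_erase_of_mem (hx j hj), (hP j hj).card]
        omega
      have h8 := card_le_card (L1.BB_sub (Gr := Gr) (A j))
      refine place _ le_rfl (hZ.mono (hAZ j hj).1) ((hP j hj).blue_mat (hx j hj)) ?_ ?_
      · rw [hc, (hAZ j hj).2.1]
      · rw [hc]
        rw [(hAZ j hj).2.1] at h8 ⊢
        omega)
    (by
      apply place_degree (hZ.mono sdiff_subset) hdeg
      · rw [card_sdiff_of_subset hsA, hcA]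
        omega
      · rw [card_sdiff_of_subset hsA, hcA]
        omega)
  exact ⟨φ, h5, fun j hj v hv h8 => disjoint_left.1 (hAZ j hj).2.2 (h6 j hj v hv) h8, h7⟩

/-- a colour-correct map is a copy -/
theorem contains_of_map (φ : V → T)
    (h : ∀ v w, v ≠ w → (R.Adj v w → Gr.Adj (φ v) (φ w)) ∧ (¬ R.Adj v w → Gb.Adj (φ v) (φ w))) :
    Contains R Rᶜ Gr Gb := by
  refine ⟨φ, ?_, ?_⟩
  · intro v w hvw
    by_contra hne
    obtain ⟨h1, h2⟩ := h v w hne
    by_cases h3 : R.Adj v w
    · have := h1 h3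
      rw [hvw] at this
      exact Gr.irrefl this
    · have := h2 h3
      rw [hvw] at this
      exact Gb.irrefl this
  · intro v w
    constructor
    · intro h1
      exact (h v w h1.ne).1 h1
    · intro h1
      rw [SimpleGraph.compl_adj] at h1
      exact (h v w h1.1).2 h1.2

/-- the hosting lemma: the vertices of `E` are placed by `φ0`, all other vertices are placed on
`Z` -/
theorem host_all [Fintype V] {κ : Type} [DecidableEq κ] {Z : Finset T}
    (hZ : Places Gr Gb Z) {J4 J1 : Finset κ} (hJ : Disjoint J4 J1) {P : κ → Finset V} {x : κ → V}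
    {c : κ → ℕ} {f : κ → Finset T} {Q : Finset V} {C : ℕ}
    (hP : ∀ j ∈ J4 ∪ J1, TightPiece R (P j) (c j)) (hx : ∀ j ∈ J4 ∪ J1, x j ∈ P j)
    (hPP : ∀ i ∈ J4 ∪ J1, ∀ j ∈ J4 ∪ J1, i ≠ j → Sep R (P i) (P j))
    (hPQ : ∀ j ∈ J4 ∪ J1, Sep R Q (P j))
    (hdeg : ∀ v ∈ Q, (Q.filter (fun w => R.Adj v w)).card ≤ C)
    (hf4 : ∀ j ∈ J4, (f j).card ≤ 4) (hf1 : ∀ j ∈ J1, (f j).card ≤ 1)
    (hmore : J4.Nonempty → 2 ≤ C + ∑ j ∈ J1, c j)
    (hC : 2 * (C + ∑ j ∈ J4 ∪ J1, c j) + 1 ≤ Z.card)
    (hcard : Q.card + ∑ j ∈ J4 ∪ J1, 2 * c j ≤ Z.card)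
    {E : Finset V} {φ0 : V → T}
    (hcover : ∀ v, v ∈ E ∨ v ∈ Q ∨ ∃ j ∈ J4 ∪ J1, v ∈ P j ∧ v ≠ x j)
    (hE : ∀ v ∈ E, ∀ w ∈ E, v ≠ w → (R.Adj v w → Gr.Adj (φ0 v) (φ0 w)) ∧
      (¬ R.Adj v w → Gb.Adj (φ0 v) (φ0 w)))
    (hEb : ∀ v ∈ E, ∀ z ∈ Z, Gb.Adj (φ0 v) z)
    (hEr : ∀ v ∈ E, ∀ w, w ∉ E → R.Adj v w → (∀ z ∈ Z, Gr.Adj (φ0 v) z) ∨
      ∃ j ∈ J4 ∪ J1, w ∈ P j ∧ w ≠ x j ∧ ∀ z ∈ Z, z ∉ f j → Gr.Adj (φ0 v) z) :
    Contains R Rᶜ Gr Gb := by
  have hne : Z.Nonempty := card_pos.1 (by omega)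
  have : Nonempty T := ⟨hne.choose⟩
  obtain ⟨φ, h1, h2, h3⟩ := host_rest (R := R) hZ hJ hP hx hPP hPQ hdeg hf4 hf1 hmore hC hcard
  have hD : ∀ v, v ∉ E → v ∈ Q ∪ (J4 ∪ J1).biUnion (fun j => (P j).erase (x j)) := by
    intro v hv
    rw [mem_union, mem_biUnion]
    rcases (hcover v).resolve_left hv with h4 | ⟨j, hj, h4, h5⟩
    · exact Or.inl h4
    · exact Or.inr ⟨j, hj, mem_erase.2 ⟨h5, h4⟩⟩
  have hcr : ∀ v ∈ E, ∀ w, w ∉ E → R.Adj v w → Gr.Adj (φ0 v) (φ w) := by
    intro v hv w hw hvw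
    rcases hEr v hv w hw hvw with h4 | ⟨j, hj, h4, h5, h6⟩
    · exact h4 _ (h1 w (hD w hw))
    · exact h6 _ (h1 w (hD w hw)) (h2 j hj w (mem_erase.2 ⟨h5, h4⟩))
  apply contains_of_map (fun v => if v ∈ E then φ0 v else φ v)
  intro v w hvw
  by_cases hv : v ∈ E <;> by_cases hw : w ∈ E
  · simp only [if_pos hv, if_pos hw]
    exact hE v hv w hw hvw
  · simp only [if_pos hv, if_neg hw]
    exact ⟨hcr v hv w hw, fun _ => hEb v hv _ (h1 w (hD w hw))⟩
  · simp only [if_neg hv, if_pos hw]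
    exact ⟨fun h4 => (hcr w hw v hv h4.symm).symm, fun _ => (hEb w hw _ (h1 v (hD v hv))).symm⟩
  · simp only [if_neg hv, if_neg hw]
    obtain ⟨h4, h5⟩ := h3 v (hD v hv) w (hD w hw) hvw
    exact ⟨h5, fun _ => hZ.blue _ (h1 v (hD v hv)) _ (h1 w (hD w hw)) h4⟩

end places

section crit

variable {V : Type} [Fintype V] {R : SimpleGraph V}

/-- the rest of a critical set without some separated parts -/
theorem crit_rest {κ : Type} [DecidableEq κ] {P : κ → Finset V} {J : Finset κ} :
    ∀ {X : Finset V}, Crit R X → (∀ j ∈ J, P j ⊆ X) →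
    (∀ j ∈ J, Sep R (P j) (X \ P j)) → (∀ i ∈ J, ∀ j ∈ J, i ≠ j → Disjoint (P i) (P j)) →
    Crit R (X \ J.biUnion P) ∧
      th R (X \ J.biUnion P) + ∑ j ∈ J, th R (P j) = th R X ∧
      (X \ J.biUnion P).card + ∑ j ∈ J, (P j).card = X.card := by
  induction J using Finset.induction_on with
  | empty =>
    intro X hX _ _ _
    simp [hX]
  | insert i J hi ih =>
    intro X hX hPX hsep hdis
    have hi' := mem_insert_self i J
    have h1 := hPX i hi'
    have hs := hsep i hi'
    have hs' : Sep R (X \ P i) (P i) := ⟨hs.1.symm, fun x hx y hy h => hs.2 y hy x hx h.symm⟩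
    have hXe : (X \ P i) ∪ P i = X := sdiff_union_of_subset h1
    have hcr : Crit R (X \ P i) := by
      apply Crit.part (Y := P i)
      · rw [hXe]
        exact hX
      · exact hs'
    have hth := th_union_sep hs'
    rw [hXe] at hth
    have hcd := card_sdiff_add_card_eq_card h1
    have hsub : ∀ j ∈ J, P j ⊆ X \ P i := by
      intro j hj y hy
      have hne : j ≠ i := fun h => hi (h ▸ hj)
      exact mem_sdiff.2 ⟨hPX j (mem_insert_of_mem hj) hy,
        fun h => disjoint_left.1 (hdis j (mem_insert_of_mem hj) i hi' hne) hy h⟩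
    obtain ⟨h2, h3, h4⟩ := ih hcr hsub
      (fun j hj => ⟨disjoint_of_subset_right (sdiff_subset_sdiff sdiff_subset (Subset.refl _))
          (hsep j (mem_insert_of_mem hj)).1,
        fun x hx y hy => (hsep j (mem_insert_of_mem hj)).2 x hx y
          (sdiff_subset_sdiff sdiff_subset (Subset.refl _) hy)⟩)
      (fun j hj k hk => hdis j (mem_insert_of_mem hj) k (mem_insert_of_mem hk))
    have heq : X \ (insert i J).biUnion P = (X \ P i) \ J.biUnion P := by
      rw [biUnion_insert, sdiff_union_distrib]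
      ext y
      simp only [mem_inter, mem_sdiff]
      tauto
    rw [heq, sum_insert hi, sum_insert hi]
    exact ⟨h2, by omega, by omega⟩

/-- the red degrees in the rest of a critical set -/
theorem rest_degree {κ : Type} [DecidableEq κ] {P : κ → Finset V} {J : Finset κ} {X Q : Finset V}
    {c : κ → ℕ} {C : ℕ} (hX : Crit R X) (hC : X.card ≤ C + th R X)
    (hPX : ∀ j ∈ J, P j ⊆ X) (hP : ∀ j ∈ J, TightPiece R (P j) (c j))
    (hsep : ∀ j ∈ J, Sep R (P j) (X \ P j))
    (hdis : ∀ i ∈ J, ∀ j ∈ J, i ≠ j → Disjoint (P i) (P j)) (hQ : Q ⊆ X \ J.biUnion P) :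
    ∀ v ∈ Q, (Q.filter (fun w => R.Adj v w)).card + ∑ j ∈ J, c j ≤ C := by
  intro v hv
  obtain ⟨h1, h2, h3⟩ := crit_rest hX hPX hsep hdis
  have h4 := red_degree h1 (hQ hv)
  have h5 : ∑ j ∈ J, (P j).card = ∑ j ∈ J, c j + ∑ j ∈ J, th R (P j) := by
    rw [← sum_add_distrib]
    refine sum_congr rfl (fun j hj => ?_)
    rw [(hP j hj).card, (hP j hj).theta]
    omega
  have h6 : (Q.filter (fun w => R.Adj v w)).card ≤
      ((X \ J.biUnion P).filter (fun w => R.Adj v w)).card :=
    card_le_card (filter_subset_filter _ hQ)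
  omega

end crit

end HL

end Pool.Agent.Lib.MP_a05470_co
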