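import Mathlib

/-!
# The saving lemma

`U` is a set of picks, `H u` the set of the vertices hit by `u`, every hit has a colour (`rd` or
`bl`), the picks are occupied by indices (`occ0`), `M i j` says that the partner `w i` of the index
`i` is red to the index `j`.  One can choose a new occupation `occ` of `U` by the same indices and a
set `Sv` of saved vertices, used as hosts of distinct partners `w (θ y)` of the right colours, such
that at most `∑ c u` hit vertices are not saved.
-/

set_option autoImplicit false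
set_option linter.unusedSectionVars false

namespace Pool.Agent.Lib.MP_a05470_co

open Finset Classical

namespace Saving

variable {V : Type}

/-- the blocks of the hit graph -/
theorem exists_blocks (H : V → Finset V) (U : Finset V) : ∃ P : Finset (Finset V),
    (∀ T ∈ P, T.Nonempty) ∧ (∀ T ∈ P, ∀ T' ∈ P, T ≠ T' → Disjoint T T') ∧
    (∀ T ∈ P, ∀ T' ∈ P, T ≠ T' → Disjoint (T.biUnion H) (T'.biUnion H)) ∧
    P.biUnion id = U ∧
    ∀ T ∈ P, (T.biUnion H).card + T.card ≤ ∑ u ∈ T, (H u).card + 1 := by
  induction U using Finset.induction_on with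
  | empty => exact ⟨∅, by simp, by simp, by simp, by simp, by simp⟩
  | insert u U hu ih =>
    obtain ⟨P, h1, h2, h3, h4, h5⟩ := ih
    set Q := P.filter (fun T => ¬ Disjoint (H u) (T.biUnion H)) with hQ
    have hQP : Q ⊆ P := filter_subset _ _
    set N := insert u (Q.biUnion id) with hN
    have huQ : u ∉ Q.biUnion id := by
      intro h
      apply hu
      rw [← h4]
      exact biUnion_subset_biUnion_of_subset_left _ hQP h
    have hNH : N.biUnion H = H u ∪ Q.biUnion (fun T => T.biUnion H) := by
      rw [hN, biUnion_insert, biUnion_biUnion]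
      rfl
    -- the parts are not in `N`
    have hdis : ∀ T ∈ P \ Q, Disjoint T N := by
      intro T hT
      rw [mem_sdiff] at hT
      rw [hN, disjoint_insert_right, disjoint_biUnion_right]
      refine ⟨fun h => hu ?_, fun T' hT' => h2 T hT.1 T' (hQP hT') (fun h => hT.2 (h ▸ hT'))⟩
      rw [← h4]
      exact mem_biUnion.2 ⟨T, hT.1, h⟩
    have hdisH : ∀ T ∈ P \ Q, Disjoint (T.biUnion H) (N.biUnion H) := by
      intro T hT
      rw [mem_sdiff] at hT
      rw [hNH, disjoint_union_right, disjoint_biUnion_right]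
      constructor
      · by_contra hcon
        apply hT.2
        rw [hQ, mem_filter]
        exact ⟨hT.1, fun h => hcon h.symm⟩
      · exact fun T' hT' => h3 T hT.1 T' (hQP hT') (fun h => hT.2 (h ▸ hT'))
    refine ⟨insert N (P \ Q), ?_, ?_, ?_, ?_, ?_⟩
    · intro T hT
      rcases mem_insert.1 hT with rfl | hT
      · exact ⟨u, mem_insert_self _ _⟩
      · exact h1 T (mem_sdiff.1 hT).1
    · intro T hT T' hT' hne
      rcases mem_insert.1 hT with rfl | hT <;> rcases mem_insert.1 hT' with rfl | hT'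
      · exact absurd rfl hne
      · exact (hdis T' hT').symm
      · exact hdis T hT
      · exact h2 T (mem_sdiff.1 hT).1 T' (mem_sdiff.1 hT').1 hne
    · intro T hT T' hT' hne
      rcases mem_insert.1 hT with rfl | hT <;> rcases mem_insert.1 hT' with rfl | hT'
      · exact absurd rfl hne
      · exact (hdisH T' hT').symm
      · exact hdisH T hT
      · exact h3 T (mem_sdiff.1 hT).1 T' (mem_sdiff.1 hT').1 hne
    · rw [biUnion_insert, id, hN, insert_union, ← union_biUnion, union_sdiff_of_subset hQP, h4]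
    · intro T hT
      rcases mem_insert.1 hT with rfl | hT
      · -- the new block
        have e1 : N.card = (∑ T ∈ Q, T.card) + 1 := by
          rw [hN, card_insert_of_notMem huQ, card_biUnion]
          · rfl
          · intro T hT T' hT' hne
            exact h2 T (hQP hT) T' (hQP hT') hne
        have e2 : ∑ v ∈ N, (H v).card = (H u).card + ∑ T ∈ Q, ∑ v ∈ T, (H v).card := by
          rw [hN, sum_insert huQ, sum_biUnion]
          · rfl
          · intro T hT T' hT' hne
            exact h2 T (hQP hT) T' (hQP hT') hne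
        have e3 : (N.biUnion H).card ≤ ∑ T ∈ Q, (T.biUnion H).card +
            (H u \ Q.biUnion (fun T => T.biUnion H)).card := by
          rw [hNH, union_comm, ← union_sdiff_self_eq_union]
          refine (card_union_le _ _).trans ?_
          exact Nat.add_le_add_right card_biUnion_le _
        have e4 : (H u \ Q.biUnion (fun T => T.biUnion H)).card + Q.card ≤ (H u).card := by
          have e5 : Q.card ≤ (H u ∩ Q.biUnion (fun T => T.biUnion H)).card := by
            have hch : ∀ T ∈ Q, ∃ y, y ∈ H u ∧ y ∈ T.biUnion H := by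
              intro T hT
              rw [hQ, mem_filter] at hT
              exact Finset.not_disjoint_iff.1 hT.2
            have : Nonempty V := ⟨u⟩
            choose! f hf1 hf2 using hch
            apply card_le_card_of_injOn f
            · intro T hT
              rw [mem_coe] at hT ⊢
              rw [mem_inter, mem_biUnion]
              exact ⟨hf1 T hT, T, hT, hf2 T hT⟩
            · intro T hT T' hT' hff
              by_contra hne
              rw [mem_coe] at hT hT'
              have := h3 T (hQP hT) T' (hQP hT') hne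
              exact Finset.disjoint_left.1 this (hf2 T hT) (by rw [hff]; exact hf2 T' hT')
          have e6 := card_sdiff_add_card_inter (H u) (Q.biUnion (fun T => T.biUnion H))
          omega
        have e7 : ∑ T ∈ Q, ((T.biUnion H).card + T.card) ≤
            ∑ T ∈ Q, (∑ v ∈ T, (H v).card + 1) := sum_le_sum (fun T hT => h5 T (hQP hT))
        rw [sum_add_distrib, sum_add_distrib, sum_const, smul_eq_mul, mul_one] at e7
        omega
      · exact h5 T (mem_sdiff.1 hT).1

variable {ι : Type}

/-- the saved vertex of a block -/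
theorem block_save {H : V → Finset V} {T : Finset V} {rd bl : V → V → Prop}
    {M : ι → ι → Prop} {occ0 : V → ι} (hocc : Set.InjOn occ0 T) (hM : ∀ i, M i i)
    (htight : ∑ u ∈ T, (H u).card + 1 ≤ (T.biUnion H).card + T.card)
    (hcol : ∀ u ∈ T, ∀ y ∈ H u, rd u y ∨ bl u y) (hred : ∀ u ∈ T, ∃ y ∈ H u, rd u y)
    (hβ : T.card ≤ (T.biUnion H).card) :
    ∃ occ : V → ι, Set.InjOn occ T ∧ (∀ u ∈ T, occ u ∈ T.image occ0) ∧
      ∃ y ∈ T.biUnion H, ∃ i ∈ T.image occ0, ∀ u ∈ T, y ∈ H u →
        (M i (occ u) → rd u y) ∧ (¬ M i (occ u) → bl u y) := by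
  -- the edges counted at `y`
  have hcount : ∀ A : V → V → Prop, ∑ u ∈ T, ((H u).filter (fun y => A u y)).card =
      ∑ y ∈ T.biUnion H, (T.filter (fun u => y ∈ H u ∧ A u y)).card := by
    intro A
    have h1 : ∀ u ∈ T, ((H u).filter (fun y => A u y)).card =
        ∑ y ∈ T.biUnion H, if y ∈ H u ∧ A u y then 1 else 0 := by
      intro u hu
      rw [card_filter, ← sum_subset (subset_biUnion_of_mem H hu)]
      · apply sum_congr rfl
        intro y hy
        simp [hy]
      · intro y _ hy
        simp [hy]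
    rw [sum_congr rfl h1, sum_comm]
    apply sum_congr rfl
    intro y _
    rw [card_filter]
  -- a vertex with exactly one hit
  have hleaf : ∃ y ∈ T.biUnion H, (T.filter (fun u => y ∈ H u)).card ≤ 1 := by
    by_contra hcon
    push Not at hcon
    have h1 := hcount (fun _ _ => True)
    simp only [and_true, filter_true] at h1
    have h2 : ∑ y ∈ T.biUnion H, 2 ≤ ∑ y ∈ T.biUnion H, (T.filter (fun u => y ∈ H u)).card :=
      sum_le_sum (fun y hy => hcon y hy)
    rw [sum_const, smul_eq_mul] at h2
    omega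
  obtain ⟨y, hy, hy1⟩ := hleaf
  obtain ⟨u, hu, hyu⟩ := mem_biUnion.1 hy
  have huniq : ∀ v ∈ T, y ∈ H v → v = u := by
    intro v hv hyv
    exact card_le_one.1 hy1 v (mem_filter.2 ⟨hv, hyv⟩) u (mem_filter.2 ⟨hu, hyu⟩)
  by_cases hr : rd u y
  · refine ⟨occ0, hocc, fun v hv => mem_image_of_mem _ hv, y, hy, occ0 u,
      mem_image_of_mem _ hu, ?_⟩
    intro v hv hyv
    rw [huniq v hv hyv]
    exact ⟨fun _ => hr, fun h => absurd (hM _) h⟩
  · have hb : bl u y := (hcol u hu y hyu).resolve_left hr
    by_cases hex : ∃ v ∈ T, ¬ M (occ0 u) (occ0 v)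
    · obtain ⟨v, hv, hMv⟩ := hex
      refine ⟨fun x => occ0 (Equiv.swap u v x), ?_, ?_, y, hy, occ0 u,
        mem_image_of_mem _ hu, ?_⟩
      · intro x hx x' hx' hxx
        have hsw : ∀ x ∈ T, Equiv.swap u v x ∈ T := by
          intro x hx
          by_cases h1 : x = u
          · rw [h1, Equiv.swap_apply_left]
            exact hv
          · by_cases h2 : x = v
            · rw [h2, Equiv.swap_apply_right]
              exact hu
            · rw [Equiv.swap_apply_of_ne_of_ne h1 h2]
              exact hx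
        exact (Equiv.swap u v).injective (hocc (mem_coe.2 (hsw x hx)) (mem_coe.2 (hsw x' hx')) hxx)
      · intro x hx
        apply mem_image_of_mem
        by_cases h1 : x = u
        · rw [h1, Equiv.swap_apply_left]
          exact hv
        · by_cases h2 : x = v
          · rw [h2, Equiv.swap_apply_right]
            exact hu
          · rw [Equiv.swap_apply_of_ne_of_ne h1 h2]
            exact hx
      · intro x hx hyx
        rw [huniq x hx hyx]
        simp only [Equiv.swap_apply_left]
        exact ⟨fun h => absurd h hMv, fun _ => hb⟩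
    · push Not at hex
      -- some `y'` has only red hits
      have hall : ∃ y' ∈ T.biUnion H, ∀ v ∈ T, y' ∈ H v → rd v y' := by
        by_contra hcon
        push Not at hcon
        have h1 := hcount (fun u y => rd u y)
        have h2 : ∑ u ∈ T, ((H u).filter (fun y => ¬ rd u y)).card =
            ∑ y ∈ T.biUnion H, (T.filter (fun u => y ∈ H u ∧ ¬ rd u y)).card := by
          convert hcount (fun u y => ¬ rd u y)
        have h3 : ∑ u ∈ T, 1 ≤ ∑ u ∈ T, ((H u).filter (fun y => rd u y)).card := by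
          apply sum_le_sum
          intro v hv
          obtain ⟨z, hz, hvz⟩ := hred v hv
          exact card_pos.2 ⟨z, mem_filter.2 ⟨hz, hvz⟩⟩
        have h4 : ∑ y ∈ T.biUnion H, 1 ≤
            ∑ u ∈ T, ((H u).filter (fun y => ¬ rd u y)).card := by
          rw [h2]
          apply sum_le_sum
          intro z hz
          obtain ⟨v, hv, hzv, hvz⟩ := hcon z hz
          exact card_pos.2 ⟨v, mem_filter.2 ⟨hv, hzv, hvz⟩⟩
        have h5 : ∑ u ∈ T, (H u).card = ∑ u ∈ T, ((H u).filter (fun y => rd u y)).card +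
            ∑ u ∈ T, ((H u).filter (fun y => ¬ rd u y)).card := by
          rw [← sum_add_distrib]
          exact sum_congr rfl (fun v _ => (card_filter_add_card_filter_not _).symm)
        rw [sum_const, smul_eq_mul, mul_one] at h3 h4
        omega
      obtain ⟨y', hy', hall⟩ := hall
      refine ⟨occ0, hocc, fun v hv => mem_image_of_mem _ hv, y', hy', occ0 u,
        mem_image_of_mem _ hu, ?_⟩
      intro v hv hyv
      exact ⟨fun _ => hall v hv hyv, fun h => absurd (hex v hv) h⟩

/-- **The saving lemma.** -/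
theorem saving {H : V → Finset V} {U : Finset V} {rd bl : V → V → Prop} {M : ι → ι → Prop}
    {occ0 : V → ι} (hocc : Set.InjOn occ0 U) (hM : ∀ i, M i i) {c : V → ℤ} {Free : V → Prop}
    (hc : ∀ u ∈ U, ((H u).card : ℤ) ≤ c u + 1) (hfree : ∀ u ∈ U, Free u → ((H u).card : ℤ) ≤ c u)
    (hcol : ∀ u ∈ U, ¬ Free u → ∀ y ∈ H u, rd u y ∨ bl u y)
    (hred : ∀ u ∈ U, ¬ Free u → ∃ y ∈ H u, rd u y)
    (hβ : ∀ T ⊆ U, (∀ u ∈ T, ¬ Free u) → T.card ≤ (T.biUnion H).card) :
    ∃ occ : V → ι, Set.InjOn occ U ∧ (∀ u ∈ U, occ u ∈ U.image occ0) ∧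
      ∃ (Sv : Finset V) (θ : V → ι), Sv ⊆ U.biUnion H ∧ Set.InjOn θ Sv ∧
        (∀ y ∈ Sv, θ y ∈ U.image occ0) ∧
        (∀ y ∈ Sv, ∀ u ∈ U, y ∈ H u → (M (θ y) (occ u) → rd u y) ∧
          (¬ M (θ y) (occ u) → bl u y)) ∧
        ((((U.biUnion H) \ Sv).card : ℕ) : ℤ) ≤ ∑ u ∈ U, c u := by
  obtain ⟨P, h1, h2, h3, h4, h5⟩ := exists_blocks H U
  have hsubU : ∀ T ∈ P, T ⊆ U := by
    intro T hT
    rw [← h4]
    exact subset_biUnion_of_mem id hT
  by_cases hU : U = ∅
  · subst hU
    exact ⟨occ0, by simp, by simp, ∅, occ0, by simp, by simp, by simp, by simp, by simp⟩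
  obtain ⟨u0, hu0⟩ := nonempty_iff_ne_empty.2 hU
  -- the blocks which need a saved vertex
  set Tight : Finset V → Prop := fun T => (∀ u ∈ T, ¬ Free u) ∧
    ∑ u ∈ T, (H u).card + 1 ≤ (T.biUnion H).card + T.card with hTight
  have key : ∀ T ∈ P, ∃ (occ : V → ι) (y : V) (i : ι), Set.InjOn occ T ∧
      (∀ u ∈ T, occ u ∈ T.image occ0) ∧ (Tight T → y ∈ T.biUnion H ∧ i ∈ T.image occ0 ∧
        ∀ u ∈ T, y ∈ H u → (M i (occ u) → rd u y) ∧ (¬ M i (occ u) → bl u y)) := by
    intro T hT
    by_cases ht : Tight T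
    · obtain ⟨occ, ho, ho2, y, hy, i, hi, hcol'⟩ := block_save (M := M)
        (hocc.mono (by exact_mod_cast hsubU T hT)) hM ht.2
        (fun u hu => hcol u (hsubU T hT hu) (ht.1 u hu))
        (fun u hu => hred u (hsubU T hT hu) (ht.1 u hu)) (hβ T (hsubU T hT) ht.1)
      exact ⟨occ, y, i, ho, ho2, fun _ => ⟨hy, hi, hcol'⟩⟩
    · exact ⟨occ0, u0, occ0 u0, hocc.mono (by exact_mod_cast hsubU T hT),
        fun u hu => mem_image_of_mem _ hu, fun h => absurd h ht⟩
  have : Nonempty V := ⟨u0⟩
  have : Nonempty ι := ⟨occ0 u0⟩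
  choose! occT yT iT hk1 hk2 hk3 using key
  -- the block of a vertex
  have hblk : ∀ u ∈ U, ∃ T ∈ P, u ∈ T := by
    intro u hu
    rw [← h4, mem_biUnion] at hu
    exact hu
  choose! blk hb1 hb2 using hblk
  have hbuniq : ∀ T ∈ P, ∀ u ∈ T, blk u = T := by
    intro T hT u hu
    have huU := hsubU T hT hu
    by_contra hne
    exact Finset.disjoint_left.1 (h2 _ (hb1 u huU) T hT hne) (hb2 u huU) hu
  set PT := P.filter Tight with hPT
  have hPTP : PT ⊆ P := filter_subset _ _
  have hyuniq : ∀ T ∈ PT, ∀ T' ∈ PT, yT T = yT T' → T = T' := by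
    intro T hT T' hT' hyy
    by_contra hne
    have hyT := (hk3 T (hPTP hT) (mem_filter.1 hT).2).1
    have hyT' := (hk3 T' (hPTP hT') (mem_filter.1 hT').2).1
    exact Finset.disjoint_left.1 (h3 T (hPTP hT) T' (hPTP hT') hne) hyT (hyy ▸ hyT')
  -- the index of a saved vertex
  obtain ⟨θ, hθ⟩ : ∃ θ : V → ι, ∀ T ∈ PT, θ (yT T) = iT T := by
    refine ⟨fun y => if h : ∃ T ∈ PT, yT T = y then iT h.choose else occ0 u0, ?_⟩
    intro T hT
    have h : ∃ T' ∈ PT, yT T' = yT T := ⟨T, hT, rfl⟩
    simp only [dif_pos h]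
    rw [hyuniq _ h.choose_spec.1 T hT h.choose_spec.2]
  have hindep : ∀ T ∈ P, ∀ T' ∈ P, T ≠ T' → ∀ i, i ∈ T.image occ0 → i ∈ T'.image occ0 → False := by
    intro T hT T' hT' hne i hi hi'
    rw [mem_image] at hi hi'
    obtain ⟨u, hu, rfl⟩ := hi
    obtain ⟨u', hu', he⟩ := hi'
    have := hocc (mem_coe.2 (hsubU T' hT' hu')) (mem_coe.2 (hsubU T hT hu)) he
    subst this
    exact Finset.disjoint_left.1 (h2 T hT T' hT' hne) hu hu'
  have himg : ∀ T ∈ P, T.image occ0 ⊆ U.image occ0 := fun T hT => image_subset_image (hsubU T hT)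
  refine ⟨fun u => occT (blk u) u, ?_, ?_, PT.image yT, θ, ?_, ?_, ?_, ?_, ?_⟩
  · intro u hu v hv huv
    rw [mem_coe] at hu hv
    simp only at huv
    have e1 := hk2 _ (hb1 u hu) u (hb2 u hu)
    have e2 := hk2 _ (hb1 v hv) v (hb2 v hv)
    by_cases hne : blk u = blk v
    · rw [hne] at huv
      exact hk1 _ (hb1 v hv) (mem_coe.2 (hne ▸ hb2 u hu)) (mem_coe.2 (hb2 v hv)) huv
    · exact (hindep _ (hb1 u hu) _ (hb1 v hv) hne _ e1 (huv ▸ e2)).elim
  · intro u hu
    exact himg _ (hb1 u hu) (hk2 _ (hb1 u hu) u (hb2 u hu))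
  · intro y hy
    rw [mem_image] at hy
    obtain ⟨T, hT, rfl⟩ := hy
    exact biUnion_subset_biUnion_of_subset_left _ (hsubU T (hPTP hT))
      (hk3 T (hPTP hT) (mem_filter.1 hT).2).1
  · intro y hy y' hy' hyy
    rw [mem_coe, mem_image] at hy hy'
    obtain ⟨T, hT, rfl⟩ := hy
    obtain ⟨T', hT', rfl⟩ := hy'
    rw [hθ T hT, hθ T' hT'] at hyy
    by_cases hne : T = T'
    · rw [hne]
    · exact (hindep T (hPTP hT) T' (hPTP hT') hne _
        (hk3 T (hPTP hT) (mem_filter.1 hT).2).2.1
        (hyy ▸ (hk3 T' (hPTP hT') (mem_filter.1 hT').2).2.1)).elim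
  · intro y hy
    rw [mem_image] at hy
    obtain ⟨T, hT, rfl⟩ := hy
    rw [hθ T hT]
    exact himg T (hPTP hT) (hk3 T (hPTP hT) (mem_filter.1 hT).2).2.1
  · intro y hy u hu hyu
    rw [mem_image] at hy
    obtain ⟨T, hT, rfl⟩ := hy
    obtain ⟨hyT, _, hc'⟩ := hk3 T (hPTP hT) (mem_filter.1 hT).2
    have hbl : blk u = T := by
      by_contra hne
      have := h3 _ (hb1 u hu) T (hPTP hT) hne
      exact Finset.disjoint_left.1 this (mem_biUnion.2 ⟨u, hb2 u hu, hyu⟩) hyT
    have huT : u ∈ T := hbl ▸ hb2 u hu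
    rw [hθ T hT]
    simp only [hbl]
    exact hc' u huT hyu
  · -- the count
    have e1 : U.biUnion H = P.biUnion (fun T => T.biUnion H) := by
      rw [← h4, biUnion_biUnion]
      rfl
    have e2 : (U.biUnion H).card = ∑ T ∈ P, (T.biUnion H).card := by
      rw [e1, card_biUnion (fun T hT T' hT' hne => h3 T hT T' hT' hne)]
    have e3 : (PT.image yT).card = PT.card :=
      card_image_of_injOn (fun T hT T' hT' h => hyuniq T hT T' hT' h)
    have e4 : PT.image yT ⊆ U.biUnion H := by
      intro y hy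
      rw [mem_image] at hy
      obtain ⟨T, hT, rfl⟩ := hy
      exact biUnion_subset_biUnion_of_subset_left _ (hsubU T (hPTP hT))
        (hk3 T (hPTP hT) (mem_filter.1 hT).2).1
    have e5 : (((U.biUnion H) \ (PT.image yT)).card : ℤ) =
        ∑ T ∈ P, ((T.biUnion H).card : ℤ) - ∑ T ∈ P, (if Tight T then 1 else 0) := by
      have h6 := card_sdiff_add_card_inter (U.biUnion H) (PT.image yT)
      rw [inter_eq_right.2 e4, e3, e2] at h6
      have h7 : (∑ T ∈ P, (if Tight T then (1 : ℤ) else 0)) = (PT.card : ℤ) := by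
        rw [hPT, card_filter]
        push_cast
        rfl
      rw [h7]
      have h8 : (∑ T ∈ P, ((T.biUnion H).card : ℤ)) = ((∑ T ∈ P, (T.biUnion H).card : ℕ) : ℤ) := by
        push_cast
        rfl
      rw [h8, ← h6]
      push_cast
      ring
    rw [e5, ← sum_sub_distrib]
    have e6 : ∑ u ∈ U, c u = ∑ T ∈ P, ∑ u ∈ T, c u := by
      rw [← h4, sum_biUnion]
      · rfl
      · intro T hT T' hT' hne
        exact h2 T hT T' hT' hne
    rw [e6]
    apply sum_le_sum
    intro T hT
    have h6 : ((T.biUnion H).card : ℤ) + T.card ≤ ∑ u ∈ T, ((H u).card : ℤ) + 1 := by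
      have := h5 T hT
      exact_mod_cast this
    have h7 : ∑ u ∈ T, ((H u).card : ℤ) ≤ ∑ u ∈ T, c u + T.card := by
      have h8 : ∑ u ∈ T, ((H u).card : ℤ) ≤ ∑ u ∈ T, (c u + 1) :=
        sum_le_sum (fun u hu => hc u (hsubU T hT hu))
      rw [sum_add_distrib, sum_const, nsmul_eq_mul, mul_one] at h8
      exact h8
    by_cases ht : Tight T
    · rw [if_pos ht]
      linarith
    · rw [if_neg ht]
      rw [hTight] at ht
      simp only [not_and_or] at ht
      rcases ht with ht | ht
      · push Not at ht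
        obtain ⟨u, hu, hfu⟩ := ht
        have h8 : ∑ u ∈ T, ((H u).card : ℤ) + 1 ≤ ∑ u ∈ T, c u + T.card := by
          have h9 : ∑ v ∈ T, (((H v).card : ℤ) + (if v = u then 1 else 0)) ≤
              ∑ v ∈ T, (c v + 1) := by
            apply sum_le_sum
            intro v hv
            by_cases hvu : v = u
            · rw [if_pos hvu]
              have := hfree v (hsubU T hT hv) (hvu ▸ hfu)
              linarith
            · rw [if_neg hvu, add_zero]
              exact hc v (hsubU T hT hv)
          rw [sum_add_distrib, sum_add_distrib, sum_const, nsmul_eq_mul, mul_one,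
            sum_ite_eq', if_pos hu] at h9
          exact h9
        linarith
      · push Not at ht
        have h8 : ((T.biUnion H).card : ℤ) + T.card < ∑ u ∈ T, ((H u).card : ℤ) + 1 := by
          exact_mod_cast ht
        linarith

end Saving

end Pool.Agent.Lib.MP_a05470_co
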