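import Mathlib

/-!
# The two-constraint lemma

`V` finite, `G` a graph on `V` (the green pairs), `S` a set of allowed vertices in which every
vertex of `V` has at most `δ` non-neighbours, two nonnegative functionals `d0, d1` with
`∑_S d_i < δ * J_i`.  If `(s + 2) * δ ≤ |S|` there is a clique `W ⊆ S` of `G` with `s` elements and
`∑_W d_i < J_i` for both `i`.
-/

set_option autoImplicit false
set_option linter.unusedSectionVars false

namespace Pool.Agent.Lib.MP_a05470_co

open Finset Classical

namespace TwoCon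

variable {V : Type} [Fintype V]

/-- `ys` is a relaxed greedy sequence for `d` in `S`: every element is a minimum of `d` over the
set of the vertices of `S` adjacent to all the former elements, and to an auxiliary vertex (or
over the whole of that set). -/
def Greedy (G : SimpleGraph V) (d : V → ℝ) : Finset V → List V → Prop
  | _, [] => True
  | S, (p :: l) => (p ∈ S ∧ ∃ T : Finset V, (T = S ∨ ∃ x : V, T = S.filter (fun y => G.Adj x y)) ∧
      p ∈ T ∧ ∀ v ∈ T, d p ≤ d v) ∧ Greedy G d (S.filter (fun y => G.Adj p y)) l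

variable {G : SimpleGraph V} {d : V → ℝ}

theorem Greedy.mem {l : List V} : ∀ {S : Finset V}, Greedy G d S l → ∀ p ∈ l, p ∈ S := by
  induction l with
  | nil => intro S _ p hp; simp at hp
  | cons q l ih =>
    intro S h p hp
    rcases List.mem_cons.1 hp with rfl | hp
    · exact h.1.1
    · exact (mem_filter.1 (ih h.2 p hp)).1

theorem Greedy.pairwise {l : List V} : ∀ {S : Finset V}, Greedy G d S l → l.Pairwise G.Adj := by
  induction l with
  | nil => intro S _; exact List.Pairwise.nil
  | cons q l ih =>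
    intro S h
    rw [List.pairwise_cons]
    exact ⟨fun p hp => (mem_filter.1 (h.2.mem p hp)).2, ih h.2⟩

theorem Greedy.nodup {l : List V} {S : Finset V} (h : Greedy G d S l) : l.Nodup :=
  List.Pairwise.imp (fun hadj => hadj.ne) h.pairwise

/-- every vertex has at most `δ` non-neighbours in `S` -/
def NonAdj (G : SimpleGraph V) (S : Finset V) (δ : ℝ) : Prop :=
  ∀ v : V, ((S.filter (fun y => ¬ G.Adj v y)).card : ℝ) ≤ δ

theorem NonAdj.sub {S T : Finset V} {δ : ℝ} (h : NonAdj G S δ) (hT : T ⊆ S) : NonAdj G T δ := by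
  intro v
  refine le_trans ?_ (h v)
  exact_mod_cast card_le_card (filter_subset_filter _ hT)

theorem NonAdj.card {S : Finset V} {δ : ℝ} (h : NonAdj G S δ) (v : V) :
    (S.card : ℝ) - δ ≤ (S.filter (fun y => G.Adj v y)).card := by
  have h1 := card_filter_add_card_filter_not (s := S) (fun y => G.Adj v y)
  have h2 := h v
  have h3 : (S.card : ℝ) = ((S.filter (fun y => G.Adj v y)).card : ℝ) +
      ((S.filter (fun y => ¬ G.Adj v y)).card : ℝ) := by exact_mod_cast h1.symm
  linarith

/-! ### the quantile bound -/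

theorem quantile {S : Finset V} {δ : ℝ} (hδ : 0 ≤ δ) {t : ℕ} (hS : ((t : ℝ) + 1) * δ ≤ S.card)
    (m : ℕ) : ∀ (I : Finset ℕ) (τ : ℕ → ℝ) (d : V → ℝ), I.card = m → (∀ i ∈ I, 1 ≤ i ∧ i ≤ t) →
      (∀ i ∈ I, 0 ≤ τ i) → (∀ v ∈ S, 0 ≤ d v) →
      (∀ i ∈ I, ((S.filter (fun v => d v < τ i)).card : ℝ) ≤ i * δ) →
      δ * ∑ i ∈ I, τ i ≤ ∑ v ∈ S, d v := by
  induction m with
  | zero =>
    intro I τ d hI _ _ hd _
    rw [card_eq_zero] at hI
    rw [hI, sum_empty, mul_zero]
    exact sum_nonneg hd
  | succ m ih =>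
    intro I τ d hI hIt hτ hd hcard
    have hne : I.Nonempty := card_pos.1 (by omega)
    obtain ⟨j, hj, hjmin⟩ := exists_min_image I τ hne
    set d' : V → ℝ := fun v => max (d v - τ j) 0 with hd'
    have h1 := ih (I.erase j) (fun i => τ i - τ j) d' (by rw [card_erase_of_mem hj, hI]; rfl)
      (fun i hi => hIt i (mem_of_mem_erase hi))
      (fun i hi => sub_nonneg.2 (hjmin i (mem_of_mem_erase hi)))
      (fun v _ => le_max_right _ _) (by
        intro i hi
        refine le_trans ?_ (hcard i (mem_of_mem_erase hi))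
        apply Nat.cast_le.2
        apply card_le_card
        intro v hv
        rw [mem_filter] at hv ⊢
        refine ⟨hv.1, ?_⟩
        have := lt_of_le_of_lt (le_max_left _ _) hv.2
        linarith)
    -- the number of vertices with `τ j ≤ d v`
    obtain ⟨i0, hi0, hi0min⟩ := exists_min_image I (fun i => i) hne
    have h2 : ((S.filter (fun v => d v < τ j)).card : ℝ) ≤ i0 * δ := by
      refine le_trans ?_ (hcard i0 hi0)
      apply Nat.cast_le.2
      apply card_le_card
      intro v hv
      rw [mem_filter] at hv ⊢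
      exact ⟨hv.1, lt_of_lt_of_le hv.2 (hjmin i0 hi0)⟩
    have h3 : I.card + i0 ≤ t + 1 := by
      have h4 : I ⊆ Finset.Icc i0 t := by
        intro i hi
        rw [mem_Icc]
        exact ⟨hi0min i hi, (hIt i hi).2⟩
      have h5 := card_le_card h4
      rw [Nat.card_Icc] at h5
      have h6 := (hIt i0 hi0).2
      omega
    have h4 : (S.card : ℝ) = ((S.filter (fun v => d v < τ j)).card : ℝ) +
        ((S.filter (fun v => ¬ d v < τ j)).card : ℝ) := by
      exact_mod_cast (card_filter_add_card_filter_not (s := S) (fun v => d v < τ j)).symm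
    have h5 : (I.card : ℝ) * δ ≤ ((S.filter (fun v => ¬ d v < τ j)).card : ℝ) := by
      have h6 : ((I.card : ℝ) + i0) * δ ≤ ((t : ℝ) + 1) * δ := by
        apply mul_le_mul_of_nonneg_right _ hδ
        exact_mod_cast h3
      nlinarith
    have h6 : ∑ v ∈ S, (d' v + (if d v < τ j then 0 else τ j)) ≤ ∑ v ∈ S, d v := by
      apply sum_le_sum
      intro v hv
      by_cases h7 : d v < τ j
      · rw [if_pos h7, add_zero]
        simp only [hd']
        rw [max_eq_right (by linarith)]
        exact hd v hv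
      · rw [if_neg h7]
        simp only [hd']
        rw [max_eq_left (by linarith)]
        linarith
    rw [sum_add_distrib] at h6
    have h7 : ∑ v ∈ S, (if d v < τ j then (0 : ℝ) else τ j) =
        ((S.filter (fun v => ¬ d v < τ j)).card : ℝ) * τ j := by
      rw [← sum_filter_add_sum_filter_not S (fun v => d v < τ j)]
      rw [sum_eq_zero (s := S.filter (fun v => d v < τ j)) (fun v hv => by
        rw [if_pos (mem_filter.1 hv).2]), zero_add]
      rw [sum_congr rfl (fun v hv => if_neg (mem_filter.1 hv).2), sum_const, nsmul_eq_mul]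
    rw [h7] at h6
    have h8 : (I.card : ℝ) * δ * τ j ≤
        ((S.filter (fun v => ¬ d v < τ j)).card : ℝ) * τ j :=
      mul_le_mul_of_nonneg_right h5 (hτ j hj)
    have h9 : ∑ i ∈ I, τ i = τ j + ∑ i ∈ I.erase j, τ i := (add_sum_erase I τ hj).symm
    have h10 : ∑ i ∈ I.erase j, (τ i - τ j) = ∑ i ∈ I.erase j, τ i - m * τ j := by
      rw [sum_sub_distrib, sum_const, card_erase_of_mem hj, hI, nsmul_eq_mul]
      simp
    rw [h10] at h1
    have h11 : (I.card : ℝ) = m + 1 := by
      rw [hI]
      push_cast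
      ring
    rw [h11] at h8
    rw [h9]
    nlinarith

theorem Greedy.count {δ : ℝ} {l : List V} : ∀ {S : Finset V}, NonAdj G S δ → Greedy G d S l →
    ∀ (i : ℕ) (hi : i < l.length),
      ((S.filter (fun v => d v < d (l[i]'hi))).card : ℝ) ≤ ((i + 1 : ℕ) : ℝ) * δ := by
  induction l with
  | nil => intro S _ _ i hi; simp at hi
  | cons p l ih =>
    intro S hS h i hi
    rcases i with _ | i
    · simp only [List.getElem_cons_zero]
      obtain ⟨⟨hp, T, hT, hpT, hmin⟩, _⟩ := h
      have hδ : 0 ≤ δ := le_trans (Nat.cast_nonneg _) (hS p)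
      rcases hT with rfl | ⟨x, rfl⟩
      · rw [filter_false_of_mem (fun v hv => not_lt.2 (hmin v hv))]
        simp
        exact hδ
      · have h1 : S.filter (fun v => d v < d p) ⊆ S.filter (fun y => ¬ G.Adj x y) := by
          intro v hv
          rw [mem_filter] at hv ⊢
          refine ⟨hv.1, fun hadj => ?_⟩
          exact absurd hv.2 (not_lt.2 (hmin v (mem_filter.2 ⟨hv.1, hadj⟩)))
        have h2 : ((S.filter (fun v => d v < d p)).card : ℝ) ≤
            ((S.filter (fun y => ¬ G.Adj x y)).card : ℝ) := by exact_mod_cast card_le_card h1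
        have h3 := hS x
        push_cast
        linarith
    · simp only [List.getElem_cons_succ]
      have hi' : i < l.length := by simpa using hi
      have h1 := ih (hS.sub (filter_subset _ S)) h.2 i hi'
      have h2 : S.filter (fun v => d v < d (l[i]'hi')) ⊆ (S.filter (fun y => ¬ G.Adj p y)) ∪
          (S.filter (fun y => G.Adj p y)).filter (fun v => d v < d (l[i]'hi')) := by
        intro v hv
        rw [mem_filter] at hv
        rw [mem_union, mem_filter, mem_filter, mem_filter]
        by_cases hadj : G.Adj p v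
        · exact Or.inr ⟨⟨hv.1, hadj⟩, hv.2⟩
        · exact Or.inl ⟨hv.1, hadj⟩
      have h3 := (card_le_card h2).trans (card_union_le _ _)
      have h4 : ((S.filter (fun v => d v < d (l[i]'hi'))).card : ℝ) ≤
          ((S.filter (fun y => ¬ G.Adj p y)).card : ℝ) +
          (((S.filter (fun y => G.Adj p y)).filter (fun v => d v < d (l[i]'hi'))).card : ℝ) := by
        exact_mod_cast h3
      have h5 := hS p
      push_cast at h1 ⊢
      linarith

theorem Greedy.sum_le {δ : ℝ} {l : List V} {S : Finset V} (hδ : 0 ≤ δ) (hS : NonAdj G S δ)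
    (h : Greedy G d S l) (hcard : ((l.length : ℝ) + 1) * δ ≤ S.card) (hd : ∀ v ∈ S, 0 ≤ d v) :
    δ * ∑ v ∈ l.toFinset, d v ≤ ∑ v ∈ S, d v := by
  by_cases hl : l = []
  · rw [hl]
    simp
    exact sum_nonneg hd
  have hlen : 0 < l.length := List.length_pos_iff.2 hl
  have : Nonempty V := ⟨l[0]'hlen⟩
  obtain ⟨v0⟩ := this
  set τ : ℕ → ℝ := fun i => if hi : i - 1 < l.length then d (l[i - 1]'hi) else 0 with hτ
  have h1 := quantile hδ hcard _ (Finset.Icc 1 l.length) τ d rfl (fun i hi => mem_Icc.1 hi) (by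
    intro i hi
    rw [mem_Icc] at hi
    have h2 : i - 1 < l.length := by omega
    simp only [hτ, dif_pos h2]
    exact hd _ (h.mem _ (List.getElem_mem h2))) hd (by
    intro i hi
    rw [mem_Icc] at hi
    have h2 : i - 1 < l.length := by omega
    simp only [hτ, dif_pos h2]
    have h3 := h.count hS (i - 1) h2
    have h4 : i - 1 + 1 = i := by omega
    rw [h4] at h3
    exact h3)
  refine le_trans (le_of_eq ?_) h1
  congr 1
  rw [List.sum_toFinset d h.nodup]
  have h2 : ∑ i ∈ Finset.Icc 1 l.length, τ i = ∑ i ∈ Finset.range l.length, τ (i + 1) := by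
    rw [Finset.range_eq_Ico, Finset.sum_Ico_add' τ 0 l.length 1]
    apply sum_congr _ (fun _ _ => rfl)
    ext i
    simp only [mem_Icc, mem_Ico]
    omega
  rw [h2, Finset.sum_range]
  rw [← List.sum_ofFn]
  congr 1
  apply List.ext_getElem
  · simp
  · intro i h3 h4
    simp only [List.getElem_map, List.getElem_ofFn, hτ]
    have h5 : i < l.length := by simpa using h3
    rw [dif_pos (by simpa using h5)]
    simp

/-! ### existence and connectivity -/

theorem card_pos_of_lt {S : Finset V} {x : ℝ} (hx : 0 ≤ x) (h : x < (S.card : ℝ)) :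
    S.Nonempty := by
  rw [← card_pos]
  have : (0 : ℝ) < S.card := lt_of_le_of_lt hx h
  exact_mod_cast this

/-- a relaxed greedy sequence that can be continued from both `p` and `q` -/
theorem exists_common {δ : ℝ} (hδ : 0 ≤ δ) (p q : V) (t : ℕ) : ∀ (S : Finset V), NonAdj G S δ →
    ((t : ℝ) + 1) * δ < S.card → ∃ r : List V, r.length = t ∧
      Greedy G d (S.filter (fun y => G.Adj p y)) r ∧
      Greedy G d (S.filter (fun y => G.Adj q y)) r := by
  induction t with
  | zero => exact fun S _ _ => ⟨[], rfl, trivial, trivial⟩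
  | succ t ih =>
    intro S hS hcard
    push_cast at hcard
    have ht : (0 : ℝ) ≤ t := Nat.cast_nonneg t
    set T0 := (S.filter (fun y => G.Adj p y)).filter (fun y => G.Adj q y) with hT0
    have h1 : ((S.filter (fun y => G.Adj p y)).card : ℝ) ≥ S.card - δ := hS.card p
    have h2 : (T0.card : ℝ) ≥ ((S.filter (fun y => G.Adj p y)).card : ℝ) - δ :=
      (hS.sub (filter_subset _ S)).card q
    have hne : T0.Nonempty := by
      apply card_pos_of_lt (x := t * δ) (by positivity)
      linarith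
    obtain ⟨r1, hr1, hmin⟩ := exists_min_image T0 d hne
    have hr1' := hr1
    rw [hT0, mem_filter, mem_filter] at hr1'
    obtain ⟨r, hr, hrp, hrq⟩ := ih (S.filter (fun y => G.Adj r1 y)) (hS.sub (filter_subset _ S)) (by
      have := hS.card r1
      linarith)
    refine ⟨r1 :: r, by rw [List.length_cons, hr], ⟨⟨?_, T0, Or.inr ⟨q, rfl⟩, hr1, hmin⟩, ?_⟩,
      ⟨⟨?_, T0, Or.inr ⟨p, ?_⟩, hr1, hmin⟩, ?_⟩⟩
    · exact mem_filter.2 hr1'.1
    · rw [filter_comm]
      exact hrp
    · exact mem_filter.2 ⟨hr1'.1.1, hr1'.2⟩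
    · rw [hT0, filter_comm]
    · rw [filter_comm]
      exact hrq

theorem exists_greedy {δ : ℝ} (hδ : 0 ≤ δ) (t : ℕ) : ∀ (S : Finset V), NonAdj G S δ →
    (t : ℝ) * δ < S.card → ∃ r : List V, r.length = t ∧ Greedy G d S r := by
  induction t with
  | zero => exact fun S _ _ => ⟨[], rfl, trivial⟩
  | succ t ih =>
    intro S hS hcard
    push_cast at hcard
    have ht : (0 : ℝ) ≤ t := Nat.cast_nonneg t
    have hne : S.Nonempty := by
      apply card_pos_of_lt (x := (t + 1) * δ) (by positivity)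
      linarith
    obtain ⟨r1, hr1, hmin⟩ := exists_min_image S d hne
    obtain ⟨r, hr, hrp⟩ := ih (S.filter (fun y => G.Adj r1 y)) (hS.sub (filter_subset _ S)) (by
      have := hS.card r1
      linarith)
    exact ⟨r1 :: r, by rw [List.length_cons, hr], ⟨hr1, S, Or.inl rfl, hr1, hmin⟩, hrp⟩

/-- a property that is passed on to neighbouring relaxed greedy sequences holds for all of them -/
theorem connected {δ : ℝ} (hδ : 0 ≤ δ) (t : ℕ) : ∀ (S : Finset V), NonAdj G S δ →
    (t : ℝ) * δ < S.card → ∀ P : List V → Prop,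
    (∀ l l', Greedy G d S l → Greedy G d S l' → l.length = t → l'.length = t →
      t ≤ (l.toFinset ∩ l'.toFinset).card + 1 → P l → P l') →
    ∀ l l', Greedy G d S l → Greedy G d S l' → l.length = t → l'.length = t → P l → P l' := by
  induction t with
  | zero =>
    intro S _ _ P hP l l' hl hl' h h' hPl
    exact hP l l' hl hl' h h' (Nat.zero_le _) hPl
  | succ t ih =>
    intro S hS hcard P hP l l' hl hl' h h' hPl
    push_cast at hcard
    rcases l with _ | ⟨p, l1⟩
    · simp at h
    rcases l' with _ | ⟨q, l2⟩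
    · simp at h'
    rw [List.length_cons, Nat.add_right_cancel_iff] at h h'
    obtain ⟨r, hr, hrp, hrq⟩ := exists_common (d := d) hδ p q t S hS hcard
    have hstep : ∀ (p : V) (m m' : List V), (p ∈ S ∧ ∃ T : Finset V, (T = S ∨ ∃ x : V,
        T = S.filter (fun y => G.Adj x y)) ∧ p ∈ T ∧ ∀ v ∈ T, d p ≤ d v) →
        Greedy G d (S.filter (fun y => G.Adj p y)) m →
        Greedy G d (S.filter (fun y => G.Adj p y)) m' → m.length = t → m'.length = t →
        P (p :: m) → P (p :: m') := by
      intro p m m' hp hm hm' hmt hmt' hPm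
      refine ih (S.filter (fun y => G.Adj p y)) (hS.sub (filter_subset _ S)) (by
        have := hS.card p
        linarith) (fun m => P (p :: m)) ?_ m m' hm hm' hmt hmt' hPm
      intro k k' hk hk' hkt hkt' hkk hPk
      apply hP (p :: k) (p :: k') ⟨hp, hk⟩ ⟨hp, hk'⟩ (by rw [List.length_cons, hkt])
        (by rw [List.length_cons, hkt']) _ hPk
      rw [List.toFinset_cons, List.toFinset_cons, ← insert_inter_distrib, card_insert_of_notMem]
      · omega
      · intro hmem
        rw [mem_inter, List.mem_toFinset] at hmem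
        have := (mem_filter.1 (hk.mem p hmem.1)).2
        exact G.irrefl this
    have h1 : P (p :: r) := hstep p l1 r hl.1 hl.2 hrp h hr hPl
    have h2 : P (q :: r) := by
      apply hP (p :: r) (q :: r) ⟨hl.1, hrp⟩ ⟨hl'.1, hrq⟩ (by rw [List.length_cons, hr])
        (by rw [List.length_cons, hr]) _ h1
      have h3 : r.toFinset ⊆ (p :: r).toFinset ∩ (q :: r).toFinset := by
        intro x hx
        rw [mem_inter, List.toFinset_cons, List.toFinset_cons]
        exact ⟨mem_insert_of_mem hx, mem_insert_of_mem hx⟩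
      have h4 := card_le_card h3
      rw [List.toFinset_card_of_nodup hrp.nodup, hr] at h4
      omega
    exact hstep q r l2 hl'.1 hrq hl'.2 hr h' h2

/-! ### the interval argument -/

theorem isClosed_greedy (d0 d1 : V → ℝ) (l : List V) : ∀ S : Finset V,
    IsClosed {x : ℝ | Greedy G (fun v => (1 - x) * d0 v + x * d1 v) S l} := by
  induction l with
  | nil => intro S; simp [Greedy]
  | cons p l ih =>
    intro S
    have h1 : {x : ℝ | Greedy G (fun v => (1 - x) * d0 v + x * d1 v) S (p :: l)} =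
        ({x : ℝ | p ∈ S} ∩ ⋃ T : Finset V, ({x : ℝ | (T = S ∨ ∃ x : V,
          T = S.filter (fun y => G.Adj x y)) ∧ p ∈ T} ∩ ⋂ v ∈ T, {x : ℝ | (1 - x) * d0 p + x * d1 p ≤
            (1 - x) * d0 v + x * d1 v})) ∩
        {x : ℝ | Greedy G (fun v => (1 - x) * d0 v + x * d1 v)
          (S.filter (fun y => G.Adj p y)) l} := by
      ext x
      simp only [Greedy, Set.mem_ofPred_eq, Set.mem_inter_iff, Set.mem_iUnion, Set.mem_iInter,
        and_assoc]
    rw [h1]
    apply IsClosed.inter _ (ih _)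
    apply IsClosed.inter isClosed_const
    apply isClosed_iUnion_of_finite
    intro T
    apply IsClosed.inter isClosed_const
    apply isClosed_biInter
    intro v _
    apply isClosed_le
    · fun_prop
    · fun_prop

/-- **The two-constraint lemma.** -/
theorem two_constraint {δ : ℝ} (hδ : 0 < δ) {S : Finset V} (hS : NonAdj G S δ) {s : ℕ}
    (hcard : ((s : ℝ) + 2) * δ ≤ S.card) {d0 d1 : V → ℝ} {J0 J1 : ℝ}
    (hd0 : ∀ v ∈ S, 0 ≤ d0 v) (hd1 : ∀ v ∈ S, 0 ≤ d1 v)
    (h0 : ∑ v ∈ S, d0 v < δ * J0) (h1 : ∑ v ∈ S, d1 v < δ * J1) :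
    ∃ W ⊆ S, W.card = s ∧ (∀ u ∈ W, ∀ v ∈ W, u ≠ v → G.Adj u v) ∧
      ∑ v ∈ W, d0 v < J0 ∧ ∑ v ∈ W, d1 v < J1 := by
  by_contra hcon
  push Not at hcon
  set dd : ℝ → V → ℝ := fun x v => (1 - x) * d0 v + x * d1 v with hdd
  have hlt : ((s + 1 : ℕ) : ℝ) * δ < S.card := by
    push_cast
    linarith
  -- every relaxed greedy sequence satisfies one of the two constraints
  have hsum : ∀ x ∈ Set.Icc (0 : ℝ) 1, ∀ l, Greedy G (dd x) S l → l.length = s + 1 →
      (1 - x) * ∑ v ∈ l.toFinset, d0 v + x * ∑ v ∈ l.toFinset, d1 v < (1 - x) * J0 + x * J1 := by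
    intro x hx l hl hlen
    have h2 := hl.sum_le hδ.le hS (by
      rw [hlen]
      push_cast
      linarith) (fun v hv => add_nonneg (mul_nonneg (by linarith [hx.2]) (hd0 v hv))
        (mul_nonneg hx.1 (hd1 v hv)))
    simp only [hdd, sum_add_distrib, ← mul_sum] at h2
    have h3 : (1 - x) * ∑ v ∈ S, d0 v + x * ∑ v ∈ S, d1 v < δ * ((1 - x) * J0 + x * J1) := by
      rcases eq_or_lt_of_le hx.1 with h4 | h4
      · rw [← h4]
        linarith
      · have h5 : (1 - x) * ∑ v ∈ S, d0 v ≤ (1 - x) * (δ * J0) :=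
          mul_le_mul_of_nonneg_left h0.le (by linarith [hx.2])
        have h6 : x * ∑ v ∈ S, d1 v < x * (δ * J1) := mul_lt_mul_of_pos_left h1 h4
        nlinarith
    have h4 := lt_of_le_of_lt h2 h3
    exact lt_of_mul_lt_mul_left h4 hδ.le
  -- no sequence satisfies both, neighbouring ones satisfy the same one
  have key : ∀ W : Finset V, W ⊆ S → (∀ u ∈ W, ∀ v ∈ W, u ≠ v → G.Adj u v) → s ≤ W.card →
      ∑ v ∈ W, d0 v < J0 → J1 ≤ ∑ v ∈ W, d1 v := by
    intro W hW hcl hsW hJ
    obtain ⟨W', hW', hc⟩ := exists_subset_card_eq hsW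
    have h2 : ∑ v ∈ W', d0 v ≤ ∑ v ∈ W, d0 v :=
      sum_le_sum_of_subset_of_nonneg hW' (fun v hv _ => hd0 v (hW hv))
    have h3 : ∑ v ∈ W', d1 v ≤ ∑ v ∈ W, d1 v :=
      sum_le_sum_of_subset_of_nonneg hW' (fun v hv _ => hd1 v (hW hv))
    refine le_trans (hcon W' (hW'.trans hW) hc (fun u hu v hv => hcl u (hW' hu) v (hW' hv)) ?_) h3
    exact lt_of_le_of_lt h2 hJ
  have hclique : ∀ {x : ℝ} {l : List V}, Greedy G (dd x) S l →
      ∀ u ∈ l.toFinset, ∀ v ∈ l.toFinset, u ≠ v → G.Adj u v := by
    intro x l hl u hu v hv huv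
    rw [List.mem_toFinset] at hu hv
    have : Std.Symm G.Adj := ⟨fun _ _ h => h.symm⟩
    exact hl.pairwise.forall hu hv huv
  have hsub : ∀ {x : ℝ} {l : List V}, Greedy G (dd x) S l → l.toFinset ⊆ S := by
    intro x l hl v hv
    exact hl.mem v (List.mem_toFinset.1 hv)
  have hlen : ∀ {x : ℝ} {l : List V}, Greedy G (dd x) S l → l.length = s + 1 →
      l.toFinset.card = s + 1 := by
    intro x l hl hl'
    rw [List.toFinset_card_of_nodup hl.nodup, hl']
  set A0 : Set ℝ := {x | ∃ l : List V, l.length = s + 1 ∧ Greedy G (dd x) S l ∧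
    ∑ v ∈ l.toFinset, d0 v < J0} with hA0
  set A1 : Set ℝ := {x | ∃ l : List V, l.length = s + 1 ∧ Greedy G (dd x) S l ∧
    ∑ v ∈ l.toFinset, d1 v < J1} with hA1
  have hfin : Set.Finite {l : List V | l.length = s + 1} := List.finite_length_eq V (s + 1)
  have hcl : ∀ Q : List V → Prop, IsClosed {x | ∃ l : List V, l.length = s + 1 ∧
      Greedy G (dd x) S l ∧ Q l} := by
    intro Q
    have h2 : {x | ∃ l : List V, l.length = s + 1 ∧ Greedy G (dd x) S l ∧ Q l} =
        ⋃ l ∈ {l : List V | l.length = s + 1}, ({x | Greedy G (dd x) S l} ∩ {x | Q l}) := by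
      ext x
      simp only [Set.mem_ofPred_eq, Set.mem_iUnion, Set.mem_inter_iff]
      constructor
      · rintro ⟨l, h3, h4, h5⟩
        exact ⟨l, h3, h4, h5⟩
      · rintro ⟨l, h3, h4, h5⟩
        exact ⟨l, h3, h4, h5⟩
    rw [h2]
    apply hfin.isClosed_biUnion
    intro l _
    exact (isClosed_greedy d0 d1 l S).inter isClosed_const
  have hcover : Set.Icc (0 : ℝ) 1 ⊆ A0 ∪ A1 := by
    intro x hx
    obtain ⟨l, hl, hg⟩ := exists_greedy (d := dd x) hδ.le (s + 1) S hS hlt
    have h2 := hsum x hx l hg hl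
    by_contra h3
    rw [Set.mem_union, not_or, hA0, hA1, Set.mem_ofPred_eq, Set.mem_ofPred_eq] at h3
    push Not at h3
    have h4 := h3.1 l hl hg
    have h5 := h3.2 l hl hg
    have h6 : (1 - x) * J0 ≤ (1 - x) * ∑ v ∈ l.toFinset, d0 v :=
      mul_le_mul_of_nonneg_left h4 (by linarith [hx.2])
    have h7 : x * J1 ≤ x * ∑ v ∈ l.toFinset, d1 v := mul_le_mul_of_nonneg_left h5 hx.1
    linarith
  have hne0 : (Set.Icc (0 : ℝ) 1 ∩ A0).Nonempty := by
    obtain ⟨l, hl, hg⟩ := exists_greedy (d := dd 0) hδ.le (s + 1) S hS hlt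
    have h2 := hsum 0 (by simp) l hg hl
    exact ⟨0, by simp, l, hl, hg, by simpa using h2⟩
  have hne1 : (Set.Icc (0 : ℝ) 1 ∩ A1).Nonempty := by
    obtain ⟨l, hl, hg⟩ := exists_greedy (d := dd 1) hδ.le (s + 1) S hS hlt
    have h2 := hsum 1 (by simp) l hg hl
    exact ⟨1, by simp, l, hl, hg, by simpa using h2⟩
  obtain ⟨x, hx, ⟨l0, hl0, hg0, hs0⟩, ⟨l1, hl1, hg1, hs1⟩⟩ :=
    isPreconnected_closed_iff.1 isPreconnected_Icc A0 A1 (hcl _) (hcl _) hcover hne0 hne1
  -- connectivity
  have h2 : ∑ v ∈ l1.toFinset, d0 v < J0 := by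
    refine connected (G := G) (d := dd x) hδ.le (s + 1) S hS hlt
      (fun l => ∑ v ∈ l.toFinset, d0 v < J0) ?_ l0 l1 hg0 hg1 hl0 hl1 hs0
    intro l l' hl hl' hll hll' hshare hP
    by_contra hP'
    push Not at hP'
    have h3 := hsum x hx l' hl' hll'
    have h4 : (1 - x) * J0 ≤ (1 - x) * ∑ v ∈ l'.toFinset, d0 v :=
      mul_le_mul_of_nonneg_left hP' (by linarith [hx.2])
    have h5 : ∑ v ∈ l'.toFinset, d1 v < J1 := by
      by_contra h6
      push Not at h6
      have h7 : x * J1 ≤ x * ∑ v ∈ l'.toFinset, d1 v := mul_le_mul_of_nonneg_left h6 hx.1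
      linarith
    set W := l.toFinset ∩ l'.toFinset with hW
    have h6 : ∑ v ∈ W, d0 v < J0 := by
      refine lt_of_le_of_lt ?_ hP
      exact sum_le_sum_of_subset_of_nonneg inter_subset_left (fun v hv _ => hd0 v (hsub hl hv))
    have h7 : ∑ v ∈ W, d1 v < J1 := by
      refine lt_of_le_of_lt ?_ h5
      exact sum_le_sum_of_subset_of_nonneg inter_subset_right (fun v hv _ => hd1 v (hsub hl' hv))
    have h8 := key W (inter_subset_left.trans (hsub hl))
      (fun u hu v hv => hclique hl u (mem_inter.1 hu).1 v (mem_inter.1 hv).1) (by omega) h6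
    linarith
  have h3 := key l1.toFinset (hsub hg1) (hclique hg1) (by rw [hlen hg1 hl1]; omega) h2
  linarith

end TwoCon

end Pool.Agent.Lib.MP_a05470_co
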