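import Pool.Agent.Lib.MP_a05470_co.TF.Lev1
import Pool.Agent.Lib.MP_a05470_co.TF.TwoCon
import Pool.Agent.Lib.MP_a05470_co.TF.Saving

/-!
# The final configuration at level 1

`U` = the occupied picks, `F` = green up to single-coloured pairs, `K` = blue clique, blue to `F`,
`K2 ⊆ K` = at most two hits on `F`, `Sv` = saved vertices.
-/

set_option autoImplicit false
set_option linter.unusedSectionVars false

namespace Pool.Agent.Lib.MP_a05470_co

open Finset Classical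

namespace L1

variable {W : Type} [Fintype W] {Gr Gb : SimpleGraph W}

/-- the final configuration -/
structure Conf (Gr Gb : SimpleGraph W) (M : ℕ → ℕ → Prop) (s j γ c n : ℕ)
    (U F K K2 Sv : Finset W) (occ θ : W → ℕ) : Prop where
  cardU : U.card = s
  occ_inj : Set.InjOn occ U
  occ_lt : ∀ u ∈ U, occ u < s
  θ_inj : Set.InjOn θ Sv
  θ_lt : ∀ y ∈ Sv, θ y < s
  good : Good Gr Gb F
  cardR : (RR Gb F).card = 2 * j
  UU : ∀ u ∈ U, ∀ v ∈ U, u ≠ v → Gn Gr Gb u v
  UF : ∀ u ∈ U, ∀ y ∈ F, Gn Gr Gb u y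
  UK : ∀ u ∈ U, ∀ y ∈ K, Gn Gr Gb u y
  US : ∀ u ∈ U, ∀ y ∈ Sv, (M (θ y) (occ u) → Gr.Adj u y) ∧ (¬ M (θ y) (occ u) → Gb.Adj u y)
  KF : ∀ z ∈ K, ∀ y ∈ F, Gb.Adj z y
  KK : ∀ z ∈ K, ∀ y ∈ K, z ≠ y → Gb.Adj z y
  SF : ∀ z ∈ Sv, ∀ y ∈ F, Gb.Adj z y
  SK : ∀ z ∈ Sv, ∀ y ∈ K, Gb.Adj z y
  SS : ∀ z ∈ Sv, ∀ y ∈ Sv, z ≠ y → Gb.Adj z y
  K2K : K2 ⊆ K
  K2h : ∀ z ∈ K2, (hit Gr Gb z F).card ≤ 2 ∧ Disjoint (hit Gr Gb z F) (RR Gb F)
  count1 : c ≤ F.card + min γ K2.card
  count2 : n ≤ F.card + K.card + Sv.card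

theorem Good.mono {F F' : Finset W} (hF : Good Gr Gb F) (h : F' ⊆ F) : Good Gr Gb F' :=
  ⟨fun x hx y hy => hF.col x (h hx) y (h hy),
    fun x hx y hy z hz => hF.uniq x (h hx) y (h hy) z (h hz)⟩

theorem RR_mono {F F' : Finset W} (h : F' ⊆ F) : RR Gb F' ⊆ RR Gb F := by
  intro x hx
  unfold RR at hx ⊢
  rw [mem_filter] at hx ⊢
  obtain ⟨h1, y, hy, h2⟩ := hx
  exact ⟨h h1, y, h hy, h2⟩

theorem hit_mono {v : W} {S T : Finset W} (h : S ⊆ T) : hit Gr Gb v S ⊆ hit Gr Gb v T := by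
  intro y hy
  rw [mem_hit] at hy ⊢
  exact ⟨h hy.1, hy.2⟩

/-- the mate function -/
theorem exists_mt {F : Finset W} (hF : Good Gr Gb F) : ∃ mt : W → W, ∀ x ∈ RR Gb F,
    mt x ∈ RR Gb F ∧ mt x ≠ x ∧ ¬ Gb.Adj x (mt x) ∧ Gr.Adj x (mt x) ∧
      (∀ z ∈ F, z ≠ x → z ≠ mt x → Gn Gr Gb x z) ∧ mt (mt x) = x := by
  have h : ∀ x : W, ∃ y : W, x ∈ RR Gb F → y ∈ RR Gb F ∧ y ≠ x ∧ ¬ Gb.Adj x y ∧ Gr.Adj x y ∧
      ∀ z ∈ F, z ≠ x → z ≠ y → Gn Gr Gb x z := by
    intro x
    by_cases hx : x ∈ RR Gb F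
    · obtain ⟨y, h1, h2⟩ := exists_mate_RR hF hx
      exact ⟨y, fun _ => ⟨h1, h2⟩⟩
    · exact ⟨x, fun h => absurd h hx⟩
  choose mt hmt using h
  refine ⟨mt, fun x hx => ?_⟩
  obtain ⟨h1, h2, h3, h4, h5⟩ := hmt x hx
  refine ⟨h1, h2, h3, h4, h5, ?_⟩
  obtain ⟨k1, k2, k3, k4, k5⟩ := hmt (mt x) h1
  exact hF.uniq (mt x) (RR_sub F h1) (mt (mt x)) (RR_sub F k1) x (RR_sub F hx) (Ne.symm k2) h2
    (fun h => k3 h.2) (fun h => h3 h.2.symm)

/-- a transversal of the red pairs -/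
structure Tv (Gr Gb : SimpleGraph W) (F Xb : Finset W) (mt : W → W) : Prop where
  sub : Xb ⊆ RR Gb F
  cl : ∀ x ∈ Xb, ∀ y ∈ Xb, x ≠ y → Gb.Adj x y
  mate : ∀ x ∈ RR Gb F, mt x ∈ RR Gb F ∧ mt x ≠ x ∧ ¬ Gb.Adj x (mt x) ∧ Gr.Adj x (mt x) ∧
      (∀ z ∈ F, z ≠ x → z ≠ mt x → Gn Gr Gb x z) ∧ mt (mt x) = x
  out : ∀ x ∈ RR Gb F, x ∉ Xb → mt x ∈ Xb

theorem exists_trans {F : Finset W} (hF : Good Gr Gb F) : ∃ Xb mt, Tv Gr Gb F Xb mt := by
  obtain ⟨mt, hmt⟩ := exists_mt hF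
  obtain ⟨Xb, _, h1, h2, h3⟩ := exists_max_clique Gb (A := RR Gb F) (K0 := ∅)
    (empty_subset _) (by simp)
  refine ⟨Xb, mt, h1, h2, hmt, fun x hx hxX => ?_⟩
  obtain ⟨z, hz, hxz⟩ := h3 x hx hxX
  obtain ⟨k1, k2, k3, k4, k5, k6⟩ := hmt x hx
  have hzx : z ≠ x := fun h => hxX (h ▸ hz)
  by_cases hzm : z = mt x
  · rw [← hzm]
    exact hz
  · exact absurd (k5 z (RR_sub F (h1 hz)) hzx hzm).2 hxz

variable {F Xb : Finset W} {mt : W → W}

theorem Tv.mt_out (hT : Tv Gr Gb F Xb mt) {x : W} (hx : x ∈ Xb) : mt x ∉ Xb := by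
  intro h
  obtain ⟨_, k2, k3, _, _, _⟩ := hT.mate x (hT.sub hx)
  exact k3 (hT.cl x hx (mt x) h (Ne.symm k2))

theorem Tv.mt_inj (hT : Tv Gr Gb F Xb mt) {x y : W} (hx : x ∈ RR Gb F) (hy : y ∈ RR Gb F)
    (h : mt x = mt y) : x = y := by
  rw [← (hT.mate x hx).2.2.2.2.2, ← (hT.mate y hy).2.2.2.2.2, h]

theorem Tv.image (hT : Tv Gr Gb F Xb mt) : Xb.image mt = RR Gb F \ Xb := by
  ext x
  rw [mem_image, mem_sdiff]
  constructor
  · rintro ⟨y, hy, rfl⟩
    exact ⟨(hT.mate y (hT.sub hy)).1, hT.mt_out hy⟩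
  · rintro ⟨h1, h2⟩
    exact ⟨mt x, hT.out x h1 h2, (hT.mate x h1).2.2.2.2.2⟩

theorem Tv.card_image (hT : Tv Gr Gb F Xb mt) {T : Finset W} (h : T ⊆ RR Gb F) :
    (T.image mt).card = T.card :=
  card_image_of_injOn (fun x hx y hy hxy => hT.mt_inj (h (by exact_mod_cast hx))
    (h (by exact_mod_cast hy)) hxy)

theorem Tv.card_RR (hT : Tv Gr Gb F Xb mt) : (RR Gb F).card = 2 * Xb.card := by
  have h1 := hT.card_image hT.sub
  rw [hT.image] at h1
  have h2 := card_sdiff_add_card_eq_card hT.sub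
  omega

/-- the transversal is a green clique -/
theorem Tv.green (hT : Tv Gr Gb F Xb mt) {x y : W} (hx : x ∈ Xb) (hy : y ∈ Xb)
    (hxy : x ≠ y) : Gn Gr Gb x y := by
  obtain ⟨k1, k2, k3, k4, k5, k6⟩ := hT.mate x (hT.sub hx)
  apply k5 y (RR_sub F (hT.sub hy)) (Ne.symm hxy)
  intro h
  exact hT.mt_out hx (h ▸ hy)

/-- the exchange inequality -/
theorem Best.hall (hB : Best Gr Gb F) (hT : Tv Gr Gb F Xb mt) {T : Finset W}
    (hcl : ∀ u ∈ T, ∀ v ∈ T, u ≠ v → Gn Gr Gb u v) (hTF : ∀ u ∈ T, u ∉ F) {Y : Finset W}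
    (hY : ∀ u ∈ T, ∀ y ∈ F, ¬ Gn Gr Gb u y → y ∈ Y) (hYF : Y ⊆ F) :
    T.card ≤ (Y \ Xb.image mt).card := by
  set X := Xb.image mt with hX
  have hXF : X ⊆ F := by
    rw [hX, hT.image]
    exact sdiff_subset.trans (RR_sub F)
  set F' := T ∪ (F \ (Y ∪ X)) with hF'
  have hTg : ∀ u ∈ T, ∀ y ∈ F', u ≠ y → Gn Gr Gb u y := by
    intro u hu y hy huy
    rw [hF', mem_union, mem_sdiff, mem_union, not_or] at hy
    rcases hy with hy | ⟨hy1, hy2, hy3⟩
    · exact hcl u hu y hy huy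
    · by_contra hcon
      exact hy2 (hY u hu y hy1 hcon)
  have hFF : ∀ y ∈ F', y ∉ T → y ∈ F ∧ y ∉ X := by
    intro y hy hyT
    rw [hF', mem_union, mem_sdiff, mem_union, not_or] at hy
    rcases hy with hy | ⟨hy1, hy2, hy3⟩
    · exact absurd hy hyT
    · exact ⟨hy1, hy3⟩
  have hg : Good Gr Gb F' := by
    constructor
    · intro x hx y hy hxy
      by_cases hxT : x ∈ T
      · exact Or.inl (hTg x hxT y hy hxy).1
      · by_cases hyT : y ∈ T
        · exact Or.inl (hTg y hyT x hx (Ne.symm hxy)).1.symm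
        · exact hB.good.col x (hFF x hx hxT).1 y (hFF y hy hyT).1 hxy
    · intro x hx y hy z hz hxy hxz h1 h2
      by_cases hxT : x ∈ T
      · exact absurd (hTg x hxT y hy hxy) h1
      · by_cases hyT : y ∈ T
        · exact absurd (hTg y hyT x hx (Ne.symm hxy)).symm h1
        · by_cases hzT : z ∈ T
          · exact absurd (hTg z hzT x hx (Ne.symm hxz)).symm h2
          · exact hB.good.uniq x (hFF x hx hxT).1 y (hFF y hy hyT).1 z (hFF z hz hzT).1
              hxy hxz h1 h2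
  have hR : RR Gb F' = ∅ := by
    rw [eq_empty_iff_forall_notMem]
    intro x hx
    unfold RR at hx
    rw [mem_filter] at hx
    obtain ⟨h1, y, h2, h3, h4⟩ := hx
    have hxT : x ∉ T := fun h => h4 (hTg x h y h2 (Ne.symm h3)).2
    have hyT : y ∉ T := fun h => h4 (hTg y h x h1 h3).2.symm
    obtain ⟨h5, h6⟩ := hFF x h1 hxT
    obtain ⟨h7, h8⟩ := hFF y h2 hyT
    have hxR : x ∈ RR Gb F := mem_filter.2 ⟨h5, y, h7, h3, h4⟩
    have hyR : y ∈ RR Gb F := mem_filter.2 ⟨h7, x, h5, Ne.symm h3, fun h => h4 h.symm⟩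
    have hxX : x ∈ Xb := by
      by_contra hcon
      apply h6
      rw [hX, hT.image, mem_sdiff]
      exact ⟨hxR, hcon⟩
    have hyX : y ∈ Xb := by
      by_contra hcon
      apply h8
      rw [hX, hT.image, mem_sdiff]
      exact ⟨hyR, hcon⟩
    exact h4 (hT.cl x hxX y hyX (Ne.symm h3))
  have hmax := (hB.max F' hg).1
  unfold P1 at hmax
  rw [hR, card_empty, hT.card_RR] at hmax
  have hd : Disjoint T (F \ (Y ∪ X)) := by
    rw [Finset.disjoint_left]
    intro x hx hx'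
    exact hTF x hx (mem_sdiff.1 hx').1
  have h1 : F'.card = T.card + (F \ (Y ∪ X)).card := card_union_of_disjoint hd
  have h2 := card_sdiff_add_card_eq_card (union_subset hYF hXF)
  have h3 : (Y ∪ X).card = (Y \ X).card + X.card := by
    rw [← sdiff_union_self_eq_union, card_union_of_disjoint sdiff_disjoint]
  have h4 : X.card = Xb.card := hT.card_image hT.sub
  omega

/-- the cheapest elements -/
theorem exists_cheapest (f : W → ℕ) (k : ℕ) : ∀ (m : ℕ) (U : Finset W), U.card = k + m →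
    ∃ U1 ⊆ U, U1.card = k ∧ ∀ u ∈ U1, ∀ v ∈ U, v ∉ U1 → f u ≤ f v := by
  intro m
  induction m with
  | zero =>
    intro U hU
    exact ⟨U, Subset.refl _, hU, fun u _ v hv hvU => absurd hv hvU⟩
  | succ m ih =>
    intro U hU
    have hne : U.Nonempty := by
      rw [← card_pos]
      omega
    obtain ⟨w, hw, hmax⟩ := exists_max_image U f hne
    obtain ⟨U1, h1, h2, h3⟩ := ih (U.erase w) (by
      rw [card_erase_of_mem hw]
      omega)
    refine ⟨U1, h1.trans (erase_subset _ _), h2, fun u hu v hv hvU => ?_⟩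
    by_cases hvw : v = w
    · rw [hvw]
      exact hmax u (mem_of_mem_erase (h1 hu))
    · exact h3 u hu v (mem_erase.2 ⟨hvw, hv⟩) hvU

theorem exists_occ {U : Finset W} {s : ℕ} (hU : U.card = s) :
    ∃ occ : W → ℕ, Set.InjOn occ U ∧ ∀ u ∈ U, occ u < s := by
  have e : U ≃ Fin s := Fintype.equivOfCardEq (by rw [Fintype.card_coe, hU, Fintype.card_fin])
  refine ⟨fun u => if h : u ∈ U then (e ⟨u, h⟩ : ℕ) else 0, ?_, ?_⟩
  · intro x hx y hy hxy
    have hx' : x ∈ U := by exact_mod_cast hx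
    have hy' : y ∈ U := by exact_mod_cast hy
    simp only [dif_pos hx', dif_pos hy'] at hxy
    have := e.injective (Fin.ext hxy)
    simpa using this
  · intro u hu
    simp only [dif_pos hu]
    exact (e ⟨u, hu⟩).2

/-- **Enough red pairs.** -/
theorem conf_inside [Nonempty W] {a b : ℕ} (ha : 0 < a) (hab : a ≤ b) (hb : b ≤ 2 * a)
    (hcost : ∀ v : W, D (a : ℝ) b Gr Gb v univ < Fintype.card W) (hB : Best Gr Gb F)
    {s j γ : ℕ} (hr : (RR Gb F).card = 2 * (s + j)) (hs : s ≤ a) (hγ : a + γ ≤ b)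
    {M : ℕ → ℕ → Prop} (hM : ∀ i, M i i) :
    ∃ (U F' K K2 Sv : Finset W) (occ θ : W → ℕ),
      Conf Gr Gb M s j γ (2 * (a - s) + 1 + γ) (a + b + 1 - s) U F' K K2 Sv occ θ := by
  obtain ⟨Xb, mt, hT⟩ := exists_trans hB.good
  have hXb : Xb.card = s + j := by
    have := hT.card_RR
    omega
  obtain ⟨U, hUX, hU⟩ := exists_subset_card_eq (s := Xb) (n := s) (by omega)
  have hUR : U ⊆ RR Gb F := hUX.trans hT.sub
  obtain ⟨K2, _, hK2V, hK2cl, hK2max⟩ := exists_max_clique Gb (A := VV Gr Gb F) (K0 := ∅)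
    (empty_subset _) (by simp)
  have hFne : F.Nonempty := by
    obtain ⟨v⟩ := ‹Nonempty W›
    by_cases hv : v ∈ F
    · exact ⟨v, hv⟩
    · obtain ⟨y, hy⟩ := hB.no_zero hv
      exact ⟨y, (mem_hit.1 hy).1⟩
  have haR : (0 : ℝ) ≤ a := by positivity
  have habR : (a : ℝ) ≤ b := by exact_mod_cast hab
  have hbR : (b : ℝ) ≤ 2 * a := by exact_mod_cast hb
  have hF1 : 2 * a + 1 ≤ F.card := by
    have h := card_gt_of_D hcost (hB.D_two haR habR) hFne
    have : 2 * a < F.card := by exact_mod_cast h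
    omega
  have hFK : Disjoint F K2 := by
    rw [Finset.disjoint_right]
    exact fun z hz => (mem_VV.1 (hK2V hz)).1
  have hF2 : a + b + 1 ≤ F.card + K2.card := by
    have h := card_gt_of_D hcost (hB.D_K2 haR habR hbR hK2max hK2V) (hFne.mono subset_union_left)
    rw [card_union_of_disjoint hFK] at h
    have : a + b < F.card + K2.card := by exact_mod_cast h
    omega
  have hmU : (U.image mt).card = s := by
    rw [hT.card_image hUR, hU]
  have hdU : Disjoint U (U.image mt) := by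
    rw [Finset.disjoint_left]
    intro x hx hx'
    obtain ⟨y, hy, rfl⟩ := mem_image.1 hx'
    exact hT.mt_out (hUX hy) (hUX hx)
  have hUF : U ∪ U.image mt ⊆ RR Gb F := by
    apply union_subset hUR
    intro x hx
    obtain ⟨y, hy, rfl⟩ := mem_image.1 hx
    exact (hT.mate y (hUR hy)).1
  have hcU : (U ∪ U.image mt).card = 2 * s := by
    rw [card_union_of_disjoint hdU, hU, hmU]
    omega
  set F' := F \ (U ∪ U.image mt) with hF'
  have hF'c : F'.card + 2 * s = F.card := by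
    have := card_sdiff_add_card_eq_card (hUF.trans (RR_sub F))
    rw [← hF'] at this
    omega
  obtain ⟨occ, hocc, hocc2⟩ := exists_occ hU
  have hRR' : RR Gb F' = RR Gb F \ (U ∪ U.image mt) := by
    ext x
    constructor
    · intro hx
      rw [mem_sdiff]
      exact ⟨RR_mono sdiff_subset hx, (mem_sdiff.1 (RR_sub F' hx)).2⟩
    · intro hx
      rw [mem_sdiff] at hx
      obtain ⟨k1, k2, k3, k4, k5, k6⟩ := hT.mate x hx.1
      refine mem_filter.2 ⟨mem_sdiff.2 ⟨RR_sub F hx.1, hx.2⟩, mt x, mem_sdiff.2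
        ⟨RR_sub F k1, fun h => hx.2 ?_⟩, k2, k3⟩
      rcases mem_union.1 h with h | h
      · rw [← k6]
        exact mem_union_right _ (mem_image_of_mem mt h)
      · obtain ⟨y, hy, hyx⟩ := mem_image.1 h
        rw [← hT.mt_inj (hUR hy) hx.1 hyx]
        exact mem_union_left _ hy
  refine ⟨U, F', K2, K2, U.image mt, occ, fun y => occ (mt y), ?_⟩
  constructor
  · exact hU
  · exact hocc
  · exact hocc2
  · intro x hx y hy hxy
    have hx' : x ∈ U.image mt := by exact_mod_cast hx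
    have hy' : y ∈ U.image mt := by exact_mod_cast hy
    obtain ⟨x1, hx1, rfl⟩ := mem_image.1 hx'
    obtain ⟨y1, hy1, rfl⟩ := mem_image.1 hy'
    simp only at hxy
    rw [(hT.mate x1 (hUR hx1)).2.2.2.2.2, (hT.mate y1 (hUR hy1)).2.2.2.2.2] at hxy
    rw [hocc (by exact_mod_cast hx1) (by exact_mod_cast hy1) hxy]
  · intro y hy
    obtain ⟨y1, hy1, rfl⟩ := mem_image.1 hy
    rw [(hT.mate y1 (hUR hy1)).2.2.2.2.2]
    exact hocc2 y1 hy1
  · exact hB.good.mono sdiff_subset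
  · rw [hRR']
    have := card_sdiff_add_card_eq_card hUF
    omega
  · exact fun u hu v hv huv => hT.green (hUX hu) (hUX hv) huv
  · intro u hu y hy
    obtain ⟨k1, k2, k3, k4, k5, k6⟩ := hT.mate u (hUR hu)
    rw [hF', mem_sdiff, mem_union, not_or] at hy
    refine k5 y hy.1 (fun h => hy.2.1 (h ▸ hu)) (fun h => hy.2.2 ?_)
    rw [h]
    exact mem_image_of_mem mt hu
  · intro u hu y hy
    obtain ⟨h1, h2, h3, h4⟩ := mem_VV.1 (hK2V hy)
    by_contra hcon
    exact Finset.disjoint_left.1 h4 (mem_hit.2 ⟨RR_sub F (hUR hu), fun h => hcon h.symm⟩) (hUR hu)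
  · intro u hu y hy
    obtain ⟨v, hv, rfl⟩ := mem_image.1 hy
    have hvR := hUR hv
    obtain ⟨k1, k2, k3, k4, k5, k6⟩ := hT.mate v hvR
    rw [k6]
    by_cases huv : u = v
    · subst huv
      exact ⟨fun _ => k4, fun h => absurd (hM _) h⟩
    · obtain ⟨l1, l2, l3, l4, l5, l6⟩ := hT.mate u (hUR hu)
      have hg : Gn Gr Gb u (mt v) := by
        apply l5 _ (RR_sub F k1)
        · intro h
          exact hT.mt_out (hUX hv) (h ▸ hUX hu)
        · exact fun h => huv (hT.mt_inj (hUR hu) hvR h.symm)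
      exact ⟨fun _ => hg.1, fun _ => hg.2⟩
  · intro z hz y hy
    exact (mem_VV.1 (hK2V hz)).2.2.1 y (mem_sdiff.1 hy).1
  · exact hK2cl
  · intro z hz y hy
    obtain ⟨v, hv, rfl⟩ := mem_image.1 hz
    obtain ⟨k1, k2, k3, k4, k5, k6⟩ := hT.mate v (hUR hv)
    obtain ⟨l1, l2, l3, l4, l5, l6⟩ := hT.mate (mt v) k1
    rw [hF', mem_sdiff, mem_union, not_or] at hy
    refine (l5 y hy.1 (fun h => hy.2.2 (by rw [h]; exact mem_image_of_mem mt hv))
      (fun h => hy.2.1 ?_)).2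
    rw [h, k6]
    exact hv
  · intro z hz y hy
    obtain ⟨v, hv, rfl⟩ := mem_image.1 hz
    exact ((mem_VV.1 (hK2V hy)).2.2.1 _ (RR_sub F (hT.mate v (hUR hv)).1)).symm
  · intro z hz y hy hzy
    obtain ⟨v, hv, rfl⟩ := mem_image.1 hz
    obtain ⟨w, hw, rfl⟩ := mem_image.1 hy
    obtain ⟨k1, k2, k3, k4, k5, k6⟩ := hT.mate v (hUR hv)
    obtain ⟨l1, l2, l3, l4, l5, l6⟩ := hT.mate (mt v) k1
    obtain ⟨m1, m2, m3, m4, m5, m6⟩ := hT.mate w (hUR hw)
    refine (l5 _ (RR_sub F m1) (Ne.symm hzy) ?_).2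
    rw [k6]
    intro h
    exact hT.mt_out (hUX hw) (h ▸ hUX hv)
  · exact Subset.refl _
  · intro z hz
    obtain ⟨h1, h2, h3, h4⟩ := mem_VV.1 (hK2V hz)
    have h5 : hit Gr Gb z F' ⊆ hit Gr Gb z F := hit_mono sdiff_subset
    refine ⟨(card_le_card h5).trans h2.le, ?_⟩
    exact Disjoint.mono h5 (RR_mono sdiff_subset) h4
  · have : min γ K2.card = γ ∨ min γ K2.card = K2.card := by omega
    omega
  · rw [hmU]
    omega

/-- total cost on a set -/
theorem sum_D (a b : ℝ) (S : Finset W) :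
    ∑ v : W, D a b Gr Gb v S = ∑ y ∈ S, D a b Gr Gb y univ := by
  unfold D
  rw [sum_comm]
  exact sum_congr rfl (fun y _ => sum_congr rfl (fun v _ => Mat_comm a b Gr Gb v y))

/-- **Few red pairs: the picks.** -/
theorem exists_picks [Nonempty W] {a b : ℕ} (ha : 0 < a) (hab : a ≤ b)
    (hcost : ∀ v : W, D (a : ℝ) b Gr Gb v univ < Fintype.card W) {Fp S Sal Xb : Finset W}
    {q : ℕ} (hSal : Sal = univ.filter (fun v => ∀ x ∈ Xb, Gn Gr Gb x v))
    (hq : Xb.card + q + 2 ≤ a)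
    (h0 : ∀ v, 2 * (a : ℝ) ≤ D (a : ℝ) b Gr Gb v Fp)
    (h1 : ∀ v, (a : ℝ) + b ≤ D (a : ℝ) b Gr Gb v S) (hFp : Fp.Nonempty) (hS : S.Nonempty) :
    ∃ U ⊆ Sal, U.card = q ∧ (∀ u ∈ U, ∀ v ∈ U, u ≠ v → Gn Gr Gb u v) ∧
      ∑ u ∈ U, (D (a : ℝ) b Gr Gb u Fp - 2 * a) < a * (Fp.card - 2 * a) ∧
      ∑ u ∈ U, (D (a : ℝ) b Gr Gb u S - (a + b)) < a * (S.card - (a + b)) := by
  have haR : (0 : ℝ) < a := by exact_mod_cast ha
  have habR : (a : ℝ) ≤ b := by exact_mod_cast hab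
  set N : ℝ := (Fintype.card W : ℝ) with hN
  have hN0 : 0 < N := by
    rw [hN]
    exact_mod_cast Fintype.card_pos
  set δ : ℝ := N / a with hδ
  have hδ0 : 0 < δ := div_pos hN0 haR
  have hδa : δ * a = N := by
    rw [hδ]
    field_simp
  -- few nongreen vertices
  obtain ⟨G, hG⟩ : ∃ G : SimpleGraph W, ∀ u v, G.Adj u v ↔ Gn Gr Gb u v :=
    ⟨Gr ⊓ Gb, fun u v => Iff.rfl⟩
  have hng : ∀ v : W, ((univ.filter (fun y => ¬ G.Adj v y)).card : ℝ) ≤ δ := by
    intro v
    have h2 := D_ge_card (Gr := Gr) (Gb := Gb) haR.le habR v univ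
    have h3 := hcost v
    have h4 : (univ.filter (fun y => ¬ G.Adj v y)) = hit Gr Gb v univ := by
      ext y
      simp [hit, hG]
    rw [h4, hδ, le_div_iff₀ haR]
    linarith
  have hNA : TwoCon.NonAdj G Sal δ := by
    intro v
    refine le_trans ?_ (hng v)
    norm_cast
    apply card_le_card
    intro y hy
    rw [mem_filter] at hy ⊢
    exact ⟨mem_univ _, hy.2⟩
  have hSalc : N - Xb.card * δ ≤ Sal.card := by
    have h2 : (univ \ Sal : Finset W) ⊆
        Xb.biUnion (fun x => univ.filter (fun y => ¬ G.Adj x y)) := by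
      intro v hv
      rw [mem_sdiff, hSal, mem_filter] at hv
      have h3 := hv.2
      push Not at h3
      obtain ⟨x, hx, hxv⟩ := h3 (mem_univ v)
      rw [mem_biUnion]
      exact ⟨x, hx, mem_filter.2 ⟨mem_univ _, fun h => hxv ((hG x v).1 h)⟩⟩
    have h3 : ((univ \ Sal : Finset W).card : ℝ) ≤ Xb.card * δ := by
      calc ((univ \ Sal : Finset W).card : ℝ)
          ≤ ((Xb.biUnion (fun x => univ.filter (fun y => ¬ G.Adj x y))).card : ℝ) := by
            exact_mod_cast card_le_card h2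
        _ ≤ ((∑ x ∈ Xb, (univ.filter (fun y => ¬ G.Adj x y)).card : ℕ) : ℝ) := by
            exact_mod_cast card_biUnion_le
        _ = ∑ x ∈ Xb, ((univ.filter (fun y => ¬ G.Adj x y)).card : ℝ) := by
            push_cast
            rfl
        _ ≤ ∑ x ∈ Xb, δ := sum_le_sum (fun x _ => hng x)
        _ = Xb.card * δ := by rw [sum_const, nsmul_eq_mul]
    have h4 : (univ \ Sal : Finset W).card + Sal.card = Fintype.card W := by
      rw [card_sdiff_add_card_eq_card (subset_univ _), card_univ]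
    have h5 : ((univ \ Sal : Finset W).card : ℝ) + Sal.card = N := by
      rw [hN]
      exact_mod_cast h4
    linarith
  have hcard : ((q : ℝ) + 2) * δ ≤ Sal.card := by
    have h2 : ((Xb.card : ℝ) + q + 2) ≤ a := by exact_mod_cast hq
    nlinarith
  have hsumlt : ∀ T : Finset W, T.Nonempty → ∑ v : W, D (a : ℝ) b Gr Gb v T < T.card * N := by
    intro T hT
    rw [sum_D]
    calc ∑ y ∈ T, D (a : ℝ) b Gr Gb y univ < ∑ y ∈ T, N :=
          sum_lt_sum_of_nonempty hT (fun y _ => hcost y)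
      _ = T.card * N := by rw [sum_const, nsmul_eq_mul]
  have hs0 : ∑ v ∈ Sal, (D (a : ℝ) b Gr Gb v Fp - 2 * a) < δ * (a * (Fp.card - 2 * a)) := by
    calc ∑ v ∈ Sal, (D (a : ℝ) b Gr Gb v Fp - 2 * a)
        ≤ ∑ v : W, (D (a : ℝ) b Gr Gb v Fp - 2 * a) :=
          sum_le_sum_of_subset_of_nonneg (subset_univ _) (fun v _ _ => by linarith [h0 v])
      _ < δ * (a * (Fp.card - 2 * a)) := by
        have h2 : δ * (a * (Fp.card - 2 * a)) = N * (Fp.card - 2 * a) := by
          rw [← mul_assoc, hδa]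
        rw [sum_sub_distrib, sum_const, nsmul_eq_mul, card_univ, h2]
        have := hsumlt Fp hFp
        rw [← hN]
        linarith
  have hs1 : ∑ v ∈ Sal, (D (a : ℝ) b Gr Gb v S - (a + b)) < δ * (a * (S.card - (a + b))) := by
    calc ∑ v ∈ Sal, (D (a : ℝ) b Gr Gb v S - (a + b))
        ≤ ∑ v : W, (D (a : ℝ) b Gr Gb v S - (a + b)) :=
          sum_le_sum_of_subset_of_nonneg (subset_univ _) (fun v _ _ => by linarith [h1 v])
      _ < δ * (a * (S.card - (a + b))) := by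
        have h2 : δ * (a * (S.card - (a + b))) = N * (S.card - (a + b)) := by
          rw [← mul_assoc, hδa]
        rw [sum_sub_distrib, sum_const, nsmul_eq_mul, card_univ, h2]
        have := hsumlt S hS
        rw [← hN]
        linarith
  obtain ⟨U, hU1, hU2, hU3, hU4, hU5⟩ := TwoCon.two_constraint (G := G) hδ0 hNA hcard
    (d0 := fun v => D (a : ℝ) b Gr Gb v Fp - 2 * a)
    (d1 := fun v => D (a : ℝ) b Gr Gb v S - (a + b))
    (fun v _ => by linarith [h0 v]) (fun v _ => by linarith [h1 v]) hs0 hs1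
  exact ⟨U, hU1, hU2, fun u hu v hv huv => (hG u v).1 (hU3 u hu v hv huv), hU4, hU5⟩

/-- dropping the most expensive picks -/
theorem drop_count {f : W → ℕ} {U0 U1 : Finset W} (h1 : U1 ⊆ U0) {γ p A B : ℕ}
    (hU0 : U0.card = p + γ) (hU1 : U1.card = p)
    (hmin : ∀ u ∈ U1, ∀ v ∈ U0, v ∉ U1 → f u ≤ f v) (hA : A + 1 + γ ≤ B)
    (hsum : ∑ u ∈ U0, f u + A + 1 ≤ B + 2 * (p + γ)) :
    ∑ u ∈ U1, f u + A + 1 + γ ≤ B + 2 * p := by
  by_cases hcase : ∃ v ∈ U0, v ∉ U1 ∧ f v ≤ 2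
  · obtain ⟨v, hv, hvU, hfv⟩ := hcase
    have h2 : ∑ u ∈ U1, f u ≤ ∑ u ∈ U1, 2 :=
      sum_le_sum (fun u hu => (hmin u hu v hv hvU).trans hfv)
    rw [sum_const, smul_eq_mul, hU1] at h2
    omega
  · push Not at hcase
    have h2 : ∑ u ∈ U0 \ U1, 3 ≤ ∑ u ∈ U0 \ U1, f u := by
      apply sum_le_sum
      intro u hu
      rw [mem_sdiff] at hu
      have := hcase u hu.1 hu.2
      omega
    rw [sum_const, smul_eq_mul] at h2
    have h3 : (U0 \ U1).card = γ := by
      have := card_sdiff_add_card_eq_card h1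
      omega
    have h4 : ∑ u ∈ U0 \ U1, f u + ∑ u ∈ U1, f u = ∑ u ∈ U0, f u := sum_sdiff h1
    rw [h3] at h2
    omega

theorem mem_image_of {α β : Type} {inst : DecidableEq β} {f : α → β} {U : Finset α} {i : β}
    (h : i ∈ @Finset.image α β inst f U) : ∃ v ∈ U, f v = i := Finset.mem_image.1 h

/-- **Few red pairs: outside picks.** -/
theorem conf_outside [Nonempty W] {a b : ℕ} (ha : 0 < a) (hab : a ≤ b) (hb : b ≤ 2 * a)
    (hcost : ∀ v : W, D (a : ℝ) b Gr Gb v univ < Fintype.card W) (hB : Best Gr Gb F)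
    {s r γ : ℕ} (hr : (RR Gb F).card = 2 * r) (hrs : r ≤ s) (hs : s + γ + 2 ≤ a)
    (hγ : a + γ ≤ b) {M : ℕ → ℕ → Prop} (hM : ∀ i, M i i) :
    ∃ (U F' K K2 Sv : Finset W) (occ θ : W → ℕ),
      Conf Gr Gb M s 0 γ (2 * (a - s) + 1 + γ) (a + b + 1 - s) U F' K K2 Sv occ θ := by
  obtain ⟨Xb, mt, hT⟩ := exists_trans hB.good
  have hXb : Xb.card = r := by
    have := hT.card_RR
    omega
  have hXF : Xb ⊆ F := hT.sub.trans (RR_sub F)
  obtain ⟨K2, _, hK2V, hK2cl, hK2max⟩ := exists_max_clique Gb (A := VV Gr Gb F) (K0 := ∅)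
    (empty_subset _) (by simp)
  set A : Finset W := univ.filter (fun v => v ∉ F ∧ (∀ y ∈ F, Gb.Adj v y) ∧
    ∀ x ∈ Xb, Gr.Adj v x) with hA
  have hK2A : K2 ⊆ A := by
    intro z hz
    obtain ⟨h1, h2, h3, h4⟩ := mem_VV.1 (hK2V hz)
    refine mem_filter.2 ⟨mem_univ _, h1, h3, fun x hx => ?_⟩
    by_contra hcon
    exact Finset.disjoint_left.1 h4 (mem_hit.2 ⟨hXF hx, fun h => hcon h.1⟩) (hT.sub hx)
  obtain ⟨K, hK2K, hKA, hKcl, hKmax⟩ := exists_max_clique Gb hK2A hK2cl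
  have hFne : F.Nonempty := by
    obtain ⟨v⟩ := ‹Nonempty W›
    by_cases hv : v ∈ F
    · exact ⟨v, hv⟩
    · obtain ⟨y, hy⟩ := hB.no_zero hv
      exact ⟨y, (mem_hit.1 hy).1⟩
  have haR : (0 : ℝ) < a := by exact_mod_cast ha
  have habR : (a : ℝ) ≤ b := by exact_mod_cast hab
  have hbR : (b : ℝ) ≤ 2 * a := by exact_mod_cast hb
  have hF1 : 2 * a + 1 ≤ F.card := by
    have h := card_gt_of_D hcost (hB.D_two haR.le habR) hFne
    have : 2 * a < F.card := by exact_mod_cast h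
    omega
  have hKF : Disjoint F K := by
    rw [Finset.disjoint_right]
    exact fun z hz => (mem_filter.1 (hKA hz)).2.1
  have hFK2 : Disjoint F K2 := disjoint_of_subset_right hK2K hKF
  have hF2 : a + b + 1 ≤ F.card + K2.card := by
    have h := card_gt_of_D hcost (hB.D_K2 haR.le habR hbR hK2max hK2V)
      (hFne.mono subset_union_left)
    rw [card_union_of_disjoint hFK2] at h
    have : a + b < F.card + K2.card := by exact_mod_cast h
    omega
  -- the reserved part of `K2`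
  obtain ⟨Kb, hKb2, hKb⟩ := exists_subset_card_eq (s := K2) (n := 2 * a + 1 + γ - F.card)
    (by omega)
  set Fp := F ∪ Kb with hFp
  have hFKb : Disjoint F Kb := disjoint_of_subset_right hKb2 hFK2
  have hFpc : Fp.card = F.card + Kb.card := card_union_of_disjoint hFKb
  set S := F ∪ K with hS
  have hSc : S.card = F.card + K.card := card_union_of_disjoint hKF
  have hK2c : K2.card ≤ K.card := card_le_card hK2K
  set Sal : Finset W := univ.filter (fun v => ∀ x ∈ Xb, Gn Gr Gb x v) with hSal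
  obtain ⟨U0, hU0S, hU0c, hU0cl, hU0a, hU0b⟩ := exists_picks (Gr := Gr) (Gb := Gb) ha hab hcost
    (Fp := Fp) (S := S) (q := s - r + γ) hSal (by omega)
    (fun v => (hB.D_two haR.le habR v).trans (D_mono haR.le habR v subset_union_left))
    (fun v => (hB.D_K2 haR.le habR hbR hK2max hK2V v).trans
      (D_mono haR.le habR v (union_subset_union_right hK2K)))
    (hFne.mono subset_union_left) (hFne.mono subset_union_left)
  obtain ⟨U1, hU1, hU1c, hU1min⟩ := exists_cheapest (fun u => (hit Gr Gb u Fp).card) (s - r) γ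
    U0 hU0c
  -- the kills on `Fp`
  have hkill : ∑ u ∈ U1, (hit Gr Gb u Fp).card + 2 * a + 1 + γ ≤ Fp.card + 2 * (s - r) := by
    apply drop_count hU1 hU0c hU1c hU1min
    · omega
    · have h1 : ∑ u ∈ U0, ((a : ℝ) * (hit Gr Gb u Fp).card - 2 * a) <
          a * (Fp.card - 2 * a) := by
        refine lt_of_le_of_lt (sum_le_sum (fun u _ => ?_)) hU0a
        have := D_ge_card (Gr := Gr) (Gb := Gb) haR.le habR u Fp
        linarith
      rw [sum_sub_distrib, ← mul_sum, sum_const, nsmul_eq_mul, hU0c] at h1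
      have h2 : (a : ℝ) * (∑ u ∈ U0, ((hit Gr Gb u Fp).card : ℝ) + 2 * a) <
          a * (Fp.card + 2 * ((s - r + γ : ℕ) : ℝ)) := by linarith
      have h3 := lt_of_mul_lt_mul_left h2 haR.le
      have h4 : ∑ u ∈ U0, (hit Gr Gb u Fp).card + 2 * a < Fp.card + 2 * (s - r + γ) := by
        exact_mod_cast h3
      omega
  have hU1Sal : ∀ u ∈ U1, ∀ x ∈ Xb, Gn Gr Gb x u := fun u hu =>
    (mem_filter.1 (hU0S (hU1 hu))).2
  have hU1Xb : Disjoint Xb U1 := by
    rw [Finset.disjoint_left]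
    exact fun x hx hx' => not_gn_self x (hU1Sal x hx' x hx)
  set U := Xb ∪ U1 with hU
  have hUc : U.card = s := by
    rw [hU, card_union_of_disjoint hU1Xb]
    omega
  have hUcl : ∀ u ∈ U, ∀ v ∈ U, u ≠ v → Gn Gr Gb u v := by
    intro u hu v hv huv
    rcases mem_union.1 hu with h1 | h1 <;> rcases mem_union.1 hv with h2 | h2
    · exact hT.green h1 h2 huv
    · exact hU1Sal v h2 u h1
    · exact (hU1Sal u h1 v h2).symm
    · exact hU0cl u (hU1 h1) v (hU1 h2) huv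
  obtain ⟨occ0, hocc0, hocc0lt⟩ := exists_occ hUc
  -- hits outside the transversal
  set S0 := S \ Xb with hS0
  have hXS : Xb ⊆ S := hXF.trans subset_union_left
  have hS0c : S0.card + r = S.card := by
    have := card_sdiff_add_card_eq_card hXS
    rw [hXb] at this
    exact this
  -- `S0` is a blue clique
  have hS0cl : ∀ x ∈ S0, ∀ y ∈ S0, x ≠ y → Gb.Adj x y := by
    intro x hx y hy hxy
    rw [hS0, mem_sdiff, hS, mem_union] at hx hy
    rcases hx with ⟨hx1 | hx1, hx2⟩ <;> rcases hy with ⟨hy1 | hy1, hy2⟩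
    · by_contra hcon
      have hxR : x ∈ RR Gb F := mem_filter.2 ⟨hx1, y, hy1, Ne.symm hxy, hcon⟩
      obtain ⟨k1, k2, k3, k4, k5, k6⟩ := hT.mate x hxR
      by_cases hym : y = mt x
      · exact hy2 (hym ▸ hT.out x hxR hx2)
      · exact hcon (k5 y hy1 (Ne.symm hxy) hym).2
    · exact ((mem_filter.1 (hKA hy1)).2.2.1 x hx1).symm
    · exact (mem_filter.1 (hKA hx1)).2.2.1 y hy1
    · exact hKcl x hx1 y hy1 hxy
  -- vertices of `S0` nongreen to the transversal
  have hXbhit : ∀ x ∈ Xb, ∀ y ∈ S0, ¬ Gn Gr Gb x y → y = mt x := by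
    intro x hx y hy hxy
    rw [hS0, mem_sdiff, hS, mem_union] at hy
    obtain ⟨hy1 | hy1, hy2⟩ := hy
    · obtain ⟨k1, k2, k3, k4, k5, k6⟩ := hT.mate x (hT.sub hx)
      by_contra hcon
      exact hxy (k5 y hy1 (fun h => hy2 (h ▸ hx)) hcon)
    · exfalso
      have h1 := (mem_filter.1 (hKA hy1)).2
      exact hxy ⟨(h1.2.2 x hx).symm, (h1.2.1 x (hXF hx)).symm⟩
  have hmtS0 : ∀ x ∈ Xb, mt x ∈ S0 := by
    intro x hx
    rw [hS0, mem_sdiff, hS, mem_union]
    exact ⟨Or.inl (RR_sub F (hT.mate x (hT.sub hx)).1), hT.mt_out hx⟩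
  set Free : W → Prop := fun u => ∃ y ∈ S0, ¬ Gb.Adj u y ∧ ¬ Gr.Adj u y with hFree
  have hXbfree : ∀ x ∈ Xb, ¬ Free x := by
    rintro x hx ⟨y, hy, h1, h2⟩
    have := hXbhit x hx y hy (fun h => h1 h.2)
    rw [this] at h2
    exact h2 (hT.mate x (hT.sub hx)).2.2.2.1
  set c : W → ℤ := fun u => if u ∈ Xb then 0 else
    if Free u then ((hit Gr Gb u S0).card : ℤ) else ((hit Gr Gb u S0).card : ℤ) - 1 with hc
  -- a nonfree pick outside `Xb` is outside `S`
  have hnotS0 : ∀ u, ¬ Free u → u ∉ S0 := by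
    intro u hu huS
    exact hu ⟨u, huS, Gb.irrefl, Gr.irrefl⟩
  have hred : ∀ u ∈ U, ¬ Free u → ∃ y ∈ hit Gr Gb u S0, Gr.Adj u y ∧ ¬ Gb.Adj u y := by
    intro u hu hfr
    by_cases huX : u ∈ Xb
    · obtain ⟨k1, k2, k3, k4, k5, k6⟩ := hT.mate u (hT.sub huX)
      exact ⟨mt u, mem_hit.2 ⟨hmtS0 u huX, fun h => k3 h.2⟩, k4, k3⟩
    · have hu1 : u ∈ U1 := (mem_union.1 hu).resolve_left huX
      have huS0 := hnotS0 u hfr
      have huS : u ∉ S := fun h => huS0 (mem_sdiff.2 ⟨h, huX⟩)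
      rw [hS, mem_union, not_or] at huS
      by_contra hcon
      push Not at hcon
      have hball : ∀ y ∈ S0, Gb.Adj u y := by
        intro y hy
        by_contra hby
        have hgy : Gr.Adj u y := by
          by_contra hgy
          exact hfr ⟨y, hy, hby, hgy⟩
        exact hby (hcon y (mem_hit.2 ⟨hy, fun h => hby h.2⟩) hgy)
      have huA : u ∈ A := by
        refine mem_filter.2 ⟨mem_univ _, huS.1, fun y hy => ?_, fun x hx => ?_⟩
        · by_cases hyX : y ∈ Xb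
          · exact (hU1Sal u hu1 y hyX).2.symm
          · exact hball y (mem_sdiff.2 ⟨mem_union_left _ hy, hyX⟩)
        · exact (hU1Sal u hu1 x hx).1.symm
      obtain ⟨z, hz, huz⟩ := hKmax u huA huS.2
      refine huz (hball z (mem_sdiff.2 ⟨mem_union_right _ hz, fun h => ?_⟩))
      exact Finset.disjoint_left.1 hKF (hXF h) hz
  obtain ⟨occ, hocc, hocc2, Sv, θ, hSvY, hθ, hθ2, hSv, hsave⟩ := Saving.saving (H := fun u =>
    hit Gr Gb u S0) (U := U) (rd := fun u y => Gr.Adj u y) (bl := fun u y => Gb.Adj u y) (M := M)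
    (occ0 := occ0) hocc0 hM (c := c) (Free := Free)
    (by
      intro u hu
      simp only [hc]
      by_cases huX : u ∈ Xb
      · rw [if_pos huX]
        have h1 : hit Gr Gb u S0 ⊆ {mt u} := by
          intro y hy
          rw [mem_hit] at hy
          exact mem_singleton.2 (hXbhit u huX y hy.1 hy.2)
        have h2 := card_le_card h1
        rw [card_singleton] at h2
        omega
      · rw [if_neg huX]
        split_ifs <;> omega)
    (by
      intro u hu hfr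
      simp only [hc]
      rw [if_neg (fun h => hXbfree u h hfr), if_pos hfr])
    (by
      intro u hu hfr y hy
      rw [mem_hit] at hy
      by_contra hcon
      rw [not_or] at hcon
      exact hfr ⟨y, hy.1, hcon.2, hcon.1⟩)
    (by
      intro u hu hfr
      obtain ⟨y, hy, h1, _⟩ := hred u hu hfr
      exact ⟨y, hy, h1⟩)
    (by
      intro T hTU hTfr
      have hTF : ∀ u ∈ T \ Xb, u ∉ F := by
        intro u hu h
        rw [mem_sdiff] at hu
        exact hnotS0 u (hTfr u hu.1) (mem_sdiff.2 ⟨mem_union_left _ h, hu.2⟩)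
      have h1 := hB.hall hT (T := T \ Xb) (Y := (T \ Xb).biUnion (fun u => hit Gr Gb u F))
        (fun u hu v hv huv => hUcl u (hTU (mem_sdiff.1 hu).1) v (hTU (mem_sdiff.1 hv).1) huv)
        hTF (fun u hu y hy hng => mem_biUnion.2 ⟨u, hu, mem_hit.2 ⟨hy, hng⟩⟩)
        (by
          intro y hy
          obtain ⟨u, _, hy2⟩ := mem_biUnion.1 hy
          exact (mem_hit.1 hy2).1)
      have h2 : ((T \ Xb).biUnion (fun u => hit Gr Gb u F) \ Xb.image mt) ∪
          (T ∩ Xb).image mt ⊆ T.biUnion (fun u => hit Gr Gb u S0) := by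
        intro y hy
        rw [mem_biUnion]
        rcases mem_union.1 hy with hy | hy
        · rw [mem_sdiff, mem_biUnion] at hy
          obtain ⟨⟨u, hu, hy1⟩, _⟩ := hy
          rw [mem_hit] at hy1
          rw [mem_sdiff] at hu
          refine ⟨u, hu.1, mem_hit.2 ⟨mem_sdiff.2 ⟨mem_union_left _ hy1.1, fun h => ?_⟩, hy1.2⟩⟩
          have huU1 : u ∈ U1 := (mem_union.1 (hTU hu.1)).resolve_left hu.2
          exact hy1.2 (hU1Sal u huU1 y h).symm
        · obtain ⟨x, hx, rfl⟩ := mem_image.1 hy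
          rw [mem_inter] at hx
          exact ⟨x, hx.1, mem_hit.2 ⟨hmtS0 x hx.2,
            fun h => (hT.mate x (hT.sub hx.2)).2.2.1 h.2⟩⟩
      have h3 := card_le_card h2
      rw [card_union_of_disjoint, hT.card_image (inter_subset_right.trans hT.sub)] at h3
      · have h4 := card_sdiff_add_card_inter T Xb
        omega
      · rw [Finset.disjoint_left]
        intro y hy hy'
        obtain ⟨x, hx, rfl⟩ := mem_image.1 hy'
        exact (mem_sdiff.1 hy).2 (mem_image_of_mem mt (mem_inter.1 hx).2))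
  -- the costs
  have hcost1 : ∑ u ∈ U, c u + (a + b) + 1 ≤ (S.card : ℤ) + (s - r) := by
    have h1 : ∑ u ∈ U, c u = ∑ u ∈ U1, c u := by
      rw [hU, sum_union hU1Xb]
      have : ∑ u ∈ Xb, c u = 0 := by
        apply sum_eq_zero
        intro u hu
        simp only [hc]
        rw [if_pos hu]
      rw [this, zero_add]
    have h2 : ∀ u ∈ U1, (a : ℝ) * ((c u : ℝ) - 1) ≤ D (a : ℝ) b Gr Gb u S - (a + b) := by
      intro u hu
      have huX : u ∉ Xb := fun h => Finset.disjoint_left.1 hU1Xb h hu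
      have hHS : ((hit Gr Gb u S0).card : ℝ) ≤ (hit Gr Gb u S).card := by
        exact_mod_cast card_le_card (hit_mono (hS0 ▸ sdiff_subset))
      by_cases hfr : Free u
      · have hcu : (c u : ℝ) = (hit Gr Gb u S0).card := by
          simp only [hc]
          rw [if_neg huX, if_pos hfr]
          push_cast
          rfl
        obtain ⟨y, hy, hy1, hy2⟩ := hfr
        have h3 := D_ge_one (Gr := Gr) (Gb := Gb) haR.le habR (v := u) (S := S)
          (mem_sdiff.1 hy).1 (c := b) (fun h => hy1 h.2) (by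
            have := mat_none (a := (a : ℝ)) (b := b) hy1 hy2
            linarith)
        rw [hcu]
        nlinarith
      · have hcu : (c u : ℝ) = (hit Gr Gb u S0).card - 1 := by
          simp only [hc]
          rw [if_neg huX, if_neg hfr]
          push_cast
          rfl
        obtain ⟨y, hy, hy1, hy2⟩ := hred u (mem_union_right _ hu) hfr
        have h3 := D_ge_one (Gr := Gr) (Gb := Gb) haR.le habR (v := u) (S := S)
          (mem_sdiff.1 (mem_hit.1 hy).1).1 (c := (b : ℝ) - a) (fun h => hy2 h.2) (by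
            have := mat_ge_b (b := (b : ℝ)) (Gr := Gr) haR.le hy2
            linarith)
        rw [hcu]
        nlinarith
    have h3 : ∑ u ∈ U1, (a : ℝ) * ((c u : ℝ) - 1) < a * (S.card - (a + b)) := by
      refine lt_of_le_of_lt (sum_le_sum h2) (lt_of_le_of_lt ?_ hU0b)
      apply sum_le_sum_of_subset_of_nonneg hU1
      intro v _ _
      have := (hB.D_K2 haR.le habR hbR hK2max hK2V v).trans
        (D_mono haR.le habR v (union_subset_union_right hK2K (s := F)))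
      linarith
    rw [← mul_sum, sum_sub_distrib, sum_const, nsmul_eq_mul, mul_one, hU1c] at h3
    have h4 := lt_of_mul_lt_mul_left h3 haR.le
    have h5 : (∑ u ∈ U1, c u : ℤ) - ((s - r : ℕ) : ℤ) < (S.card : ℤ) - (a + b) := by
      exact_mod_cast h4
    rw [h1]
    push_cast [Nat.cast_sub hrs] at h5
    linarith
  -- the final sets
  set F' := (F \ RR Gb F).filter (fun y => ∀ u ∈ U, Gn Gr Gb u y) with hF'
  set K' := K.filter (fun y => ∀ u ∈ U, Gn Gr Gb u y) with hK'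
  set K2' := Kb.filter (fun y => ∀ u ∈ U, Gn Gr Gb u y) with hK2'
  have hF'F : F' ⊆ F := (filter_subset _ _).trans sdiff_subset
  have hF'S0 : F' ⊆ S0 := by
    intro y hy
    rw [hF', mem_filter, mem_sdiff] at hy
    exact mem_sdiff.2 ⟨mem_union_left _ hy.1.1, fun h => hy.1.2 (hT.sub h)⟩
  have hK'S0 : K' ⊆ S0 := by
    intro y hy
    rw [hK', mem_filter] at hy
    exact mem_sdiff.2 ⟨mem_union_right _ hy.1,
      fun h => Finset.disjoint_left.1 hKF (hXF h) hy.1⟩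
  have hSvS0 : Sv ⊆ S0 := by
    intro y hy
    obtain ⟨u, _, h⟩ := mem_biUnion.1 (hSvY hy)
    exact (mem_hit.1 h).1
  have hSvhit : ∀ y ∈ Sv, ∃ u ∈ U, ¬ Gn Gr Gb u y := by
    intro y hy
    obtain ⟨u, hu, h⟩ := mem_biUnion.1 (hSvY hy)
    exact ⟨u, hu, (mem_hit.1 h).2⟩
  have hRRF' : RR Gb F' = ∅ := by
    rw [eq_empty_iff_forall_notMem]
    intro x hx
    exact (mem_sdiff.1 (mem_filter.1 (RR_sub F' hx)).1).2 (RR_mono hF'F hx)
  have hU1F : ∀ u ∈ U, ∀ y ∈ F, y ∈ F \ RR Gb F → u ∈ Xb → Gn Gr Gb u y := by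
    intro u hu y hy hyR huX
    obtain ⟨k1, k2, k3, k4, k5, k6⟩ := hT.mate u (hT.sub huX)
    refine k5 y hy (fun h => ?_) (fun h => ?_)
    · rw [h] at hyR
      exact (mem_sdiff.1 hyR).2 (hT.sub huX)
    · rw [h] at hyR
      exact (mem_sdiff.1 hyR).2 k1
  refine ⟨U, F', K', K2', Sv, occ, θ, ?_⟩
  constructor
  · exact hUc
  · exact hocc
  · intro u hu
    obtain ⟨v, hv, hvu⟩ := mem_image_of (hocc2 u hu)
    rw [← hvu]
    exact hocc0lt v hv
  · exact hθ
  · intro y hy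
    obtain ⟨v, hv, hvu⟩ := mem_image_of (hθ2 y hy)
    rw [← hvu]
    exact hocc0lt v hv
  · exact hB.good.mono hF'F
  · rw [hRRF']
    simp
  · exact hUcl
  · exact fun u hu y hy => (mem_filter.1 hy).2 u hu
  · exact fun u hu y hy => (mem_filter.1 hy).2 u hu
  · intro u hu y hy
    by_cases hg : Gn Gr Gb u y
    · exact ⟨fun _ => hg.1, fun _ => hg.2⟩
    · exact hSv y hy u hu (mem_hit.2 ⟨hSvS0 hy, hg⟩)
  · intro z hz y hy
    exact (mem_filter.1 (hKA (mem_filter.1 hz).1)).2.2.1 y (hF'F hy)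
  · intro z hz y hy hzy
    exact hKcl z (mem_filter.1 hz).1 y (mem_filter.1 hy).1 hzy
  · intro z hz y hy
    refine hS0cl z (hSvS0 hz) y (hF'S0 hy) (fun h => ?_)
    obtain ⟨u, hu, hng⟩ := hSvhit z hz
    rw [h] at hng
    exact hng ((mem_filter.1 hy).2 u hu)
  · intro z hz y hy
    refine hS0cl z (hSvS0 hz) y (hK'S0 hy) (fun h => ?_)
    obtain ⟨u, hu, hng⟩ := hSvhit z hz
    rw [h] at hng
    exact hng ((mem_filter.1 hy).2 u hu)
  · exact fun z hz y hy hzy => hS0cl z (hSvS0 hz) y (hSvS0 hy) hzy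
  · intro z hz
    rw [hK2', mem_filter] at hz
    exact mem_filter.2 ⟨hK2K (hKb2 hz.1), hz.2⟩
  · intro z hz
    obtain ⟨h1, h2, h3, h4⟩ := mem_VV.1 (hK2V (hKb2 (mem_filter.1 hz).1))
    refine ⟨(card_le_card (hit_mono hF'F)).trans h2.le, ?_⟩
    rw [hRRF']
    exact disjoint_empty_right _
  · -- first count
    have h1 : Fp \ (RR Gb F ∪ U1.biUnion (fun u => hit Gr Gb u Fp)) ⊆ F' ∪ K2' := by
      intro y hy
      obtain ⟨hy1, hy2⟩ := mem_sdiff.1 hy
      rw [mem_union, not_or] at hy2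
      obtain ⟨hy2, hy3⟩ := hy2
      have hy4 : ∀ u ∈ U1, Gn Gr Gb u y := by
        intro u hu
        by_contra hcon
        exact hy3 (mem_biUnion.2 ⟨u, hu, mem_hit.2 ⟨hy1, hcon⟩⟩)
      rw [mem_union]
      rcases mem_union.1 hy1 with h | h
      · left
        refine mem_filter.2 ⟨mem_sdiff.2 ⟨h, hy2⟩, fun u hu => ?_⟩
        by_cases huX : u ∈ Xb
        · exact hU1F u hu y h (mem_sdiff.2 ⟨h, hy2⟩) huX
        · exact hy4 u ((mem_union.1 hu).resolve_left huX)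
      · right
        refine mem_filter.2 ⟨h, fun u hu => ?_⟩
        by_cases huX : u ∈ Xb
        · have h5 := (mem_filter.1 (hK2A (hKb2 h))).2
          exact ⟨(h5.2.2 u huX).symm, (h5.2.1 u (hXF huX)).symm⟩
        · exact hy4 u ((mem_union.1 hu).resolve_left huX)
    have h2 := card_le_card h1
    have h3 := card_union_le F' K2'
    have h4 := le_card_sdiff (RR Gb F ∪ U1.biUnion (fun u => hit Gr Gb u Fp)) Fp
    have h5 := card_union_le (RR Gb F) (U1.biUnion (fun u => hit Gr Gb u Fp))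
    have h6 : (U1.biUnion (fun u => hit Gr Gb u Fp)).card ≤ ∑ u ∈ U1, (hit Gr Gb u Fp).card :=
      card_biUnion_le
    have h7 : K2'.card ≤ Kb.card := card_le_card (filter_subset _ _)
    have h8 : min γ K2'.card = K2'.card := by omega
    rw [h8]
    omega
  · -- second count
    have h1 : S0 \ U.biUnion (fun u => hit Gr Gb u S0) ⊆ F' ∪ K' := by
      intro y hy
      rw [mem_sdiff] at hy
      obtain ⟨hy1, hy2⟩ := hy
      have hy3 : ∀ u ∈ U, Gn Gr Gb u y := by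
        intro u hu
        by_contra hcon
        exact hy2 (mem_biUnion.2 ⟨u, hu, mem_hit.2 ⟨hy1, hcon⟩⟩)
      rw [hS0, mem_sdiff, hS, mem_union] at hy1
      rw [mem_union]
      obtain ⟨h | h, hyX⟩ := hy1
      · left
        refine mem_filter.2 ⟨mem_sdiff.2 ⟨h, fun hR => ?_⟩, hy3⟩
        have h5 := hT.out y hR hyX
        obtain ⟨k1, k2, k3, k4, k5, k6⟩ := hT.mate y hR
        exact k3 (hy3 (mt y) (mem_union_left _ h5)).2.symm
      · exact Or.inr (mem_filter.2 ⟨h, hy3⟩)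
    have h2 := card_le_card h1
    have h3 := card_union_le F' K'
    have h4 := le_card_sdiff (U.biUnion (fun u => hit Gr Gb u S0)) S0
    have h5 := card_sdiff_add_card_eq_card hSvY
    have h6 : ((((U.biUnion (fun u => hit Gr Gb u S0)) \ Sv).card : ℕ) : ℤ) + (a + b) + 1 ≤
        (S.card : ℤ) + (s - r) := by linarith
    omega

end L1

end Pool.Agent.Lib.MP_a05470_co
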