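import Pool.Agent.Lib.MP_a05470_co.TF.LevEx

/-!
# Certificates at all levels
-/

set_option autoImplicit false
set_option linter.unusedSectionVars false

namespace Pool.Agent.Lib.MP_a05470_co

open Finset Classical JF

namespace LV

variable {W : Type} [Fintype W] {Gr Gb : SimpleGraph W}

/-- general version of `cheap_family` -/
theorem cheap_gen {A B : ℝ} (hG : Cheap A B Gr Gb) (F : Finset (Finset W)) (w : Finset W → ℝ)
    (hw : ∀ C ∈ F, 0 ≤ w C) {ω : ℝ} (hω : 0 ≤ ω) (K' : Finset W) {c : ℝ} (hc : 0 < c)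
    (hne : ∀ C ∈ F, C.Nonempty)
    (h : ∀ v, c ≤ ∑ C ∈ F, w C * tau A B Gr Gb v C / C.card + ω * ∑ z ∈ K', Mat A B Gr Gb z v) :
    c < ∑ C ∈ F, w C + ω * K'.card := by
  have h1 := hG (fun x => ∑ C ∈ F, (if x ∈ C then w C / C.card else 0) +
    (if x ∈ K' then ω else 0)) c (by
      intro x
      apply add_nonneg
      · apply sum_nonneg
        intro C hC
        split_ifs
        · exact div_nonneg (hw C hC) (by positivity)
        · exact le_rfl
      · split_ifs
        · exact hω
        · exact le_rfl) hc (by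
      intro v
      refine (h v).trans (le_of_eq ?_)
      simp_rw [add_mul, sum_mul]
      rw [sum_add_distrib, sum_comm]
      congr 1
      · apply sum_congr rfl
        intro C _
        unfold tau
        rw [mul_div_right_comm, mul_sum, ← sum_filter_add_sum_filter_not univ (fun x => x ∈ C)]
        rw [sum_eq_zero (s := univ.filter (fun x => ¬ x ∈ C)), add_zero]
        · rw [filter_mem_eq_inter, univ_inter]
          apply sum_congr rfl
          intro x hx
          rw [if_pos hx]
        · intro x hx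
          rw [mem_filter] at hx
          rw [if_neg hx.2, zero_mul]
      · rw [mul_sum, ← sum_filter_add_sum_filter_not univ (fun x => x ∈ K')]
        rw [sum_eq_zero (s := univ.filter (fun x => ¬ x ∈ K')), add_zero]
        · rw [filter_mem_eq_inter, univ_inter]
          apply sum_congr rfl
          intro x hx
          rw [if_pos hx]
        · intro x hx
          rw [mem_filter] at hx
          rw [if_neg hx.2, zero_mul])
  refine lt_of_lt_of_eq h1 ?_
  rw [sum_add_distrib, sum_comm]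
  congr 1
  · apply sum_congr rfl
    intro C hC
    rw [← sum_filter, filter_mem_eq_inter, univ_inter, sum_const, nsmul_eq_mul]
    have h0 : (C.card : ℝ) ≠ 0 := by
      have := card_pos.2 (hne C hC)
      positivity
    field_simp
  · rw [← sum_filter, filter_mem_eq_inter, univ_inter, sum_const, nsmul_eq_mul]
    ring

section weights

variable (Gr Gb)

/-- the weight of a box at level `k` -/
noncomputable def ww (Sp : Finset (Finset W)) (k : ℕ) (C : Finset W) : ℝ :=
  if BB Gr Gb C then 2 * k else (k : ℝ) + (if C ∈ Sp ∨ k < C.card then 1 else 0)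

/-- the cost of `v` with respect to `C` at level `k` -/
noncomputable def cost (A B : ℝ) (Sp : Finset (Finset W)) (k : ℕ) (v : W) (C : Finset W) : ℝ :=
  ww Gr Gb Sp k C * tau A B Gr Gb v C / C.card

/-- the number of units of `v` in `C` -/
noncomputable def un (v : W) (C : Finset W) : ℕ :=
  if BB Gr Gb C then (C \ gp Gr Gb v C).card else (if gp Gr Gb v C = ∅ then 1 else 0)

/-- the boxes which are neither blue pairs nor completely hit -/
noncomputable def part (F : Finset (Finset W)) (v : W) : Finset (Finset W) :=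
  F.filter (fun C => ¬ BB Gr Gb C ∧ gp Gr Gb v C ≠ ∅)

/-- the class of cheap vertices -/
structure VV (A G : ℝ) (F Sp : Finset (Finset W)) (v : W) : Prop where
  out : ∀ C ∈ F, v ∉ C
  two : ∑ C ∈ F, un Gr Gb v C = 2
  blue : ∀ C ∈ F, un Gr Gb v C ≠ 0 → ∀ x ∈ C, Gb.Adj v x
  sp : ∀ C ∈ Sp, gp Gr Gb v C = C
  part : ∑ C ∈ part Gr Gb F v, tau A (A + G) Gr Gb v C / C.card < G / 2

end weights

section costs

variable {A G : ℝ} {v : W} {C : Finset W} {k : ℕ} {F Sp : Finset (Finset W)}

theorem ww_nonneg : 0 ≤ ww Gr Gb Sp k C := by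
  unfold ww
  split_ifs <;> positivity

theorem ww_ge : (k : ℝ) ≤ ww Gr Gb Sp k C := by
  have hk : (0 : ℝ) ≤ k := by positivity
  unfold ww
  split_ifs <;> linarith

theorem ww_BB (h : BB Gr Gb C) : ww Gr Gb Sp k C = 2 * k := by
  unfold ww
  rw [if_pos h]

theorem ww_big (h : ¬ BB Gr Gb C) (h' : C ∈ Sp ∨ k < C.card) : ww Gr Gb Sp k C = k + 1 := by
  unfold ww
  rw [if_neg h, if_pos h']

theorem ww_small (h : ¬ BB Gr Gb C) (h' : ¬ (C ∈ Sp ∨ k < C.card)) : ww Gr Gb Sp k C = k := by
  unfold ww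
  rw [if_neg h, if_neg h', add_zero]

theorem cc_le_ww (hk : 1 ≤ k) : cc Gr Gb k C ≤ ww Gr Gb Sp k C := by
  have hk' : (1 : ℝ) ≤ k := by exact_mod_cast hk
  by_cases h : BB Gr Gb C
  · rw [cc_big (Or.inr h), ww_BB h]
    linarith
  · by_cases h' : k < C.card
    · rw [cc_big (Or.inl h'), ww_big h (Or.inr h')]
    · rw [cc_not (by rintro (h1 | h1) <;> contradiction)]
      exact ww_ge

theorem cost_nonneg (hA : 0 ≤ A) (hG : 0 ≤ G) : 0 ≤ cost Gr Gb A (A + G) Sp k v C :=
  div_nonneg (mul_nonneg ww_nonneg (tau_nonneg hA hG)) (by positivity)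

theorem qq_le_cost (hA : 0 ≤ A) (hG : 0 ≤ G) (hk : 1 ≤ k) :
    qq A (A + G) Gr Gb k v C ≤ cost Gr Gb A (A + G) Sp k v C := by
  unfold qq cost
  apply div_le_div_of_nonneg_right _ (by positivity)
  exact mul_le_mul_of_nonneg_right (cc_le_ww hk) (tau_nonneg hA hG)

theorem le_cost {t : ℝ} (hC : C.Nonempty)
    (h : t * C.card ≤ ww Gr Gb Sp k C * tau A (A + G) Gr Gb v C) :
    t ≤ cost Gr Gb A (A + G) Sp k v C := by
  unfold cost
  rw [le_div_iff₀ (by exact_mod_cast card_pos.2 hC)]
  exact h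

theorem card_sdiff_gp : ((C \ gp Gr Gb v C).card : ℝ) = (C.card : ℝ) - (gp Gr Gb v C).card := by
  rw [card_sdiff_of_subset (gp_subset v C), Nat.cast_sub (card_le_card (gp_subset v C))]

theorem tau_all (hA : 0 ≤ A) (hG : 0 ≤ G) (h : gp Gr Gb v C = ∅) :
    A * C.card ≤ tau A (A + G) Gr Gb v C := by
  have h1 := tau_ge_ng (Gr := Gr) (Gb := Gb) (v := v) (C := C) hA hG
  rw [h, card_empty] at h1
  push_cast at h1
  linarith

/-- the basic bound -/
theorem cost_un (hA : 0 ≤ A) (hG : 0 ≤ G) (hC : C.Nonempty) :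
    (k : ℝ) * A * un Gr Gb v C ≤ cost Gr Gb A (A + G) Sp k v C := by
  have hk : (0 : ℝ) ≤ k := by positivity
  by_cases h : BB Gr Gb C
  · apply le_cost hC
    rw [ww_BB h, h.card]
    unfold un
    rw [if_pos h, card_sdiff_gp]
    have h1 := tau_ge_ng (Gr := Gr) (Gb := Gb) (v := v) (C := C) hA hG
    have h2 := mul_le_mul_of_nonneg_left h1 hk
    push_cast
    linarith
  · unfold un
    rw [if_neg h]
    by_cases h' : gp Gr Gb v C = ∅
    · rw [if_pos h']
      apply le_cost hC
      have h1 := tau_all (Gr := Gr) (Gb := Gb) (v := v) hA hG h'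
      have h2 := mul_le_mul_of_nonneg_left h1 hk
      have h3 := mul_le_mul_of_nonneg_right (ww_ge (Gr := Gr) (Gb := Gb) (Sp := Sp) (k := k)
        (C := C)) (tau_nonneg (Gr := Gr) (Gb := Gb) (v := v) (C := C) hA hG)
      push_cast
      linarith
    · rw [if_neg h']
      push_cast
      rw [mul_zero]
      exact cost_nonneg hA hG

/-- a unit with a nonblue hit costs `G` more -/
theorem cost_nonblue (hA : 0 ≤ A) (hG : 0 ≤ G) (hGA : G ≤ A) (hk : 1 ≤ k) {x : W} (hx : x ∈ C)
    (hnb : ¬ Gb.Adj v x) (hun : un Gr Gb v C ≠ 0) :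
    (k : ℝ) * A * un Gr Gb v C + G ≤ cost Gr Gb A (A + G) Sp k v C := by
  have hk' : (1 : ℝ) ≤ k := by exact_mod_cast hk
  have hC : C.Nonempty := ⟨x, hx⟩
  have hbp : (bp Gb v C).card + 1 ≤ C.card := by
    have h1 : bp Gb v C ⊆ C.erase x := by
      intro y hy
      rw [mem_bp] at hy
      refine mem_erase.2 ⟨?_, hy.1⟩
      rintro rfl
      exact hnb hy.2
    have h2 := card_le_card h1
    rw [card_erase_of_mem hx] at h2
    have := card_pos.2 hC
    omega
  have hbp' : ((bp Gb v C).card : ℝ) + 1 ≤ C.card := by exact_mod_cast hbp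
  have h1 := tau_ge' (Gr := Gr) (Gb := Gb) (G := G) (v := v) (C := C) hA
  have h4 : G ≤ G * ((C.card : ℝ) - (bp Gb v C).card) := by nlinarith
  by_cases h : BB Gr Gb C
  · apply le_cost hC
    rw [ww_BB h]
    unfold un
    rw [if_pos h, card_sdiff_gp]
    have hc : (C.card : ℝ) = 2 := by exact_mod_cast h.card
    have h2 : (k : ℝ) * (A * ((C.card : ℝ) - (gp Gr Gb v C).card) + G) ≤
        k * tau A (A + G) Gr Gb v C :=
      mul_le_mul_of_nonneg_left (by linarith) (by linarith)
    have h5 : G ≤ k * G := by nlinarith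
    rw [hc] at h2 ⊢
    linarith
  · have h' : gp Gr Gb v C = ∅ := by
      by_contra h'
      apply hun
      unfold un
      rw [if_neg h, if_neg h']
    unfold un
    rw [if_neg h, if_pos h']
    rw [h', card_empty] at h1
    push_cast at h1 ⊢
    have hcp : (1 : ℝ) ≤ C.card := by exact_mod_cast card_pos.2 hC
    by_cases hb : C ∈ Sp ∨ k < C.card
    · apply le_cost hC
      rw [ww_big h hb]
      have h3 : A * C.card ≤ tau A (A + G) Gr Gb v C := by linarith
      have h6 := mul_le_mul_of_nonneg_left h3 (by linarith : (0 : ℝ) ≤ (k : ℝ) + 1)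
      have h7 : G * C.card ≤ A * C.card := mul_le_mul_of_nonneg_right hGA (by linarith)
      linarith
    · apply le_cost hC
      rw [ww_small h hb]
      have h3 : (C.card : ℝ) ≤ k := by
        have : C.card ≤ k := by
          by_contra hcon
          exact hb (Or.inr (by omega))
        exact_mod_cast this
      have h6 : (k : ℝ) * (A * C.card + G) ≤ k * tau A (A + G) Gr Gb v C :=
        mul_le_mul_of_nonneg_left (by linarith) (by linarith)
      have h7 : G * C.card ≤ G * k := mul_le_mul_of_nonneg_left h3 hG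
      linarith

/-- a special pair which is not completely green -/
theorem cost_special (hA : 0 ≤ A) (hG : 0 ≤ G) (hk : 1 ≤ k) (hC : C ∈ Sp)
    (hspc : RB Gr Gb C ∧ C.card = 2) (h : gp Gr Gb v C ≠ C) :
    (k : ℝ) * A * un Gr Gb v C + A ≤ cost Gr Gb A (A + G) Sp k v C := by
  have hk' : (1 : ℝ) ≤ k := by exact_mod_cast hk
  apply le_cost hspc.1.1
  rw [ww_big hspc.1.not_BB (Or.inl hC)]
  unfold un
  rw [if_neg hspc.1.not_BB]
  have hc : (C.card : ℝ) = 2 := by exact_mod_cast hspc.2
  have h1 := tau_ge_ng (Gr := Gr) (Gb := Gb) (v := v) (C := C) hA hG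
  by_cases h' : gp Gr Gb v C = ∅
  · rw [if_pos h']
    rw [h', card_empty, hc] at h1
    push_cast at h1
    have h2 := mul_le_mul_of_nonneg_left h1 (by linarith : (0 : ℝ) ≤ (k : ℝ) + 1)
    rw [hc]
    push_cast
    linarith
  · rw [if_neg h']
    have h3 : (gp Gr Gb v C).card < C.card := by
      apply card_lt_card
      rw [Finset.ssubset_iff_subset_ne]
      exact ⟨gp_subset v C, h⟩
    have h4 : ((gp Gr Gb v C).card : ℝ) + 1 ≤ 2 := by
      have : (gp Gr Gb v C).card + 1 ≤ 2 := by omega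
      exact_mod_cast this
    rw [hc] at h1
    have h5 : A ≤ tau A (A + G) Gr Gb v C := by nlinarith
    have h2 := mul_le_mul_of_nonneg_left h5 (by linarith : (0 : ℝ) ≤ (k : ℝ) + 1)
    rw [hc]
    push_cast
    nlinarith

/-- boxes which are neither blue pairs nor completely hit -/
theorem cost_part (hA : 0 ≤ A) (hG : 0 ≤ G) (hk : 1 ≤ k) (hbox : RB Gr Gb C)
    (h : gp Gr Gb v C ≠ ∅) :
    (k : ℝ) * A * un Gr Gb v C + 2 * (tau A (A + G) Gr Gb v C / C.card) ≤
      cost Gr Gb A (A + G) Sp k v C := by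
  have hk' : (1 : ℝ) ≤ k := by exact_mod_cast hk
  unfold un
  rw [if_neg hbox.not_BB, if_neg h]
  have hcp : (0 : ℝ) < C.card := by exact_mod_cast card_pos.2 hbox.1
  by_cases h2 : 2 ≤ ww Gr Gb Sp k C
  · apply le_cost hbox.1
    have h3 := mul_le_mul_of_nonneg_right h2 (tau_nonneg (Gr := Gr) (Gb := Gb) (v := v) (C := C)
      hA hG)
    push_cast
    have h4 : (k * A * 0 + 2 * (tau A (A + G) Gr Gb v C / C.card)) * C.card =
        2 * tau A (A + G) Gr Gb v C := by
      field_simp
      ring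
    rw [h4]
    exact h3
  · -- then `k = 1` and the box is a single vertex
    have h3 : ¬ (C ∈ Sp ∨ k < C.card) := by
      intro h'
      apply h2
      rw [ww_big hbox.not_BB h']
      linarith
    rw [ww_small hbox.not_BB h3] at h2
    have h4 : k = 1 := by
      by_contra hcon
      apply h2
      have : 2 ≤ k := by omega
      exact_mod_cast this
    subst h4
    have h5 : C.card = 1 := by
      have := card_pos.2 hbox.1
      by_contra hcon
      exact h3 (Or.inr (by omega))
    have h6 : gp Gr Gb v C = C := by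
      apply eq_of_subset_of_card_le (gp_subset v C)
      rw [h5]
      exact card_pos.2 (nonempty_iff_ne_empty.2 h)
    have h7 : tau A (A + G) Gr Gb v C = 0 := by
      unfold tau
      apply sum_eq_zero
      intro x hx
      rw [← h6, mem_gp] at hx
      unfold Mat
      rw [if_pos hx.2.1.symm, if_pos hx.2.2.symm, add_zero]
    rw [h7, zero_div]
    push_cast
    have := cost_nonneg (Gr := Gr) (Gb := Gb) (Sp := Sp) (k := 1) (v := v) (C := C) hA hG
    linarith

/-- the cost of a vertex of a box -/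
theorem cost_mem (hA : 0 ≤ A) (hG : 0 ≤ G) (hk : 1 ≤ k) (hbox : Box Gr Gb C) (hv : v ∈ C) :
    (k : ℝ) * (A + G) + A ≤ cost Gr Gb A (A + G) Sp k v C := by
  have hk' : (1 : ℝ) ≤ k := by exact_mod_cast hk
  rcases hbox with h | h
  · exact (qq_RB hA hG h hv hk).trans (qq_le_cost hA hG hk)
  · apply le_cost ⟨v, hv⟩
    rw [ww_BB h]
    have hc : (C.card : ℝ) = 2 := by exact_mod_cast h.card
    have h1 := tau_none (Gr := Gr) (Gb := Gb) (G := G) hA hv (Gr.irrefl) (Gb.irrefl)
    obtain ⟨h2, h3⟩ := h.gp_empty hv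
    rw [h2, card_empty, hc] at h1
    have h4 : ((bp Gb v C).card : ℝ) ≤ 1 := by exact_mod_cast h3
    push_cast at h1
    have h5 : 3 * A + G ≤ tau A (A + G) Gr Gb v C := by nlinarith
    have h6 := mul_le_mul_of_nonneg_left h5 (by linarith : (0 : ℝ) ≤ (k : ℝ))
    rw [hc]
    nlinarith

/-- a red box, all hits nonblue -/
theorem cost_allnonblue (hA : 0 ≤ A) (hbox : RB Gr Gb C)
    (h : ∀ x ∈ C, ¬ Gb.Adj v x) :
    ww Gr Gb Sp k C * (A + G) ≤ cost Gr Gb A (A + G) Sp k v C := by
  apply le_cost hbox.1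
  have h1 : (A + G) * C.card ≤ tau A (A + G) Gr Gb v C := by
    unfold tau
    rw [mul_comm, ← nsmul_eq_mul]
    apply card_nsmul_le_sum
    intro x hx
    exact mat_nonblue hA (fun h' => h x hx h'.symm)
  have h2 := mul_le_mul_of_nonneg_left h1 (ww_nonneg (Gr := Gr) (Gb := Gb) (Sp := Sp) (k := k)
    (C := C))
  linarith

/-- a small red box, all hits nonblue, one hit missing both colours -/
theorem cost_allnonblue_none (hA : 0 ≤ A) (hG : 0 ≤ G) (hbox : RB Gr Gb C)
    (h : ∀ x ∈ C, ¬ Gb.Adj v x) (hd : C.card ≤ k) {y : W} (hy : y ∈ C) (hy' : ¬ Gr.Adj v y) :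
    (k : ℝ) * (A + G) + A ≤ cost Gr Gb A (A + G) Sp k v C := by
  apply le_cost hbox.1
  have h1 : (A + G) * C.card + A ≤ tau A (A + G) Gr Gb v C := by
    have h1 := tau_none (Gr := Gr) (Gb := Gb) (G := G) hA hy hy' (h y hy)
    have h2 : gp Gr Gb v C = ∅ := by
      rw [← not_nonempty_iff_eq_empty]
      rintro ⟨x, hx⟩
      rw [mem_gp] at hx
      exact h x hx.1 hx.2.2
    have h3 : bp Gb v C = ∅ := by
      rw [← not_nonempty_iff_eq_empty]
      rintro ⟨x, hx⟩
      rw [mem_bp] at hx
      exact h x hx.1 hx.2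
    rw [h2, h3, card_empty] at h1
    push_cast at h1
    linarith
  have h2 := mul_le_mul_of_nonneg_left h1 (by positivity : (0 : ℝ) ≤ (k : ℝ))
  have h3 := mul_le_mul_of_nonneg_right (ww_ge (Gr := Gr) (Gb := Gb) (Sp := Sp) (k := k)
    (C := C)) (tau_nonneg (Gr := Gr) (Gb := Gb) (v := v) (C := C) hA hG)
  have h4 : (C.card : ℝ) ≤ k := by exact_mod_cast hd
  have h5 := mul_le_mul_of_nonneg_left h4 hA
  linarith

end costs

section certificates

variable {A G : ℝ} {v : W} {k : ℕ} {F Sp : Finset (Finset W)}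

theorem un_ne_zero {C : Finset W} (h : BB Gr Gb C) (h' : gp Gr Gb v C ≠ C) :
    1 ≤ un Gr Gb v C := by
  unfold un
  rw [if_pos h, Nat.one_le_iff_ne_zero, ← Nat.pos_iff_ne_zero, card_pos]
  by_contra hcon
  rw [not_nonempty_iff_eq_empty, sdiff_eq_empty_iff_subset] at hcon
  exact h' (Subset.antisymm (gp_subset v C) hcon)

/-- a vertex with at most one unit: exactly one, a completely red unit -/
theorem Core.le_one (hB : Core Gr Gb F Sp) (hv : ∀ C ∈ F, v ∉ C)
    (h1 : ∑ C ∈ F, un Gr Gb v C ≤ 1) : ∃ C0, Uni Gr Gb F v C0 := by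
  by_cases hne : ∀ C ∈ F, (gp Gr Gb v C).Nonempty
  · exfalso
    have h2 := hB.two v hv hne
    have h3 : (F.filter (fun C => BB Gr Gb C ∧ gp Gr Gb v C ≠ C)).card ≤
        ∑ C ∈ F, un Gr Gb v C := by
      rw [card_eq_sum_ones, sum_filter]
      apply sum_le_sum
      intro C _
      split_ifs with h
      · exact un_ne_zero h.1 h.2
      · exact Nat.zero_le _
    omega
  · push Not at hne
    obtain ⟨C0, hC0, h2⟩ := hne
    have h3 : 1 ≤ un Gr Gb v C0 := by
      by_cases h : BB Gr Gb C0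
      · apply un_ne_zero h
        rw [h2]
        exact ((hB.fam.box C0 hC0).nonempty.ne_empty).symm
      · unfold un
        rw [if_neg h, if_pos h2]
    have h4 : ∀ D ∈ F, D ≠ C0 → un Gr Gb v D = 0 := by
      intro D hD hne
      have h5 : un Gr Gb v C0 + un Gr Gb v D ≤ ∑ C ∈ F, un Gr Gb v C := by
        rw [← sum_pair (Ne.symm hne)]
        apply sum_le_sum_of_subset
        intro X hX
        rw [mem_insert, mem_singleton] at hX
        rcases hX with rfl | rfl
        · exact hC0
        · exact hD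
      omega
    have h5 : ¬ BB Gr Gb C0 := by
      intro h
      have h6 : un Gr Gb v C0 = 2 := by
        unfold un
        rw [if_pos h, h2, sdiff_empty, h.card]
      have h7 : un Gr Gb v C0 ≤ ∑ C ∈ F, un Gr Gb v C :=
        single_le_sum (f := fun C => un Gr Gb v C) (fun _ _ => Nat.zero_le _) hC0
      omega
    have h6 : RB Gr Gb C0 := by
      rcases hB.fam.box C0 hC0 with h | h
      · exact h
      · exact absurd h h5
    refine ⟨C0, hv, hC0, h6, h2, ?_, ?_⟩
    · intro D hD hne
      have h7 := h4 D hD hne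
      by_contra hcon
      rw [not_nonempty_iff_eq_empty] at hcon
      by_cases h : BB Gr Gb D
      · have := un_ne_zero (v := v) h (by
          rw [hcon]
          exact ((hB.fam.box D hD).nonempty.ne_empty).symm)
        omega
      · unfold un at h7
        rw [if_neg h, if_pos hcon] at h7
        omega
    · intro D hD hbb
      by_contra hcon
      have h7 := un_ne_zero hbb hcon
      have h8 := h4 D hD (fun h' => h5 (h' ▸ hbb))
      omega

/-- the main certificate -/
theorem Core.cert (hB : Core Gr Gb F Sp) (hA : 0 ≤ A) (hG : 0 ≤ G) (hGA : G ≤ A) (hk : 1 ≤ k)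
    (hV : ¬ VV Gr Gb A G F Sp v) :
    (k : ℝ) * (A + G) + A ≤ ∑ C ∈ F, cost Gr Gb A (A + G) Sp k v C := by
  have hk' : (1 : ℝ) ≤ k := by exact_mod_cast hk
  have hne : ∀ C ∈ F, C.Nonempty := fun C hC => (hB.fam.box C hC).nonempty
  have hone : ∀ C ∈ F, cost Gr Gb A (A + G) Sp k v C ≤
      ∑ C ∈ F, cost Gr Gb A (A + G) Sp k v C := fun C hC =>
    single_le_sum (f := fun C => cost Gr Gb A (A + G) Sp k v C)
      (fun _ _ => cost_nonneg hA hG) hC
  have htwo : ∀ C ∈ F, ∀ D ∈ F, C ≠ D → cost Gr Gb A (A + G) Sp k v C +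
      cost Gr Gb A (A + G) Sp k v D ≤ ∑ C ∈ F, cost Gr Gb A (A + G) Sp k v C := by
    intro C hC D hD hCD
    rw [← sum_pair hCD]
    apply sum_le_sum_of_subset_of_nonneg
    · intro X hX
      rw [mem_insert, mem_singleton] at hX
      rcases hX with rfl | rfl
      · exact hC
      · exact hD
    · intro _ _ _
      exact cost_nonneg hA hG
  by_cases hvF : ∃ C ∈ F, v ∈ C
  · obtain ⟨C, hC, hvC⟩ := hvF
    exact (cost_mem hA hG hk (hB.fam.box C hC) hvC).trans (hone C hC)
  push Not at hvF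
  -- the general bound
  have hsum : (k : ℝ) * A * ((∑ C ∈ F, un Gr Gb v C : ℕ) : ℝ) ≤
      ∑ C ∈ F, cost Gr Gb A (A + G) Sp k v C := by
    rw [Nat.cast_sum, mul_sum]
    exact sum_le_sum (fun C hC => cost_un hA hG (hne C hC))
  have hextra : ∀ C ∈ F, (k : ℝ) * A * un Gr Gb v C + G ≤ cost Gr Gb A (A + G) Sp k v C →
      (k : ℝ) * A * ((∑ C ∈ F, un Gr Gb v C : ℕ) : ℝ) + G ≤
      ∑ C ∈ F, cost Gr Gb A (A + G) Sp k v C := by
    intro C hC h
    rw [Nat.cast_sum, mul_sum, ← add_sum_erase F _ hC,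
      ← add_sum_erase F (fun C => cost Gr Gb A (A + G) Sp k v C) hC]
    have h2 : ∑ D ∈ F.erase C, (k : ℝ) * A * un Gr Gb v D ≤
        ∑ D ∈ F.erase C, cost Gr Gb A (A + G) Sp k v D :=
      sum_le_sum (fun D hD => cost_un hA hG (hne D (mem_erase.1 hD).2))
    linarith
  rcases Nat.lt_or_ge (∑ C ∈ F, un Gr Gb v C) 2 with hU | hU
  · -- at most one unit
    obtain ⟨C0, hC0⟩ := hB.le_one hvF (by omega)
    have h1 : ∀ x ∈ C0, ¬ Gb.Adj v x := fun x hx => hB.nonblue v C0 hC0 x hx
    have h2 := cost_allnonblue (Gr := Gr) (Gb := Gb) (v := v) (G := G) (Sp := Sp) (k := k)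
      hA hC0.rb h1
    by_cases hb : C0 ∈ Sp ∨ k < C0.card
    · rw [ww_big hC0.rb.not_BB hb] at h2
      have := hone C0 hC0.mem
      nlinarith
    · rw [ww_small hC0.rb.not_BB hb] at h2
      have hd : C0.card ≤ k := by
        by_contra hcon
        exact hb (Or.inr (by omega))
      have hSp : C0 ∉ Sp := fun h => hb (Or.inl h)
      by_cases hr : ∀ x ∈ C0, Gr.Adj v x
      · obtain ⟨D, hD, hDC, hDb⟩ := hB.blocked v C0 hC0 hSp hr
        have h3 := htwo C0 hC0.mem D hD (Ne.symm hDC)
        have h4 : A ≤ cost Gr Gb A (A + G) Sp k v D := by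
          rcases hDb with h | ⟨h, h'⟩
          · exact (qq_bad hA hG hk hd h).trans (qq_le_cost hA hG hk)
          · have h5 := cost_special (k := k) (v := v) (G := G) hA hG hk h (hB.spc D h) h'
            have h6 : 0 ≤ (k : ℝ) * A * un Gr Gb v D := by positivity
            linarith
        linarith
      · push Not at hr
        obtain ⟨y, hy, hy'⟩ := hr
        exact (cost_allnonblue_none hA hG hC0.rb h1 hd hy hy').trans (hone C0 hC0.mem)
  · rcases Nat.lt_or_ge 2 (∑ C ∈ F, un Gr Gb v C) with hU3 | hU3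
    · have h3 : (3 : ℝ) ≤ ((∑ C ∈ F, un Gr Gb v C : ℕ) : ℝ) := by exact_mod_cast hU3
      have h4 := mul_le_mul_of_nonneg_left h3 (by positivity : 0 ≤ (k : ℝ) * A)
      nlinarith
    · have hU2 : ∑ C ∈ F, un Gr Gb v C = 2 := le_antisymm hU3 hU
      -- it is enough to find `G` in addition
      suffices h : (k : ℝ) * A * ((∑ C ∈ F, un Gr Gb v C : ℕ) : ℝ) + G ≤
          ∑ C ∈ F, cost Gr Gb A (A + G) Sp k v C by
        rw [hU2] at h
        push_cast at h
        nlinarith [mul_nonneg (sub_nonneg.2 hk') (sub_nonneg.2 hGA)]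
      by_cases hb : ∀ C ∈ F, un Gr Gb v C ≠ 0 → ∀ x ∈ C, Gb.Adj v x
      · by_cases hs : ∀ C ∈ Sp, gp Gr Gb v C = C
        · have hp : G / 2 ≤ ∑ C ∈ part Gr Gb F v, tau A (A + G) Gr Gb v C / C.card := by
            by_contra hcon
            exact hV ⟨hvF, hU2, hb, hs, not_le.1 hcon⟩
          rw [Nat.cast_sum, mul_sum]
          rw [← sum_filter_add_sum_filter_not F (fun C => ¬ BB Gr Gb C ∧ gp Gr Gb v C ≠ ∅),
            ← sum_filter_add_sum_filter_not F (fun C => ¬ BB Gr Gb C ∧ gp Gr Gb v C ≠ ∅)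
              (fun C => cost Gr Gb A (A + G) Sp k v C)]
          have h3 : ∑ C ∈ F.filter (fun C => ¬ (¬ BB Gr Gb C ∧ gp Gr Gb v C ≠ ∅)),
              (k : ℝ) * A * un Gr Gb v C ≤
              ∑ C ∈ F.filter (fun C => ¬ (¬ BB Gr Gb C ∧ gp Gr Gb v C ≠ ∅)),
              cost Gr Gb A (A + G) Sp k v C :=
            sum_le_sum (fun C hC => cost_un hA hG (hne C (mem_filter.1 hC).1))
          have h4 : ∑ C ∈ F.filter (fun C => ¬ BB Gr Gb C ∧ gp Gr Gb v C ≠ ∅),
              ((k : ℝ) * A * un Gr Gb v C + 2 * (tau A (A + G) Gr Gb v C / C.card)) ≤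
              ∑ C ∈ F.filter (fun C => ¬ BB Gr Gb C ∧ gp Gr Gb v C ≠ ∅),
              cost Gr Gb A (A + G) Sp k v C := by
            apply sum_le_sum
            intro C hC
            rw [mem_filter] at hC
            have hRB : RB Gr Gb C := by
              rcases hB.fam.box C hC.1 with h | h
              · exact h
              · exact absurd h hC.2.1
            exact cost_part hA hG hk hRB hC.2.2
          rw [sum_add_distrib] at h4
          have h5 : ∑ C ∈ F.filter (fun C => ¬ BB Gr Gb C ∧ gp Gr Gb v C ≠ ∅),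
              2 * (tau A (A + G) Gr Gb v C / C.card) =
              2 * ∑ C ∈ F.filter (fun C => ¬ BB Gr Gb C ∧ gp Gr Gb v C ≠ ∅),
              tau A (A + G) Gr Gb v C / C.card := by
            rw [mul_sum]
          unfold part at hp
          rw [h5] at h4
          linarith
        · push Not at hs
          obtain ⟨C, hC, hCg⟩ := hs
          apply hextra C (hB.sub hC)
          have := cost_special (k := k) (v := v) (G := G) hA hG hk hC (hB.spc C hC) hCg
          linarith
      · push Not at hb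
        obtain ⟨C, hC, hun, x, hx, hnb⟩ := hb
        exact hextra C hC (cost_nonblue hA hG hGA hk hx hnb hun)

/-- the certificate for cheap vertices -/
theorem Core.cert' (hB : Core Gr Gb F Sp) (hA : 0 ≤ A) (hG : 0 ≤ G)
    (hV : VV Gr Gb A G F Sp v) :
    2 * (k : ℝ) * A ≤ ∑ C ∈ F, cost Gr Gb A (A + G) Sp k v C := by
  have hsum : (k : ℝ) * A * ((∑ C ∈ F, un Gr Gb v C : ℕ) : ℝ) ≤
      ∑ C ∈ F, cost Gr Gb A (A + G) Sp k v C := by
    rw [Nat.cast_sum, mul_sum]
    exact sum_le_sum (fun C hC => cost_un hA hG ((hB.fam.box C hC).nonempty))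
  rw [hV.two] at hsum
  push_cast at hsum
  linarith

end certificates

end LV

end Pool.Agent.Lib.MP_a05470_co
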