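import Pool.Agent.Lib.MP_a05470_co.TF.LevFam

/-!
# Existence of maximal families
-/

set_option autoImplicit false
set_option linter.unusedSectionVars false

namespace Pool.Agent.Lib.MP_a05470_co

open Finset Classical JF

namespace LV

variable {W : Type} [Fintype W] {Gr Gb : SimpleGraph W}

theorem nb_le (F : Finset (Finset W)) : nb Gr Gb F ≤ Fintype.card (Finset W) :=
  (card_filter_le _ _).trans (card_le_univ _)

theorem fam_empty (Gr Gb : SimpleGraph W) : Fam Gr Gb (∅ : Finset (Finset W)) :=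
  ⟨by simp, by simp⟩

theorem exists_best1 (Gr Gb : SimpleGraph W) : ∃ F, Best1 Gr Gb F := by
  set S : Finset (Finset (Finset W)) := univ.filter (fun F => Fam Gr Gb F) with hS
  have hne : S.Nonempty := ⟨∅, by
    rw [hS, mem_filter]
    exact ⟨mem_univ _, fam_empty Gr Gb⟩⟩
  set f : ℕ → Finset (Finset W) → ℕ := fun i F => match i with
    | 0 => beta Gr Gb F
    | 1 => Fintype.card (Finset W) - nb Gr Gb F
    | 2 => nr Gr Gb 2 F
    | _ => 0 with hf
  obtain ⟨F, hF, hmax⟩ := exists_lex_max S hne f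
  rw [hS, mem_filter] at hF
  refine ⟨F, hF.2, ?_, ?_, ?_⟩
  · intro F' hF'
    exact hmax F' (by rw [hS, mem_filter]; exact ⟨mem_univ _, hF'⟩) 0 (by
      intro j hj
      omega)
  · intro F' hF' h1
    have h2 := hmax F' (by rw [hS, mem_filter]; exact ⟨mem_univ _, hF'⟩) 1 (by
      intro j hj
      have : j = 0 := by omega
      subst this
      simp only [hf]
      omega)
    simp only [hf] at h2
    have h3 := nb_le (Gr := Gr) (Gb := Gb) F
    have h4 := nb_le (Gr := Gr) (Gb := Gb) F'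
    omega
  · intro F' hF' h1 h2
    exact hmax F' (by rw [hS, mem_filter]; exact ⟨mem_univ _, hF'⟩) 2 (by
      intro j hj
      have : j = 0 ∨ j = 1 := by omega
      rcases this with rfl | rfl
      · simp only [hf]
        omega
      · simp only [hf]
        omega)

theorem rb_sub {C S : Finset W} (h : RB Gr Gb C) (hS : S ⊆ C) (hne : S.Nonempty) : RB Gr Gb S :=
  ⟨hne, fun x hx y hy => h.2 x (hS hx) y (hS hy)⟩

/-- shrinking `s` red boxes to pairs -/
theorem Best1.shrink {F0 : Finset (Finset W)} (h : Best1 Gr Gb F0) {s : ℕ}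
    (hs : s ≤ nr Gr Gb 2 F0) :
    ∃ F Sp, Best1 Gr Gb F ∧ Sp ⊆ F ∧ Sp.card = s ∧ (∀ C ∈ Sp, RB Gr Gb C ∧ C.card = 2) ∧
      beta Gr Gb F = beta Gr Gb F0 ∧ nb Gr Gb F = nb Gr Gb F0 ∧ nr Gr Gb 2 F = nr Gr Gb 2 F0 := by
  obtain ⟨Sel, hSel, hcard⟩ := exists_subset_card_eq hs
  have hSelF : ∀ C ∈ Sel, C ∈ F0 ∧ RB Gr Gb C ∧ 2 ≤ C.card := by
    intro C hC
    have := hSel hC
    rw [mem_filter] at this
    exact this
  have hch : ∀ C : Finset W, ∃ D ⊆ C, 2 ≤ C.card → D.card = 2 := by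
    intro C
    by_cases h : 2 ≤ C.card
    · obtain ⟨D, hD, hD'⟩ := exists_subset_card_eq h
      exact ⟨D, hD, fun _ => hD'⟩
    · exact ⟨C, subset_refl _, fun h' => absurd h' h⟩
  choose sh hsh hsh2 using hch
  obtain ⟨h1, h1i, h2⟩ := fam_image (Gr := Gr) (Gb := Gb) (I := F0)
    (κ := fun C => if C ∈ Sel then sh C else C)
    (by
      intro C hC
      by_cases h' : C ∈ Sel
      · simp only [if_pos h']
        have h3 := hSelF C h'
        exact Or.inl (rb_sub h3.2.1 (hsh C) (card_pos.1 (by rw [hsh2 C h3.2.2]; norm_num)))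
      · simp only [if_neg h']
        exact h.fam.box C hC)
    (by
      intro C hC D hD hCD x hx y hy
      have hx' : x ∈ C := by
        by_cases h' : C ∈ Sel
        · simp only [if_pos h'] at hx
          exact hsh C hx
        · simpa only [if_neg h'] using hx
      have hy' : y ∈ D := by
        by_cases h' : D ∈ Sel
        · simp only [if_pos h'] at hy
          exact hsh D hy
        · simpa only [if_neg h'] using hy
      exact h.fam.green C hC D hD hCD x hx' y hy')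
  set κ : Finset W → Finset W := fun C => if C ∈ Sel then sh C else C with hκ
  have hFc : (F0.image κ).card = F0.card :=
    card_image_of_injOn (fun C hC D hD h => h1i C hC D hD h)
  have hκR : ∀ C ∈ F0, (RB Gr Gb (κ C) ∧ 2 ≤ (κ C).card ↔ RB Gr Gb C ∧ 2 ≤ C.card) ∧
      (BB Gr Gb (κ C) ↔ BB Gr Gb C) := by
    intro C hC
    by_cases h' : C ∈ Sel
    · have h3 := hSelF C h'
      have h4 : RB Gr Gb (sh C) :=
        rb_sub h3.2.1 (hsh C) (card_pos.1 (by rw [hsh2 C h3.2.2]; norm_num))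
      simp only [hκ, if_pos h']
      refine ⟨⟨fun _ => h3.2, fun _ => ⟨h4, by rw [hsh2 C h3.2.2]⟩⟩, ?_⟩
      exact ⟨fun h5 => absurd h5 h4.not_BB, fun h5 => absurd h5 h3.2.1.not_BB⟩
    · simp only [hκ, if_neg h', and_self]
  have hnr : nr Gr Gb 2 (F0.image κ) = nr Gr Gb 2 F0 := by
    unfold nr
    have h3 := h2 (fun C => RB Gr Gb C ∧ 2 ≤ C.card)
    have h4 : F0.filter (fun C => RB Gr Gb (κ C) ∧ 2 ≤ (κ C).card) =
        F0.filter (fun C => RB Gr Gb C ∧ 2 ≤ C.card) := by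
      apply filter_congr
      intro C hC
      exact (hκR C hC).1
    rw [← h4]
    convert h3
  have hnb : nb Gr Gb (F0.image κ) = nb Gr Gb F0 := by
    unfold nb
    rw [h2 (fun C => BB Gr Gb C)]
    congr 1
    apply filter_congr
    intro C hC
    exact (hκR C hC).2
  have hbeta : beta Gr Gb (F0.image κ) = beta Gr Gb F0 := by
    unfold beta
    rw [hnb, hFc]
  refine ⟨F0.image κ, Sel.image κ, ⟨h1, ?_, ?_, ?_⟩, ?_, ?_, ?_, hbeta, hnb, hnr⟩
  · intro G hG
    rw [hbeta]
    exact h.m0 G hG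
  · intro G hG hb
    rw [hnb]
    exact h.m1 G hG (hb.trans hbeta)
  · intro G hG hb hn
    rw [hnr]
    exact h.m2 G hG (hb.trans hbeta) (hn.trans hnb)
  · exact image_subset_image (fun C hC => (hSelF C hC).1)
  · rw [card_image_of_injOn, hcard]
    intro C hC D hD h'
    exact h1i C (hSelF C hC).1 D (hSelF D hD).1 h'
  · intro C hC
    rw [mem_image] at hC
    obtain ⟨C, hC, rfl⟩ := hC
    have h3 := hSelF C hC
    simp only [hκ, if_pos hC]
    exact ⟨rb_sub h3.2.1 (hsh C) (card_pos.1 (by rw [hsh2 C h3.2.2]; norm_num)), hsh2 C h3.2.2⟩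

theorem Best1.exists_best2 {F0 : Finset (Finset W)} (h : Best1 Gr Gb F0) {s : ℕ}
    (hs : s ≤ nr Gr Gb 2 F0) :
    ∃ F Sp, Best2 Gr Gb F Sp ∧ Sp.card = s := by
  obtain ⟨F1, Sp, hF1, hSp, hcard, hspc, _⟩ := h.shrink hs
  set S : Finset (Finset (Finset W)) := univ.filter (fun F => Best1 Gr Gb F ∧ Sp ⊆ F) with hS
  have hne : S.Nonempty := ⟨F1, by
    rw [hS, mem_filter]
    exact ⟨mem_univ _, hF1, hSp⟩⟩
  obtain ⟨F, hF, hmax⟩ := exists_lex_max S hne
    (fun i F => if 3 ≤ i then nr Gr Gb i (F \ Sp) else 0)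
  rw [hS, mem_filter] at hF
  refine ⟨F, Sp, ⟨hF.2.1, hF.2.2, hspc, ?_⟩, hcard⟩
  intro F' hF' hSp' i hi hj
  have h1 := hmax F' (by rw [hS, mem_filter]; exact ⟨mem_univ _, hF', hSp'⟩) i (by
    intro j hji
    by_cases h3 : 3 ≤ j
    · simp only [if_pos h3]
      exact hj j h3 hji
    · simp only [if_neg h3]
      exact le_rfl)
  simp only [if_pos hi] at h1
  exact h1

/-- any two maximal families have the same number of red boxes with two vertices -/
theorem Best1.eq {F F' : Finset (Finset W)} (h : Best1 Gr Gb F) (h' : Best1 Gr Gb F') :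
    beta Gr Gb F = beta Gr Gb F' ∧ nb Gr Gb F = nb Gr Gb F' ∧ nr Gr Gb 2 F = nr Gr Gb 2 F' := by
  have h1 : beta Gr Gb F = beta Gr Gb F' := le_antisymm (h'.m0 F h.fam) (h.m0 F' h'.fam)
  have h2 : nb Gr Gb F = nb Gr Gb F' :=
    le_antisymm (h.m1 F' h'.fam h1.symm) (h'.m1 F h.fam h1)
  exact ⟨h1, h2, le_antisymm (h'.m2 F h.fam h1 h2) (h.m2 F' h'.fam h1.symm h2.symm)⟩

end LV

end Pool.Agent.Lib.MP_a05470_co
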