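import Pool.Agent.Lib.MP_a05470_co.TF.LevCert

/-!
# The inequalities at all levels
-/

set_option autoImplicit false
set_option linter.unusedSectionVars false

namespace Pool.Agent.Lib.MP_a05470_co

open Finset Classical JF

namespace LV

variable {W : Type} [Fintype W] {Gr Gb : SimpleGraph W}

theorem sum_ww {F Sp : Finset (Finset W)} (hbox : ∀ C ∈ F, Box Gr Gb C) (hsub : Sp ⊆ F)
    (hspc : ∀ C ∈ Sp, RB Gr Gb C ∧ C.card = 2) (k : ℕ) :
    ∑ C ∈ F, ww Gr Gb Sp k C = k * beta Gr Gb (F \ Sp) + nr Gr Gb (k + 1) (F \ Sp) +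
      (k + 1) * Sp.card := by
  rw [← sum_sdiff hsub]
  have h1 : ∑ C ∈ Sp, ww Gr Gb Sp k C = (k + 1) * Sp.card := by
    rw [sum_congr rfl (fun C hC => ww_big (hspc C hC).1.not_BB (Or.inl hC)), sum_const,
      nsmul_eq_mul]
    ring
  have h2 : ∀ C ∈ F \ Sp, ww Gr Gb Sp k C = (k : ℝ) + (if BB Gr Gb C then (k : ℝ) else 0) +
      (if RB Gr Gb C ∧ k + 1 ≤ C.card then (1 : ℝ) else 0) := by
    intro C hC
    rw [mem_sdiff] at hC
    rcases hbox C hC.1 with h | h
    · by_cases h' : k < C.card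
      · rw [ww_big h.not_BB (Or.inr h'), if_neg h.not_BB, if_pos ⟨h, h'⟩]
        ring
      · rw [ww_small h.not_BB (by
          rintro (h1 | h1)
          · exact hC.2 h1
          · exact h' h1), if_neg h.not_BB, if_neg (fun h1 => h' h1.2)]
        ring
    · rw [ww_BB h, if_pos h, if_neg (fun h1 => h1.1.not_BB h)]
      ring
  rw [h1, sum_congr rfl h2, sum_add_distrib, sum_add_distrib, sum_const, nsmul_eq_mul,
    ← sum_filter, ← sum_filter, sum_const, sum_const, nsmul_eq_mul, nsmul_eq_mul]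
  unfold beta nb nr
  push_cast
  ring

/-- a maximal blue clique in a set of vertices -/
theorem exists_max_clique (Gb : SimpleGraph W) (P : W → Prop) :
    ∃ K : Finset W, (∀ z ∈ K, P z) ∧ (∀ z ∈ K, ∀ z' ∈ K, z ≠ z' → Gb.Adj z z') ∧
      ∀ v, P v → v ∉ K → ∃ z ∈ K, ¬ Gb.Adj z v := by
  have hne : ((univ : Finset (Finset W)).filter (fun K => (∀ z ∈ K, P z) ∧
      (∀ z ∈ K, ∀ z' ∈ K, z ≠ z' → Gb.Adj z z'))).Nonempty :=
    ⟨∅, by rw [mem_filter]; exact ⟨mem_univ _, by simp, by simp⟩⟩
  obtain ⟨K, hK, hmax⟩ := exists_max_image _ (fun K : Finset W => K.card) hne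
  rw [mem_filter] at hK
  refine ⟨K, hK.2.1, hK.2.2, ?_⟩
  intro v hv hvK
  by_contra hcon
  push Not at hcon
  have h1 := hmax (insert v K) (by
    rw [mem_filter]
    refine ⟨mem_univ _, ?_, ?_⟩
    · intro z hz
      rcases mem_insert.1 hz with rfl | hz
      · exact hv
      · exact hK.2.1 z hz
    · intro z hz z' hz' hzz
      rcases mem_insert.1 hz with h | h <;> rcases mem_insert.1 hz' with h' | h'
      · exact absurd (h.trans h'.symm) hzz
      · rw [h]
        exact (hcon z' h').symm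
      · rw [h']
        exact hcon z h
      · exact hK.2.2 z h z' h' hzz)
  rw [card_insert_of_notMem hvK] at h1
  omega

section ineq

variable {A G : ℝ} {F Sp : Finset (Finset W)} {K : Finset W}

/-- the general inequality -/
theorem Core.level (hB : Core Gr Gb F Sp) (hA : 0 ≤ A) (hG : 0 ≤ G) (hGA : G ≤ A)
    (hcheap : Cheap A (A + G) Gr Gb)
    (hmax : ∀ v, VV Gr Gb A G F Sp v → v ∉ K → ∃ z ∈ K, ¬ Gb.Adj z v) {k : ℕ} (hk : 1 ≤ k)
    {κ c : ℝ} (hκ : 0 ≤ κ) (hc : 0 < c) (hc1 : c ≤ k * (A + G) + A)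
    (hc2 : c ≤ 2 * k * A + κ * (A + G)) :
    c < k * beta Gr Gb (F \ Sp) + nr Gr Gb (k + 1) (F \ Sp) + (k + 1) * Sp.card +
      κ * K.card := by
  have h1 := cheap_gen hcheap F (fun C => ww Gr Gb Sp k C) (fun C _ => ww_nonneg) hκ K hc
    (fun C hC => (hB.fam.box C hC).nonempty) (by
      intro v
      have hcost : ∑ C ∈ F, ww Gr Gb Sp k C * tau A (A + G) Gr Gb v C / C.card =
          ∑ C ∈ F, cost Gr Gb A (A + G) Sp k v C := rfl
      rw [hcost]
      have hKn : 0 ≤ ∑ z ∈ K, Mat A (A + G) Gr Gb z v := sum_nonneg (fun z _ => mat_nonneg hA hG z v)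
      by_cases hV : VV Gr Gb A G F Sp v
      · have h2 := hB.cert' hA hG hV (k := k)
        have h3 : A + G ≤ ∑ z ∈ K, Mat A (A + G) Gr Gb z v := by
          have h4 : ∃ z ∈ K, ¬ Gb.Adj z v := by
            by_cases hvK : v ∈ K
            · exact ⟨v, hvK, Gb.irrefl⟩
            · exact hmax v hV hvK
          obtain ⟨z, hz, hzv⟩ := h4
          exact (mat_nonblue hA hzv).trans
            (single_le_sum (f := fun z => Mat A (A + G) Gr Gb z v)
              (fun z _ => mat_nonneg hA hG z v) hz)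
        have h4 := mul_le_mul_of_nonneg_left h3 hκ
        linarith
      · have h2 := hB.cert hA hG hGA hk hV
        have h3 := mul_nonneg hκ hKn
        linarith)
  rw [sum_ww hB.fam.box hB.sub hB.spc] at h1
  exact h1

/-- level zero -/
theorem Core.zero (hB : Core Gr Gb F Sp) (hA : 0 < A) (hG : 0 ≤ G) (hGA : G ≤ A)
    (hcheap : Cheap A (A + G) Gr Gb) : A + G < beta Gr Gb F := by
  have hne : ∀ C ∈ F, C.Nonempty := fun C hC => (hB.fam.box C hC).nonempty
  have hw : ∀ C, (0 : ℝ) ≤ if BB Gr Gb C then 2 else 1 := by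
    intro C
    split_ifs <;> norm_num
  have hun : ∀ v, ∀ C ∈ F, A * un Gr Gb v C ≤
      (if BB Gr Gb C then 2 else 1) * tau A (A + G) Gr Gb v C / C.card := by
    intro v C hC
    have hcp : (0 : ℝ) < C.card := by exact_mod_cast card_pos.2 (hne C hC)
    rw [le_div_iff₀ hcp]
    by_cases h : BB Gr Gb C
    · have hc : (C.card : ℝ) = 2 := by exact_mod_cast h.card
      unfold un
      rw [if_pos h, if_pos h, card_sdiff_gp]
      have := tau_ge_ng (Gr := Gr) (Gb := Gb) (v := v) (C := C) hA.le hG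
      rw [hc] at this ⊢
      linarith
    · unfold un
      rw [if_neg h, if_neg h]
      by_cases h' : gp Gr Gb v C = ∅
      · rw [if_pos h']
        have := tau_all (Gr := Gr) (Gb := Gb) (v := v) hA.le hG h'
        push_cast
        linarith
      · rw [if_neg h']
        have := tau_nonneg (Gr := Gr) (Gb := Gb) (v := v) (C := C) hA.le hG
        push_cast
        linarith
  have hone : ∀ v, ∀ C ∈ F, (if BB Gr Gb C then 2 else 1) * tau A (A + G) Gr Gb v C / C.card ≤
      ∑ C ∈ F, (if BB Gr Gb C then 2 else 1) * tau A (A + G) Gr Gb v C / C.card := by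
    intro v C hC
    exact single_le_sum
      (f := fun C => (if BB Gr Gb C then 2 else 1) * tau A (A + G) Gr Gb v C / C.card)
      (fun C _ => div_nonneg (mul_nonneg (hw C) (tau_nonneg hA.le hG)) (by positivity)) hC
  have h1 := cheap_gen hcheap F (fun C => if BB Gr Gb C then 2 else 1) (fun C _ => hw C)
    le_rfl ∅ (c := A + G) (by linarith) hne (by
      intro v
      rw [sum_empty, mul_zero, add_zero]
      by_cases hvF : ∃ C ∈ F, v ∈ C
      · obtain ⟨C, hC, hvC⟩ := hvF
        refine le_trans ?_ (hone v C hC)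
        have hcp : (0 : ℝ) < C.card := by exact_mod_cast card_pos.2 (hne C hC)
        rw [le_div_iff₀ hcp]
        rcases hB.fam.box C hC with h | h
        · rw [if_neg h.not_BB]
          have h2 := tau_ge' (Gr := Gr) (Gb := Gb) (G := G) (v := v) (C := C) hA.le
          rw [(h.gp_empty hvC).1, (h.gp_empty hvC).2, card_empty] at h2
          push_cast at h2
          linarith
        · rw [if_pos h]
          have hc : (C.card : ℝ) = 2 := by exact_mod_cast h.card
          have h2 := tau_none (Gr := Gr) (Gb := Gb) (G := G) hA.le hvC (Gr.irrefl) (Gb.irrefl)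
          obtain ⟨h3, h4⟩ := h.gp_empty hvC
          rw [h3, card_empty, hc] at h2
          have h5 : ((bp Gb v C).card : ℝ) ≤ 1 := by exact_mod_cast h4
          push_cast at h2
          rw [hc]
          nlinarith
      push Not at hvF
      rcases Nat.lt_or_ge (∑ C ∈ F, un Gr Gb v C) 2 with hU | hU
      · obtain ⟨C0, hC0⟩ := hB.le_one hvF (by omega)
        refine le_trans ?_ (hone v C0 hC0.mem)
        have hcp : (0 : ℝ) < C0.card := by exact_mod_cast card_pos.2 hC0.rb.1
        rw [le_div_iff₀ hcp, if_neg hC0.rb.not_BB, one_mul]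
        unfold tau
        rw [mul_comm, ← nsmul_eq_mul]
        apply card_nsmul_le_sum
        intro x hx
        exact mat_nonblue hA.le (fun h' => hB.nonblue v C0 hC0 x hx h'.symm)
      · have h2 : A * ((∑ C ∈ F, un Gr Gb v C : ℕ) : ℝ) ≤
            ∑ C ∈ F, (if BB Gr Gb C then 2 else 1) * tau A (A + G) Gr Gb v C / C.card := by
          rw [Nat.cast_sum, mul_sum]
          exact sum_le_sum (fun C hC => hun v C hC)
        have h3 : (2 : ℝ) ≤ ((∑ C ∈ F, un Gr Gb v C : ℕ) : ℝ) := by exact_mod_cast hU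
        nlinarith)
  rw [card_empty] at h1
  have h2 : ∑ C ∈ F, (if BB Gr Gb C then (2 : ℝ) else 1) = beta Gr Gb F := by
    have h3 : ∀ C ∈ F, (if BB Gr Gb C then (2 : ℝ) else 1) = 1 + (if BB Gr Gb C then (1 : ℝ) else 0) := by
      intro C _
      split_ifs <;> norm_num
    rw [sum_congr rfl h3, sum_add_distrib, ← sum_filter]
    unfold beta nb
    simp
  rw [h2] at h1
  simpa using h1

end ineq

end LV

end Pool.Agent.Lib.MP_a05470_co
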