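import Pool.Agent.Lib.MP_a05470_co.NF
import Pool.Agent.Lib.MP_a05470_co.General2

/-!
# The case `b > 2 a`
-/

set_option autoImplicit false
set_option linter.unusedSectionVars false

namespace Pool.Agent.Lib.MP_a05470_co

open Finset Classical

namespace JT

variable {V : Type} [Fintype V] {R : SimpleGraph V}

/-- the crown of the unmatched trivial pieces -/
theorem NF2.crown {a g s g' e t : ℕ} {u w : Fin s → V} {W0 E : Finset V}
    {D : Fin (g' + 1) → Finset V} {d : Fin (g' + 1) → ℕ} (h : NF2 R a g s g' e t u w W0 E D d) :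
    IsCrown R univ (univ.image u) (univ.image w ∪ W0) ∧ (univ.image u).card = s ∧
      (univ.image w ∪ W0).card = s + (g - g') ∧
      (g' = 0 ∨ 2 * (g' + 1) ≤ a - s) := by
  have hnbr : ∀ x ∈ univ.image w ∪ W0, ∀ v, R.Adj x v → ∃ j, v = u j := by
    intro x hx v hadj
    rw [mem_union, mem_image] at hx
    rcases hx with ⟨i, _, rfl⟩ | hx
    · exact h.nbrw i v hadj
    · exact h.nbr0 x hx v hadj
  have hu : ∀ j, u j ∉ univ.image w ∪ W0 := by
    intro j hj
    rw [mem_union, mem_image] at hj
    rcases hj with ⟨i, _, hi⟩ | hj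
    · exact h.uw j i hi.symm
    · exact h.uW0 j hj
  have hinv : ∀ v, ∃ x, ∀ i, v = u i → x = w i := by
    intro v
    by_cases hv : ∃ i, v = u i
    · obtain ⟨i, hi⟩ := hv
      exact ⟨w i, fun j hj => by rw [h.inj_u (hi.symm.trans hj)]⟩
    · exact ⟨v, fun i hi => absurd ⟨i, hi⟩ hv⟩
  choose f hf using hinv
  refine ⟨⟨subset_univ _, subset_univ _, ?_, ?_, ?_, ⟨f, ?_, ?_⟩⟩, ?_, ?_, ?_⟩
  · rw [Finset.disjoint_left]
    intro x hx hx'
    rw [mem_image] at hx
    obtain ⟨i, _, rfl⟩ := hx
    exact hu i hx'
  · intro x hx y hy hadj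
    obtain ⟨j, rfl⟩ := hnbr x hx y hadj
    exact hu j hy
  · intro x hx v _ hadj
    obtain ⟨j, rfl⟩ := hnbr x hx v hadj
    exact mem_image_of_mem u (mem_univ j)
  · intro x hx y hy hxy
    rw [mem_coe, mem_image] at hx hy
    obtain ⟨i, _, rfl⟩ := hx
    obtain ⟨j, _, rfl⟩ := hy
    rw [hf _ i rfl, hf _ j rfl] at hxy
    rw [h.inj_w hxy]
  · intro x hx
    rw [mem_image] at hx
    obtain ⟨i, _, rfl⟩ := hx
    rw [hf _ i rfl]
    exact ⟨mem_union_left _ (mem_image_of_mem w (mem_univ i)), h.adj i⟩
  · rw [card_image_of_injective _ h.inj_u, card_univ, Fintype.card_fin]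
  · rw [card_union_of_disjoint, card_image_of_injective _ h.inj_w, card_univ, Fintype.card_fin]
    · have := h.W0card
      omega
    · rw [Finset.disjoint_left]
      intro x hx
      rw [mem_image] at hx
      obtain ⟨i, _, rfl⟩ := hx
      exact h.wW0 i
  · rcases Nat.eq_zero_or_pos g' with h0 | h0
    · exact Or.inl h0
    · right
      have h1 : ∑ _j : Fin (g' + 1), 2 ≤ ∑ j, d j := sum_le_sum (fun j _ => h.big h0 j)
      rw [sum_const, card_univ, Fintype.card_fin, smul_eq_mul] at h1
      have h2 := h.sum
      omega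

/-- **The reduction to `b ≤ 2 a`.** -/
theorem forces_reduce {a g : ℕ} (hV : Fintype.card V = 2 * a + g + 1)
    (hth : th R univ = a + g + 1)
    (hsmall : ∀ (Y : Finset V) (a' g' : ℕ), 1 ≤ a' → g' ≤ a' → Y.card = 2 * a' + g' + 1 →
      th R Y = a' + g' + 1 → FF (a' : ℝ) ((a' + g' : ℕ) : ℝ) R Y) :
    Forces (a : ℝ) ((a + g : ℕ) : ℝ) R Rᶜ := by
  apply FF.toForces
  rcases Nat.eq_zero_or_pos a with rfl | ha
  · -- no edges
    have hiso : ∀ x y, ¬ R.Adj x y := by
      intro x y hxy
      have h1 : th R {x, y} ≤ 1 := by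
        apply th_clique
        intro p hp q hq hpq
        simp only [mem_insert, mem_singleton] at hp hq
        rcases hp with rfl | rfl <;> rcases hq with rfl | rfl
        · exact absurd rfl hpq
        · exact hxy
        · exact hxy.symm
        · exact absurd rfl hpq
      have h2 : th R (univ \ {x, y}) ≤ (univ \ {x, y}).card := th_le_card _
      have h3 : th R univ ≤ th R {x, y} + th R (univ \ {x, y}) := by
        have := th_union_le (R := R) (X := {x, y}) (Y := univ \ {x, y})
        rwa [union_sdiff_of_subset (subset_univ _)] at this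
      have h4 : (univ \ {x, y}).card + 2 = Fintype.card V := by
        rw [card_sdiff_of_subset (subset_univ _), card_univ, card_pair hxy.ne]
        have : ({x, y} : Finset V).card ≤ Fintype.card V := card_le_univ _
        rw [card_pair hxy.ne] at this
        omega
      omega
    obtain ⟨x⟩ : Nonempty V := by
      rw [← Fintype.card_pos_iff]
      omega
    have h1 : FF ((0 : ℕ) : ℝ) ((0 : ℕ) : ℝ) R {x} :=
      FF.odd (by rw [card_singleton]) (by rw [th_singleton])
    have h2 := h1.addIsos (by simp) (by simp) (univ.erase x) (by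
      rw [Finset.disjoint_singleton_left]
      exact notMem_erase _ _) (fun v _ y _ => hiso v y)
    have h3 : {x} ∪ univ.erase x = (univ : Finset V) := by
      ext v
      simp only [mem_union, mem_singleton, mem_erase, mem_univ, and_true, iff_true]
      exact Classical.em _
    have h4 : (univ.erase x).card = g := by
      rw [card_erase_of_mem (mem_univ x), card_univ]
      omega
    rw [h3, h4] at h2
    convert h2 using 1
    push_cast
    ring
  · by_cases hga : g ≤ a
    · exact hsmall univ a g ha hga (by rw [card_univ, hV]) hth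
    · obtain ⟨s, t, g', A, e, RA, u', P, c, u, w, W0, E, D, d, hN1, hN2, -, -, -⟩ :=
        exists_NF12 hV hth
      obtain ⟨hcr, hU, hW, hg'⟩ := hN2.crown
      have hW0 := hN2.W0card
      have hs : s ≤ a := by
        have := hN2.sum
        omega
      have hthR := th_crown hcr
      set C := univ \ (univ.image u ∪ (univ.image w ∪ W0)) with hC
      have hCc : C.card + (s + (s + (g - g'))) = 2 * a + g + 1 := by
        rw [hC, card_sdiff_of_subset (subset_univ _), card_univ, hV,
          card_union_of_disjoint hcr.disj, hU, hW]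
        have := card_le_univ (univ.image u ∪ (univ.image w ∪ W0))
        rw [card_union_of_disjoint hcr.disj, hU, hW, hV] at this
        omega
      rw [hth, hW] at hthR
      apply FF.crown hcr
      · exact_mod_cast ha
      · have : 2 * a ≤ a + g := by omega
        exact_mod_cast this
      · rw [hU]
        exact_mod_cast hs
      · rw [hW]
        have : s + (g - g') ≤ a + g := by omega
        exact_mod_cast this
      · rw [← hC, hU, hW]
        have e1 : (a : ℝ) - s = ((a - s : ℕ) : ℝ) := by
          rw [Nat.cast_sub hs]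
        have e2 : ((a + g : ℕ) : ℝ) - ((s + (g - g') : ℕ) : ℝ) = ((a - s + g' : ℕ) : ℝ) := by
          rw [← Nat.cast_sub (by omega)]
          congr 1
          omega
        rw [e1, e2]
        rcases Nat.eq_zero_or_pos (a - s) with h0 | h0
        · have hg0 : g' = 0 := by omega
          rw [h0, hg0]
          have := FF.odd (H := R) (C := C) (c := 0) (by omega) (by omega)
          simpa using this
        · exact hsmall C (a - s) g' h0 (by omega) (by omega) (by omega)

end JT

end Pool.Agent.Lib.MP_a05470_co
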